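import Pool.Agent.Lib_helper47.OCN.Lf2

/-!
# MP_aeb124_co: the class X0 (the left part has less than `#K - B` elements), definition

Every right gap up to `b` (the common last gap of the undecided elements) is crossed by exactly
`x` elements of the right part; `e` elements are missing in the left part.
-/

set_option autoImplicit false

namespace Pool.Agent.OCN

variable {V : Type}

/-- the class X0 -/
structure X0 (B : ℕ) (K : Finset V) (R : Rep V) (s0 s b : ℤ) (W e x M : ℕ) : Prop where
  lf : Lf B K R s0 s W
  ge : K.card = B + (Ls K R s).card + e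
  sb : s ≤ b
  zb : ∀ z ∈ Zs K R s, R.hi z = b
  al : ∀ w ∈ K, R.hi w ≤ b
  ex : ∀ p, s ≤ p → p ≤ b → R.N (Ts K R s) p = x
  ir : InjS K R s
  tc : (Ts K R s).card = x + M

end Pool.Agent.OCN
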