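import Pool.Agent.Lib_helper47.OCN.X0c

/-!
# MP_aeb124_co: the class X0 is closed
-/

set_option autoImplicit false

namespace Pool.Agent.OCN

variable {V : Type}

/-- the class X0, with the number `o` of the undecided elements at `e = 0` -/
def X0C (B W nl x M k o : ℕ) : Set (V → V → Prop) :=
  {r | ∃ (K : Finset V) (R : Rep V) (s0 s b : ℤ) (e : ℕ), Loc r K R ∧
    X0 B K R s0 s b W e x M ∧ K.card = k ∧ nl ≤ ua K R.dual (1 - s0) ∧
    (Zs K R s).card = o + e}

/-- the class X0 is closed over every closed class which contains the positions with `e = 0` -/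
theorem x0_closed [Fintype V] {B W nl x M k o : ℕ} {E : Set (V → V → Prop)} (hE : ClosedR B E)
    (ho : k ≤ B + o + 1) (hW : W ≤ o)
    (hX : ∀ (r : V → V → Prop) (K : Finset V) (R : Rep V) (s0 s b : ℤ), Loc r K R →
      X0 B K R s0 s b W 0 x M → K.card = k → nl ≤ ua K R.dual (1 - s0) →
      (Zs K R s).card = o → r ∈ E) :
    ClosedR B (E ∪ X0C B W nl x M k o) := by
  intro r hr
  by_cases hrE : r ∈ E
  · exact Ans.mono (hE r hrE) Set.subset_union_left
  obtain ⟨K, R, s0, s, b, e, h1, h2, h3, h4, h5⟩ := hr.resolve_left hrE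
  rcases Nat.eq_zero_or_pos e with h6 | h6
  · subst h6
    exact absurd (hX r K R s0 s b h1 h2 h3 h4 h5) hrE
  · obtain ⟨e', rfl⟩ : ∃ e', e = e' + 1 := ⟨e - 1, by omega⟩
    intro u v huv h7 h8
    obtain ⟨r', R', s0', s', b', g1, g2, g3, g4, g5, g6, g7⟩ := h2.ans h1
      (Finset.card_pos.1 (by omega)) (by omega) (by omega) huv h7 h8
    exact ⟨r', Or.inr ⟨K, R', s0', s', b', e', g1, g7, h3, by omega, by omega⟩, g2, g3, g4⟩

end Pool.Agent.OCN
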