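import Pool.Agent.Lib_helper47.OCN.SMove

/-!
# MP_aeb124_co: the class S is closed
-/

set_option autoImplicit false

namespace Pool.Agent.OCN

variable {V : Type}

/-- the class S: the corrections are the numbers of elements above (below) the undecided ones -/
structure Sc (B : ℕ) (K : Finset V) (R : Rep V) (s : ℤ) (u d : ℕ) : Prop where
  hc : Hc B K R s u d
  hu : ∀ z ∈ Zs K R s, u ≤ R.U K z
  hd : ∀ z ∈ Zs K R s, d ≤ R.D K z

/-- the class S or terminal -/
def ST (B : ℕ) (K : Finset V) (R : Rep V) : Prop := Term B K R ∨ ∃ s u d, Sc B K R s u d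

theorem Sc.dual {B : ℕ} {K : Finset V} {R : Rep V} {s : ℤ} {u d : ℕ} (h : Sc B K R s u d) :
    Sc B K R.dual (1 - s) d u where
  hc := h.hc.dual
  hu z hz := by
    rw [Zs_dual] at hz
    rw [Rep.U_dual]
    exact h.hd z hz
  hd z hz := by
    rw [Zs_dual] at hz
    rw [Rep.D_dual]
    exact h.hu z hz

theorem ST.dual {B : ℕ} {K : Finset V} {R : Rep V} (h : ST B K R) : ST B K R.dual := by
  rcases h with h | ⟨s, u, d, h⟩
  · exact Or.inl h.dual
  · exact Or.inr ⟨_, _, _, h.dual⟩

/-- without undecided elements the position is terminal -/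
theorem Hc.term {B : ℕ} {K : Finset V} {R : Rep V} {s : ℤ} {eL eT : ℕ}
    (h : Hc B K R s eL eT) (hZ : Zs K R s = ∅) : Term B K R := by
  classical
  have htri : ∀ w ∈ K, w ∈ Ls K R s ∨ w ∈ Ts K R s := by
    intro w hw
    have := R.le w
    rw [mem_Ls, mem_Ts]
    by_cases h3 : R.hi w < s
    · exact Or.inl ⟨hw, h3⟩
    · by_cases h4 : R.lo w < s
      · have : w ∈ Zs K R s := mem_Zs.2 ⟨hw, h4, by omega⟩
        rw [hZ] at this
        exact absurd this (Finset.notMem_empty _)
      · exact Or.inr ⟨hw, by omega⟩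
  intro u hu v hv _ h1 _
  rcases htri u hu with hL | hT
  · left
    have h9 : (Ts K R s).card ≤ R.U K u := by
      unfold Rep.U
      refine Finset.card_le_card fun b hb => ?_
      rw [mem_Ts] at hb
      rw [mem_Ls] at hL
      rw [Finset.mem_filter]
      unfold Rep.rel
      exact ⟨hb.1, by omega⟩
    have := h.gT
    omega
  · rcases htri v hv with hL' | hT'
    · -- then `v` is below `u`
      right
      exfalso
      rename_i h2
      apply h2
      rw [mem_Ls] at hL'
      rw [mem_Ts] at hT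
      unfold Rep.rel
      omega
    · right
      have h9 : (Ls K R s).card ≤ R.D K v := by
        unfold Rep.D
        refine Finset.card_le_card fun b hb => ?_
        rw [mem_Ls] at hb
        rw [mem_Ts] at hT'
        rw [Finset.mem_filter]
        unfold Rep.rel
        exact ⟨hb.1, by omega⟩
      have := h.gL
      omega

/-- the class S is closed -/
theorem st_closed [Fintype V] (B : ℕ) : ClosedR (V := V) B (Cls (ST B)) := by
  rintro r ⟨K, R, hr, hT⟩ x y hxy h1 h2
  rcases hT with hT | ⟨s, u, d, hS⟩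
  · exact Ans.mono (G := Cls (Term B)) (term_ans hr hT)
      (by rintro r ⟨K, R, h3, h4⟩; exact ⟨K, R, h3, Or.inl h4⟩) x y hxy h1 h2
  by_cases hZ : Zs K R s = ∅
  · exact Ans.mono (G := Cls (Term B)) (term_ans hr (hS.hc.term hZ))
      (by rintro r ⟨K, R, h3, h4⟩; exact ⟨K, R, h3, Or.inl h4⟩) x y hxy h1 h2
  have hZne := Finset.nonempty_iff_ne_empty.2 hZ
  obtain ⟨r', R', s', h3⟩ := exists_mv (s := s) hr hZne hxy h1 h2
  have hmono := h3.rel_mono hr
  refine ⟨r', ⟨K, R', h3.loc, Or.inr ⟨s', u, d, h3.hc hS.hc, fun z hz => ?_, fun z hz => ?_⟩⟩,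
    h3.mono, h3.pair, ?_⟩
  · have hz' := h3.zs hz
    exact (hS.hu z hz').trans (Rep.U_mono hmono (mem_Zs.1 hz').1)
  · have hz' := h3.zs hz
    exact (hS.hd z hz').trans (Rep.D_mono hmono (mem_Zs.1 hz').1)
  · have hZp := Finset.card_pos.2 hZne
    have hcard := card_LTZ K R s
    have hgL := hS.hc.gL
    have hgT := hS.hc.gT
    rcases h3.cost with ⟨p, h4, h5, z, h6, h7⟩ | ⟨p, h4, h5, z, h6, h7⟩ | ⟨z, h4, h5⟩ | ⟨z, h4, h5⟩
    · have := hS.hc.nL p h4 h5
      have := hS.hu z h6
      omega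
    · have := hS.hc.nT p h4 h5
      have := hS.hd z h6
      omega
    · omega
    · omega

end Pool.Agent.OCN
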