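import Pool.Agent.Lib_helper47.OCN.T1Att
import Pool.Agent.Lib_helper47.OCN.SClass

/-!
# MP_aeb124_co: the class T1 is closed
-/

set_option autoImplicit false

namespace Pool.Agent.OCN

variable {V : Type} [Fintype V] {B : ℕ} {K : Finset V} {R : Rep V} {s : ℤ} {W d : ℕ}

/-- an attack inside of the right part -/
theorem T1.attTT (h : T1 B K R s W d) {r : V → V → Prop} (hr : Loc r K R) {x y : V}
    (hxy : x ≠ y) (hx : x ∈ Ts K R s) (hy : y ∈ Ts K R s) (h1 : ¬ R.rel x y)
    (h2 : ¬ R.rel y x) :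
    ∃ (r' : V → V → Prop) (R' : Rep V), Loc r' K R' ∧ (∀ a b, r a b → r' a b) ∧
      r' x y ∧ newP r r' ≤ B ∧ T1 B K R' s W d := by
  classical
  obtain ⟨h, hM⟩ := h
  obtain ⟨hxK, hx1⟩ := mem_Ts.1 hx
  obtain ⟨hyK, hy1⟩ := mem_Ts.1 hy
  have hlex := R.le x
  have hley := R.le y
  obtain ⟨p, hp⟩ : ∃ p, p = max (R.lo x) (R.lo y) := ⟨_, rfl⟩
  have hpx : R.lo x ≤ p := by rw [hp]; exact le_max_left _ _
  have hpy : R.lo y ≤ p := by rw [hp]; exact le_max_right _ _
  have hcx : R.Cr x p := by
    refine ⟨hpx, ?_⟩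
    unfold Rep.rel at h1
    rw [hp]
    exact max_le hlex (by omega)
  have hcy : R.Cr y p := by
    refine ⟨hpy, ?_⟩
    unfold Rep.rel at h2
    rw [hp]
    exact max_le (by omega) hley
  have hps : s ≤ p := hx1.trans hpx
  have hne : ∀ w ∈ Zs K R s, w ≠ x ∧ w ≠ y := fun w hw => by
    have := (mem_Zs.1 hw).2.1
    constructor
    · rintro rfl
      omega
    · rintro rfl
      omega
  by_cases hin : ∃ z ∈ Zs K R s, p ≤ R.hi z
  · -- a gap which an undecided element crosses
    obtain ⟨z1, hz1, hz1p⟩ := hin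
    obtain ⟨z0, hz0, hmax⟩ := Finset.exists_max_image (Zs K R s) R.hi ⟨z1, hz1⟩
    have hz0p : p ≤ R.hi z0 := hz1p.trans (hmax z1 hz1)
    obtain ⟨hz0K, hz01, hz02⟩ := mem_Zs.1 hz0
    obtain ⟨r1, g1, g2, g3, g4⟩ := op_cut hr p x y hxy hxK hyK hcx hcy
    obtain ⟨R1, hR1⟩ : ∃ R1, R1 = R.cut p x y hxy hcx hcy := ⟨_, rfl⟩
    rw [← hR1] at g1
    have hZ1 : Zs K R1 s = Zs K R s := by
      rw [hR1, Zs_cutR K R s p x y hxy hcx hcy hps,
        Finset.erase_eq_of_notMem (fun hyZ => (hne y hyZ).2 rfl)]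
    have hT1 : Ts K R1 s = Ts K R s := by
      rw [hR1, Ts_cutR K R s p x y hxy hcx hcy hps hyK, Finset.insert_eq_of_mem hy]
    have hL1 : Ls K R1 s = Ls K R s := by
      rw [hR1]
      exact Ls_cutR K R s p x y hxy hcx hcy hps
    have hD1 : ∀ w ∈ Zs K R s, R1.D K w = R.D K w := fun w hw => by
      rw [hR1]
      exact D_cut_Z K R s p x y hxy hcx hcy hps hw (hne w hw).2
    have hhi1 : ∀ w ∈ Zs K R s, p ≤ R.hi w → R1.hi w = R.hi w + 1 := fun w hw hwp => by
      rw [hR1]
      exact hi_cut_ge R p x y hxy hcx hcy w (hne w hw).1 hwp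
    have hhi1' : ∀ w, R.hi w < p → R1.hi w = R.hi w := fun w hwp => by
      rw [hR1]
      exact hi_cut_lt R p x y hxy hcx hcy w hwp
    have hU1 : ∀ w ∈ Zs K R s, p ≤ R.hi w → R1.U K w = R.U K w := fun w hw hwp => by
      rw [hR1]
      exact U_cut_ge K R p x y hxy hcx hcy w (hne w hw).1 hwp
    have hU1' : ∀ w, R.hi w < p → R1.U K w = R.U K w + (if R.lo y ≤ R.hi w then 1 else 0) :=
      fun w hwp => by
        rw [hR1]
        exact U_cut_lt K R p x y hxy hcx hcy hyK w hwp
    have hlo1 : ∀ w ∈ Zs K R s, R1.lo w = R.lo w := fun w hw => by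
      rw [hR1]
      exact lo_cut R p x y hxy hcx hcy w (hne w hw).2 (by have := (mem_Zs.1 hw).2.1; omega)
    have hlo1y : R1.lo y = p + 1 := by
      rw [hR1]
      exact lo_cut_y R p x y hxy hcx hcy
    obtain ⟨r2, R2, k1, k2, k3, k4, k5⟩ := op_hiZ g1 (s := s) (z := z0) (by rw [hZ1]; exact hz0)
    have hZ2 : ∀ w, w ∈ Zs K R2 s ↔ w ∈ Zs K R s ∧ w ≠ z0 := fun w => by
      rw [k5.zs, hZ1]
    have hir2 : InjS K R2 s := by
      refine k5.ir ?_
      rw [hR1]
      exact h.ir.cut K R s p x y hxy hcx hcy hps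
    obtain ⟨A1, hA1⟩ : ∃ A, A = (Zs K R s).filter fun a => a ≠ z0 ∧ p ≤ R.hi a := ⟨_, rfl⟩
    obtain ⟨A2, hA2⟩ : ∃ A, A = (Zs K R s).filter fun a => R.hi a < R.lo y ∧ R.U K a < W :=
      ⟨_, rfl⟩
    have hm1 : ∀ a, a ∈ A1 ↔ a ∈ Zs K R s ∧ a ≠ z0 ∧ p ≤ R.hi a := fun a => by
      rw [hA1, Finset.mem_filter]
    have hm2 : ∀ a, a ∈ A2 ↔ a ∈ Zs K R s ∧ R.hi a < R.lo y ∧ R.U K a < W := fun a => by
      rw [hA2, Finset.mem_filter]
    have hmA : ∀ a, a ∈ A1 ∪ A2 ↔ a ∈ Zs K R s ∧ a ≠ z0 ∧
        (p ≤ R.hi a ∨ (R.hi a < R.lo y ∧ R.U K a < W)) := fun a => by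
      rw [Finset.mem_union, hm1, hm2]
      constructor
      · rintro (⟨h3, h4, h5⟩ | ⟨h3, h4⟩)
        · exact ⟨h3, h4, Or.inl h5⟩
        · refine ⟨h3, ?_, Or.inr h4⟩
          rintro rfl
          omega
      · rintro ⟨h3, h4, h5 | h5⟩
        · exact Or.inl ⟨h3, h4, h5⟩
        · exact Or.inr ⟨h3, h5⟩
    have hyne : y ≠ z0 := fun he => (hne z0 hz0).2 he.symm
    obtain ⟨r3, R3, l1, l2, l3, l4⟩ := op_low k1 hir2 (A1 ∪ A2)
      (fun a ha => (mem_Zs.1 ((hmA a).1 ha).1).1)
      (fun a ha => by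
        obtain ⟨ha1, ha2, ha3⟩ := (hmA a).1 ha
        obtain ⟨_, ha5, ha6⟩ := mem_Zs.1 ha1
        have h5 : R2.lo a = R.lo a := by rw [k5.lo a ha2, hlo1 a ha1]
        have h6 : R2.hi a = R1.hi a := k5.hi a ha2
        have h7 : R.hi a ≤ R1.hi a := by
          by_cases hap : p ≤ R.hi a
          · rw [hhi1 a ha1 hap]
            omega
          · rw [hhi1' a (by omega)]
        refine ⟨by omega, by omega, ?_⟩
        rw [k5.U a (by rw [hZ1]; exact ha1) ha2, k5.ua]
        rcases ha3 with ha3 | ha3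
        · rw [U_eq_ua]
          exact ua_lt hyK (by omega) (by rw [hhi1 a ha1 ha3]; omega)
        · rw [hU1' a (by omega), if_neg (by omega), hR1,
            ua_cut_le K R p x y hxy hcx hcy hyK s hps]
          have := h.ch
          omega)
    have hZ3 : ∀ w, w ∈ Zs K R3 s ↔ w ∈ Zs K R s ∧ w ≠ z0 := fun w => by
      rw [l4.zs le_rfl]
      exact hZ2 w
    have hZ3' : Zs K R3 s = (Zs K R s).erase z0 := by
      ext w
      rw [hZ3, Finset.mem_erase]
      exact and_comm
    have hlo3 : ∀ w ∈ Zs K R s, w ≠ z0 → R3.lo w = R.lo w := fun w hw hw0 => by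
      rw [l4.lo, k5.lo w hw0, hlo1 w hw]
    have hD3 : ∀ w ∈ Zs K R s, w ≠ z0 → R3.D K w = R.D K w := fun w hw hw0 => by
      rw [l4.D_eq (s := s) le_rfl ((hZ2 w).2 ⟨hw, hw0⟩), k5.D w (by rw [hZ1]; exact hw) hw0,
        hD1 w hw]
    have hU2 : ∀ w ∈ Zs K R s, w ≠ z0 → R2.U K w = R1.U K w := fun w hw hw0 =>
      k5.U w (by rw [hZ1]; exact hw) hw0
    -- the values of `U`
    have hU3 : ∀ w ∈ Zs K R s, w ≠ z0 → R3.U K w = R.U K w + 1 ∨
        (R3.U K w = R.U K w ∧ W ≤ R.U K w ∧ R.hi w < R.lo y) := by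
      intro w hw hw0
      by_cases hwp : p ≤ R.hi w
      · left
        rw [l4.up w ((hmA w).2 ⟨hw, hw0, Or.inl hwp⟩), hU2 w hw hw0, hU1 w hw hwp]
      · by_cases hwy : R.hi w < R.lo y
        · by_cases hwW : R.U K w < W
          · left
            rw [l4.up w ((hmA w).2 ⟨hw, hw0, Or.inr ⟨hwy, hwW⟩⟩), hU2 w hw hw0,
              hU1' w (by omega), if_neg (by omega), add_zero]
          · right
            refine ⟨?_, by omega, hwy⟩
            rw [l4.up' (fun hwA => by
              rcases ((hmA w).1 hwA).2.2 with h5 | h5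
              · exact hwp h5
              · exact hwW h5.2), hU2 w hw hw0, hU1' w (by omega), if_neg (by omega), add_zero]
        · left
          rw [l4.up' (fun hwA => by
            rcases ((hmA w).1 hwA).2.2 with h5 | h5
            · exact hwp h5
            · exact hwy h5.1), hU2 w hw hw0, hU1' w (by omega), if_pos (by omega)]
    refine ⟨r3, R3, l1, fun a b hab => l2 a b (k2 a b (g2 a b hab)), l2 x y (k2 x y g3), ?_,
      ⟨?_, ?_⟩⟩
    · -- the cost
      have h5 := h.sr p hps z0 hz0 ⟨by omega, hz0p⟩ x hxK hcx (fun he => (hne z0 hz0).1 he.symm)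
      have h6 := N_ge_T K R s p (insert z0 A1) (by
        intro a ha
        rcases Finset.mem_insert.1 ha with rfl | ha
        · exact hz0
        · exact ((hm1 a).1 ha).1) hps (by
        intro a ha
        rcases Finset.mem_insert.1 ha with rfl | ha
        · exact hz0p
        · exact ((hm1 a).1 ha).2.2)
      rw [Finset.card_insert_of_notMem (fun hA => ((hm1 z0).1 hA).2.1 rfl)] at h6
      have h7 := D_ge_L K R s hy1 A2 (fun a ha => ((hm2 a).1 ha).1)
        (fun a ha => ((hm2 a).1 ha).2.1)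
      have h8 := h.hd z0 hz0
      have h9 := newP_trans (r := r) (r' := r1) (r'' := r3)
      have h10 := newP_trans (r := r1) (r' := r2) (r'' := r3)
      have h11 := Finset.card_union_le A1 A2
      rw [hL1, hD1 z0 hz0] at k4
      omega
    · exact
        { gL := by
            rw [l4.ls le_rfl, k5.ls, hL1]
            exact h.gL
          gT := by
            rw [l4.ts]
            have := k5.ts
            rw [hT1] at this
            have := h.gT
            omega
          sr := by
            have h5 : Sd B K R1 s (d + 1) := by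
              rw [hR1]
              exact h.sr.cutT K R s p x y hxy hcx hcy hps hy
            have h6 : Sd B K R2 s d := by
              refine k5.sdg _ _ (fun w hw => ?_) h5
              rw [hZ1] at hw
              have h7 := hmax w hw
              rw [hhi1 z0 hz0 hz0p]
              by_cases hwp : p ≤ R.hi w
              · rw [hhi1 w hw hwp]
                omega
              · rw [hhi1' w (by omega)]
                omega
            refine h6.low l4 le_rfl (fun a ha => ?_)
            obtain ⟨ha1, ha2, _⟩ := (hmA a).1 ha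
            exact (hZ2 a).2 ⟨ha1, ha2⟩
          sl := by
            have h5 : Sd B K R1.dual (1 - s) W := by
              rw [hR1]
              exact h.sl.cut_left K R s p x y hxy hcx hcy hps
            exact (k5.sdl _ _ h5).low_left l4 le_rfl
          ir := hir2.low l4
          il := by
            have h5 : InjS K R1.dual (1 - s) := by
              rw [hR1]
              exact h.il.cut_left K R s p x y hxy hcx hcy hps
            exact (k5.il h5).low_left l4 le_rfl
          un := by
            intro z hz z' hz'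
            obtain ⟨h5, h6⟩ := (hZ3 z).1 hz
            obtain ⟨h7, h8⟩ := (hZ3 z').1 hz'
            rw [hlo3 z h5 h6, hlo3 z' h7 h8]
            exact h.un z h5 z' h7
          hd := by
            intro z hz
            obtain ⟨h5, h6⟩ := (hZ3 z).1 hz
            rw [hD3 z h5 h6]
            exact h.hd z h5
          ch := by
            rw [l4.ua, k5.ua, hR1, ua_cut_le K R p x y hxy hcx hcy hyK s hps]
            have := h.ch
            omega
          ba := by
            intro z hz z' hz'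
            obtain ⟨h5, h6⟩ := (hZ3 z).1 hz
            obtain ⟨h7, h8⟩ := (hZ3 z').1 hz'
            have h9 := h.ba z h5 z' h7
            rcases hU3 z h5 h6 with h10 | ⟨h10, h11, h12⟩
            · rcases hU3 z' h7 h8 with h13 | ⟨h13, h14, h15⟩
              · omega
              · -- `z'` did not gain
                rcases lt_or_ge (R.hi z) (R.lo y) with h16 | h16
                · by_cases hzW : R.U K z < W
                  · omega
                  · exfalso
                    have h17 : R3.U K z = R.U K z := by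
                      rw [l4.up' (fun hwA => by
                        rcases ((hmA z).1 hwA).2.2 with h5 | h5
                        · omega
                        · exact hzW h5.2), hU2 z h5 h6, hU1' z (by omega), if_neg (by omega),
                        add_zero]
                    omega
                · have h17 : R.U K z < R.U K z' := by
                    rw [U_eq_ua, U_eq_ua]
                    exact ua_lt hyK h15 h16
                  omega
            · rcases hU3 z' h7 h8 with h13 | ⟨h13, h14, h15⟩ <;> omega }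
    · refine hM.gain h.ba hz0 hZ3' (fun w hw => ?_)
      obtain ⟨h5, h6⟩ := (hZ3 w).1 (by rw [hZ3'] at hw ⊢; exact hw)
      rcases hU3 w h5 h6 with h7 | ⟨h7, h8, _⟩
      · left
        omega
      · right
        omega
  · -- a gap which no undecided element crosses
    have hout : ∀ z ∈ Zs K R s, R.hi z < p := fun z hz => by
      by_contra h3
      exact hin ⟨z, hz, by omega⟩
    obtain ⟨r2, R2, A, g1, g2, g3, g4, g5, g6, g7⟩ := closing hr h.sr h.gL h.ir hxy hcx hcy hx hy
      hout
    obtain ⟨R1, hR1⟩ : ∃ R1, R1 = R.cut p x y hxy hcx hcy := ⟨_, rfl⟩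
    rw [← hR1] at g5
    have hZ1 : Zs K R1 s = Zs K R s := by
      rw [hR1, Zs_cutR K R s p x y hxy hcx hcy hps,
        Finset.erase_eq_of_notMem (fun hyZ => (hne y hyZ).2 rfl)]
    have hZ2 : Zs K R2 s = Zs K R s := by rw [g5.zs hps, hZ1]
    have hnA : ∀ w ∈ Zs K R s, w ∉ A := fun w hw hwA => by
      have := (mem_Ts.1 (g6 hwA)).2
      have := (mem_Zs.1 hw).2.1
      omega
    have hU2 : ∀ w ∈ Zs K R s, R2.U K w = R.U K w + (if R.lo y ≤ R.hi w then 1 else 0) :=
      fun w hw => by
        rw [g5.up' (hnA w hw), hR1, U_cut_lt K R p x y hxy hcx hcy hyK w (hout w hw)]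
    refine ⟨r2, R2, g1, g2, g3, g4, ⟨?_, ?_⟩⟩
    · exact
        { gL := by
            rw [g5.ls hps, hR1, Ls_cutR K R s p x y hxy hcx hcy hps]
            exact h.gL
          gT := by
            rw [g5.ts, hR1, Ts_cutR K R s p x y hxy hcx hcy hps hyK, Finset.insert_eq_of_mem hy]
            exact h.gT
          sr := g7
          sl := by
            have h5 : Sd B K R1.dual (1 - s) W := by
              rw [hR1]
              exact h.sl.cut_left K R s p x y hxy hcx hcy hps
            exact h5.low_left g5 hps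
          ir := by
            have h5 : InjS K R1 s := by
              rw [hR1]
              exact h.ir.cut K R s p x y hxy hcx hcy hps
            exact h5.low g5
          il := by
            have h5 : InjS K R1.dual (1 - s) := by
              rw [hR1]
              exact h.il.cut_left K R s p x y hxy hcx hcy hps
            exact h5.low_left g5 hps
          un := by
            rw [hZ2]
            intro z hz z' hz'
            have h5 : ∀ w ∈ Zs K R s, R2.lo w = R.lo w := fun w hw => by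
              rw [g5.lo, hR1]
              exact lo_cut R p x y hxy hcx hcy w (hne w hw).2
                (by have := (mem_Zs.1 hw).2.1; omega)
            rw [h5 z hz, h5 z' hz']
            exact h.un z hz z' hz'
          hd := by
            rw [hZ2]
            intro z hz
            rw [g5.D_eq hps (by rw [hZ1]; exact hz), hR1,
              D_cut_Z K R s p x y hxy hcx hcy hps hz (hne z hz).2]
            exact h.hd z hz
          ch := by
            rw [g5.ua, hR1, ua_cut_le K R p x y hxy hcx hcy hyK s hps]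
            have := h.ch
            omega
          ba := by
            rw [hZ2]
            intro z hz z' hz'
            rw [hU2 z hz, hU2 z' hz']
            have h9 := h.ba z hz z' hz'
            by_cases h5 : R.lo y ≤ R.hi z
            · by_cases h6 : R.lo y ≤ R.hi z'
              · rw [if_pos h5, if_pos h6]
                omega
              · have h17 : R.U K z < R.U K z' := by
                  rw [U_eq_ua, U_eq_ua]
                  exact ua_lt hyK (by omega) h5
                rw [if_pos h5, if_neg h6]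
                omega
            · rw [if_neg h5]
              omega }
    · rw [hZ2]
      unfold Mass at hM ⊢
      refine le_trans (Nat.mul_le_mul_left 2 (Finset.sum_le_sum fun w hw => ?_)) hM
      rw [hU2 w hw]
      omega

/-- an attack inside of the right part, dual class -/
theorem T1d.attTT (h : T1d B K R s W d) {r : V → V → Prop} (hr : Loc r K R) {x y : V}
    (hxy : x ≠ y) (hx : x ∈ Ts K R s) (hy : y ∈ Ts K R s) (h1 : ¬ R.rel x y)
    (h2 : ¬ R.rel y x) :
    ∃ (r' : V → V → Prop) (R' : Rep V), Loc r' K R' ∧ (∀ a b, r a b → r' a b) ∧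
      r' x y ∧ newP r r' ≤ B ∧ T1d B K R' s W d := by
  classical
  obtain ⟨h, hM⟩ := h
  obtain ⟨hxK, hx1⟩ := mem_Ts.1 hx
  obtain ⟨hyK, hy1⟩ := mem_Ts.1 hy
  obtain ⟨p, hcx, hcy⟩ := R.common h1 h2
  have hps : s ≤ p := hx1.trans hcx.1
  have hne : ∀ w ∈ Zs K R s, w ≠ x ∧ w ≠ y := fun w hw => by
    have := (mem_Zs.1 hw).2.1
    constructor
    · rintro rfl
      omega
    · rintro rfl
      omega
  obtain ⟨R1, hR1⟩ : ∃ R1, R1 = R.cut p x y hxy hcx hcy := ⟨_, rfl⟩
  have hZ1 : Zs K R1 s = Zs K R s := by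
    rw [hR1, Zs_cutR K R s p x y hxy hcx hcy hps,
      Finset.erase_eq_of_notMem (fun hyZ => (hne y hyZ).2 rfl)]
  have hT1 : Ts K R1 s = Ts K R s := by
    rw [hR1, Ts_cutR K R s p x y hxy hcx hcy hps hyK, Finset.insert_eq_of_mem hy]
  have hL1 : Ls K R1 s = Ls K R s := by
    rw [hR1]
    exact Ls_cutR K R s p x y hxy hcx hcy hps
  have hD1 : ∀ w ∈ Zs K R s, R1.D K w = R.D K w := fun w hw => by
    rw [hR1]
    exact D_cut_Z K R s p x y hxy hcx hcy hps hw (hne w hw).2
  have hUm : ∀ w ∈ K, R.U K w ≤ R1.U K w := fun w hw => Rep.U_mono (fun a _ b _ hab => by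
    rw [hR1]
    exact (R.rel_cut p x y hxy hcx hcy a b).2 (Or.inl hab)) hw
  have hil1 : InjS K R1.dual (1 - s) := by
    rw [hR1]
    exact h.il.cut_left K R s p x y hxy hcx hcy hps
  have hir1 : InjS K R1 s := by
    rw [hR1]
    exact h.ir.cut K R s p x y hxy hcx hcy hps
  have hsl1 : Sd B K R1.dual (1 - s) d := by
    rw [hR1]
    exact h.sl.cut_left K R s p x y hxy hcx hcy hps
  by_cases hin : ∃ z ∈ Zs K R s, p ≤ R.hi z
  · obtain ⟨z0, hz0, hz0p⟩ := hin
    have hhp : ∀ w ∈ Zs K R s, p ≤ R.hi w := fun w hw => by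
      rw [h.un w hw z0 hz0]
      exact hz0p
    obtain ⟨hz0K, hz01, hz02⟩ := mem_Zs.1 hz0
    obtain ⟨r1, g1, g2, g3, g4⟩ := op_cut hr p x y hxy hxK hyK hcx hcy
    rw [← hR1] at g1
    have hhi1 : ∀ w ∈ Zs K R s, R1.hi w = R.hi z0 + 1 := fun w hw => by
      rw [← h.un w hw z0 hz0, hR1]
      exact hi_cut_ge R p x y hxy hcx hcy w (hne w hw).1 (hhp w hw)
    obtain ⟨r2, R2, k1, k2, k3, k4, k5⟩ := op_hiZ g1 (s := s) (z := z0) (by rw [hZ1]; exact hz0)
    have hZ2 : ∀ w, w ∈ Zs K R2 s ↔ w ∈ Zs K R s ∧ w ≠ z0 := fun w => by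
      rw [k5.zs, hZ1]
    have hD2 : ∀ w ∈ Zs K R2 s, R2.D K w = R.D K w := fun w hw => by
      obtain ⟨h5, h6⟩ := (hZ2 w).1 hw
      rw [k5.D w (by rw [hZ1]; exact h5) h6, hD1 w h5]
    obtain ⟨h3, h4, h5⟩ := hM.pre h.ba hz0 hZ2 hD2
    have hT0 : T0d B K R2 s W d :=
      { gL := by
          rw [k5.ls, hL1]
          exact h.gL
        gT := by
          have := k5.ts
          rw [hT1] at this
          have := h.gT
          omega
        sr := by
          have h6 : Sd B K R1 s (W + 1) := by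
            rw [hR1]
            exact h.sr.cutT K R s p x y hxy hcx hcy hps hy
          refine k5.sdg _ _ (fun w hw => ?_) h6
          rw [hZ1] at hw
          rw [hhi1 w hw, hhi1 z0 hz0]
        sl := k5.sdl _ _ hsl1
        ir := k5.ir hir1
        il := k5.il hil1
        un := fun z hz z' hz' => by
          obtain ⟨h6, h7⟩ := (hZ2 z).1 hz
          obtain ⟨h8, h9⟩ := (hZ2 z').1 hz'
          rw [k5.hi z h7, k5.hi z' h9, hhi1 z h6, hhi1 z' h8]
        hu := fun z hz => by
          obtain ⟨h6, h7⟩ := (hZ2 z).1 hz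
          rw [k5.U z (by rw [hZ1]; exact h6) h7]
          exact (h.hu z h6).trans (hUm z (mem_Zs.1 h6).1)
        ch := by
          rw [k5.ual, hR1, ua_cut_left K R s p x y hxy hcx hcy hps]
          exact h.ch
        ba := fun z hz z' hz' => by
          rw [hD2 z hz, hD2 z' hz']
          exact h.ba z ((hZ2 z).1 hz).1 z' ((hZ2 z').1 hz').1 }
    obtain ⟨r3, R3, l1, l2, l3, l4⟩ := Pred.pay ⟨hT0, h3, h4, h5⟩ k1
    refine ⟨r3, R3, l1, fun a b hab => l2 a b (k2 a b (g2 a b hab)), l2 x y (k2 x y g3), ?_, l4⟩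
    have h6 := h.sr p hps z0 hz0 ⟨by omega, hz0p⟩ x hxK hcx (fun he => (hne z0 hz0).1 he.symm)
    have h7 := N_ge_T K R s p (Zs K R s) (Finset.Subset.refl _) hps hhp
    have h8 := D_ge_L K R s hy1 ∅ (Finset.empty_subset _) (fun a ha =>
      absurd ha (Finset.notMem_empty _))
    rw [Finset.card_empty] at h8
    have h9 := newP_trans (r := r) (r' := r1) (r'' := r3)
    have h10 := newP_trans (r := r1) (r' := r2) (r'' := r3)
    have h11 := k5.zc
    rw [hZ1] at h11
    rw [hL1, hD1 z0 hz0] at k4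
    omega
  · have hout : ∀ z ∈ Zs K R s, R.hi z < p := fun z hz => by
      by_contra h3
      exact hin ⟨z, hz, by omega⟩
    obtain ⟨r2, R2, A, g1, g2, g3, g4, g5, g6, g7⟩ := closing hr h.sr h.gL h.ir hxy hcx hcy hx hy
      hout
    rw [← hR1] at g5
    have hZ2 : Zs K R2 s = Zs K R s := by rw [g5.zs hps, hZ1]
    have hnA : ∀ w ∈ Zs K R s, w ∉ A := fun w hw hwA => by
      have := (mem_Ts.1 (g6 hwA)).2
      have := (mem_Zs.1 hw).2.1
      omega
    have hD2 : ∀ w ∈ Zs K R s, R2.D K w = R.D K w := fun w hw => by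
      rw [g5.D_eq hps (by rw [hZ1]; exact hw), hD1 w hw]
    refine ⟨r2, R2, g1, g2, g3, g4, ⟨?_, ?_⟩⟩
    · exact
        { gL := by
            rw [g5.ls hps, hL1]
            exact h.gL
          gT := by
            rw [g5.ts, hT1]
            exact h.gT
          sr := g7
          sl := hsl1.low_left g5 hps
          ir := hir1.low g5
          il := hil1.low_left g5 hps
          un := by
            rw [hZ2]
            intro z hz z' hz'
            have h5 : ∀ w ∈ Zs K R s, R2.hi w = R.hi w := fun w hw => by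
              rw [g5.nA w (hnA w hw), hR1]
              exact hi_cut_lt R p x y hxy hcx hcy w (hout w hw)
            rw [h5 z hz, h5 z' hz']
            exact h.un z hz z' hz'
          hu := by
            rw [hZ2]
            intro z hz
            exact (h.hu z hz).trans ((hUm z (mem_Zs.1 hz).1).trans (g5.U_le z))
          ch := by
            rw [g5.ua_left hps, hR1, ua_cut_left K R s p x y hxy hcx hcy hps]
            exact h.ch
          ba := by
            rw [hZ2]
            intro z hz z' hz'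
            rw [hD2 z hz, hD2 z' hz']
            exact h.ba z hz z' hz' }
    · rw [hZ2]
      unfold Mass at hM ⊢
      refine le_trans (Nat.mul_le_mul_left 2 (Finset.sum_le_sum fun w hw => ?_)) hM
      rw [hD2 w hw]

omit [Fintype V] in
/-- the terminal condition from the sizes of the two parts -/
theorem term_of_sizes (hL : K.card ≤ B + (Ls K R s).card) (hT : K.card ≤ B + (Ts K R s).card)
    (hZ : Zs K R s = ∅) : Term B K R := by
  have h : Hc B K R s K.card K.card :=
    { gL := hL
      gT := hT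
      nL := fun p _ _ => by rw [hZ, Finset.card_empty]; omega
      nT := fun p _ _ => by rw [hZ, Finset.card_empty]; omega }
  exact h.term hZ

/-- terminal, T1 or its dual -/
def T1T (B : ℕ) (K : Finset V) (R : Rep V) : Prop :=
  Term B K R ∨ (∃ s W d, T1 B K R s W d) ∨ ∃ s W d, T1d B K R s W d

/-- the answers in the class T1 -/
theorem T1.ans (h : T1 B K R s W d) {r : V → V → Prop} (hr : Loc r K R) :
    Ans B (Cls (T1T B)) r := by
  classical
  by_cases hZ : Zs K R s = ∅
  · exact Ans.mono (G := Cls (Term B)) (term_ans hr (term_of_sizes h.1.gL h.1.gT hZ))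
      (by rintro r ⟨K, R, h3, h4⟩; exact ⟨K, R, h3, Or.inl h4⟩)
  intro x y hxy h1 h2
  obtain ⟨hx, hy⟩ := hr.mem hxy h1 h2
  rw [hr.eq x hx y hy] at h1
  rw [hr.eq y hy x hx] at h2
  have h1' : ¬ R.dual.rel y x := by rw [Rep.rel_dual]; exact h1
  have h2' : ¬ R.dual.rel x y := by rw [Rep.rel_dual]; exact h2
  have htri : ∀ w ∈ K, w ∈ Ls K R s ∨ w ∈ Zs K R s ∨ w ∈ Ts K R s := by
    intro w hw
    have := R.le w
    rw [mem_Ls, mem_Zs, mem_Ts]
    by_cases h3 : R.hi w < s
    · exact Or.inl ⟨hw, h3⟩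
    · by_cases h4 : R.lo w < s
      · exact Or.inr (Or.inl ⟨hw, h4, by omega⟩)
      · exact Or.inr (Or.inr ⟨hw, by omega⟩)
  have hdl : ∀ {w}, w ∈ Ls K R s → w ∈ Ts K R.dual (1 - s) := fun hw => by
    rw [Ts_dual]; exact hw
  have hdz : ∀ {w}, w ∈ Zs K R s → w ∈ Zs K R.dual (1 - s) := fun hw => by
    rw [Zs_dual]; exact hw
  have hlt : ∀ {w w'}, w ∈ Ls K R s → w' ∈ Ts K R s → R.rel w w' := fun hw hw' => by
    have h3 := (mem_Ls.1 hw).2
    have h4 := (mem_Ts.1 hw').2
    unfold Rep.rel
    omega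
  have hfin : ∀ {x y : V}, (∃ (r' : V → V → Prop) (R' : Rep V), Loc r' K R' ∧
      (∀ a b, r a b → r' a b) ∧ r' x y ∧ newP r r' ≤ B ∧ T1 B K R' s W d) →
      ∃ r' ∈ Cls (T1T B), (∀ a b, r a b → r' a b) ∧ r' x y ∧ newP r r' ≤ B := by
    rintro x y ⟨r', R', g1, g2, g3, g4, g5⟩
    exact ⟨r', ⟨K, R', g1, Or.inr (Or.inl ⟨s, W, d, g5⟩)⟩, g2, g3, g4⟩
  have hfind : ∀ {x y : V}, (∃ (r' : V → V → Prop) (R' : Rep V), Loc r' K R' ∧
      (∀ a b, flip r a b → r' a b) ∧ r' y x ∧ newP (flip r) r' ≤ B ∧
        T1d B K R' (1 - s) W d) →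
      ∃ r' ∈ Cls (T1T B), (∀ a b, r a b → r' a b) ∧ r' x y ∧ newP r r' ≤ B := by
    rintro x y ⟨r', R', g1, g2, g3, g4, g5⟩
    have h0 : newP r (flip r') = newP (flip r) r' := newP_flip (flip r) r'
    refine ⟨flip r', ⟨K, R'.dual, g1.flip, Or.inr (Or.inl ⟨s, W, d, ?_⟩)⟩,
      fun a b hab => g2 b a hab, g3, by rw [h0]; exact g4⟩
    have := g5.dual
    rw [sub_sub_cancel] at this
    exact this
  rcases htri x hx with hxL | hxZ | hxT
  · rcases htri y hy with hyL | hyZ | hyT
    · exact hfind (h.dual.attTT hr.flip hxy.symm (hdl hyL) (hdl hxL) h1' h2')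
    · exact hfind (h.dual.attZT hr.flip (hdz hyZ) (hdl hxL))
    · exact absurd (hlt hxL hyT) h1
  · rcases htri y hy with hyL | hyZ | hyT
    · exact hfind (h.dual.attTZ hr.flip (hdl hyL) (hdz hxZ) h1' h2')
    · exact hfin (h.attTZ hr hxy hx (mem_Zs.1 hxZ).2.2 hyZ h2)
    · exact hfin (h.attZT hr hxZ hyT)
  · rcases htri y hy with hyL | hyZ | hyT
    · exact absurd (hlt hyL hxT) h2
    · refine hfin (h.attTZ hr hxy hx ?_ hyZ h2)
      have := (mem_Ts.1 hxT).2
      have := R.le x
      omega
    · exact hfin (h.attTT hr hxy hxT hyT h1 h2)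

/-- the class T1 is closed -/
theorem t1_closed (B : ℕ) : ClosedR (V := V) B (Cls (T1T B)) := by
  rintro r ⟨K, R, hr, hT | ⟨s, W, d, hT⟩ | ⟨s, W, d, hT⟩⟩
  · exact Ans.mono (G := Cls (Term B)) (term_ans hr hT)
      (by rintro r ⟨K, R, h3, h4⟩; exact ⟨K, R, h3, Or.inl h4⟩)
  · exact hT.ans hr
  · intro x y hxy h1 h2
    obtain ⟨r', ⟨K', R', g1, g2⟩, g3, g4, g5⟩ := hT.dual.ans hr.flip y x hxy.symm h1 h2
    have h0 : newP r (flip r') = newP (flip r) r' := newP_flip (flip r) r'
    refine ⟨flip r', ⟨K', R'.dual, g1.flip, ?_⟩, fun a b hab => g3 b a hab, g4,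
      by rw [h0]; exact g5⟩
    rcases g2 with g2 | ⟨s, W, d, g2⟩ | ⟨s, W, d, g2⟩
    · exact Or.inl g2.dual
    · exact Or.inr (Or.inr ⟨_, _, _, g2.dual⟩)
    · exact Or.inr (Or.inl ⟨_, _, _, g2.dual⟩)

end Pool.Agent.OCN
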