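import Pool.Agent.Lib_helper47.OCN.TGa

/-!
# MP_aeb124_co: the class TG, the replies on the flat side (blocks TF1, TF2)
-/

set_option autoImplicit false

namespace Pool.Agent.OCN

variable {V : Type}

theorem TF1_rs {K : Finset V} {R R' : Rep V} {s : ℤ}
    (h1 : ∀ w ∈ K, R.lo w < s → R'.lo w = R.lo w ∨ (w ∈ Zs K R s ∧ s ≤ R'.lo w))
    (h2 : ∀ w ∈ K, s ≤ R.lo w → s ≤ R'.lo w) (h3 : ∀ w ∈ K, R.hi w < s → R'.hi w = R.hi w)
    (h4 : ∀ w ∈ K, s ≤ R.hi w → s ≤ R'.hi w) : RS K R R' s := by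
  have e0 : ∀ (R : Rep V) w, R.dual.lo w = -R.hi w := fun R w => rfl
  have e1 : ∀ (R : Rep V) w, R.dual.hi w = -R.lo w := fun R w => rfl
  refine ⟨fun w hw h => ?_, fun w hw h => ?_, fun w hw h => ?_, fun w hw h => ?_⟩
  · rw [e1] at h
    rw [Zs_dual]
    rcases h1 w hw (by omega) with h5 | h5
    · left
      rw [e1, e1, h5]
    · right
      refine ⟨h5.1, ?_⟩
      rw [e1]
      omega
  · rw [e1] at h ⊢
    have := h2 w hw (by omega)
    omega
  · rw [e0] at h
    have := h3 w hw (by omega)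
    rw [e0, e0, this]
  · rw [e0] at h ⊢
    have := h4 w hw (by omega)
    omega

variable [Fintype V] {B : ℕ} {K : Finset V} {R : Rep V} {s : ℤ} {W : ℕ} {x y z : V}
  {r : V → V → Prop}

/-- a reply on the flat side, the element `z` has been settled -/
structure FRep (B : ℕ) (K : Finset V) (R : Rep V) (s : ℤ) (W : ℕ) (r : V → V → Prop)
    (x y z : V) (r' : V → V → Prop) (R' : Rep V) : Prop where
  loc : Loc r' K R'
  mono : ∀ a b, r a b → r' a b
  pair : r' x y
  fd : Fd B K R' s W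
  rs : RS K R R' s
  zs : ∀ w, w ∈ Zs K R' s ↔ w ∈ Zs K R s ∧ w ≠ z

/-- (block TF1) a right element attacks an undecided element -/
theorem Fd.attTZ (h : Fd B K R s W) (hr : Loc r K R) (hx : x ∈ Ts K R s) (hy : y ∈ Zs K R s)
    (h1 : ¬ R.rel x y) (h2 : ¬ R.rel y x) :
    ∃ r' R', FRep B K R s W r x y y r' R' ∧
      newP r r' + (Zs K R s).card + R.D K y ≤ B + W + 1 := by
  classical
  obtain ⟨hxK, hx1⟩ := mem_Ts.1 hx
  obtain ⟨hyK, hy1, hy2⟩ := mem_Zs.1 hy
  have hxy : x ≠ y := by
    rintro rfl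
    omega
  obtain ⟨p, hcx, hcy⟩ := R.common h1 h2
  have hps : s ≤ p := hx1.trans hcx.1
  obtain ⟨r1, g1, g2, g3, g4⟩ := op_cut hr p x y hxy hxK hyK hcx hcy
  obtain ⟨R1, hR1⟩ : ∃ R1, R1 = R.cut p x y hxy hcx hcy := ⟨_, rfl⟩
  rw [← hR1] at g1
  have hZ1 : Zs K R1 s = (Zs K R s).erase y := by
    rw [hR1]
    exact Zs_cutR K R s p x y hxy hcx hcy hps
  have hZm : ∀ w, w ∈ Zs K R1 s ↔ w ∈ Zs K R s ∧ w ≠ y := fun w => by
    rw [hZ1, Finset.mem_erase]
    exact and_comm
  have hne : ∀ w ∈ Zs K R s, w ≠ x := fun w hw he => by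
    rw [he] at hw
    have := (mem_Zs.1 hw).2.1
    omega
  have hhp : ∀ w ∈ Zs K R s, p ≤ R.hi w := fun w hw => by
    rw [h.un w hw y hy]
    exact hcy.2
  have hhi : ∀ w ∈ Zs K R1 s, R1.hi w = R.hi y + 1 := fun w hw => by
    have hw' := ((hZm w).1 hw).1
    rw [← h.un w hw' y hy, hR1]
    exact hi_cut_ge R p x y hxy hcx hcy w (hne w hw') (hhp w hw')
  have hFd : Fd B K R1 s W :=
    { gL := by
        rw [hR1, Ls_cutR K R s p x y hxy hcx hcy hps]
        exact h.gL
      gT := by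
        rw [hR1, Ts_cutR K R s p x y hxy hcx hcy hps hyK]
        have := Finset.card_le_card (Finset.subset_insert y (Ts K R s))
        have := h.gT
        omega
      sr := by
        have h6 : Sdm B K R1 s (R.hi y + 1) W := by
          rw [hR1]
          exact h.sr.cutZ K R s p x y hxy hcx hcy hps hy
        exact h6.sd fun w hw => le_of_eq (hhi w hw)
      ir := by
        rw [hR1]
        exact h.ir.cut K R s p x y hxy hcx hcy hps
      un := fun z hz z' hz' => by rw [hhi z hz, hhi z' hz'] }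
  have hRS : RS K R R1 s := by
    refine TF1_rs (fun w _ hw => ?_) (fun w _ hw => ?_) (fun w _ hw => ?_) (fun w _ hw => ?_)
    · by_cases hwy : w = y
      · right
        rw [hwy, hR1, lo_cut_y R p x y hxy hcx hcy]
        exact ⟨hy, by omega⟩
      · left
        rw [hR1]
        exact lo_cut R p x y hxy hcx hcy w hwy (by omega)
    · have hwy : w ≠ y := by
        rintro rfl
        omega
      rw [hR1]
      unfold Rep.cut
      dsimp only
      rw [if_neg hwy]
      split_ifs <;> omega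
    · rw [hR1]
      exact hi_cut_lt R p x y hxy hcx hcy w (by omega)
    · rw [hR1]
      unfold Rep.cut
      dsimp only
      split_ifs <;> omega
  refine ⟨r1, R1, ⟨g1, g2, g3, hFd, hRS, hZm⟩, ?_⟩
  have h7 := h.sr p hps y hy hcy x hxK hcx hxy
  have h8 := N_ge_T K R s p (Zs K R s) (Finset.Subset.refl _) hps hhp
  have h10 := Finset.card_pos.2 ⟨y, hy⟩
  omega

/-- (block TF1) an element of the left part (or of the chain) attacks an undecided element -/
theorem Fd.attLZ (h : Fd B K R s W) (hr : Loc r K R) (hx : x ∈ Ls K R s) (hy : y ∈ Zs K R s) :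
    ∃ r' R', FRep B K R s W r x y y r' R' ∧ newP r r' + (Zs K R s).card + R.D K y ≤ B := by
  classical
  obtain ⟨hyK, hy1, hy2⟩ := mem_Zs.1 hy
  obtain ⟨r1, R1, g1, g2, g3, g4, g5⟩ := op_hiZ hr hy
  have hylo : s ≤ R1.lo y := by
    have e1 : y ∉ Zs K R1 s := fun h3 => ((g5.zs y).1 h3).2 rfl
    have e2 : y ∉ Ls K R1 s := fun h3 => by
      rw [g5.ls] at h3
      have := (mem_Ls.1 h3).2
      omega
    by_contra h3
    by_cases h4 : s ≤ R1.hi y
    · exact e1 (mem_Zs.2 ⟨hyK, by omega, h4⟩)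
    · exact e2 (mem_Ls.2 ⟨hyK, by omega⟩)
  have hFd : Fd B K R1 s W :=
    { gL := by rw [g5.ls]; exact h.gL
      gT := by have := h.gT; have := g5.ts; omega
      sr := g5.sdr _ _ h.sr
      ir := g5.ir h.ir
      un := fun z hz z' hz' => by
        obtain ⟨h4, h5⟩ := (g5.zs z).1 hz
        obtain ⟨h6, h7⟩ := (g5.zs z').1 hz'
        rw [g5.hi z h5, g5.hi z' h7]
        exact h.un z h4 z' h6 }
  have hRS : RS K R R1 s := by
    refine TF1_rs (fun w _ hw => ?_) (fun w _ hw => ?_) (fun w _ hw => ?_) (fun w _ hw => ?_)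
    · by_cases hwy : w = y
      · right
        rw [hwy]
        exact ⟨hy, hylo⟩
      · exact Or.inl (g5.lo w hwy)
    · rw [g5.lo w (by rintro rfl; omega)]
      exact hw
    · exact g5.hi w (by rintro rfl; omega)
    · by_cases hwy : w = y
      · rw [hwy]
        exact hylo.trans (R1.le y)
      · rw [g5.hi w hwy]
        exact hw
  refine ⟨r1, R1, ⟨g1, g2, g3 x hx, hFd, hRS, g5.zs⟩, ?_⟩
  have h5 := card_LTZ K R s
  have h6 := h.gT
  omega

omit [Fintype V] in
/-- a change of the right side, in the coordinates of the right side -/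
theorem TF2_rs {R' : Rep V}
    (h1 : ∀ w ∈ K, R.lo w < s → R'.lo w = R.lo w ∨ (w ∈ Zs K R s ∧ s ≤ R'.lo w))
    (h2 : ∀ w ∈ K, s ≤ R.lo w → s ≤ R'.lo w) (h3 : ∀ w ∈ K, R.hi w < s → R'.hi w = R.hi w)
    (h4 : ∀ w ∈ K, s ≤ R.hi w → s ≤ R'.hi w) : RS K R R' s := by
  have e0 : ∀ (R : Rep V) w, R.dual.lo w = -R.hi w := fun R w => rfl
  have e1 : ∀ (R : Rep V) w, R.dual.hi w = -R.lo w := fun R w => rfl
  refine ⟨fun w hw h => ?_, fun w hw h => ?_, fun w hw h => ?_, fun w hw h => ?_⟩
  · rw [e1] at h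
    rw [e1, e1, Zs_dual]
    rcases h1 w hw (by omega) with h5 | ⟨h5, h6⟩
    · left
      rw [h5]
    · right
      exact ⟨h5, by omega⟩
  · rw [e1] at h ⊢
    have := h2 w hw (by omega)
    omega
  · rw [e0] at h
    rw [e0, e0, h3 w hw (by omega)]
  · rw [e0] at h ⊢
    have := h4 w hw (by omega)
    omega

/-- (block TF2) an attack inside of the right part; either some undecided element is settled, or the
undecided elements do not change -/
theorem Fd.attTT (h : Fd B K R s W) (hr : Loc r K R) (hxy : x ≠ y) (hx : x ∈ Ts K R s)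
    (hy : y ∈ Ts K R s) (h1 : ¬ R.rel x y) (h2 : ¬ R.rel y x) :
    (∃ z r' R', z ∈ Zs K R s ∧ FRep B K R s W r x y z r' R' ∧
      newP r r' + (Zs K R s).card + R.D K z ≤ B + W + 1) ∨
    ∃ (r' : V → V → Prop) (R' : Rep V), Loc r' K R' ∧ (∀ a b, r a b → r' a b) ∧ r' x y ∧
      Fd B K R' s W ∧ RS K R R' s ∧ (∀ w, w ∈ Zs K R' s ↔ w ∈ Zs K R s) ∧ newP r r' ≤ B := by
  classical
  obtain ⟨hxK, hx1⟩ := mem_Ts.1 hx
  obtain ⟨hyK, hy1⟩ := mem_Ts.1 hy
  obtain ⟨p, hcx, hcy⟩ := R.common h1 h2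
  have hps : s ≤ p := hx1.trans hcx.1
  have hne : ∀ w ∈ Zs K R s, w ≠ x ∧ w ≠ y := fun w hw => by
    have := (mem_Zs.1 hw).2.1
    constructor
    · rintro rfl
      omega
    · rintro rfl
      omega
  obtain ⟨R1, hR1⟩ : ∃ R1, R1 = R.cut p x y hxy hcx hcy := ⟨_, rfl⟩
  have hZ1 : Zs K R1 s = Zs K R s := by
    rw [hR1, Zs_cutR K R s p x y hxy hcx hcy hps,
      Finset.erase_eq_of_notMem (fun hyZ => (hne y hyZ).2 rfl)]
  have hT1 : Ts K R1 s = Ts K R s := by
    rw [hR1, Ts_cutR K R s p x y hxy hcx hcy hps hyK, Finset.insert_eq_of_mem hy]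
  have hL1 : Ls K R1 s = Ls K R s := by
    rw [hR1]
    exact Ls_cutR K R s p x y hxy hcx hcy hps
  have hD1 : ∀ w ∈ Zs K R s, R1.D K w = R.D K w := fun w hw => by
    rw [hR1]
    exact D_cut_Z K R s p x y hxy hcx hcy hps hw (hne w hw).2
  have hir1 : InjS K R1 s := by
    rw [hR1]
    exact h.ir.cut K R s p x y hxy hcx hcy hps
  -- the coordinates after the cut
  have c1 : ∀ w ∈ K, R.lo w < s → R1.lo w = R.lo w := fun w _ h5 => by
    rw [hR1]
    refine lo_cut R p x y hxy hcx hcy w ?_ (by omega)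
    rintro rfl
    omega
  have c2 : ∀ w ∈ K, s ≤ R.lo w → s ≤ R1.lo w := fun w _ h5 => by
    rw [hR1]
    unfold Rep.cut
    simp only
    split_ifs <;> omega
  have c3 : ∀ w ∈ K, R.hi w < s → R1.hi w = R.hi w := fun w _ h5 => by
    rw [hR1]
    exact hi_cut_lt R p x y hxy hcx hcy w (by omega)
  have c4 : ∀ w ∈ K, s ≤ R.hi w → s ≤ R1.hi w := fun w _ h5 => by
    rw [hR1]
    unfold Rep.cut
    simp only
    split_ifs <;> omega
  by_cases hin : ∃ z ∈ Zs K R s, p ≤ R.hi z
  · left
    obtain ⟨z0, hz0, hz0p⟩ := hin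
    have hhp : ∀ w ∈ Zs K R s, p ≤ R.hi w := fun w hw => by
      rw [h.un w hw z0 hz0]
      exact hz0p
    obtain ⟨hz0K, hz01, hz02⟩ := mem_Zs.1 hz0
    obtain ⟨r1, g1, g2, g3, g4⟩ := op_cut hr p x y hxy hxK hyK hcx hcy
    rw [← hR1] at g1
    have hhi1 : ∀ w ∈ Zs K R s, R1.hi w = R.hi z0 + 1 := fun w hw => by
      rw [← h.un w hw z0 hz0, hR1]
      exact hi_cut_ge R p x y hxy hcx hcy w (hne w hw).1 (hhp w hw)
    obtain ⟨r2, R2, k1, k2, k3, k4, k5⟩ := op_hiZ g1 (s := s) (z := z0) (by rw [hZ1]; exact hz0)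
    have hZ2 : ∀ w, w ∈ Zs K R2 s ↔ w ∈ Zs K R s ∧ w ≠ z0 := fun w => by
      rw [k5.zs, hZ1]
    -- the new coordinates of `z0`
    have hz0hi : s ≤ R2.hi z0 := by
      by_contra h5
      have h6 : z0 ∈ Ls K R2 s := mem_Ls.2 ⟨hz0K, by omega⟩
      rw [k5.ls, hL1] at h6
      have := (mem_Ls.1 h6).2
      omega
    have hz0lo : s ≤ R2.lo z0 := by
      by_contra h5
      exact ((hZ2 z0).1 (mem_Zs.2 ⟨hz0K, by omega, hz0hi⟩)).2 rfl
    refine ⟨z0, r2, R2, hz0, ⟨k1, fun a b hab => k2 a b (g2 a b hab), k2 x y g3, ?_, ?_, hZ2⟩, ?_⟩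
    · exact
        { gL := by
            rw [k5.ls, hL1]
            exact h.gL
          gT := by
            have := k5.ts
            rw [hT1] at this
            have := h.gT
            omega
          sr := by
            have h6 : Sd B K R1 s (W + 1) := by
              rw [hR1]
              exact h.sr.cutT K R s p x y hxy hcx hcy hps hy
            refine k5.sdg _ _ (fun w hw => ?_) h6
            rw [hZ1] at hw
            rw [hhi1 w hw, hhi1 z0 hz0]
          ir := k5.ir hir1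
          un := fun z hz z' hz' => by
            obtain ⟨h6, h7⟩ := (hZ2 z).1 hz
            obtain ⟨h8, h9⟩ := (hZ2 z').1 hz'
            rw [k5.hi z h7, k5.hi z' h9, hhi1 z h6, hhi1 z' h8] }
    · refine TF2_rs (fun w hw h5 => ?_) (fun w hw h5 => ?_) (fun w hw h5 => ?_)
        (fun w hw h5 => ?_)
      · by_cases hwz : w = z0
        · right
          rw [hwz]
          exact ⟨hz0, hz0lo⟩
        · left
          rw [k5.lo w hwz]
          exact c1 w hw h5
      · by_cases hwz : w = z0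
        · rw [hwz]
          exact hz0lo
        · rw [k5.lo w hwz]
          exact c2 w hw h5
      · have hwz : w ≠ z0 := by
          rintro rfl
          omega
        rw [k5.hi w hwz]
        exact c3 w hw h5
      · by_cases hwz : w = z0
        · rw [hwz]
          exact hz0hi
        · rw [k5.hi w hwz]
          exact c4 w hw h5
    · have h6 := h.sr p hps z0 hz0 ⟨by omega, hz0p⟩ x hxK hcx (fun he => (hne z0 hz0).1 he.symm)
      have h7 := N_ge_T K R s p (Zs K R s) (Finset.Subset.refl _) hps hhp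
      have h8 := D_ge_L K R s hy1 ∅ (Finset.empty_subset _) (fun a ha =>
        absurd ha (Finset.notMem_empty _))
      rw [Finset.card_empty] at h8
      have h9 := newP_trans (r := r) (r' := r1) (r'' := r2)
      rw [hL1, hD1 z0 hz0] at k4
      omega
  · right
    have hout : ∀ z ∈ Zs K R s, R.hi z < p := fun z hz => by
      by_contra h3
      exact hin ⟨z, hz, by omega⟩
    obtain ⟨r2, R2, A, g1, g2, g3, g4, g5, g6, g7⟩ := closing hr h.sr h.gL h.ir hxy hcx hcy hx hy
      hout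
    rw [← hR1] at g5
    have hZ2 : Zs K R2 s = Zs K R s := by rw [g5.zs hps, hZ1]
    have hnA : ∀ w ∈ Zs K R s, w ∉ A := fun w hw hwA => by
      have := (mem_Ts.1 (g6 hwA)).2
      have := (mem_Zs.1 hw).2.1
      omega
    refine ⟨r2, R2, g1, g2, g3, ?_, ?_, fun w => by rw [hZ2], g4⟩
    · exact
        { gL := by
            rw [g5.ls hps, hL1]
            exact h.gL
          gT := by
            rw [g5.ts, hT1]
            exact h.gT
          sr := g7
          ir := hir1.low g5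
          un := by
            rw [hZ2]
            intro z hz z' hz'
            have h5 : ∀ w ∈ Zs K R s, R2.hi w = R.hi w := fun w hw => by
              rw [g5.nA w (hnA w hw), hR1]
              exact hi_cut_lt R p x y hxy hcx hcy w (hout w hw)
            rw [h5 z hz, h5 z' hz']
            exact h.un z hz z' hz' }
    · have hhi2 : ∀ w ∈ K, s ≤ R1.hi w → s ≤ R2.hi w := by
        intro w hw h5
        by_cases hwA : w ∈ A
        · have h6 := (mem_Ts.1 (g6 hwA)).2
          have h7 := c2 w hw h6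
          have h8 := R2.le w
          have h9 := g5.lo w
          omega
        · rw [g5.nA w hwA]
          exact h5
      refine TF2_rs (fun w hw h5 => ?_) (fun w hw h5 => ?_) (fun w hw h5 => ?_)
        (fun w hw h5 => ?_)
      · left
        rw [g5.lo]
        exact c1 w hw h5
      · rw [g5.lo]
        exact c2 w hw h5
      · have hwA : w ∉ A := fun hwA => by
          have h6 := (mem_Ts.1 (g6 hwA)).2
          have h7 := R.le w
          omega
        rw [g5.nA w hwA]
        exact c3 w hw h5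
      · exact hhi2 w hw (c4 w hw h5)

end Pool.Agent.OCN
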