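import Pool.Agent.Lib_helper47.OCN.TGd

/-!
# MP_aeb124_co: the class TG, an attack inside of the right part of the staggered side at a gap which
some undecided element crosses
-/

set_option autoImplicit false

namespace Pool.Agent.OCN

variable {V : Type} {B : ℕ} {K : Finset V} {R R' : Rep V} {s m p : ℤ} {W d : ℕ}
  {δ : V → ℕ} {r : V → V → Prop} {x y z : V}

/-- the fields of `Sk` after the settlement of `z` above the chain -/
theorem Sk.col (h : Sk B K R s m W d) (hlo : ∀ w, w ≠ z → R'.lo w = R.lo w)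
    (hloz : R'.lo z = m) (hz1 : R.lo z < s) (hhi : ∀ w, R'.hi w = R.hi w)
    (hzm : m ≤ R.hi z) (hzs : ∀ w, w ∈ Zs K R' s ↔ w ∈ Zs K R s ∧ w ≠ z)
    (hts : ∀ w, w ∈ Ts K R' m ↔ w ∈ Ts K R m ∨ w = z) : Sk B K R' s m W d := by
  classical
  have hsm := h.sm
  have hrel : ∀ a b, R.rel a b → R'.rel a b := by
    intro a b hab
    unfold Rep.rel at hab ⊢
    rw [hhi]
    by_cases hbz : b = z
    · rw [hbz] at hab ⊢
      omega
    · rw [hlo b hbz]
      exact hab
  refine ⟨hsm, fun w hw => ?_, fun a ha b hb hab h1 h2 h3 h4 => ?_, ?_,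
    fun a ha b hb h1 h2 => ?_, fun w hw => ?_, ?_⟩
  · rw [hhi]
    by_cases hwz : w = z
    · rw [hwz, hloz]
      omega
    · rw [hlo w hwz]
      exact h.sep w hw
  · have key : ∀ w, R'.hi w < m → s ≤ R'.lo w → s ≤ R.lo w ∧ R.hi w < m := by
      intro w h5 h6
      rw [hhi] at h5
      have hwz : w ≠ z := by
        rintro rfl
        omega
      rw [hlo w hwz] at h6
      exact ⟨h6, h5⟩
    obtain ⟨e1, e2⟩ := key a h2 h1
    obtain ⟨e3, e4⟩ := key b h4 h3
    rcases h.cn a ha b hb hab e1 e2 e3 e4 with h5 | h5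
    · exact Or.inl (hrel _ _ h5)
    · exact Or.inr (hrel _ _ h5)
  · have hTT : Ts K R m ⊆ Ts K R' m := fun w hw => (hts w).2 (Or.inl hw)
    have h1 := Finset.card_le_card hTT
    have h2 := h.gN
    omega
  · have key : ∀ w, m < R'.lo w → R'.lo w = R.lo w := by
      intro w h5
      refine hlo w ?_
      rintro rfl
      omega
    have e1 := key a h1
    have e2 := key b (by omega)
    exact h.ir a ha b hb (by omega) (by omega)
  · exact (h.hd w ((hzs w).1 hw).1).trans (D_mono' fun a _ ha => hrel a w ha)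
  · refine h.ch.trans ?_
    unfold ua
    refine Finset.card_le_card fun b hb => ?_
    rw [Finset.mem_filter] at hb ⊢
    refine ⟨hb.1, ?_⟩
    rw [hlo b]
    · exact hb.2
    · rintro rfl
      omega

/-- the levels after an attack: the elements below all bad elements are raised -/
theorem raise_ba {Z : Finset V} {bad : V → Prop} {δ' : V → ℕ}
    (h1 : ∀ z, (∀ b ∈ Z, bad b → δ z < δ b) → δ' z = δ z + 1)
    (h2 : ∀ z, (∃ b ∈ Z, bad b ∧ δ b ≤ δ z) → δ' z = δ z)
    (hba : ∀ z ∈ Z, ∀ z' ∈ Z, δ z ≤ δ z' + 1) : ∀ z ∈ Z, ∀ z' ∈ Z, δ' z ≤ δ' z' + 1 := by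
  intro z hz z' hz'
  have h3 := hba z hz z' hz'
  have key : ∀ w, (∀ b ∈ Z, bad b → δ w < δ b) ∨ ∃ b ∈ Z, bad b ∧ δ b ≤ δ w := by
    intro w
    by_cases h4 : ∀ b ∈ Z, bad b → δ w < δ b
    · exact Or.inl h4
    · right
      by_contra h5
      exact h4 fun b hb hb' => by
        by_contra h6
        exact h5 ⟨b, hb, hb', by omega⟩
  rcases key z with h4 | h4
  · rw [h1 z h4]
    rcases key z' with h5 | h5
    · rw [h1 z' h5]
      omega
    · rw [h2 z' h5]
      obtain ⟨b, hb, hb1, hb2⟩ := h5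
      have := h4 b hb hb1
      omega
  · rw [h2 z h4]
    rcases key z' with h5 | h5
    · rw [h1 z' h5]
      omega
    · rw [h2 z' h5]
      exact h3

variable [Fintype V]

/-- a gap which some undecided element crosses -/
theorem TG1.attTT_in (h : TG1 B K R s m W d δ) (hr : Loc r K R) (hxy : x ≠ y)
    (hx : x ∈ Ts K R m) (hy : y ∈ Ts K R m) (hcx : R.Cr x p) (hcy : R.Cr y p)
    (hin : ∃ z ∈ Zs K R s, p ≤ R.hi z) :
    ∃ (r' : V → V → Prop) (R' : Rep V) (δ' : V → ℕ), Loc r' K R' ∧ (∀ a b, r a b → r' a b) ∧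
      r' x y ∧ newP r r' ≤ B ∧ TG1 B K R' s m W d δ' := by
  classical
  obtain ⟨h, hF, hM⟩ := h
  have hsm := h.sm
  obtain ⟨hxK, hxm⟩ := mem_Ts.1 hx
  obtain ⟨hyK, hym⟩ := mem_Ts.1 hy
  have hx1 := hcx.1
  have hy1 := hcy.1
  have hpm : m ≤ p := by omega
  have hps : s ≤ p := by omega
  have hne : ∀ w ∈ Zs K R s, w ≠ x ∧ w ≠ y := fun w hw => by
    have := (mem_Zs.1 hw).2.1
    constructor
    · rintro rfl
      omega
    · rintro rfl
      omega
  obtain ⟨z1, hz1, hz1p⟩ := hin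
  obtain ⟨z0, hz0, hmax⟩ := Finset.exists_max_image (Zs K R s) R.hi ⟨z1, hz1⟩
  have hz0p : p ≤ R.hi z0 := hz1p.trans (hmax z1 hz1)
  obtain ⟨hz0K, hz01, hz02⟩ := mem_Zs.1 hz0
  obtain ⟨r1, g1, g2, g3, g4⟩ := op_cut hr p x y hxy hxK hyK hcx hcy
  have hcrw := fun (w : V) (hwx : w ≠ x) (hwy : w ≠ y) q =>
    Cr_cut_iff (R := R) hxy hcx hcy hwx hwy q
  have hcrx := Cr_cut_x (R := R) hxy hcx hcy
  have hcry := Cr_cut_y (R := R) hxy hcx hcy
  have hN1 := N_cut_T (K := K) hxy hcx hcy hpm hyK hym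
  have hsk1 := h.sk.cut hxy hcx hcy hpm hyK
  have hrs1 := RS_cut (K := K) hxy hcx hcy hpm
  obtain ⟨R1, hR1⟩ : ∃ R1, R1 = R.cut p x y hxy hcx hcy := ⟨_, rfl⟩
  rw [← hR1] at g1 hcrw hcrx hcry hN1 hsk1 hrs1
  have hZ1 : ∀ w, w ∈ Zs K R1 s ↔ w ∈ Zs K R s := fun w => by
    rw [hR1, Zs_cutR K R s p x y hxy hcx hcy hps,
      Finset.erase_eq_of_notMem (fun hyZ => (hne y hyZ).2 rfl)]
  have hL1 : Ls K R1 m = Ls K R m := by
    rw [hR1]
    exact Ls_cutR K R m p x y hxy hcx hcy hpm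
  have hlo1y : R1.lo y = p + 1 := by
    rw [hR1]
    exact lo_cut_y R p x y hxy hcx hcy
  have hlo1 : ∀ w ∈ Zs K R s, R1.lo w = R.lo w := fun w hw => by
    rw [hR1]
    exact lo_cut R p x y hxy hcx hcy w (hne w hw).2 (by have := (mem_Zs.1 hw).2.1; omega)
  have hhi1 : ∀ w ∈ Zs K R s, p ≤ R.hi w → R1.hi w = R.hi w + 1 := fun w hw hwp => by
    rw [hR1]
    exact hi_cut_ge R p x y hxy hcx hcy w (hne w hw).1 hwp
  have hhi1' : ∀ w, R.hi w < p → R1.hi w = R.hi w := fun w hwp => by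
    rw [hR1]
    exact hi_cut_lt R p x y hxy hcx hcy w hwp
  have hU1 : ∀ w ∈ Zs K R s, p ≤ R.hi w → R1.U K w = R.U K w := fun w hw hwp => by
    rw [hR1]
    exact U_cut_ge K R p x y hxy hcx hcy w (hne w hw).1 hwp
  have hU1' : ∀ w, R.hi w < p → R1.U K w = R.U K w + (if R.lo y ≤ R.hi w then 1 else 0) :=
    fun w hwp => by
      rw [hR1]
      exact U_cut_lt K R p x y hxy hcx hcy hyK w hwp
  have hhi1le : ∀ w ∈ Zs K R s, R1.hi w ≤ R1.hi z0 := by
    intro w hw
    have h1 := hmax w hw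
    rw [hhi1 z0 hz0 hz0p]
    by_cases hwp : p ≤ R.hi w
    · rw [hhi1 w hw hwp]
      omega
    · rw [hhi1' w (by omega)]
      omega
  -- the column
  obtain ⟨r2, R2, k1, k2, k3, k4, hlo2, hlo2z, hhi2, hrs2, hZ2a, hT2⟩ :=
    op_column (z := z0) hsm g1 ((hZ1 z0).2 hz0) (by rw [hhi1 z0 hz0 hz0p]; omega)
  have hZ2 : ∀ w, w ∈ Zs K R2 s ↔ w ∈ Zs K R s ∧ w ≠ z0 := fun w => by rw [hZ2a, hZ1]
  have hsk2 : Sk B K R2 s m W d := hsk1.col hlo2 hlo2z (by rw [hlo1 z0 hz0]; exact hz01) hhi2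
    (by rw [hhi1 z0 hz0 hz0p]; omega) hZ2a hT2
  have hyz0 : y ≠ z0 := fun he => (hne z0 hz0).2 he.symm
  have hua2 : ∀ q, m ≤ q → ua K R2 q = ua K R1 q := by
    intro q hq
    unfold ua
    congr 1
    refine Finset.filter_congr fun b _ => ?_
    by_cases hbz : b = z0
    · rw [hbz, hlo2z, hlo1 z0 hz0]
      constructor <;> intro <;> omega
    · rw [hlo2 b hbz]
  have hU2 : ∀ w, m ≤ R1.hi w → R2.U K w = R1.U K w := fun w hw => by
    rw [U_eq_ua, U_eq_ua, hhi2, hua2 _ hw]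
  have hm1 : ∀ w ∈ Zs K R s, m ≤ R1.hi w := fun w hw => hsk1.hz ((hZ1 w).2 hw)
  -- the steps down
  obtain ⟨A, hA⟩ : ∃ A, A = (Zs K R s).filter fun a => a ≠ z0 ∧ δ a = R.U K a ∧
      (p ≤ R.hi a ∨ (R.hi a < R.lo y ∧ δ a < W)) := ⟨_, rfl⟩
  have hmA : ∀ a, a ∈ A ↔ a ∈ Zs K R s ∧ a ≠ z0 ∧ δ a = R.U K a ∧
      (p ≤ R.hi a ∨ (R.hi a < R.lo y ∧ δ a < W)) := fun a => by
    rw [hA, Finset.mem_filter]
  obtain ⟨r3, R3, l1, l2, l3, l4⟩ := op_lowN k1 hsk2.ir hsm (fun z hz => hsk2.hz hz) A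
    (fun a ha => (hZ2 a).2 ⟨((hmA a).1 ha).1, ((hmA a).1 ha).2.1⟩)
    (fun a ha => by
      obtain ⟨ha1, ha2, ha3, ha4⟩ := (hmA a).1 ha
      rcases ha4 with ha4 | ha4
      · rw [U_eq_ua]
        refine ua_lt hyK ?_ ?_
        · rw [hlo2 y hyz0, hlo1y]
          omega
        · rw [hlo2 y hyz0, hlo1y, hhi2, hhi1 a ha1 ha4]
          omega
      · rw [hU2 a (hm1 a ha1), hU1' a (by omega), if_neg (by omega)]
        have := hsk2.ch
        omega) (fun _ => False)
  have hZ3 : ∀ w, w ∈ Zs K R3 s ↔ w ∈ Zs K R s ∧ w ≠ z0 := fun w => by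
    rw [l4.zs hsm]
    exact hZ2 w
  have hZ3' : Zs K R3 s = (Zs K R s).erase z0 := by
    ext w
    rw [hZ3, Finset.mem_erase]
    exact and_comm
  -- the values of `U`
  have hU3 : ∀ w ∈ Zs K R s, w ≠ z0 → R3.U K w = R.U K w +
      (if w ∈ A ∨ (R.lo y ≤ R.hi w ∧ R.hi w < p) then 1 else 0) := by
    intro w hw hw0
    by_cases hwA : w ∈ A
    · rw [if_pos (Or.inl hwA), l4.up w hwA, hU2 w (hm1 w hw)]
      rcases ((hmA w).1 hwA).2.2.2 with h2 | h2
      · rw [hU1 w hw h2]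
      · rw [hU1' w (by omega), if_neg (by omega)]
    · rw [l4.up' w hwA, hU2 w (hm1 w hw)]
      by_cases hwp : p ≤ R.hi w
      · have h3 : ¬ (w ∈ A ∨ (R.lo y ≤ R.hi w ∧ R.hi w < p)) := by
          rintro (h2 | h2)
          · exact hwA h2
          · omega
        rw [hU1 w hw hwp, if_neg h3, add_zero]
      · rw [hU1' w (by omega)]
        by_cases h2 : R.lo y ≤ R.hi w
        · rw [if_pos h2, if_pos (Or.inr ⟨h2, by omega⟩)]
        · have h4 : ¬ (w ∈ A ∨ (R.lo y ≤ R.hi w ∧ R.hi w < p)) := by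
            rintro (h3 | h3)
            · exact hwA h3
            · exact h2 h3.1
          rw [if_neg h2, if_neg h4]
  -- the levels
  obtain ⟨bad, hbad⟩ : ∃ bad : V → Prop, bad = fun b => δ b = R.U K b ∧ R.hi b < R.lo y ∧
      W ≤ δ b := ⟨_, rfl⟩
  have hmb : ∀ b, bad b ↔ δ b = R.U K b ∧ R.hi b < R.lo y ∧ W ≤ δ b := fun b => by rw [hbad]
  obtain ⟨δ', hδ⟩ : ∃ δ' : V → ℕ, δ' = fun z =>
      if (∀ b ∈ Zs K R s, bad b → δ z < δ b) then δ z + 1 else δ z := ⟨_, rfl⟩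
  have hδ1 : ∀ z, (∀ b ∈ Zs K R s, bad b → δ z < δ b) → δ' z = δ z + 1 := fun z h2 => by
    rw [hδ]
    exact if_pos h2
  have hδ2 : ∀ z, (∃ b ∈ Zs K R s, bad b ∧ δ b ≤ δ z) → δ' z = δ z := fun z h2 => by
    rw [hδ]
    refine if_neg fun h3 => ?_
    obtain ⟨b, hb, hb1, hb2⟩ := h2
    have := h3 b hb hb1
    omega
  have hδ3 : ∀ z, δ' z = δ z + 1 ∨ (δ' z = δ z ∧ ∃ b ∈ Zs K R s, bad b ∧ δ b ≤ δ z) := by
    intro z
    by_cases h4 : ∀ b ∈ Zs K R s, bad b → δ z < δ b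
    · exact Or.inl (hδ1 z h4)
    · have h5 : ∃ b ∈ Zs K R s, bad b ∧ δ b ≤ δ z := by
        by_contra h5
        exact h4 fun b hb hb' => by
          by_contra h6
          exact h5 ⟨b, hb, hb', by omega⟩
      exact Or.inr ⟨hδ2 z h5, h5⟩
  have hba' := raise_ba hδ1 hδ2 h.ba
  -- a tight element which starts a step or gets one is raised
  have hgain : ∀ w ∈ Zs K R s, δ w = R.U K w → (w ∈ A ∨ (R.lo y ≤ R.hi w ∧ R.hi w < p)) →
      δ' w = δ w + 1 := by
    intro w hw h2 h3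
    refine hδ1 w fun b hb hb1 => ?_
    obtain ⟨hb2, hb3, hb4⟩ := (hmb b).1 hb1
    have h4 : R.lo y ≤ R.hi w → R.U K w < R.U K b := fun h5 => by
      rw [U_eq_ua, U_eq_ua]
      exact ua_lt hyK hb3 h5
    rcases h3 with h3 | h3
    · rcases ((hmA w).1 h3).2.2.2 with h5 | h5
      · have := h4 (by omega)
        omega
      · omega
    · have := h4 h3.1
      omega
  have hdU' : ∀ w ∈ Zs K R s, w ≠ z0 → δ' w ≤ R3.U K w := by
    intro w hw hw0
    have h2 := h.dU w hw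
    rw [hU3 w hw hw0]
    by_cases h3 : δ w = R.U K w
    · by_cases h4 : w ∈ A ∨ (R.lo y ≤ R.hi w ∧ R.hi w < p)
      · rw [hgain w hw h3 h4, if_pos h4]
        omega
      · rw [if_neg h4, add_zero]
        rcases hδ3 w with h5 | h5
        · exfalso
          -- `w` is bad
          have h6 : bad w := by
            rw [hmb]
            have h7 : ¬ p ≤ R.hi w := fun h7 => h4 (Or.inl ((hmA w).2 ⟨hw, hw0, h3, Or.inl h7⟩))
            have h8 : ¬ R.lo y ≤ R.hi w := fun h8 => h4 (Or.inr ⟨h8, by omega⟩)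
            refine ⟨h3, by omega, ?_⟩
            by_contra h9
            exact h4 (Or.inl ((hmA w).2 ⟨hw, hw0, h3, Or.inr ⟨by omega, by omega⟩⟩))
          have := hδ2 w ⟨w, hw, h6, le_rfl⟩
          omega
        · omega
    · have : δ' w ≤ δ w + 1 := by
        rcases hδ3 w with h5 | h5 <;> omega
      omega
  have hnt : ∀ w ∈ Zs K R s, w ≠ z0 → δ' w < R3.U K w → δ w < R.U K w ∧ w ∉ A := by
    intro w hw hw0 h2
    have h3 := h.dU w hw
    rw [hU3 w hw hw0] at h2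
    by_cases h4 : δ w = R.U K w
    · exfalso
      by_cases h5 : w ∈ A ∨ (R.lo y ≤ R.hi w ∧ R.hi w < p)
      · rw [hgain w hw h4 h5, if_pos h5] at h2
        omega
      · rw [if_neg h5] at h2
        rcases hδ3 w with h6 | h6 <;> omega
    · exact ⟨by omega, fun h5 => h4 ((hmA w).1 h5).2.2.1⟩
  have hcr1 : ∀ w q, R1.Cr w q → R.Cr w (if q ≤ p then q else q - 1) := by
    intro w q h2
    have h3 : (q ≤ p ∧ R.Cr w q) ∨ (p < q ∧ R.Cr w (q - 1)) := by
      by_cases hwx : w = x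
      · rw [hwx] at h2 ⊢
        exact Or.inl ((hcrx q).1 h2)
      · by_cases hwy : w = y
        · rw [hwy] at h2 ⊢
          exact Or.inr ((hcry q).1 h2)
        · exact (hcrw w hwx hwy q).1 h2
    rcases h3 with h3 | h3
    · rw [if_pos h3.1]
      exact h3.2
    · rw [if_neg (by omega)]
      exact h3.2
  have hcr2 : ∀ w q, R2.Cr w q → R1.Cr w q := by
    rintro w q ⟨h2, h3⟩
    rw [hhi2] at h3
    refine ⟨?_, h3⟩
    by_cases hwz : w = z0
    · rw [hwz, hlo2z] at h2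
      rw [hwz, hlo1 z0 hz0]
      omega
    · rw [← hlo2 w hwz]
      exact h2
  have hrel1 : ∀ a b, R.rel a b → R1.rel a b := fun a b hab => by
    rw [hR1]
    exact (R.rel_cut p x y hxy hcx hcy a b).2 (Or.inl hab)
  have hrel2 : ∀ a b, R1.rel a b → R2.rel a b := by
    intro a b hab
    unfold Rep.rel at hab ⊢
    rw [hhi2]
    by_cases hbz : b = z0
    · rw [hbz, hlo1 z0 hz0] at hab
      rw [hbz, hlo2z]
      omega
    · rw [hlo2 b hbz]
      exact hab
  have hUm : ∀ w ∈ K, R.U K w ≤ R3.U K w := fun w hw =>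
    (Rep.U_mono (fun a _ b _ hab => hrel2 a b (hrel1 a b hab)) hw).trans (l4.U_le w)
  refine ⟨r3, R3, δ', l1, fun a b hab => l2 a b (k2 a b (g2 a b hab)), l2 x y (k2 x y g3), ?_,
    ?_, ?_, ?_⟩
  · -- the cost
    obtain ⟨A1, hA1⟩ : ∃ A1, A1 = A.filter fun a => p ≤ R.hi a := ⟨_, rfl⟩
    obtain ⟨A2, hA2⟩ : ∃ A2, A2 = A.filter fun a => R.hi a < R.lo y := ⟨_, rfl⟩
    have h5 := h.sr p hpm z0 hz0 ⟨by omega, hz0p⟩ x hxK hcx (fun he => (hne z0 hz0).1 he.symm)
    have h6 := N_ge_T K R m p (insert z0 A1) (by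
      intro a ha
      rw [h.zm]
      rcases Finset.mem_insert.1 ha with rfl | ha
      · exact hz0
      · rw [hA1] at ha
        exact ((hmA a).1 (Finset.mem_filter.1 ha).1).1) hpm (by
      intro a ha
      rcases Finset.mem_insert.1 ha with rfl | ha
      · exact hz0p
      · rw [hA1] at ha
        exact (Finset.mem_filter.1 ha).2)
    rw [Finset.card_insert_of_notMem (fun h7 => by
      rw [hA1] at h7
      exact ((hmA z0).1 (Finset.mem_filter.1 h7).1).2.1 rfl)] at h6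
    have h7 := D_ge_L K R m hym A2 (fun a ha => by
      rw [hA2] at ha
      rw [h.zm]
      exact ((hmA a).1 (Finset.mem_filter.1 ha).1).1) (fun a ha => by
      rw [hA2] at ha
      exact (Finset.mem_filter.1 ha).2)
    have h8 := hsk1.hd z0 ((hZ1 z0).2 hz0)
    have h9 := newP_trans (r := r) (r' := r1) (r'' := r3)
    have h10 := newP_trans (r := r1) (r' := r2) (r'' := r3)
    have h11 : A.card ≤ A1.card + A2.card := by
      refine le_trans (Finset.card_le_card (t := A1 ∪ A2) fun a ha => ?_)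
        (Finset.card_union_le _ _)
      rw [Finset.mem_union, hA1, hA2, Finset.mem_filter, Finset.mem_filter]
      rcases ((hmA a).1 ha).2.2.2 with h12 | h12
      · exact Or.inl ⟨ha, h12⟩
      · exact Or.inr ⟨ha, h12.1⟩
    rw [hL1] at k4
    omega
  · refine (hsk2.low l4).sg (fun q hq z hz hzq t ht htq htz => ?_) (fun z hz z' hz' => ?_)
      (fun z hz => ?_)
    · obtain ⟨hz3, hzz⟩ := (hZ3 z).1 hz
      have hz4 := hcr2 z q (l4.cr hzq)
      have hz5 := hcr1 z q hz4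
      have ht5 := hcr1 t q (hcr2 t q (l4.cr htq))
      have hog : m ≤ (if q ≤ p then q else q - 1) := by
        split_ifs <;> omega
      have h5 := h.sr _ hog z hz3 hz5 t ht ht5 htz
      have h6 := hN1 q
      have h7 := hUm t ht
      have h8 : (if (q ≤ p ∧ R.lo y ≤ q) ∨ p < q then 1 else 0) ≤ 1 := by
        split_ifs <;> omega
      -- the element `z0` crosses the gap
      have h9 : R1.N (Ts K R1 m) q + 1 ≤ R3.N (Ts K R3 m) q := by
        rw [l4.N hsm q]
        unfold Rep.N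
        have h10 : z0 ∉ (Ts K R1 m).filter fun w => R1.Cr w q := fun h11 => by
          have := (mem_Ts.1 (Finset.mem_filter.1 h11).1).2
          rw [hlo1 z0 hz0] at this
          omega
        rw [← Finset.card_insert_of_notMem h10]
        refine Finset.card_le_card fun w hw => ?_
        rw [Finset.mem_filter]
        rcases Finset.mem_insert.1 hw with hw' | hw'
        · rw [hw']
          refine ⟨(hT2 z0).2 (Or.inr rfl), by rw [hlo2z]; exact hq, ?_⟩
          have := hhi1le z hz3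
          have := hz4.2
          rw [hhi2]
          omega
        · obtain ⟨h11, h12⟩ := Finset.mem_filter.1 hw'
          refine ⟨(hT2 w).2 (Or.inl h11), ?_⟩
          have hwz : w ≠ z0 := fun he => by
            rw [he] at hw'
            exact h10 hw'
          exact ⟨by rw [hlo2 w hwz]; exact h12.1, by rw [hhi2]; exact h12.2⟩
      have h10 : bon K R3 s δ' q ≤ bon K R s δ (if q ≤ p then q else q - 1) := by
        unfold bon
        refine Finset.card_le_card fun w hw => ?_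
        rw [Finset.mem_filter] at hw ⊢
        obtain ⟨hw1, hw2, hw3⟩ := hw
        obtain ⟨hw4, hw5⟩ := (hZ3 w).1 hw1
        obtain ⟨h11, h12⟩ := hnt w hw4 hw5 hw2
        rw [l4.nA w h12 (fun h => h), hhi2] at hw3
        refine ⟨hw4, h11, ?_⟩
        by_cases hwp : p ≤ R.hi w
        · rw [hhi1 w hw4 hwp] at hw3
          rw [if_neg (by omega)]
          omega
        · rw [hhi1' w (by omega)] at hw3
          split_ifs <;> omega
      omega
    · exact hba' z ((hZ3 z).1 hz).1 z' ((hZ3 z').1 hz').1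
    · exact hdU' z ((hZ3 z).1 hz).1 ((hZ3 z).1 hz).2
  · exact ((hF.of_LS (RS.of_m hsm h.sep hrs1)).of_LS (RS.of_m hsm hsk1.sep hrs2)).of_LS
      (RS.of_m hsm hsk2.sep (l4.rs fun z hz => hsk2.hz hz))
  · refine hM.gain h.ba hz0 hZ3' (fun w hw => ?_)
    rcases hδ3 w with h2 | ⟨h2, b, hb, hb1, hb2⟩
    · exact Or.inl (le_of_eq h2.symm)
    · right
      have := ((hmb b).1 hb1).2.2
      omega

end Pool.Agent.OCN
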