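import Pool.Agent.Lib_helper47.OCN.TGc

/-!
# MP_aeb124_co: the class TG, an attack inside of the right part of the staggered side at a gap which
no undecided element crosses (block TS8)
-/

set_option autoImplicit false

namespace Pool.Agent.OCN

variable {V : Type} [Fintype V] {B : ℕ} {K : Finset V} {R : Rep V} {s m p : ℤ} {W d : ℕ}
  {δ : V → ℕ} {r : V → V → Prop} {x y : V}

/-- (block TS8) the gap `p` is not crossed by undecided elements -/
theorem TG1.attTT_out (h : TG1 B K R s m W d δ) (hr : Loc r K R) (hxy : x ≠ y)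
    (hx : x ∈ Ts K R m) (hy : y ∈ Ts K R m) (hcx : R.Cr x p) (hcy : R.Cr y p)
    (hout : ∀ z ∈ Zs K R s, R.hi z < p) :
    ∃ (r' : V → V → Prop) (R' : Rep V) (δ' : V → ℕ), Loc r' K R' ∧ (∀ a b, r a b → r' a b) ∧
      r' x y ∧ newP r r' ≤ B ∧ TG1 B K R' s m W d δ' := by
  classical
  obtain ⟨hG, hF, hM⟩ := h
  obtain ⟨hxK, hx1⟩ := mem_Ts.1 hx
  obtain ⟨hyK, hy1⟩ := mem_Ts.1 hy
  have hsm := hG.sm
  have hmp : m ≤ p := hx1.trans hcx.1
  have hps : s ≤ p := hsm.trans hmp
  have hL : K.card ≤ B + (Ls K R s).card := by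
    have h1 := hF.gT
    rw [Ts_dual] at h1
    exact h1
  have hyZ : y ∉ Zs K R s := fun h1 => by
    have := (mem_Zs.1 h1).2.1
    omega
  obtain ⟨r1, g1, g2, g3, g4⟩ := op_cut hr p x y hxy hxK hyK hcx hcy
  obtain ⟨R1, hR1⟩ : ∃ R1, R1 = R.cut p x y hxy hcx hcy := ⟨_, rfl⟩
  rw [← hR1] at g1
  have hir1 : InjS K R1 m := by
    rw [hR1]
    exact hG.ir.cut K R m p x y hxy hcx hcy hmp
  obtain ⟨A, hA⟩ : ∃ A, A = (Ts K R m).filter fun a => a ≠ x ∧ a ≠ y ∧ R.Cr a p ∧
      ∃ z ∈ Zs K R s, R.lo a ≤ R.hi z := ⟨_, rfl⟩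
  have hmA : ∀ a, a ∈ A ↔ a ∈ Ts K R m ∧ a ≠ x ∧ a ≠ y ∧ R.Cr a p ∧
      ∃ z ∈ Zs K R s, R.lo a ≤ R.hi z := fun a => by
    rw [hA, Finset.mem_filter]
  have hATs : A ⊆ Ts K R m := fun a ha => ((hmA a).1 ha).1
  have hlo1y : R1.lo y = p + 1 := by
    rw [hR1]
    exact lo_cut_y R p x y hxy hcx hcy
  have hhi1 : ∀ a, a ≠ x → p ≤ R.hi a → R1.hi a = R.hi a + 1 := fun a ha ha' => by
    rw [hR1]
    exact hi_cut_ge R p x y hxy hcx hcy a ha ha'
  obtain ⟨r2, R2, k1, k2, k3, k4⟩ := op_low g1 (hir1.mono hmp) A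
    (fun a ha => (mem_Ts.1 (hATs ha)).1)
    (fun a ha => by
      obtain ⟨ha1, ha2, ha3, ha4, _⟩ := (hmA a).1 ha
      have h5 : R1.lo a = R.lo a := by
        rw [hR1]
        exact lo_cut R p x y hxy hcx hcy a ha3 ha4.1
      have h6 := hhi1 a ha2 ha4.2
      have h7 := ha4.2
      refine ⟨by rw [h5]; exact ha4.1, by omega, ?_⟩
      rw [U_eq_ua]
      exact ua_lt hyK (by omega) (by omega))
  -- the new representation
  have e1 : ∀ w, R.lo w < m → R2.lo w = R.lo w := by
    intro w hw
    have hwy : w ≠ y := by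
      rintro rfl
      omega
    rw [k4.lo, hR1]
    exact lo_cut R p x y hxy hcx hcy w hwy (by omega)
  have e2 : ∀ w, m ≤ R.lo w → m ≤ R2.lo w := by
    intro w hw
    rw [k4.lo, hR1]
    unfold Rep.cut
    simp only
    split_ifs <;> omega
  have e3 : ∀ w, R.hi w < p → R2.hi w = R.hi w := by
    intro w hw
    have hwA : w ∉ A := fun h1 => by
      have := ((hmA w).1 h1).2.2.2.1.2
      omega
    rw [k4.nA w hwA, hR1]
    exact hi_cut_lt R p x y hxy hcx hcy w hw
  have e4 : ∀ w, p ≤ R.hi w → p ≤ R2.hi w := by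
    intro w hw
    by_cases hwA : w ∈ A
    · exact k4.ge w hwA
    · rw [k4.nA w hwA]
      by_cases hwx : w = x
      · rw [hwx, hR1, hi_cut_x R p x y hxy hcx hcy]
      · rw [hhi1 w hwx hw]
        omega
  have hrel1 : ∀ a ∈ K, ∀ b ∈ K, R.rel a b → R1.rel a b := fun a _ b _ hab => by
    rw [hR1]
    exact (R.rel_cut p x y hxy hcx hcy a b).2 (Or.inl hab)
  have hrel : ∀ a ∈ K, ∀ b ∈ K, R.rel a b → R2.rel a b := fun a ha b hb hab =>
    k4.rel (hrel1 a ha b hb hab)
  have hZ : Zs K R2 s = Zs K R s := by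
    rw [k4.zs hps, hR1, Zs_cutR K R s p x y hxy hcx hcy hps, Finset.erase_eq_of_notMem hyZ]
  have hT : Ts K R2 m = Ts K R m := by
    rw [k4.ts, hR1, Ts_cutR K R m p x y hxy hcx hcy hmp hyK, Finset.insert_eq_of_mem hy]
  have hZA : ∀ z ∈ Zs K R s, z ∉ A := fun z hz h1 => by
    have := hout z hz
    have := ((hmA z).1 h1).2.2.2.1.2
    omega
  have hUz : ∀ z ∈ Zs K R s,
      R2.U K z = R.U K z + (if R.lo y ≤ R.hi z then 1 else 0) := by
    intro z hz
    rw [k4.up' (hZA z hz), hR1]
    exact U_cut_lt K R p x y hxy hcx hcy hyK z (hout z hz)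
  have hUm : ∀ w ∈ K, R.U K w ≤ R2.U K w := fun w hw =>
    Rep.U_mono (fun a ha b hb hab => hrel a ha b hb hab) hw
  have hRS : RS K R R2 m := by
    have f0 : ∀ (R : Rep V) w, R.dual.lo w = -R.hi w := fun R w => rfl
    have f1 : ∀ (R : Rep V) w, R.dual.hi w = -R.lo w := fun R w => rfl
    refine ⟨fun w hw h1 => ?_, fun w hw h1 => ?_, fun w hw h1 => ?_, fun w hw h1 => ?_⟩
    · left
      rw [f1] at h1
      rw [f1, f1, e1 w (by omega)]
    · rw [f1] at h1 ⊢
      have := e2 w (by omega)
      omega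
    · rw [f0] at h1
      rw [f0, f0, e3 w (by omega)]
    · rw [f0] at h1 ⊢
      by_cases hwp : R.hi w < p
      · rw [e3 w hwp]
        exact h1
      · have := e4 w (by omega)
        omega
  -- the levels
  obtain ⟨P, hP⟩ : ∃ P : V → Prop, ∀ z, P z ↔ ∀ b ∈ Zs K R s, δ b = R.U K b →
      R.hi b < R.lo y → δ z < δ b := ⟨fun z => ∀ b ∈ Zs K R s, δ b = R.U K b →
      R.hi b < R.lo y → δ z < δ b, fun z => Iff.rfl⟩
  obtain ⟨δ', hδ⟩ : ∃ δ' : V → ℕ, δ' = fun z => if P z then δ z + 1 else δ z := ⟨_, rfl⟩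
  have hδ1 : ∀ z, P z → δ' z = δ z + 1 := fun z hz => by
    rw [hδ]
    exact if_pos hz
  have hδ2 : ∀ z, ¬ P z → δ' z = δ z := fun z hz => by
    rw [hδ]
    exact if_neg hz
  have hδle : ∀ z, δ z ≤ δ' z := fun z => by
    by_cases hz : P z
    · rw [hδ1 z hz]
      exact Nat.le_succ _
    · rw [hδ2 z hz]
  -- a tight element stays tight
  have htight : ∀ z ∈ Zs K R s, δ z = R.U K z → δ' z = R2.U K z := by
    intro z hz h1
    rw [hUz z hz]
    by_cases h2 : R.lo y ≤ R.hi z
    · rw [if_pos h2]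
      have h3 : P z := by
        rw [hP]
        intro b hb h4 h5
        rw [h1, h4, U_eq_ua, U_eq_ua]
        exact ua_lt hyK h5 h2
      rw [hδ1 z h3, h1]
    · rw [if_neg h2]
      have h3 : ¬ P z := by
        rw [hP]
        intro h4
        have := h4 z hz h1 (by omega)
        omega
      rw [hδ2 z h3, h1, add_zero]
  have hdU : ∀ z ∈ Zs K R s, δ' z ≤ R2.U K z := by
    intro z hz
    have h1 := hG.dU z hz
    have h2 := hUm z (mem_Zs.1 hz).1
    by_cases h3 : δ z = R.U K z
    · exact le_of_eq (htight z hz h3)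
    · by_cases h4 : P z
      · rw [hδ1 z h4]
        omega
      · rw [hδ2 z h4]
        omega
  have hba : ∀ z ∈ Zs K R s, ∀ z' ∈ Zs K R s, δ' z ≤ δ' z' + 1 := by
    intro z hz z' hz'
    have h1 := hG.ba z hz z' hz'
    have h2 := hδle z'
    by_cases h3 : P z
    · rw [hδ1 z h3]
      by_cases h4 : P z'
      · rw [hδ1 z' h4]
        omega
      · rw [hP] at h4
        push Not at h4
        obtain ⟨b, hb, h5, h6, h7⟩ := h4
        have h8 := (hP z).1 h3 b hb h5 h6
        omega
    · rw [hδ2 z h3]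
      omega
  have hbon : ∀ q, bon K R2 s δ' q ≤ bon K R s δ q := by
    intro q
    unfold bon
    refine Finset.card_le_card fun w hw => ?_
    rw [Finset.mem_filter, hZ] at hw
    rw [Finset.mem_filter]
    obtain ⟨h1, h2, h3⟩ := hw
    rw [e3 w (hout w h1)] at h3
    refine ⟨h1, ?_, h3⟩
    have h4 := hG.dU w h1
    have h5 : δ w ≠ R.U K w := fun h6 => by
      have := htight w h1 h6
      omega
    omega
  -- the price
  have hcost : newP r r2 ≤ B := by
    have h5 := D_ge_L K R s (hsm.trans hy1) ∅ (Finset.empty_subset _) (fun a ha =>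
      absurd ha (Finset.notMem_empty _))
    have h6 : A.card + 2 ≤ R.N K p := by
      have hxA : x ∉ A := fun h => ((hmA x).1 h).2.1 rfl
      have hyA : y ∉ insert x A := fun h => by
        rcases Finset.mem_insert.1 h with h | h
        · exact hxy h.symm
        · exact ((hmA y).1 h).2.2.1 rfl
      have h7 : (insert y (insert x A)).card = A.card + 2 := by
        rw [Finset.card_insert_of_notMem hyA, Finset.card_insert_of_notMem hxA]
      rw [← h7]
      unfold Rep.N
      refine Finset.card_le_card fun a ha => ?_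
      rw [Finset.mem_filter]
      rcases Finset.mem_insert.1 ha with rfl | ha
      · exact ⟨hyK, hcy⟩
      rcases Finset.mem_insert.1 ha with rfl | ha
      · exact ⟨hxK, hcx⟩
      · exact ⟨(mem_Ts.1 (hATs ha)).1, ((hmA a).1 ha).2.2.2.1⟩
    have h8 := newP_trans (r := r) (r' := r1) (r'' := r2)
    rw [Finset.card_empty] at h5
    omega
  refine ⟨r2, R2, δ', k1, fun a b hab => k2 a b (g2 a b hab), k2 x y g3, hcost,
    ⟨hsm, ?_, ?_, ?_, ?_, hir1.congr k4.lo, ?_, ?_, ?_, ?_⟩,
    hF.of_LS (RS.of_m hsm hG.sep hRS), ?_⟩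
  · -- sep
    intro w hw
    have h1 := R.le w
    rcases hG.sep w hw with h2 | h2 | h2 | h2
    · left
      rw [e3 w (by omega)]
      exact h2
    · right
      left
      rw [e3 w (by omega), e1 w (by omega)]
      exact h2
    · right
      right
      left
      rw [e1 w (by omega), e3 w (hout w (mem_Zs.2 ⟨hw, h2.1, by omega⟩))]
      exact h2
    · right
      right
      right
      exact e2 w h2
  · -- the chain
    intro a ha b hb hab h1 h2 h3 h4
    have key : ∀ w, s ≤ R2.lo w → R2.hi w < m → s ≤ R.lo w ∧ R.hi w < m := by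
      intro w h5 h6
      have h7 : R.hi w < p := by
        by_contra h8
        have := e4 w (by omega)
        omega
      rw [e3 w h7] at h6
      have h9 := R.le w
      rw [e1 w (by omega)] at h5
      exact ⟨h5, h6⟩
    obtain ⟨h5, h6⟩ := key a h1 h2
    obtain ⟨h7, h8⟩ := key b h3 h4
    rcases hG.cn a ha b hb hab h5 h6 h7 h8 with h9 | h9
    · exact Or.inl (hrel a ha b hb h9)
    · exact Or.inr (hrel b hb a ha h9)
  · rw [hT]
    exact hG.gN
  · -- the heights
    intro q hq z hz hzq t ht htq htz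
    rw [hZ] at hz
    have hzp := hout z hz
    have hqz : q ≤ R.hi z := by
      have := hzq.2
      rw [e3 z hzp] at this
      exact this
    have hqp : q < p := by omega
    have hcr : ∀ w, R2.Cr w q ↔ R.Cr w q ∧ w ≠ y := fun w => by
      rw [k4.cr_iff w (by omega), hR1]
      exact Cr_cut_left R p p x y hxy hcx hcy le_rfl w q hqp
    obtain ⟨htq1, hty⟩ := (hcr t).1 htq
    obtain ⟨hzq1, _⟩ := (hcr z).1 hzq
    have h5 := hG.sr q hq z hz hzq1 t ht htq1 htz
    have h9 := hbon q
    rw [hT]
    have hUt : R1.U K t ≤ R2.U K t := k4.U_le t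
    have hUt1 : R.U K t ≤ R1.U K t := Rep.U_mono hrel1 ht
    by_cases hyq : R.Cr y q
    · -- one height is lost, and `U t` has gained one
      have h6 : R.N (Ts K R m) q ≤ R2.N (Ts K R m) q + 1 := by
        unfold Rep.N
        have h7 : ((Ts K R m).filter fun w => R.Cr w q) ⊆
            insert y ((Ts K R m).filter fun w => R2.Cr w q) := by
          intro w hw
          rw [Finset.mem_filter] at hw
          rw [Finset.mem_insert, Finset.mem_filter]
          by_cases hwy : w = y
          · exact Or.inl hwy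
          · exact Or.inr ⟨hw.1, (hcr w).2 ⟨hw.2, hwy⟩⟩
        exact (Finset.card_le_card h7).trans (Finset.card_insert_le _ _)
      have h7 : R.U K t + 1 ≤ R2.U K t := by
        by_cases htA : t ∈ A
        · rw [k4.up t htA]
          omega
        · by_cases htx : t = x
          · rw [htx] at hUt ⊢
            have h8 : R1.U K x = ua K R p + 1 := by
              rw [hR1]
              exact U_cut_x K R p x y hxy hcx hcy hyK
            have h9 : R.U K x ≤ ua K R p := by
              rw [U_eq_ua]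
              exact ua_anti K R hcx.2
            omega
          · by_cases htp : R.hi t < p
            · have h8 : R1.U K t = R.U K t + 1 := by
                rw [hR1, U_cut_lt K R p x y hxy hcx hcy hyK t htp, if_pos]
                have := hyq.1
                have := htq1.2
                omega
              omega
            · exfalso
              apply htA
              have h8 := htq1.1
              have h9 : t ∈ Ts K R m := by
                rw [mem_Ts]
                refine ⟨ht, ?_⟩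
                have h11 := hG.sep t ht
                by_contra h10
                have := hout t (mem_Zs.2 ⟨ht, by omega, by omega⟩)
                omega
              exact (hmA t).2 ⟨h9, htx, hty, ⟨by omega, by omega⟩, z, hz, by omega⟩
      omega
    · have h6 : R.N (Ts K R m) q ≤ R2.N (Ts K R m) q := by
        unfold Rep.N
        refine Finset.card_le_card fun w hw => ?_
        rw [Finset.mem_filter] at hw ⊢
        refine ⟨hw.1, (hcr w).2 ⟨hw.2, ?_⟩⟩
        rintro rfl
        exact hyq hw.2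
      omega
  · -- the elements below
    rw [hZ]
    intro z hz
    exact (hG.hd z hz).trans (Rep.D_mono hrel (mem_Zs.1 hz).1)
  · -- the starts after `m`
    rw [k4.ua, hR1, ua_cut_le K R p x y hxy hcx hcy hyK m hmp]
    exact hG.ch.trans (Nat.le_add_right _ _)
  · rw [hZ]
    exact hba
  · rw [hZ]
    exact hdU
  · -- the mass
    rw [hZ]
    unfold Mass at hM ⊢
    refine le_trans (Nat.mul_le_mul_left 2 (Finset.sum_le_sum fun z hz => ?_)) hM
    have := hδle z
    omega

end Pool.Agent.OCN
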