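import Pool.Agent.Lib_helper47.OCN.TGe
import Pool.Agent.Lib_helper47.OCN.TGf
import Pool.Agent.Lib_helper47.OCN.TGg
import Pool.Agent.Lib_helper47.OCN.TGh

/-!
# MP_aeb124_co: the class TG is closed
-/

set_option autoImplicit false

namespace Pool.Agent.OCN

variable {V : Type}

theorem TG.dual {B : ℕ} {K : Finset V} {R : Rep V} (h : TG B K R) : TG B K R.dual := by
  rcases h with h | h | h
  · exact Or.inl h.dual
  · refine Or.inr (Or.inr ?_)
    rw [Rep.dual_dual]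
    exact h
  · exact Or.inr (Or.inl h)

variable [Fintype V] {B : ℕ} {K : Finset V} {R : Rep V} {s m : ℤ} {W d : ℕ} {δ : V → ℕ}
  {r : V → V → Prop} {x y z : V}

/-- the staggered side after a reply on the flat side -/
theorem TG1.of_flat (h : TG1 B K R s m W d δ) (hr : Loc r K R) {r' : V → V → Prop} {Q : Rep V}
    (hr' : Loc r' K Q) (hmono : ∀ a b, flip r a b → r' a b) (hf : Fd B K Q (1 - s) W)
    (hrs : RS K R.dual Q (1 - s)) :
    Loc (flip r') K Q.dual ∧ (∀ a b, r a b → flip r' a b) ∧ Sg B K Q.dual s m W d δ ∧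
      Fd B K Q.dual.dual (1 - s) W ∧ newP r (flip r') = newP (flip r) r' := by
  have hm : ∀ a b, r a b → flip r' a b := fun a b hab => hmono b a hab
  have hl : Loc (flip r') K Q.dual := hr'.flip
  refine ⟨hl, hm, ?_, by rw [Rep.dual_dual]; exact hf, newP_flip (flip r) r'⟩
  refine h.1.of_LS ?_ (fun a ha b hb hab => ?_)
  · unfold RS at hrs
    rw [Rep.dual_dual, sub_sub_cancel] at hrs
    exact hrs
  · rw [← hl.eq a ha b hb]
    exact hm a b ((hr.eq a ha b hb).2 hab)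

/-- a reply on the flat side which settles `z` -/
theorem TG1.settle_flat (h : TG1 B K R s m W d δ) (hr : Loc r K R) (hz : z ∈ Zs K R s)
    {r' : V → V → Prop} {Q : Rep V} (hF : FRep B K R.dual (1 - s) W (flip r) y x z r' Q)
    (hc : newP (flip r) r' + (Zs K R.dual (1 - s)).card + R.dual.D K z ≤ B + W + 1) :
    ∃ (r' : V → V → Prop) (R' : Rep V) (δ' : V → ℕ), Loc r' K R' ∧ (∀ a b, r a b → r' a b) ∧
      r' x y ∧ newP r r' ≤ B ∧ TG1 B K R' s m W d δ' := by
  obtain ⟨g1, g2, g3, g4, g5⟩ := h.of_flat hr hF.loc hF.mono hF.fd hF.rs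
  refine TG1.settle g3 g4 h.2.2 h.1.ba hz (fun w => ?_) g1 g2 hF.pair ?_
  · have h1 := hF.zs w
    rw [Zs_dual] at h1
    rw [← h1]
    have h2 := Zs_dual K Q.dual s
    rw [Rep.dual_dual] at h2
    rw [h2]
  · rw [Zs_dual, Rep.D_dual] at hc
    have h1 := h.1.dU z hz
    rw [g5]
    omega

/-- the answers in the class TG -/
theorem TG1.ans (h : TG1 B K R s m W d δ) (hr : Loc r K R) : Ans B (Cls (TG B)) r := by
  classical
  obtain ⟨h, hF, hM⟩ := id h
  have hall : TG1 B K R s m W d δ := ⟨h, hF, hM⟩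
  have hgL : K.card ≤ B + (Ls K R s).card := by
    have := hF.gT
    rw [Ts_dual] at this
    exact this
  have hgT : K.card ≤ B + (Ts K R s).card := by
    have := hF.gL
    rw [Ls_dual] at this
    exact this
  by_cases hZ : Zs K R s = ∅
  · exact Ans.mono (G := Cls (Term B)) (term_ans hr (term_of_sizes hgL hgT hZ))
      (by rintro r ⟨K, R, h3, h4⟩; exact ⟨K, R, h3, Or.inl h4⟩)
  intro x y hxy h1 h2
  obtain ⟨hx, hy⟩ := hr.mem hxy h1 h2
  rw [hr.eq x hx y hy] at h1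
  rw [hr.eq y hy x hx] at h2
  have h1' : ¬ R.dual.rel y x := by rw [Rep.rel_dual]; exact h1
  have h2' : ¬ R.dual.rel x y := by rw [Rep.rel_dual]; exact h2
  have hsm := h.sm
  have hfin : (∃ (r' : V → V → Prop) (R' : Rep V) (δ' : V → ℕ), Loc r' K R' ∧
      (∀ a b, r a b → r' a b) ∧ r' x y ∧ newP r r' ≤ B ∧ TG1 B K R' s m W d δ') →
      ∃ r' ∈ Cls (TG B), (∀ a b, r a b → r' a b) ∧ r' x y ∧ newP r r' ≤ B := by
    rintro ⟨r', R', δ', g1, g2, g3, g4, g5⟩
    exact ⟨r', ⟨K, R', g1, Or.inr (Or.inl ⟨s, m, W, d, δ', g5⟩)⟩, g2, g3, g4⟩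
  have hdl : ∀ {w}, w ∈ K → R.hi w < s → w ∈ Ts K R.dual (1 - s) := fun hw h3 => by
    rw [Ts_dual]
    exact mem_Ls.2 ⟨hw, h3⟩
  have hdt : ∀ {w}, w ∈ K → s ≤ R.lo w → w ∈ Ls K R.dual (1 - s) := fun hw h3 => by
    rw [Ls_dual]
    exact mem_Ts.2 ⟨hw, h3⟩
  have hdz : ∀ {w}, w ∈ Zs K R s → w ∈ Zs K R.dual (1 - s) := fun hw => by
    rw [Zs_dual]; exact hw
  have hzz : ∀ {w}, w ∈ K → R.lo w < s → m ≤ R.hi w → w ∈ Zs K R s := fun hw h3 h4 =>
    mem_Zs.2 ⟨hw, h3, by omega⟩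
  have hlex := R.le x
  have hley := R.le y
  -- an undecided element attacks an element of the chain or of the right part
  have hZT : x ∈ Zs K R s → s ≤ R.lo y → ∃ r' ∈ Cls (TG B), (∀ a b, r a b → r' a b) ∧ r' x y ∧
      newP r r' ≤ B := fun hxZ hys => by
    obtain ⟨r', Q, g1, g2⟩ := hF.attLZ hr.flip (hdt hy hys) (hdz hxZ)
    exact hfin (hall.settle_flat hr hxZ g1 (by omega))
  -- an element of the left part or of the chain attacks an undecided element
  have hLZ : y ∈ Zs K R s → R.hi x < m → ∃ r' ∈ Cls (TG B), (∀ a b, r a b → r' a b) ∧ r' x y ∧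
      newP r r' ≤ B := fun hyZ hxm => by
    obtain ⟨r', R', g1, g2, g3, g4, g5, g6, g7⟩ := h.attLZ hr hyZ (mem_Ls.2 ⟨hx, hxm⟩)
    refine hfin (TG1.settle g7 (hF.of_LS (RS.of_m hsm h.sep g5)) hM h.ba hyZ g6 g1 g2 g3 ?_)
    omega
  unfold Rep.rel at h1 h2
  rcases h.sep x hx with hx1 | hx1 | hx1 | hx1
  · rcases h.sep y hy with hy1 | hy1 | hy1 | hy1
    · -- inside of the left part
      rcases hF.attTT hr.flip hxy.symm (hdl hy hy1) (hdl hx hx1) h1' h2' with
        ⟨z, r', Q, g1, g2, g3⟩ | ⟨r', Q, g1, g2, g3, g4, g5, g6, g7⟩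
      · rw [Zs_dual] at g1
        exact hfin (hall.settle_flat hr g1 g2 g3)
      · obtain ⟨k1, k2, k3, k4, k5⟩ := hall.of_flat hr g1 g2 g4 g5
        refine hfin ⟨flip r', Q.dual, δ, k1, k2, g3, by rw [k5]; exact g7, k3, k4, ?_⟩
        have h3 : Zs K Q.dual s = Zs K R s := by
          ext w
          have h4 := g6 w
          rw [Zs_dual] at h4
          rw [← h4]
          have h5 := Zs_dual K Q.dual s
          rw [Rep.dual_dual] at h5
          rw [h5]
        rw [h3]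
        exact hM
    · omega
    · exact hLZ (hzz hy hy1.1 hy1.2) (by omega)
    · omega
  · rcases h.sep y hy with hy1 | hy1 | hy1 | hy1
    · omega
    · exfalso
      rcases h.cn x hx y hy hxy hx1.1 hx1.2 hy1.1 hy1.2 with h3 | h3
      · exact h1 h3
      · exact h2 h3
    · exact hLZ (hzz hy hy1.1 hy1.2) hx1.2
    · omega
  · have hxZ := hzz hx hx1.1 hx1.2
    rcases h.sep y hy with hy1 | hy1 | hy1 | hy1
    · obtain ⟨r', Q, g1, g2⟩ := hF.attTZ hr.flip (hdl hy hy1) (hdz hxZ) h1' h2'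
      exact hfin (hall.settle_flat hr hxZ g1 g2)
    · exact hZT hxZ hy1.1
    · exact hfin (hall.attTZ hr hxy hx hx1.2 (hzz hy hy1.1 hy1.2) h2)
    · exact hZT hxZ (by omega)
  · rcases h.sep y hy with hy1 | hy1 | hy1 | hy1
    · omega
    · omega
    · exact hfin (hall.attTZ hr hxy hx (by omega) (hzz hy hy1.1 hy1.2) h2)
    · have hcx : R.Cr x (max (R.lo x) (R.lo y)) :=
        ⟨le_max_left _ _, max_le hlex (by omega)⟩
      have hcy : R.Cr y (max (R.lo x) (R.lo y)) :=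
        ⟨le_max_right _ _, max_le (by omega) hley⟩
      by_cases hin : ∃ z ∈ Zs K R s, max (R.lo x) (R.lo y) ≤ R.hi z
      · exact hfin (hall.attTT_in hr hxy (mem_Ts.2 ⟨hx, hx1⟩) (mem_Ts.2 ⟨hy, hy1⟩) hcx hcy hin)
      · refine hfin (hall.attTT_out hr hxy (mem_Ts.2 ⟨hx, hx1⟩) (mem_Ts.2 ⟨hy, hy1⟩) hcx hcy
          fun z hz => ?_)
        by_contra h3
        exact hin ⟨z, hz, by omega⟩

/-- the class TG is closed -/
theorem tg_closed (B : ℕ) : ClosedR (V := V) B (Cls (TG B)) := by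
  rintro r ⟨K, R, hr, hT | ⟨s, m, W, d, δ, hT⟩ | ⟨s, m, W, d, δ, hT⟩⟩
  · exact Ans.mono (G := Cls (Term B)) (term_ans hr hT)
      (by rintro r ⟨K, R, h3, h4⟩; exact ⟨K, R, h3, Or.inl h4⟩)
  · exact hT.ans hr
  · intro x y hxy h1 h2
    obtain ⟨r', ⟨K', R', g1, g2⟩, g3, g4, g5⟩ := hT.ans hr.flip y x hxy.symm h1 h2
    have h0 : newP r (flip r') = newP (flip r) r' := newP_flip (flip r) r'
    exact ⟨flip r', ⟨K', R'.dual, g1.flip, g2.dual⟩, fun a b hab => g3 b a hab, g4,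
      by rw [h0]; exact g5⟩

end Pool.Agent.OCN
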