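import Pool.Agent.Lib_helper47.OCN.Lf

/-!
# MP_aeb124_co: the replies on the left side

In all replies one undecided element `z` is settled on the left, and the right side does not change
up to a shift.
-/

set_option autoImplicit false

namespace Pool.Agent.OCN

variable {V : Type} [Fintype V]

/-- a reply on the left side -/
structure LRep (B : ℕ) (K : Finset V) (R : Rep V) (s0 s : ℤ) (W : ℕ) (r : V → V → Prop)
    (x y z : V) (r' : V → V → Prop) (R' : Rep V) (s0' s' : ℤ) : Prop where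
  loc : Loc r' K R'
  mono : ∀ a b, r a b → r' a b
  pair : r' x y
  lf : Lf B K R' s0' s' W
  cost : newP r r' + R.U K z + (Zs K R s).card ≤ B + W + 1
  zc : (Zs K R' s').card + 1 = (Zs K R s).card
  ls : (Ls K R' s').card = (Ls K R s).card + 1
  ue : ua K R.dual (1 - s0) ≤ ua K R'.dual (1 - s0')
  zs : ∀ w, w ∈ Zs K R' s' ↔ w ∈ Zs K R s ∧ w ≠ z
  ts : Ts K R' s' = Ts K R s
  hi : ∀ w, w ≠ z → s ≤ R.hi w → R'.hi w = R.hi w + (s' - s)
  lo : ∀ w, s ≤ R.lo w → R'.lo w = R.lo w + (s' - s)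
  hl : ∀ w, R.hi w < s → R'.hi w < s'
  ll : ∀ w, R.lo w < s → R'.lo w < s'
  hz : R'.hi z < s'

section

variable {B : ℕ} {K : Finset V} {R : Rep V} {s0 s : ℤ} {W : ℕ} {r : V → V → Prop}

omit [Fintype V] in
/-- distinct ends after a cut on the left side -/
theorem InjS.cutLow (h : InjS K R.dual (1 - s0)) (p : ℤ) (x y : V) (hxy : x ≠ y)
    (hx : R.Cr x p) (hy : R.Cr y p) (hp : p < s0) :
    InjS K (R.cut p x y hxy hx hy).dual (1 - (s0 + 1)) := by
  intro a ha b hb h1 h2
  have e0 : ∀ w, (R.cut p x y hxy hx hy).dual.lo w = -(R.cut p x y hxy hx hy).hi w := fun w => rfl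
  have e1 : ∀ w, R.dual.lo w = -R.hi w := fun w => rfl
  rw [e0] at h1
  rw [e0, e0] at h2
  unfold Rep.cut at h1 h2
  simp only at h1 h2
  by_cases hax : a = x
  · rw [if_pos hax] at h1 h2
    by_cases hbx : b = x
    · rw [hax, hbx]
    · rw [if_neg hbx] at h2
      exfalso
      split_ifs at h2 <;> omega
  · rw [if_neg hax] at h1 h2
    by_cases hbx : b = x
    · rw [if_pos hbx] at h2
      exfalso
      split_ifs at h2 <;> omega
    · rw [if_neg hbx] at h2
      refine h a ha b hb ?_ ?_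
      · rw [e1]
        split_ifs at h1 <;> omega
      · rw [e1, e1]
        split_ifs at h2 <;> omega

omit [Fintype V] in
theorem ua_left_le {R' : Rep V} {s0' : ℤ} (h : ∀ w ∈ K, R.hi w < s0 - 1 → R'.hi w < s0' - 1) :
    ua K R.dual (1 - s0) ≤ ua K R'.dual (1 - s0') := by
  classical
  unfold ua
  refine Finset.card_le_card fun w hw => ?_
  rw [Finset.mem_filter] at hw ⊢
  have e0 : R'.dual.lo w = -R'.hi w := rfl
  have e1 : R.dual.lo w = -R.hi w := rfl
  rw [e1] at hw
  rw [e0]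
  have := h w hw.1 (by omega)
  exact ⟨hw.1, by omega⟩

omit [Fintype V] in
/-- the structure of the left side after a cut on the left side, without the heights -/
theorem Lf.cut_aux (h : Lf B K R s0 s W) {p : ℤ} {x y : V} (hxy : x ≠ y)
    (hx : R.Cr x p) (hy : R.Cr y p) (hp : p < s0) (hxK : x ∈ K)
    (hn : ∀ q, q < s0 + 1 → 2 ≤ (R.cut p x y hxy hx hy).N K q → K.card +
      (Zs K (R.cut p x y hxy hx hy) (s + 1)).card ≤ B + (R.cut p x y hxy hx hy).N K q + W) :
    Lf B K (R.cut p x y hxy hx hy) (s0 + 1) (s + 1) W := by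
  classical
  have hle := h.le
  refine ⟨by omega, ?_, ?_, ?_, hn, h.il.cutLow p x y hxy hx hy hp⟩
  · intro w hw
    have h5 := h.sep w hw
    have h6 := R.le w
    have hx1 := hx.1
    have hy1 := hy.1
    have hy2 := hy.2
    unfold Rep.cut
    simp only
    by_cases hwy : w = y
    · subst hwy
      rw [if_pos rfl, if_neg (fun he => hxy he.symm), if_pos hy2]
      omega
    · rw [if_neg hwy]
      by_cases hwx : w = x
      · subst hwx
        rw [if_pos rfl]
        left
        omega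
      · rw [if_neg hwx]
        split_ifs <;> omega
  · intro a ha b hb hab ha1 ha2 hb1 hb2
    have key : ∀ w ∈ K, s0 + 1 ≤ (R.cut p x y hxy hx hy).lo w →
        (R.cut p x y hxy hx hy).hi w < s + 1 → s0 ≤ R.lo w ∧ R.hi w < s := by
      intro w hw h1 h2
      have h5 := h.sep w hw
      have h6 := R.le w
      have hx1 := hx.1
      have hy1 := hy.1
      have hy2 := hy.2
      unfold Rep.cut at h1 h2
      simp only at h1 h2
      by_cases hwy : w = y
      · subst hwy
        rw [if_pos rfl] at h1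
        omega
      · rw [if_neg hwy] at h1
        by_cases hwx : w = x
        · subst hwx
          rw [if_pos rfl] at h2
          split_ifs at h1 <;> omega
        · rw [if_neg hwx] at h2
          split_ifs at h1 h2 <;> omega
    obtain ⟨e1, e2⟩ := key a ha ha1 ha2
    obtain ⟨e3, e4⟩ := key b hb hb1 hb2
    rcases h.ch a ha b hb hab e1 e2 e3 e4 with h7 | h7
    · exact Or.inl ((R.rel_cut p x y hxy hx hy a b).2 (Or.inl h7))
    · exact Or.inr ((R.rel_cut p x y hxy hx hy b a).2 (Or.inl h7))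
  · rw [Ls_cutLow K R s0 p x y hxy hx hy hp hxK]
    have := Finset.card_le_card (Finset.subset_insert x (Ls K R s0))
    have := h.gN
    omega

/-- an undecided element attacks a left or an undecided element -/
theorem Lf.ansA (h : Lf B K R s0 s W) (hr : Loc r K R) {x y : V} (hxy : x ≠ y)
    (hx : x ∈ Zs K R s) (hy : y ∈ Zs K R s ∨ y ∈ Ls K R s0) (h1 : ¬ R.rel x y)
    (h2 : ¬ R.rel y x) :
    ∃ r' R', LRep B K R s0 s W r x y x r' R' (s0 + 1) (s + 1) := by
  classical
  have hle := h.le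
  obtain ⟨hxK, hx1, hx2⟩ := h.mem_Z hx
  have hyK : y ∈ K := by
    rcases hy with hy | hy
    · exact (mem_Zs.1 hy).1
    · exact (mem_Ls.1 hy).1
  obtain ⟨p, hps, hp1, hp2⟩ : ∃ p, p < s0 ∧ R.Cr x p ∧ R.Cr y p := by
    rcases hy with hy | hy
    · obtain ⟨_, hy1, hy2⟩ := h.mem_Z hy
      exact ⟨s0 - 1, by omega, ⟨by omega, by omega⟩, ⟨by omega, by omega⟩⟩
    · obtain ⟨p, hp1, hp2⟩ := R.common h1 h2
      obtain ⟨_, hy1⟩ := mem_Ls.1 hy
      exact ⟨p, by have := hp2.2; omega, hp1, hp2⟩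
  have hps' : p < s := by omega
  obtain ⟨r', g1, g2, g3, g4⟩ := op_cut hr p x y hxy hxK hyK hp1 hp2
  have hZ := Zs_cutLow K R s p x y hxy hp1 hp2 hps'
  have hL := Ls_cutLow K R s p x y hxy hp1 hp2 hps' hxK
  have hT := Ts_cutLow K R s p x y hxy hp1 hp2 hps'
  have hZc := Finset.card_erase_of_mem hx
  have hZp := Finset.card_pos.2 ⟨x, hx⟩
  have hxL : x ∉ Ls K R s := fun h1 => by
    have := (mem_Ls.1 h1).2
    omega
  refine ⟨r', _, ⟨g1, g2, g3, ?_, ?_, ?_, ?_, ?_, ?_, hT, ?_, ?_, ?_, ?_, ?_⟩⟩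
  · refine h.cut_aux hxy hp1 hp2 hps hxK fun q hq hq2 => ?_
    obtain ⟨q', h5, h6, h7, h8⟩ := drop_cut K R s0 p x y hxy hp1 hp2 hps q hq2
    have := h.nL q' (h5 hq) (by omega)
    rw [hZ]
    omega
  · have := h.nL p hps (Rep.two_le_N hxy hxK hyK hp1 hp2)
    omega
  · rw [hZ]
    omega
  · rw [hL, Finset.card_insert_of_notMem hxL]
  · refine ua_left_le fun w _ hw => ?_
    unfold Rep.cut
    simp only
    split_ifs <;> omega
  · intro w
    rw [hZ, Finset.mem_erase]
    exact and_comm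
  · intro w hwx hws
    unfold Rep.cut
    simp only
    rw [if_neg hwx, if_pos (by omega)]
    ring
  · intro w hws
    unfold Rep.cut
    simp only
    have hwy : w ≠ y := by
      rintro rfl
      have := hp2.1
      omega
    rw [if_neg hwy, if_pos (by omega)]
    ring
  · intro w hws
    unfold Rep.cut
    simp only
    split_ifs <;> omega
  · intro w hws
    unfold Rep.cut
    simp only
    split_ifs <;> omega
  · unfold Rep.cut
    simp only
    rw [if_true]
    omega

omit [Fintype V] in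
/-- the left side after a row -/
theorem Lf.row_aux {K : Finset V} {R : Rep V} {s0 s : ℤ} {W : ℕ} (hle : s0 ≤ s)
    (hsep : ∀ w ∈ K, R.hi w < s0 ∨ (s0 ≤ R.lo w ∧ R.hi w < s) ∨ (R.lo w < s0 ∧ s ≤ R.hi w) ∨
      s ≤ R.lo w)
    (hch : ∀ a ∈ K, ∀ b ∈ K, a ≠ b → s0 ≤ R.lo a → R.hi a < s → s0 ≤ R.lo b → R.hi b < s →
      R.rel a b ∨ R.rel b a)
    (hgN : K.card ≤ B + (Ls K R s0).card + W + 1)
    (hnL : ∀ p, p < s0 → 2 ≤ R.N K p → K.card + (Zs K R s).card ≤ B + R.N K p + W + 1)
    (hil : InjS K R.dual (1 - s0)) {z : V} (hz : z ∈ Zs K R s) (hz1 : R.lo z < s0)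
    (hq : R.lo z ≤ s0 - 1) :
    Lf B K (R.lower z (s0 - 1) hq) s0 s W := by
  classical
  obtain ⟨hzK, _, hz2⟩ := mem_Zs.1 hz
  have elo : ∀ w, (R.lower z (s0 - 1) hq).lo w = R.lo w := fun w => rfl
  have ehi : ∀ w, w ≠ z → (R.lower z (s0 - 1) hq).hi w = R.hi w := fun w hw => by
    unfold Rep.lower
    simp only
    rw [if_neg hw]
  have ehz : (R.lower z (s0 - 1) hq).hi z = s0 - 1 := by
    unfold Rep.lower
    simp only
    rw [if_true]
  have hZ : Zs K (R.lower z (s0 - 1) hq) s = (Zs K R s).erase z := by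
    ext w
    rw [Finset.mem_erase, mem_Zs, mem_Zs, elo]
    by_cases hwz : w = z
    · rw [hwz, ehz]
      constructor
      · rintro ⟨_, _, h⟩
        omega
      · rintro ⟨h, _⟩
        exact absurd rfl h
    · rw [ehi w hwz]
      exact ⟨fun h => ⟨hwz, h⟩, fun h => h.2⟩
  have hZc := Finset.card_erase_of_mem hz
  have hZp := Finset.card_pos.2 ⟨z, hz⟩
  refine ⟨hle, ?_, ?_, ?_, ?_, ?_⟩
  · intro w hw
    rw [elo]
    by_cases hwz : w = z
    · rw [hwz, ehz]
      left
      omega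
    · rw [ehi w hwz]
      exact hsep w hw
  · intro a ha b hb hab ha1 ha2 hb1 hb2
    rw [elo] at ha1 hb1
    have haz : a ≠ z := by
      rintro rfl
      omega
    have hbz : b ≠ z := by
      rintro rfl
      omega
    rw [ehi a haz] at ha2
    rw [ehi b hbz] at hb2
    unfold Rep.rel
    rw [elo, elo, ehi a haz, ehi b hbz]
    exact hch a ha b hb hab ha1 ha2 hb1 hb2
  · have h1 : Ls K R s0 ⊆ Ls K (R.lower z (s0 - 1) hq) s0 := by
      intro w hw
      rw [mem_Ls] at hw ⊢
      refine ⟨hw.1, ?_⟩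
      by_cases hwz : w = z
      · rw [hwz, ehz]
        omega
      · rw [ehi w hwz]
        exact hw.2
    have := Finset.card_le_card h1
    omega
  · intro p hp h2
    rw [N_lower_eq K R z (s0 - 1) hq (by omega) p (by omega)] at h2 ⊢
    have := hnL p hp h2
    rw [hZ]
    omega
  · intro a ha b hb h1 h2
    have e0 : ∀ w, (R.lower z (s0 - 1) hq).dual.lo w = -(R.lower z (s0 - 1) hq).hi w :=
      fun w => rfl
    have e1 : ∀ w, R.dual.lo w = -R.hi w := fun w => rfl
    rw [e0] at h1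
    rw [e0, e0] at h2
    have haz : a ≠ z := by
      rintro rfl
      rw [ehz] at h1
      omega
    have hbz : b ≠ z := by
      rintro rfl
      rw [ehz] at h2
      omega
    rw [ehi a haz] at h1 h2
    rw [ehi b hbz] at h2
    refine hil a ha b hb ?_ ?_
    · rw [e1]
      omega
    · rw [e1, e1]
      omega

/-- a row: the undecided element `z` is put below the chain -/
theorem Lf.row (h : Lf B K R s0 s W) (hr : Loc r K R) {z : V} (hz : z ∈ Zs K R s) {y : V}
    (hyK : y ∈ K) (hy : s0 ≤ R.lo y) :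
    ∃ r' R', LRep B K R s0 s W r z y z r' R' s0 s := by
  classical
  have hle := h.le
  obtain ⟨hzK, hz1, hz2⟩ := h.mem_Z hz
  have hq : R.lo z ≤ s0 - 1 := by omega
  obtain ⟨r', g1, g2, g3⟩ := op_lower hr z hzK (s0 - 1) hq (by omega)
  have elo : ∀ w, (R.lower z (s0 - 1) hq).lo w = R.lo w := fun w => rfl
  have ehi : ∀ w, w ≠ z → (R.lower z (s0 - 1) hq).hi w = R.hi w := fun w hw => by
    unfold Rep.lower
    simp only
    rw [if_neg hw]
  have ehz : (R.lower z (s0 - 1) hq).hi z = s0 - 1 := by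
    unfold Rep.lower
    simp only
    rw [if_true]
  have hzL : z ∉ Ls K R s := fun h1 => by
    have := (mem_Ls.1 h1).2
    omega
  have hZm : ∀ w, w ∈ Zs K (R.lower z (s0 - 1) hq) s ↔ w ∈ Zs K R s ∧ w ≠ z := by
    intro w
    rw [mem_Zs, mem_Zs, elo]
    by_cases hwz : w = z
    · rw [hwz, ehz]
      constructor
      · rintro ⟨_, _, h⟩
        omega
      · rintro ⟨_, h⟩
        exact absurd rfl h
    · rw [ehi w hwz]
      exact ⟨fun h => ⟨h, hwz⟩, fun h => h.1⟩
  have hZ : Zs K (R.lower z (s0 - 1) hq) s = (Zs K R s).erase z := by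
    ext w
    rw [hZm, Finset.mem_erase]
    exact and_comm
  have hL : Ls K (R.lower z (s0 - 1) hq) s = insert z (Ls K R s) := by
    ext w
    rw [mem_Ls, Finset.mem_insert, mem_Ls]
    by_cases hwz : w = z
    · rw [hwz, ehz]
      exact ⟨fun _ => Or.inl rfl, fun _ => ⟨hzK, by omega⟩⟩
    · rw [ehi w hwz]
      exact ⟨Or.inr, fun h => h.resolve_left hwz⟩
  have hZc := Finset.card_erase_of_mem hz
  have hZp := Finset.card_pos.2 ⟨z, hz⟩
  refine ⟨r', _, ⟨g1, g2, ?_, ?_, ?_, ?_, ?_, ?_, hZm, rfl, ?_, ?_, ?_, ?_, ?_⟩⟩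
  · rw [g1.eq z hzK y hyK, R.rel_lower z (s0 - 1) hq (by omega)]
    exact Or.inr ⟨rfl, by omega⟩
  · exact Lf.row_aux hle h.sep h.ch h.gN (fun p hp h2 => by have := h.nL p hp h2; omega) h.il hz
      hz1 hq
  · rw [g3]
    have h5 := lower_price K R s0 z (by omega)
    have h6 := card_LTZ K R s0
    rw [h.zs] at h6
    have h7 := h.gN
    omega
  · rw [hZ]
    omega
  · rw [hL, Finset.card_insert_of_notMem hzL]
  · refine ua_left_le fun w _ hw => ?_
    have hwz : w ≠ z := by
      rintro rfl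
      omega
    rw [ehi w hwz]
    exact hw
  · intro w hwz hws
    rw [ehi w hwz]
    ring
  · intro w hws
    rw [elo]
    ring
  · intro w hws
    have hwz : w ≠ z := by
      rintro rfl
      omega
    rw [ehi w hwz]
    exact hws
  · intro w hws
    rw [elo]
    exact hws
  · rw [ehz]
    omega

/-- an attack inside of the left part, `z` is an arbitrary undecided element -/
theorem Lf.ansC (h : Lf B K R s0 s W) (hr : Loc r K R) {x y z : V} (hxy : x ≠ y)
    (hx : x ∈ Ls K R s0) (hy : y ∈ Ls K R s0) (h1 : ¬ R.rel x y) (h2 : ¬ R.rel y x)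
    (hz : z ∈ Zs K R s) :
    ∃ r' R', LRep B K R s0 s W r x y z r' R' (s0 + 1) (s + 1) := by
  classical
  have hle := h.le
  obtain ⟨hxK, hxs⟩ := mem_Ls.1 hx
  obtain ⟨hyK, hys⟩ := mem_Ls.1 hy
  obtain ⟨hzK, hz1, hz2⟩ := h.mem_Z hz
  obtain ⟨p, hp1, hp2⟩ := R.common h1 h2
  have hps : p < s0 := by have := hp1.2; omega
  obtain ⟨r1, g1, g2, g3, g4⟩ := op_cut hr p x y hxy hxK hyK hp1 hp2
  obtain ⟨R1, hR1⟩ : ∃ R1, R1 = R.cut p x y hxy hp1 hp2 := ⟨_, rfl⟩
  rw [← hR1] at g1
  have hxZ : x ∉ Zs K R s := fun h1 => by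
    have := (mem_Zs.1 h1).2.2
    omega
  have hxL : x ∈ Ls K R s := mem_Ls.2 ⟨hxK, by omega⟩
  have hZ : Zs K R1 (s + 1) = Zs K R s := by
    rw [hR1, Zs_cutLow K R s p x y hxy hp1 hp2 (by omega), Finset.erase_eq_of_notMem hxZ]
  have hL : Ls K R1 (s + 1) = Ls K R s := by
    rw [hR1, Ls_cutLow K R s p x y hxy hp1 hp2 (by omega) hxK, Finset.insert_eq_of_mem hxL]
  have hT : Ts K R1 (s + 1) = Ts K R s := by
    rw [hR1, Ts_cutLow K R s p x y hxy hp1 hp2 (by omega)]
  have hT0 : Ts K R1 (s0 + 1) = Ts K R s0 := by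
    rw [hR1, Ts_cutLow K R s0 p x y hxy hp1 hp2 hps]
  have hz1' : R1.lo z < s0 + 1 := by
    rw [hR1]
    unfold Rep.cut
    simp only
    split_ifs <;> omega
  have hzx : z ≠ x := by
    rintro rfl
    omega
  have hzy : z ≠ y := by
    rintro rfl
    omega
  have hz2' : R1.hi z = R.hi z + 1 := by
    rw [hR1]
    unfold Rep.cut
    simp only
    rw [if_neg hzx, if_pos (by omega)]
  have hz' : z ∈ Zs K R1 (s + 1) := by rw [hZ]; exact hz
  -- the left side with the cut and one unit less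
  have hcut : ∀ q, q < s0 + 1 → 2 ≤ R1.N K q → K.card + (Zs K R1 (s + 1)).card ≤
      B + R1.N K q + W + 1 := by
    intro q hq hq2
    rw [hR1] at hq2 ⊢
    obtain ⟨q', h5, h6, h7, h8⟩ := drop_cut K R s0 p x y hxy hp1 hp2 hps q hq2
    have := h.nL q' (h5 hq) (by omega)
    rw [← hR1, hZ, hR1]
    omega
  have hLf1 : Lf B K R1 (s0 + 1) (s + 1) (W + 1) := by
    have h5 : Lf B K R s0 s (W + 1) :=
      ⟨h.le, h.sep, h.ch, by have := h.gN; omega,
        fun p hp hp2 => by have := h.nL p hp hp2; omega, h.il⟩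
    rw [hR1]
    refine h5.cut_aux hxy hp1 hp2 hps hxK fun q hq hq2 => ?_
    rw [← hR1] at hq2 ⊢
    have := hcut q hq hq2
    omega
  have hgN : K.card ≤ B + (Ls K R1 (s0 + 1)).card + W + 1 := by
    rw [hR1, Ls_cutLow K R s0 p x y hxy hp1 hp2 hps hxK]
    have := Finset.card_le_card (Finset.subset_insert x (Ls K R s0))
    have := h.gN
    omega
  have hq : R1.lo z ≤ s0 + 1 - 1 := by omega
  obtain ⟨r2, k1, k2, k3⟩ := op_lower g1 z hzK (s0 + 1 - 1) hq (by omega)
  have elo : ∀ w, (R1.lower z (s0 + 1 - 1) hq).lo w = R1.lo w := fun w => rfl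
  have ehi : ∀ w, w ≠ z → (R1.lower z (s0 + 1 - 1) hq).hi w = R1.hi w := fun w hw => by
    unfold Rep.lower
    simp only
    rw [if_neg hw]
  have ehz : (R1.lower z (s0 + 1 - 1) hq).hi z = s0 + 1 - 1 := by
    unfold Rep.lower
    simp only
    rw [if_true]
  have hzL : z ∉ Ls K R s := fun h1 => by
    have := (mem_Ls.1 h1).2
    omega
  have hZm : ∀ w, w ∈ Zs K (R1.lower z (s0 + 1 - 1) hq) (s + 1) ↔ w ∈ Zs K R s ∧ w ≠ z := by
    intro w
    rw [← hZ, mem_Zs, mem_Zs, elo]
    by_cases hwz : w = z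
    · rw [hwz, ehz]
      constructor
      · rintro ⟨_, _, h⟩
        omega
      · rintro ⟨_, h⟩
        exact absurd rfl h
    · rw [ehi w hwz]
      exact ⟨fun h => ⟨h, hwz⟩, fun h => h.1⟩
  have hZe : Zs K (R1.lower z (s0 + 1 - 1) hq) (s + 1) = (Zs K R s).erase z := by
    ext w
    rw [hZm, Finset.mem_erase]
    exact and_comm
  have hLe : Ls K (R1.lower z (s0 + 1 - 1) hq) (s + 1) = insert z (Ls K R s) := by
    ext w
    rw [← hL, mem_Ls, Finset.mem_insert, mem_Ls]
    by_cases hwz : w = z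
    · rw [hwz, ehz]
      exact ⟨fun _ => Or.inl rfl, fun _ => ⟨hzK, by omega⟩⟩
    · rw [ehi w hwz]
      exact ⟨Or.inr, fun h => h.resolve_left hwz⟩
  have hZc := Finset.card_erase_of_mem hz
  have hZp := Finset.card_pos.2 ⟨z, hz⟩
  have hlo1 : ∀ w, s ≤ R.lo w → R1.lo w = R.lo w + 1 := fun w hw => by
    have hwy : w ≠ y := by
      rintro rfl
      have := hp2.1
      omega
    rw [hR1]
    unfold Rep.cut
    simp only
    rw [if_neg hwy, if_pos (by omega)]
  have hhi1 : ∀ w, s ≤ R.hi w → R1.hi w = R.hi w + 1 := fun w hw => by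
    have hwx : w ≠ x := by
      rintro rfl
      omega
    rw [hR1]
    unfold Rep.cut
    simp only
    rw [if_neg hwx, if_pos (by omega)]
  refine ⟨r2, _, ⟨k1, fun a b hab => k2 a b (g2 a b hab), k2 x y g3, ?_, ?_, ?_, ?_,
    ?_, hZm, ?_, ?_, ?_, ?_, ?_, ?_⟩⟩
  · exact Lf.row_aux (by omega) hLf1.sep hLf1.ch hgN hcut hLf1.il hz' hz1' hq
  · have h5 := lower_price K R1 (s0 + 1) z (by omega)
    rw [hT0] at h5
    have h6 : R.U K z ≤ R1.U K z := Rep.U_mono (fun a ha b hb hab => by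
      rw [hR1]
      exact (R.rel_cut p x y hxy hp1 hp2 a b).2 (Or.inl hab)) hzK
    have h9 : (Ts K R s0).card ≤ R.U K x := by
      unfold Rep.U
      refine Finset.card_le_card fun b hb => ?_
      rw [mem_Ts] at hb
      rw [Finset.mem_filter]
      unfold Rep.rel
      exact ⟨hb.1, by omega⟩
    have h10 := newP_trans (r := r) (r' := r1) (r'' := r2)
    have h11 := h.nL p hps (Rep.two_le_N hxy hxK hyK hp1 hp2)
    omega
  · rw [hZe]
    omega
  · rw [hLe, Finset.card_insert_of_notMem hzL]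
  · refine ua_left_le fun w _ hw => ?_
    have hwz : w ≠ z := by
      rintro rfl
      omega
    rw [ehi w hwz, hR1]
    unfold Rep.cut
    simp only
    split_ifs <;> omega
  · rw [← hT]
    rfl
  · intro w hwz hws
    rw [ehi w hwz, hhi1 w hws]
    ring
  · intro w hws
    rw [elo, hlo1 w hws]
    ring
  · intro w hws
    have hwz : w ≠ z := by
      rintro rfl
      omega
    rw [ehi w hwz, hR1]
    unfold Rep.cut
    simp only
    split_ifs <;> omega
  · intro w hws
    rw [elo, hR1]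
    unfold Rep.cut
    simp only
    split_ifs <;> omega
  · rw [ehz]
    omega

/-- the replies on the left side: an undecided element attacks an element which is not in the
right part or the chain -/
theorem Lf.ans (h : Lf B K R s0 s W) (hr : Loc r K R) {x y : V} (hxy : x ≠ y)
    (hx : x ∈ Zs K R s) (hy : y ∈ K) (h1 : ¬ R.rel x y) (h2 : ¬ R.rel y x) :
    ∃ r' R' s0' s', LRep B K R s0 s W r x y x r' R' s0' s' := by
  by_cases hys : s0 ≤ R.lo y
  · obtain ⟨r', R', h3⟩ := h.row hr hx hy hys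
    exact ⟨_, _, _, _, h3⟩
  · have hle := h.le
    have h4 : y ∈ Zs K R s ∨ y ∈ Ls K R s0 := by
      rw [mem_Zs, mem_Ls]
      have := R.le y
      rcases h.sep y hy with h5 | h5 | h5 | h5
      · exact Or.inr ⟨hy, h5⟩
      · omega
      · exact Or.inl ⟨hy, by omega, h5.2⟩
      · omega
    obtain ⟨r', R', h3⟩ := h.ansA hr hxy hx h4 h1 h2
    exact ⟨_, _, _, _, h3⟩

omit [Fintype V] in
/-- two incomparable elements which end before `s` are both in the left part -/
theorem Lf.both_left (h : Lf B K R s0 s W) {x y : V} (hxy : x ≠ y) (hx : x ∈ Ls K R s)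
    (hy : y ∈ Ls K R s) (h1 : ¬ R.rel x y) (h2 : ¬ R.rel y x) :
    x ∈ Ls K R s0 ∧ y ∈ Ls K R s0 := by
  rw [mem_Ls] at hx hy ⊢
  rw [mem_Ls]
  have hle := h.le
  have e1 := R.le x
  have e2 := R.le y
  have h3 := h.sep x hx.1
  have h4 := h.sep y hy.1
  unfold Rep.rel at h1 h2
  by_cases h5 : R.hi x < s0
  · refine ⟨⟨hx.1, h5⟩, hy.1, ?_⟩
    omega
  · by_cases h6 : R.hi y < s0
    · omega
    · have h7 := h.ch x hx.1 y hy.1 hxy (by omega) hx.2 (by omega) hy.2
      unfold Rep.rel at h7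
      omega

end

section

variable {B : ℕ} {K : Finset V} {R R' : Rep V} {s0 s s0' s' : ℤ} {W : ℕ}
  {r r' : V → V → Prop} {x y z : V}

theorem LRep.ua_eq (h : LRep B K R s0 s W r x y z r' R' s0' s') {q : ℤ}
    (hq : s ≤ q + 1) : ua K R' (q + (s' - s)) = ua K R q := by
  classical
  unfold ua
  congr 1
  refine Finset.filter_congr fun w _ => ?_
  by_cases hw : s ≤ R.lo w
  · rw [h.lo w hw]
    constructor <;> intro <;> omega
  · have := h.ll w (by omega)
    constructor <;> intro <;> omega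

theorem LRep.U (h : LRep B K R s0 s W r x y z r' R' s0' s') {w : V} (hw : w ≠ z)
    (hws : s ≤ R.hi w) : R'.U K w = R.U K w := by
  rw [U_eq_ua, U_eq_ua, h.hi w hw hws]
  exact h.ua_eq (by omega)

theorem LRep.N_T (h : LRep B K R s0 s W r x y z r' R' s0' s') (hz : z ∈ Zs K R s)
    (q : ℤ) : R'.N (Ts K R' s') (q + (s' - s)) = R.N (Ts K R s) q := by
  classical
  rw [h.ts]
  unfold Rep.N
  congr 1
  refine Finset.filter_congr fun w hw => ?_
  have hws := (mem_Ts.1 hw).2
  have hwz : w ≠ z := by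
    rintro rfl
    have := (mem_Zs.1 hz).2.1
    omega
  have := R.le w
  unfold Rep.Cr
  rw [h.lo w hws, h.hi w hwz (by omega)]
  constructor <;> rintro ⟨h1, h2⟩ <;> constructor <;> omega

end

end Pool.Agent.OCN
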