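import Pool.Agent.Lib_helper47.OCN.T1TT
import Pool.Agent.Lib_helper47.OCN.Lf2

/-!
# MP_aeb124_co: the class TG (the class T1 with a chain and with levels `δ`), definition

The undecided elements are `Zs K R s`. On one side (here the left one, `Fd` of the dual) they all end
at the same gap and there is the deficit `W`. On the other side (`Sg`) there is a second boundary
`m`: the elements of the right part which do not start after `m` form a chain. The levels
`δ z ≤ U z` take the place of `U z`. A gap above the last gap of an undecided element with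
`δ z < U z` is crossed by one more element.
-/

set_option autoImplicit false

namespace Pool.Agent.OCN

variable {V : Type}

open scoped Classical in
/-- the undecided elements with a low level which end before the gap `p` -/
noncomputable def bon (K : Finset V) (R : Rep V) (s : ℤ) (δ : V → ℕ) (p : ℤ) : ℕ :=
  ((Zs K R s).filter fun w => δ w < R.U K w ∧ R.hi w < p).card

/-- `R'` differs from `R` only on the left side of `s` -/
structure LS (K : Finset V) (R R' : Rep V) (s : ℤ) : Prop where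
  hi : ∀ w ∈ K, s ≤ R.hi w → R'.hi w = R.hi w ∨ (w ∈ Zs K R s ∧ R'.hi w < s)
  hi' : ∀ w ∈ K, R.hi w < s → R'.hi w < s
  lo : ∀ w ∈ K, s ≤ R.lo w → R'.lo w = R.lo w
  lo' : ∀ w ∈ K, R.lo w < s → R'.lo w < s

/-- `R'` differs from `R` only on the right side of `s` -/
def RS (K : Finset V) (R R' : Rep V) (s : ℤ) : Prop := LS K R.dual R'.dual (1 - s)

/-- the side with the deficit `W` (here the right one), all undecided elements end at the same
gap -/
structure Fd (B : ℕ) (K : Finset V) (R : Rep V) (s : ℤ) (W : ℕ) : Prop where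
  gT : K.card ≤ B + (Ts K R s).card
  gL : K.card ≤ B + (Ls K R s).card
  sr : Sd B K R s W
  ir : InjS K R s
  un : ∀ z ∈ Zs K R s, ∀ z' ∈ Zs K R s, R.hi z = R.hi z'

/-- the other side (here the right one) with the chain between `s` and `m` and with the
levels `δ` -/
structure Sg (B : ℕ) (K : Finset V) (R : Rep V) (s m : ℤ) (W d : ℕ) (δ : V → ℕ) : Prop where
  sm : s ≤ m
  sep : ∀ w ∈ K, R.hi w < s ∨ (s ≤ R.lo w ∧ R.hi w < m) ∨ (R.lo w < s ∧ m ≤ R.hi w) ∨
    m ≤ R.lo w
  cn : ∀ a ∈ K, ∀ b ∈ K, a ≠ b → s ≤ R.lo a → R.hi a < m → s ≤ R.lo b → R.hi b < m →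
    R.rel a b ∨ R.rel b a
  gN : K.card ≤ B + (Ts K R m).card + d + 1
  sr : ∀ p, m ≤ p → ∀ z ∈ Zs K R s, R.Cr z p → ∀ t ∈ K, R.Cr t p → t ≠ z →
    K.card + bon K R s δ p ≤ B + R.N (Ts K R m) p + R.U K t + d
  ir : InjS K R m
  hd : ∀ z ∈ Zs K R s, d ≤ R.D K z
  ch : W ≤ ua K R m
  ba : ∀ z ∈ Zs K R s, ∀ z' ∈ Zs K R s, δ z ≤ δ z' + 1
  dU : ∀ z ∈ Zs K R s, δ z ≤ R.U K z

/-- the class TG -/
def TG1 (B : ℕ) (K : Finset V) (R : Rep V) (s m : ℤ) (W d : ℕ) (δ : V → ℕ) : Prop :=
  Sg B K R s m W d δ ∧ Fd B K R.dual (1 - s) W ∧ Mass W (Zs K R s) δ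

/-- terminal, TG or its dual -/
def TG (B : ℕ) (K : Finset V) (R : Rep V) : Prop :=
  Term B K R ∨ (∃ s m W d δ, TG1 B K R s m W d δ) ∨ ∃ s m W d δ, TG1 B K R.dual s m W d δ

end Pool.Agent.OCN
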