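import Pool.Agent.Lib_helper16.OCN.YcNum
import Pool.Agent.Lib_helper47.OCN.TGDef

/-!
# MP_aeb124_co: the exit from the class Yc into the class TG (block E1)
-/

set_option autoImplicit false

namespace Pool.Agent.OCN.YC

variable {V : Type} {B W nl : ℕ} {K : Finset V} {R : Rep V} {σ : St}

/-- (block E1) -/
theorem Yc.exit (h : Yc B W nl K R σ) (hx : Ex W nl σ) : TG B K R := by
  classical
  obtain ⟨s0, s, m, M, δ, hBW, hL, hLf, hnl, hY, hN⟩ := h
  rcases hx with h0 | ⟨ho, ha, hW, hj⟩
  · refine Or.inl (term_of_sizes hL hY.gT ?_)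
    rw [← Finset.card_eq_zero, hN.o, h0]
  -- all undecided elements end at `m`
  have hA : As K R s m = ∅ := by
    rw [← Finset.card_eq_zero, hN.a, ha]
  have hm : ∀ z ∈ Zs K R s, R.hi z = m := by
    intro z hz
    rcases hY.hz z hz with h1 | h1
    · exact h1
    · by_contra h2
      have h3 : z ∈ As K R s m := mem_As.2 ⟨hz, by have := hY.mM; omega⟩
      rw [hA] at h3
      exact absurd h3 (Finset.notMem_empty z)
  have hU : ∀ z ∈ Zs K R s, R.U K z = ua K R m := by
    intro z hz
    rw [U_eq_ua, hm z hz]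
  -- the bound of the deficits of the base elements
  set F : ℕ := (Bs K R s).sup δ with hF
  have hδ : ∀ t ∈ Bs K R s, 2 * δ t + 1 ≤ σ.o ∧ δ t ≤ nl := by
    intro t ht
    refine hj (δ t) ?_
    rw [← hN.β]
    exact Multiset.mem_map_of_mem δ ht
  have hF1 : F ≤ nl := Finset.sup_le fun t ht => (hδ t ht).2
  have hF2 : 2 * F + 1 ≤ σ.o := by
    rcases (Bs K R s).eq_empty_or_nonempty with h1 | h1
    · rw [hF, h1, Finset.sup_empty]
      simpa using ho
    · obtain ⟨t, ht, h2⟩ := Finset.exists_mem_eq_sup _ h1 δ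
      rw [hF, h2]
      exact (hδ t ht).1
  have elo : ∀ w, R.dual.lo w = -R.hi w := fun w => rfl
  have ehi : ∀ w, R.dual.hi w = -R.lo w := fun w => rfl
  refine Or.inr (Or.inr ⟨1 - s, 1 - s0, F, W, fun _ => 0, ⟨?_, ?_, ?_⟩⟩)
  · refine ⟨by have := hLf.le; omega, ?_, ?_, ?_, ?_, hLf.il, ?_, hF1.trans hnl,
      fun _ _ _ _ => Nat.zero_le _, fun _ _ => Nat.zero_le _⟩
    · intro w hw
      rw [elo, ehi]
      have := hLf.sep w hw
      omega
    · intro a ha b hb hab h1 h2 h3 h4
      rw [elo] at h1 h3
      rw [ehi] at h2 h4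
      have h5 := hLf.ch a ha b hb hab (by omega) (by omega) (by omega) (by omega)
      have e : ∀ a b, R.dual.rel a b ↔ R.rel b a := fun a b => by
        rw [Rep.rel_dual]
        rfl
      rw [e, e]
      exact h5.symm
    · rw [Ts_dual]
      exact hLf.gN
    · intro p hp z hz hzp t ht htp htz
      rw [Zs_dual] at hz
      have ez : R.Cr z (-p) := by
        have := hzp
        rw [← neg_neg p, Rep.cr_dual] at this
        exact this
      have et : R.Cr t (-p) := by
        have := htp
        rw [← neg_neg p, Rep.cr_dual] at this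
        exact this
      have hzK := (mem_Zs.1 hz).1
      have h2 : 2 ≤ R.N K (-p) := by
        unfold Rep.N
        have : ({t, z} : Finset V) ⊆ K.filter fun w => R.Cr w (-p) := by
          intro w hw
          rw [Finset.mem_insert, Finset.mem_singleton] at hw
          rw [Finset.mem_filter]
          rcases hw with rfl | rfl
          · exact ⟨ht, et⟩
          · exact ⟨hzK, ez⟩
        have h3 := Finset.card_le_card this
        rwa [Finset.card_pair htz] at h3
      have h3 := hLf.nL (-p) (by omega) h2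
      -- the elements which cross `-p`
      have h4 : R.N K (-p) ≤ R.dual.N (Ts K R.dual (1 - s0)) p +
          ((Zs K R s).filter fun w => R.lo w ≤ -p).card := by
        rw [Ts_dual, ← neg_neg p, Rep.N_dual, neg_neg]
        unfold Rep.N
        refine le_trans (Finset.card_le_card ?_) (Finset.card_union_le _ _)
        intro w hw
        rw [Finset.mem_filter] at hw
        obtain ⟨hwK, h5, h6⟩ := hw
        rw [Finset.mem_union, Finset.mem_filter, Finset.mem_filter]
        by_cases h7 : R.hi w < s0
        · left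
          exact ⟨mem_Ls.2 ⟨hwK, h7⟩, h5, h6⟩
        · right
          refine ⟨?_, h5⟩
          rw [← hLf.zs]
          exact mem_Zs.2 ⟨hwK, by omega, by omega⟩
      have h5 : bon K R.dual (1 - s) (fun _ => 0) p ≤
          ((Zs K R s).filter fun w => ¬ R.lo w ≤ -p).card := by
        unfold bon
        rw [Zs_dual]
        refine Finset.card_le_card fun w hw => ?_
        rw [Finset.mem_filter] at hw ⊢
        obtain ⟨h6, h7, h8⟩ := hw
        rw [ehi] at h8
        exact ⟨h6, by omega⟩
      have h6 := Finset.card_filter_add_card_filter_not (s := Zs K R s)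
        (fun w => R.lo w ≤ -p)
      omega
    · intro z hz
      rw [Zs_dual] at hz
      rw [Rep.D_dual, hU z hz, hN.u]
      exact hW
  · rw [sub_sub_cancel, Rep.dual_dual]
    refine ⟨hY.gT, hL, ?_, hY.ir, ?_⟩
    · intro p hp z hz hzp t ht htp htz
      have hpm : p ≤ m := by
        rw [← hm z hz]
        exact hzp.2
      obtain ⟨h1, h2⟩ := htp
      by_cases h3 : R.lo t < s
      · have h4 : t ∈ Zs K R s := mem_Zs.2 ⟨ht, h3, by omega⟩
        have h5 := hY.zm p hp hpm
        rw [← hU t h4] at h5
        omega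
      · by_cases h4 : R.lo t = s
        · have h5 := hY.ba t ht h4 p ⟨h1, h2⟩ hpm
          have h6 : δ t ≤ F := Finset.le_sup (f := δ) (mem_Bs.2 ⟨ht, h4⟩)
          omega
        · have h5 := hY.fr t ht (by omega) (by omega) p ⟨h1, h2⟩ hpm
          omega
    · intro z hz z' hz'
      rw [hm z hz, hm z' hz']
  · unfold Mass
    rw [Zs_dual, hN.o]
    have h1 : ∑ z ∈ Zs K R s, (F - (fun _ : V => 0) z) = σ.o * F := by
      simp [hN.o]
    rw [h1]
    have h2 : 2 * F ≤ σ.o - 1 := by omega
    calc 2 * (σ.o * F) = σ.o * (2 * F) := by ring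
      _ ≤ σ.o * (σ.o - 1) := Nat.mul_le_mul_left _ h2

end Pool.Agent.OCN.YC
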