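import Pool.Agent.Lib_helper47.OCN.T1Step

/-!
# MP_aeb124_co: the height condition of the class T1 (one side) under the operations
-/

set_option autoImplicit false

namespace Pool.Agent.OCN

variable {V : Type}

/-- the height condition at the right gaps up to `m` -/
def Sdm (B : ℕ) (K : Finset V) (R : Rep V) (s m : ℤ) (c : ℕ) : Prop :=
  ∀ p, s ≤ p → p ≤ m → ∀ z ∈ Zs K R s, R.Cr z p → ∀ t ∈ K, R.Cr t p → t ≠ z →
    K.card ≤ B + R.N (Ts K R s) p + R.U K t + c

/-- the height condition at the right gaps -/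
def Sd (B : ℕ) (K : Finset V) (R : Rep V) (s : ℤ) (c : ℕ) : Prop :=
  ∀ p, s ≤ p → ∀ z ∈ Zs K R s, R.Cr z p → ∀ t ∈ K, R.Cr t p → t ≠ z →
    K.card ≤ B + R.N (Ts K R s) p + R.U K t + c

theorem Sdm.sd {B : ℕ} {K : Finset V} {R : Rep V} {s m : ℤ} {c : ℕ} (h : Sdm B K R s m c)
    (hm : ∀ z ∈ Zs K R s, R.hi z ≤ m) : Sd B K R s c := fun p hp z hz hzp t ht htp htz =>
  h p hp (hzp.2.trans (hm z hz)) z hz hzp t ht htp htz

/-! ### the right cut -/

section cut

variable (K : Finset V) (R : Rep V) (s p : ℤ) (x y : V) (hxy : x ≠ y)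
    (hx : R.Cr x p) (hy : R.Cr y p)

theorem Cr_cut (w : V) (q : ℤ) (h : (R.cut p x y hxy hx hy).Cr w q) : R.Cr w (oldGap p q) := by
  obtain ⟨hx1, hx2⟩ := id hx
  obtain ⟨hy1, hy2⟩ := id hy
  have hle := R.le w
  obtain ⟨h1, h2⟩ := h
  unfold Rep.cut at h1 h2
  simp only at h1 h2
  unfold Rep.Cr oldGap
  by_cases hwy : w = y
  · have hwx : w ≠ x := fun he => hxy (he.symm.trans hwy)
    rw [if_pos hwy] at h1
    rw [if_neg hwx] at h2
    rw [if_neg (by omega)]
    rw [hwy] at h2 ⊢
    rw [if_pos hy2] at h2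
    constructor <;> omega
  · rw [if_neg hwy] at h1
    by_cases hwx : w = x
    · rw [if_pos hwx] at h2
      rw [if_pos h2]
      rw [hwx] at h1 ⊢
      rw [if_neg (by omega)] at h1
      constructor <;> omega
    · rw [if_neg hwx] at h2
      split_ifs at h1 h2 ⊢ <;> constructor <;> omega

theorem lo_cut (w : V) (hwy : w ≠ y) (hw : R.lo w ≤ p) :
    (R.cut p x y hxy hx hy).lo w = R.lo w := by
  unfold Rep.cut
  simp only
  rw [if_neg hwy, if_neg (by omega)]

theorem lo_cut_y : (R.cut p x y hxy hx hy).lo y = p + 1 := by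
  unfold Rep.cut
  simp only
  rw [if_true]

theorem hi_cut_x : (R.cut p x y hxy hx hy).hi x = p := by
  unfold Rep.cut
  simp only
  rw [if_true]

theorem hi_cut_ge (w : V) (hwx : w ≠ x) (hw : p ≤ R.hi w) :
    (R.cut p x y hxy hx hy).hi w = R.hi w + 1 := by
  unfold Rep.cut
  simp only
  rw [if_neg hwx, if_pos hw]

theorem hi_cut_lt (w : V) (hw : R.hi w < p) :
    (R.cut p x y hxy hx hy).hi w = R.hi w := by
  have hwx : w ≠ x := by
    rintro rfl
    have := hx.2
    omega
  unfold Rep.cut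
  simp only
  rw [if_neg hwx, if_neg (by omega)]

theorem Zs_cutR [DecidableEq V] (hp : s ≤ p) :
    Zs K (R.cut p x y hxy hx hy) s = (Zs K R s).erase y := by
  obtain ⟨hx1, hx2⟩ := id hx
  obtain ⟨hy1, hy2⟩ := id hy
  ext z
  rw [Finset.mem_erase, mem_Zs, mem_Zs]
  unfold Rep.cut
  simp only
  by_cases hzy : z = y
  · rw [if_pos hzy]
    constructor
    · rintro ⟨_, h, _⟩
      omega
    · rintro ⟨h, _⟩
      exact absurd hzy h
  · rw [if_neg hzy]
    by_cases hzx : z = x
    · rw [if_pos hzx, hzx]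
      constructor
      · rintro ⟨h1, h2, h3⟩
        refine ⟨hxy, h1, ?_, by omega⟩
        split_ifs at h2 <;> omega
      · rintro ⟨_, h1, h2, h3⟩
        refine ⟨h1, ?_, by omega⟩
        split_ifs <;> omega
    · rw [if_neg hzx]
      constructor
      · rintro ⟨h1, h2, h3⟩
        refine ⟨hzy, h1, ?_, ?_⟩
        · split_ifs at h2 <;> omega
        · split_ifs at h3 <;> omega
      · rintro ⟨_, h1, h2, h3⟩
        refine ⟨h1, ?_, ?_⟩
        · split_ifs <;> omega
        · split_ifs <;> omega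

theorem Ts_cutR [DecidableEq V] (hp : s ≤ p) (hyK : y ∈ K) :
    Ts K (R.cut p x y hxy hx hy) s = insert y (Ts K R s) := by
  obtain ⟨hx1, hx2⟩ := id hx
  obtain ⟨hy1, hy2⟩ := id hy
  ext z
  rw [Finset.mem_insert, mem_Ts, mem_Ts]
  unfold Rep.cut
  simp only
  by_cases hzy : z = y
  · rw [if_pos hzy]
    exact ⟨fun _ => Or.inl hzy, fun _ => ⟨hzy ▸ hyK, by omega⟩⟩
  · rw [if_neg hzy]
    constructor
    · rintro ⟨h1, h2⟩
      refine Or.inr ⟨h1, ?_⟩
      split_ifs at h2 <;> omega
    · rintro (h | ⟨h1, h2⟩)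
      · exact absurd h hzy
      · refine ⟨h1, ?_⟩
        split_ifs <;> omega

theorem Ls_cutR (hp : s ≤ p) : Ls K (R.cut p x y hxy hx hy) s = Ls K R s := by
  obtain ⟨hx1, hx2⟩ := id hx
  obtain ⟨hy1, hy2⟩ := id hy
  ext z
  rw [mem_Ls, mem_Ls]
  unfold Rep.cut
  simp only
  by_cases hzx : z = x
  · rw [if_pos hzx, hzx]
    constructor
    · rintro ⟨h1, h2⟩
      omega
    · rintro ⟨h1, h2⟩
      omega
  · rw [if_neg hzx]
    constructor
    · rintro ⟨h1, h2⟩
      refine ⟨h1, ?_⟩
      split_ifs at h2 <;> omega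
    · rintro ⟨h1, h2⟩
      refine ⟨h1, ?_⟩
      split_ifs <;> omega

/-- the numbers of later starts after a cut -/
theorem ua_cut_le (hyK : y ∈ K) (q : ℤ) (hq : q ≤ p) :
    ua K (R.cut p x y hxy hx hy) q = ua K R q + (if R.lo y ≤ q then 1 else 0) := by
  classical
  obtain ⟨hy1, hy2⟩ := id hy
  unfold ua
  by_cases h : R.lo y ≤ q
  · rw [if_pos h]
    have h1 : (K.filter fun b => q < (R.cut p x y hxy hx hy).lo b) =
        insert y (K.filter fun b => q < R.lo b) := by
      ext b
      rw [Finset.mem_insert, Finset.mem_filter, Finset.mem_filter]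
      unfold Rep.cut
      simp only
      by_cases hb : b = y
      · rw [if_pos hb]
        exact ⟨fun _ => Or.inl hb, fun _ => ⟨hb ▸ hyK, by omega⟩⟩
      · rw [if_neg hb]
        constructor
        · rintro ⟨h1, h2⟩
          refine Or.inr ⟨h1, ?_⟩
          split_ifs at h2 <;> omega
        · rintro (h1 | ⟨h1, h2⟩)
          · exact absurd h1 hb
          · refine ⟨h1, ?_⟩
            split_ifs <;> omega
    rw [h1, Finset.card_insert_of_notMem]
    rw [Finset.mem_filter]
    rintro ⟨_, h2⟩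
    omega
  · rw [if_neg h, add_zero]
    congr 1
    ext b
    rw [Finset.mem_filter, Finset.mem_filter]
    unfold Rep.cut
    simp only
    by_cases hb : b = y
    · rw [if_pos hb, hb]
      constructor
      · rintro ⟨h1, _⟩
        exact ⟨h1, by omega⟩
      · rintro ⟨h1, _⟩
        exact ⟨h1, by omega⟩
    · rw [if_neg hb]
      constructor
      · rintro ⟨h1, h2⟩
        refine ⟨h1, ?_⟩
        split_ifs at h2 <;> omega
      · rintro ⟨h1, h2⟩
        refine ⟨h1, ?_⟩
        split_ifs <;> omega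

theorem ua_cut_gt (q : ℤ) (hq : p < q) :
    ua K (R.cut p x y hxy hx hy) q = ua K R (q - 1) := by
  classical
  obtain ⟨hy1, hy2⟩ := id hy
  unfold ua
  congr 1
  ext b
  rw [Finset.mem_filter, Finset.mem_filter]
  unfold Rep.cut
  simp only
  by_cases hb : b = y
  · rw [if_pos hb, hb]
    constructor
    · rintro ⟨h1, _⟩
      omega
    · rintro ⟨h1, _⟩
      omega
  · rw [if_neg hb]
    constructor
    · rintro ⟨h1, h2⟩
      refine ⟨h1, ?_⟩
      split_ifs at h2 <;> omega
    · rintro ⟨h1, h2⟩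
      refine ⟨h1, ?_⟩
      split_ifs <;> omega

theorem U_cut_x (hyK : y ∈ K) : (R.cut p x y hxy hx hy).U K x = ua K R p + 1 := by
  rw [U_eq_ua, hi_cut_x, ua_cut_le K R p x y hxy hx hy hyK p le_rfl, if_pos hy.1]

theorem U_cut_ge (w : V) (hwx : w ≠ x) (hw : p ≤ R.hi w) :
    (R.cut p x y hxy hx hy).U K w = R.U K w := by
  rw [U_eq_ua, hi_cut_ge R p x y hxy hx hy w hwx hw, ua_cut_gt K R p x y hxy hx hy _ (by omega),
    U_eq_ua]
  congr 1
  omega

theorem U_cut_lt (hyK : y ∈ K) (w : V) (hw : R.hi w < p) :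
    (R.cut p x y hxy hx hy).U K w = R.U K w + (if R.lo y ≤ R.hi w then 1 else 0) := by
  rw [U_eq_ua, hi_cut_lt R p x y hxy hx hy w hw, ua_cut_le K R p x y hxy hx hy hyK _ (by omega),
    U_eq_ua]

theorem InjS.cut (h : InjS K R s) (hp : s ≤ p) : InjS K (R.cut p x y hxy hx hy) s := by
  obtain ⟨hy1, hy2⟩ := id hy
  intro a ha b hb h1 h2
  unfold Rep.cut at h1 h2
  simp only at h1 h2
  by_cases hay : a = y
  · rw [if_pos hay] at h1 h2
    by_cases hby : b = y
    · rw [hay, hby]
    · rw [if_neg hby] at h2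
      exfalso
      split_ifs at h2 <;> omega
  · rw [if_neg hay] at h1 h2
    by_cases hby : b = y
    · rw [if_pos hby] at h2
      exfalso
      split_ifs at h1 h2 <;> omega
    · rw [if_neg hby] at h2
      refine h a ha b hb ?_ ?_
      · split_ifs at h1 <;> omega
      · split_ifs at h2 <;> omega

/-- the height condition after an attack on an undecided element -/
theorem Sd.cutZ {B c : ℕ} (h : Sd B K R s c) (hp : s ≤ p) (hyZ : y ∈ Zs K R s) :
    Sdm B K (R.cut p x y hxy hx hy) s (R.hi y + 1) c := by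
  classical
  obtain ⟨hx1, hx2⟩ := id hx
  obtain ⟨hy1, hy2⟩ := id hy
  intro q hq hqm z hz hzq t ht htq htz
  have hZ := Zs_cutR K R s p x y hxy hx hy hp
  have hT := Ts_cutR K R s p x y hxy hx hy hp (mem_Zs.1 hyZ).1
  rw [hZ, Finset.mem_erase] at hz
  have h1 := h (oldGap p q) (by unfold oldGap; split_ifs <;> omega) z hz.2
    (Cr_cut R p x y hxy hx hy z q hzq) t ht (Cr_cut R p x y hxy hx hy t q htq) htz
  have h2 : R.U K t ≤ (R.cut p x y hxy hx hy).U K t := Rep.U_mono (fun a _ b _ hab =>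
    (R.rel_cut p x y hxy hx hy a b).2 (Or.inl hab)) ht
  have h3 : R.N (Ts K R s) (oldGap p q) ≤
      (R.cut p x y hxy hx hy).N (Ts K (R.cut p x y hxy hx hy) s) q := by
    rw [hT]
    have hyT : y ∉ Ts K R s := fun h4 => by
      have := (mem_Ts.1 h4).2
      have := (mem_Zs.1 hyZ).2.1
      omega
    unfold Rep.N
    by_cases hqp : q ≤ p
    · refine Finset.card_le_card fun w hw => ?_
      rw [Finset.mem_filter] at hw ⊢
      refine ⟨Finset.mem_insert_of_mem hw.1, ?_⟩
      have hwy : w ≠ y := fun he => hyT (he ▸ hw.1)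
      obtain ⟨h4, h5⟩ := hw.2
      unfold oldGap at h4 h5
      rw [if_pos hqp] at h4 h5
      unfold Rep.Cr Rep.cut
      simp only
      rw [if_neg hwy]
      constructor
      · split_ifs <;> omega
      · split_ifs <;> omega
    · have h6 : ((Ts K R s).filter fun w => R.Cr w (oldGap p q)).card ≤
          (((Ts K R s).filter fun w => R.Cr w (oldGap p q)).erase x).card + 1 := by
        have := Finset.card_erase_add_one (s := ((Ts K R s).filter fun w => R.Cr w (oldGap p q)))
          (a := x)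
        by_cases h7 : x ∈ ((Ts K R s).filter fun w => R.Cr w (oldGap p q))
        · exact le_of_eq (this h7).symm
        · rw [Finset.erase_eq_of_notMem h7]
          exact Nat.le_succ _
      refine h6.trans ?_
      have hyE : y ∉ ((Ts K R s).filter fun w => R.Cr w (oldGap p q)).erase x := by
        rw [Finset.mem_erase, Finset.mem_filter]
        rintro ⟨_, h7, _⟩
        exact hyT h7
      rw [← Finset.card_insert_of_notMem hyE]
      refine Finset.card_le_card fun w hw => ?_
      rw [Finset.mem_insert, Finset.mem_erase, Finset.mem_filter] at hw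
      rw [Finset.mem_filter, Finset.mem_insert]
      rcases hw with rfl | ⟨hwx, hwT, hw⟩
      · refine ⟨Or.inl rfl, ?_⟩
        unfold Rep.Cr
        rw [lo_cut_y, hi_cut_ge R p x w hxy hx hy w hxy.symm hy2]
        constructor <;> omega
      · refine ⟨Or.inr hwT, ?_⟩
        have hwy : w ≠ y := fun he => hyT (he ▸ hwT)
        obtain ⟨h4, h5⟩ := hw
        unfold oldGap at h4 h5
        rw [if_neg hqp] at h4 h5
        unfold Rep.Cr Rep.cut
        simp only
        rw [if_neg hwy, if_neg hwx]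
        constructor
        · split_ifs <;> omega
        · split_ifs <;> omega
  omega

/-- the height condition after an attack inside of the right part: one unit is lost -/
theorem Sd.cutT {B c : ℕ} (h : Sd B K R s c) (hp : s ≤ p) (hyT : y ∈ Ts K R s) :
    Sd B K (R.cut p x y hxy hx hy) s (c + 1) := by
  classical
  intro q hq z hz hzq t ht htq htz
  have hZ := Zs_cutR K R s p x y hxy hx hy hp
  have hT := Ts_cutR K R s p x y hxy hx hy hp (mem_Ts.1 hyT).1
  rw [Finset.insert_eq_of_mem hyT] at hT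
  rw [hZ, Finset.mem_erase] at hz
  have h1 := h (oldGap p q) (by unfold oldGap; split_ifs <;> omega) z hz.2
    (Cr_cut R p x y hxy hx hy z q hzq) t ht (Cr_cut R p x y hxy hx hy t q htq) htz
  have h2 : R.U K t ≤ (R.cut p x y hxy hx hy).U K t := Rep.U_mono (fun a _ b _ hab =>
    (R.rel_cut p x y hxy hx hy a b).2 (Or.inl hab)) ht
  have h3 := (N_cut (Ts K R s) R p x y hxy hx hy q).1
  rw [hT]
  omega

/-- a right cut does not change the crossings of the left gaps -/
theorem Cr_cut_left (hp : s ≤ p) (w : V) (q : ℤ) (hq : q < s) :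
    (R.cut p x y hxy hx hy).Cr w q ↔ R.Cr w q ∧ w ≠ y := by
  obtain ⟨hx1, hx2⟩ := id hx
  obtain ⟨hy1, hy2⟩ := id hy
  have hle := R.le w
  unfold Rep.Cr Rep.cut
  simp only
  by_cases hwy : w = y
  · rw [if_pos hwy]
    constructor
    · rintro ⟨h1, _⟩
      omega
    · rintro ⟨_, h1⟩
      exact absurd hwy h1
  · rw [if_neg hwy]
    by_cases hwx : w = x
    · rw [if_pos hwx, hwx]
      constructor
      · rintro ⟨h1, h2⟩
        refine ⟨⟨?_, by omega⟩, hxy⟩
        split_ifs at h1 <;> omega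
      · rintro ⟨⟨h1, h2⟩, _⟩
        refine ⟨?_, by omega⟩
        split_ifs <;> omega
    · rw [if_neg hwx]
      constructor
      · rintro ⟨h1, h2⟩
        refine ⟨⟨?_, ?_⟩, hwy⟩
        · split_ifs at h1 <;> omega
        · split_ifs at h2 <;> omega
      · rintro ⟨⟨h1, h2⟩, _⟩
        constructor
        · split_ifs <;> omega
        · split_ifs <;> omega

/-- the left height condition after a right cut -/
theorem Sd.cut_left {B c : ℕ} (h : Sd B K R.dual (1 - s) c) (hp : s ≤ p) :
    Sd B K (R.cut p x y hxy hx hy).dual (1 - s) c := by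
  classical
  intro q hq z hz hzq t ht htq htz
  have hq' : -q < s := by omega
  have hd : ∀ (R : Rep V) (w : V), R.dual.Cr w q ↔ R.Cr w (-q) := fun R w => by
    have := R.cr_dual w (-q)
    rw [neg_neg] at this
    exact this
  rw [Zs_dual, Zs_cutR K R s p x y hxy hx hy hp, Finset.mem_erase] at hz
  rw [hd, Cr_cut_left R s p x y hxy hx hy hp _ _ hq'] at hzq htq
  have h1 := h q hq z (by rw [Zs_dual]; exact hz.2) ((hd R z).2 hzq.1) t ht ((hd R t).2 htq.1) htz
  rw [Ts_dual, Rep.U_dual] at h1 ⊢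
  rw [Ls_cutR K R s p x y hxy hx hy hp]
  have h2 : R.D K t ≤ (R.cut p x y hxy hx hy).D K t := Rep.D_mono (fun a _ b _ hab =>
    (R.rel_cut p x y hxy hx hy a b).2 (Or.inl hab)) ht
  have h3 : R.dual.N (Ls K R s) q = (R.cut p x y hxy hx hy).dual.N (Ls K R s) q := by
    unfold Rep.N
    congr 1
    refine Finset.filter_congr fun w hw => ?_
    rw [hd, hd, Cr_cut_left R s p x y hxy hx hy hp _ _ hq']
    have hwy : w ≠ y := by
      rintro rfl
      have := (mem_Ls.1 hw).2
      have := hy.2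
      omega
    exact ⟨fun h4 => ⟨h4, hwy⟩, fun h4 => h4.1⟩
  rw [← h3]
  omega

theorem InjS.cut_left (h : InjS K R.dual (1 - s)) (hp : s ≤ p) :
    InjS K (R.cut p x y hxy hx hy).dual (1 - s) := by
  obtain ⟨hx1, hx2⟩ := id hx
  intro a ha b hb h1 h2
  have h3 : ∀ w, (R.cut p x y hxy hx hy).dual.lo w = -(R.cut p x y hxy hx hy).hi w := fun w => rfl
  have h4 : ∀ w, R.dual.lo w = -R.hi w := fun w => rfl
  rw [h3] at h1
  rw [h3, h3] at h2
  have h5 : ∀ w, (R.cut p x y hxy hx hy).hi w < s - 1 → R.hi w = (R.cut p x y hxy hx hy).hi w := by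
    intro w hw
    unfold Rep.cut at hw ⊢
    simp only at hw ⊢
    split_ifs at hw ⊢ <;> omega
  have h6 := h5 a (by omega)
  have h7 := h5 b (by omega)
  refine h a ha b hb ?_ ?_
  · rw [h4]
    omega
  · rw [h4, h4]
    omega

/-- the elements below an undecided element after a right cut -/
theorem D_cut_Z (hp : s ≤ p) {w : V} (hw : w ∈ Zs K R s) (hwy : w ≠ y) :
    (R.cut p x y hxy hx hy).D K w = R.D K w := by
  classical
  obtain ⟨hx1, hx2⟩ := id hx
  unfold Rep.D
  congr 1
  refine Finset.filter_congr fun a _ => ?_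
  obtain ⟨_, hw1, hw2⟩ := mem_Zs.1 hw
  unfold Rep.rel
  rw [lo_cut R p x y hxy hx hy w hwy (by omega)]
  unfold Rep.cut
  simp only
  split_ifs with h1 h2
  · rw [h1]
    constructor <;> intro <;> omega
  · constructor <;> intro <;> omega
  · rfl

/-- the number of early ends after a right cut -/
theorem ua_cut_left (hp : s ≤ p) :
    ua K (R.cut p x y hxy hx hy).dual (1 - s) = ua K R.dual (1 - s) := by
  classical
  obtain ⟨hx1, hx2⟩ := id hx
  unfold ua
  congr 1
  refine Finset.filter_congr fun a _ => ?_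
  have h3 : ∀ w, (R.cut p x y hxy hx hy).dual.lo w = -(R.cut p x y hxy hx hy).hi w := fun w => rfl
  have h4 : ∀ w, R.dual.lo w = -R.hi w := fun w => rfl
  rw [h3, h4]
  unfold Rep.cut
  simp only
  split_ifs with h1 h2
  · rw [h1]
    constructor <;> intro <;> omega
  · constructor <;> intro <;> omega
  · rfl

end cut

end Pool.Agent.OCN
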