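import Pool.Agent.Lib_helper47.OCN.SMove
import Pool.Agent.Lib_helper47.OCN.T1Side

/-!
# MP_aeb124_co: the left side with a deficit and a chain below the boundary

There are two boundaries `s0 ≤ s`. Every element of `K` ends before `s0` (the left part), or is
between `s0` and `s` (the chain), or crosses both boundaries (undecided), or starts after `s` (the
right part). The elements of the chain are comparable with all elements except the undecided ones.
Every gap of the left part is crossed by at least `#K - B - W + #Z` elements.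
-/

set_option autoImplicit false

namespace Pool.Agent.OCN

variable {V : Type}

/-- the left side with the deficit `W` -/
structure Lf (B : ℕ) (K : Finset V) (R : Rep V) (s0 s : ℤ) (W : ℕ) : Prop where
  le : s0 ≤ s
  sep : ∀ w ∈ K, R.hi w < s0 ∨ (s0 ≤ R.lo w ∧ R.hi w < s) ∨ (R.lo w < s0 ∧ s ≤ R.hi w) ∨
    s ≤ R.lo w
  ch : ∀ a ∈ K, ∀ b ∈ K, a ≠ b → s0 ≤ R.lo a → R.hi a < s → s0 ≤ R.lo b → R.hi b < s →
    R.rel a b ∨ R.rel b a
  gN : K.card ≤ B + (Ls K R s0).card + W + 1
  nL : ∀ p, p < s0 → 2 ≤ R.N K p → K.card + (Zs K R s).card ≤ B + R.N K p + W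
  il : InjS K R.dual (1 - s0)

section

variable {B : ℕ} {K : Finset V} {R : Rep V} {s0 s : ℤ} {W : ℕ}

theorem Lf.zs (h : Lf B K R s0 s W) : Zs K R s0 = Zs K R s := by
  ext w
  rw [mem_Zs, mem_Zs]
  have h1 := h.le
  have h2 := R.le w
  constructor
  · rintro ⟨hw, h3, h4⟩
    have := h.sep w hw
    exact ⟨hw, by omega, by omega⟩
  · rintro ⟨hw, h3, h4⟩
    have := h.sep w hw
    exact ⟨hw, by omega, by omega⟩

theorem Lf.mem_Z (h : Lf B K R s0 s W) {w : V} (hw : w ∈ Zs K R s) :
    w ∈ K ∧ R.lo w < s0 ∧ s ≤ R.hi w := by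
  have h1 := hw
  rw [← h.zs] at h1
  exact ⟨(mem_Zs.1 h1).1, (mem_Zs.1 h1).2.1, (mem_Zs.1 hw).2.2⟩

/-- the right side of the position has changed -/
theorem Lf.of_right (h : Lf B K R s0 s W) {R' : Rep V}
    (h1 : ∀ w ∈ K, R.lo w < s → R'.lo w = R.lo w ∨ (w ∈ Zs K R s ∧ s ≤ R'.lo w))
    (h2 : ∀ w ∈ K, s ≤ R.lo w → s ≤ R'.lo w) (h3 : ∀ w ∈ K, R.hi w < s → R'.hi w = R.hi w)
    (h4 : ∀ w ∈ K, s ≤ R.hi w → s ≤ R'.hi w) : Lf B K R' s0 s W := by
  classical
  have hle := h.le
  have hlo : ∀ w ∈ K, R.hi w < s → R'.lo w = R.lo w := by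
    intro w hw hws
    have := R.le w
    rcases h1 w hw (by omega) with h5 | h5
    · exact h5
    · have := (mem_Zs.1 h5.1).2.2
      omega
  have hL : Ls K R' s0 = Ls K R s0 := by
    ext w
    rw [mem_Ls, mem_Ls]
    constructor
    · rintro ⟨hw, h5⟩
      refine ⟨hw, ?_⟩
      by_contra h6
      by_cases h7 : R.hi w < s
      · have := h3 w hw h7
        omega
      · have := h4 w hw (by omega)
        omega
    · rintro ⟨hw, h5⟩
      refine ⟨hw, ?_⟩
      rw [h3 w hw (by omega)]
      exact h5
  have hZ : Zs K R' s ⊆ Zs K R s := by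
    intro w hw
    obtain ⟨hwK, h5, h6⟩ := mem_Zs.1 hw
    rw [mem_Zs]
    refine ⟨hwK, ?_, ?_⟩
    · by_contra h7
      have := h2 w hwK (by omega)
      omega
    · by_contra h7
      have := h3 w hwK (by omega)
      omega
  refine ⟨hle, ?_, ?_, ?_, ?_, ?_⟩
  · intro w hw
    have h5 := R'.le w
    have h6 := R.le w
    rcases h.sep w hw with h7 | h7 | h7 | h7
    · have := h3 w hw (by omega)
      omega
    · have := h3 w hw (by omega)
      have := hlo w hw (by omega)
      omega
    · have := h4 w hw (by omega)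
      rcases h1 w hw (by omega) with h8 | h8
      · omega
      · omega
    · have := h2 w hw h7
      omega
  · intro a ha b hb hab ha1 ha2 hb1 hb2
    have e1 : ∀ w ∈ K, R'.hi w < s → R'.lo w = R.lo w ∧ R'.hi w = R.hi w := by
      intro w hw hws
      have h5 : R.hi w < s := by
        by_contra h6
        have := h4 w hw (by omega)
        omega
      exact ⟨hlo w hw h5, h3 w hw h5⟩
    obtain ⟨e2, e3⟩ := e1 a ha ha2
    obtain ⟨e4, e5⟩ := e1 b hb hb2
    have := h.ch a ha b hb hab (by omega) (by omega) (by omega) (by omega)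
    unfold Rep.rel at this ⊢
    omega
  · rw [hL]
    exact h.gN
  · intro p hp h5
    -- an element which crosses `p` in `R` crosses it in `R'` or is no longer undecided
    have h6 : (K.filter fun w => R'.Cr w p) ⊆ K.filter fun w => R.Cr w p := by
      intro w hw
      rw [Finset.mem_filter] at hw ⊢
      obtain ⟨hwK, h7, h8⟩ := hw
      refine ⟨hwK, ?_⟩
      have h9 : R.lo w < s := by
        by_contra h10
        have := h2 w hwK (by omega)
        omega
      rcases h1 w hwK h9 with h10 | h10
      · refine ⟨by omega, ?_⟩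
        by_cases h11 : R.hi w < s
        · have := h3 w hwK h11
          omega
        · omega
      · omega
    have h7 : (K.filter fun w => R.Cr w p) ⊆
        (K.filter fun w => R'.Cr w p) ∪ (Zs K R s \ Zs K R' s) := by
      intro w hw
      rw [Finset.mem_filter] at hw
      obtain ⟨hwK, h8, h9⟩ := hw
      rw [Finset.mem_union, Finset.mem_filter, Finset.mem_sdiff]
      rcases h1 w hwK (by omega) with h10 | h10
      · left
        refine ⟨hwK, by omega, ?_⟩
        by_cases h11 : R.hi w < s
        · rw [h3 w hwK h11]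
          exact h9
        · have := h4 w hwK (by omega)
          omega
      · right
        refine ⟨h10.1, fun h11 => ?_⟩
        have := (mem_Zs.1 h11).2.1
        omega
    have h8 : R'.N K p ≤ R.N K p := Finset.card_le_card h6
    have h9 : R.N K p ≤ R'.N K p + (Zs K R s \ Zs K R' s).card :=
      (Finset.card_le_card h7).trans (Finset.card_union_le _ _)
    have h10 := Finset.card_sdiff_add_card_eq_card hZ
    have := h.nL p hp (by omega)
    omega
  · intro a ha b hb h5 h6
    have e0 : ∀ w, R'.dual.lo w = -R'.hi w := fun w => rfl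
    have e0' : ∀ w, R.dual.lo w = -R.hi w := fun w => rfl
    rw [e0] at h5
    rw [e0, e0] at h6
    have e1 : ∀ w ∈ K, R'.hi w < s → R'.hi w = R.hi w := by
      intro w hw hws
      refine h3 w hw ?_
      by_contra h6
      have := h4 w hw (by omega)
      omega
    refine h.il a ha b hb ?_ ?_
    · rw [e0', ← e1 a ha (by omega)]
      omega
    · rw [e0', e0', ← e1 a ha (by omega), ← e1 b hb (by omega)]
      exact h6

/-- an element `c` of the right part becomes the top of the chain -/
theorem Lf.shift (h : Lf B K R s0 s W) {s' : ℤ} {c : V} (hs : s ≤ s') (hc1 : s ≤ R.lo c)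
    (hc2 : R.hi c < s') (h1 : ∀ w ∈ K, w ≠ c → s ≤ R.lo w → s' ≤ R.lo w)
    (h2 : ∀ w ∈ K, w ≠ c → s ≤ R.hi w → s' ≤ R.hi w) : Lf B K R s0 s' W := by
  classical
  have hle := h.le
  have hlec := R.le c
  have hZ : Zs K R s' = Zs K R s := by
    ext w
    rw [mem_Zs, mem_Zs]
    have hw0 := R.le w
    constructor
    · rintro ⟨hw, h3, h4⟩
      refine ⟨hw, ?_, by omega⟩
      by_contra h5
      have h6 : w ≠ c := by
        rintro rfl
        omega
      have := h1 w hw h6 (by omega)
      omega
    · rintro ⟨hw, h3, h4⟩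
      have h6 : w ≠ c := by
        rintro rfl
        omega
      exact ⟨hw, by omega, h2 w hw h6 h4⟩
  refine ⟨by omega, ?_, ?_, h.gN, ?_, h.il⟩
  · intro w hw
    by_cases hwc : w = c
    · subst hwc
      right
      left
      omega
    · have h3 := h1 w hw hwc
      have h4 := h2 w hw hwc
      rcases h.sep w hw with h5 | h5 | h5 | h5
      · omega
      · right
        left
        omega
      · have := h4 (by omega)
        right
        right
        left
        omega
      · have := h3 h5
        omega
  · -- the chain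
    have key : ∀ w ∈ K, w ≠ c → s0 ≤ R.lo w → R.hi w < s' → R.hi w < s := by
      intro w hw hwc h3 h4
      by_contra h5
      have := h2 w hw hwc (by omega)
      omega
    intro a ha b hb hab ha1 ha2 hb1 hb2
    by_cases hac : a = c
    · have hbc : b ≠ c := fun he => hab (hac.trans he.symm)
      right
      have := key b hb hbc hb1 hb2
      unfold Rep.rel
      rw [hac]
      omega
    · by_cases hbc : b = c
      · left
        have := key a ha hac ha1 ha2
        unfold Rep.rel
        rw [hbc]
        omega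
      · exact h.ch a ha b hb hab ha1 (key a ha hac ha1 ha2) hb1 (key b hb hbc hb1 hb2)
  · rw [hZ]
    exact h.nL

end

end Pool.Agent.OCN
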