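import Pool.Agent.Lib_helper47.OCN.Lf2

/-!
# MP_aeb124_co: the replies on the left side, normal form (the right side does not move)
-/

set_option autoImplicit false

namespace Pool.Agent.OCN

variable {V : Type}

/-- the translation of a representation -/
def Rep.tr (R : Rep V) (c : ℤ) : Rep V where
  lo w := R.lo w - c
  hi w := R.hi w - c
  le w := by have := R.le w; omega

section

variable (R : Rep V) (K : Finset V) (c : ℤ)

theorem Rep.rel_tr (a b : V) : (R.tr c).rel a b ↔ R.rel a b := by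
  unfold Rep.rel Rep.tr
  simp only
  omega

theorem Rep.N_tr (p : ℤ) : (R.tr c).N K p = R.N K (p + c) := by
  classical
  unfold Rep.N
  congr 1
  refine Finset.filter_congr fun w _ => ?_
  unfold Rep.Cr Rep.tr
  simp only
  constructor <;> rintro ⟨h1, h2⟩ <;> constructor <;> omega

theorem Zs_tr (s : ℤ) : Zs K (R.tr c) s = Zs K R (s + c) := by
  ext w
  rw [mem_Zs, mem_Zs]
  unfold Rep.tr
  simp only
  constructor <;> rintro ⟨h, h1, h2⟩ <;> refine ⟨h, ?_, ?_⟩ <;> omega

theorem Ls_tr (s : ℤ) : Ls K (R.tr c) s = Ls K R (s + c) := by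
  ext w
  rw [mem_Ls, mem_Ls]
  unfold Rep.tr
  simp only
  constructor <;> rintro ⟨h, h1⟩ <;> refine ⟨h, ?_⟩ <;> omega

theorem Ts_tr (s : ℤ) : Ts K (R.tr c) s = Ts K R (s + c) := by
  ext w
  rw [mem_Ts, mem_Ts]
  unfold Rep.tr
  simp only
  constructor <;> rintro ⟨h, h1⟩ <;> refine ⟨h, ?_⟩ <;> omega

theorem ua_tr_dual (p : ℤ) : ua K (R.tr c).dual p = ua K R.dual (p - c) := by
  classical
  unfold ua
  congr 1
  refine Finset.filter_congr fun w _ => ?_
  unfold Rep.dual Rep.tr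
  simp only
  constructor <;> intro <;> omega

variable {R K}

theorem Loc.tr {r : V → V → Prop} (h : Loc r K R) : Loc r K (R.tr c) :=
  ⟨h.so, h.iso, fun a ha b hb => (h.eq a ha b hb).trans (R.rel_tr c a b).symm⟩

theorem InjS.tr_dual {p : ℤ} (h : InjS K R.dual p) : InjS K (R.tr c).dual (p + c) := by
  intro a ha b hb h1 h2
  have e0 : ∀ w, (R.tr c).dual.lo w = -(R.hi w - c) := fun w => rfl
  have e1 : ∀ w, R.dual.lo w = -R.hi w := fun w => rfl
  rw [e0] at h1
  rw [e0, e0] at h2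
  refine h a ha b hb ?_ ?_
  · rw [e1]
    omega
  · rw [e1, e1]
    omega

theorem Lf.tr {B : ℕ} {s0 s : ℤ} {W : ℕ} (h : Lf B K R s0 s W) :
    Lf B K (R.tr c) (s0 - c) (s - c) W := by
  have elo : ∀ w, (R.tr c).lo w = R.lo w - c := fun w => rfl
  have ehi : ∀ w, (R.tr c).hi w = R.hi w - c := fun w => rfl
  refine ⟨by have := h.le; omega, fun w hw => ?_, fun a ha b hb hab h1 h2 h3 h4 => ?_, ?_,
    fun p hp h2 => ?_, ?_⟩
  · have := h.sep w hw
    rw [elo, ehi]
    omega
  · rw [elo] at h1 h3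
    rw [ehi] at h2 h4
    rw [Rep.rel_tr, Rep.rel_tr]
    exact h.ch a ha b hb hab (by omega) (by omega) (by omega) (by omega)
  · rw [Ls_tr, sub_add_cancel]
    exact h.gN
  · rw [Rep.N_tr] at h2 ⊢
    rw [Zs_tr, sub_add_cancel]
    exact h.nL (p + c) (by omega) h2
  · have := h.il.tr_dual c
    have e : 1 - s0 + c = 1 - (s0 - c) := by ring
    rw [e] at this
    exact this

end

variable [Fintype V] {B : ℕ} {K : Finset V} {R R' : Rep V} {s0 s s0' s' : ℤ} {W : ℕ}
  {r r' : V → V → Prop} {x y z : V}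

/-- the normal form of a reply on the left side -/
theorem LRep.norm (h : LRep B K R s0 s W r x y z r' R' s0' s') :
    LRep B K R s0 s W r x y z r' (R'.tr (s' - s)) (s0' - (s' - s)) s := by
  have elo : ∀ w, (R'.tr (s' - s)).lo w = R'.lo w - (s' - s) := fun w => rfl
  have ehi : ∀ w, (R'.tr (s' - s)).hi w = R'.hi w - (s' - s) := fun w => rfl
  have es : s + (s' - s) = s' := by ring
  refine ⟨h.loc.tr _, h.mono, h.pair, ?_, h.cost, ?_, ?_, ?_, fun w => ?_, ?_, fun w hw h1 => ?_,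
    fun w hw => ?_, fun w hw => ?_, fun w hw => ?_, ?_⟩
  · have := h.lf.tr (s' - s)
    rw [sub_sub_cancel] at this
    exact this
  · rw [Zs_tr, es]
    exact h.zc
  · rw [Ls_tr, es]
    exact h.ls
  · rw [ua_tr_dual]
    have e : 1 - (s0' - (s' - s)) - (s' - s) = 1 - s0' := by ring
    rw [e]
    exact h.ue
  · rw [Zs_tr, es]
    exact h.zs w
  · rw [Ts_tr, es]
    exact h.ts
  · rw [ehi, h.hi w hw h1]
    ring
  · rw [elo, h.lo w hw]
    ring
  · rw [ehi]
    have := h.hl w hw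
    omega
  · rw [elo]
    have := h.ll w hw
    omega
  · rw [ehi]
    have := h.hz
    omega

/-- an undecided element attacks, normal form -/
theorem Lf.ans' (h : Lf B K R s0 s W) (hr : Loc r K R) (hxy : x ≠ y)
    (hx : x ∈ Zs K R s) (hy : y ∈ K) (h1 : ¬ R.rel x y) (h2 : ¬ R.rel y x) :
    ∃ r' R' s0', LRep B K R s0 s W r x y x r' R' s0' s := by
  obtain ⟨r', R', s0', s', h3⟩ := h.ans hr hxy hx hy h1 h2
  exact ⟨_, _, _, h3.norm⟩

/-- an attack inside of the left part and the chain, normal form -/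
theorem Lf.ansC' (h : Lf B K R s0 s W) (hr : Loc r K R) (hxy : x ≠ y)
    (hx : x ∈ Ls K R s) (hy : y ∈ Ls K R s) (h1 : ¬ R.rel x y) (h2 : ¬ R.rel y x)
    (hz : z ∈ Zs K R s) : ∃ r' R' s0', LRep B K R s0 s W r x y z r' R' s0' s := by
  obtain ⟨h3, h4⟩ := h.both_left hxy hx hy h1 h2
  obtain ⟨r', R', h5⟩ := h.ansC hr hxy h3 h4 h1 h2 hz
  exact ⟨_, _, _, h5.norm⟩

end Pool.Agent.OCN
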