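import Pool.Agent.Lib_helper68.OCN.YcJ0

/-!
# MP_aeb124_co: number game, block Z2: a state of the class M with `μ = E` belongs to the class Z
-/

set_option autoImplicit false

namespace Pool.Agent.OCN.YC

variable {P : Par} {σ : St} {I : ℕ} {v : Vd}

theorem Z2_K (P : Par) : 52 ≤ P.K := by
  have h1 := P.hK
  have h2 := P.hR
  unfold kap at h1
  generalize P.Q / P.R0 = q at h1
  omega

theorem Z2_exτ {f c : ℕ} (hc : f < c) (τ : Multiset ℕ) (h : ∀ j ∈ τ, j ≤ c) :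
    ex f τ + Multiset.card τ ≤
      Multiset.card τ * (c - f) + Multiset.card (τ.filter fun j => c ≤ j) := by
  induction τ using Multiset.induction_on with
  | empty => simp
  | cons j S ih =>
    have h1 := ih fun d hd => h d (Multiset.mem_cons_of_mem hd)
    have h2 := h j (Multiset.mem_cons_self _ _)
    rw [ex_cons, Multiset.card_cons]
    by_cases h3 : c ≤ j
    · rw [Multiset.filter_cons_of_pos (p := fun d => c ≤ d) S h3, Multiset.card_cons]
      rw [Nat.add_mul, one_mul]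
      omega
    · rw [Multiset.filter_cons_of_neg (p := fun d => c ≤ d) S h3]
      rw [Nat.add_mul, one_mul]
      omega

theorem Z2_exs_mono (p q : ℕ) (S : Multiset ℕ) : exs 0 q S ≤ exs p q S := by
  induction p with
  | zero => exact le_rfl
  | succ p ih => exact ih.trans (exs_le_succ p q S)

/-- the excess over `f` -/
theorem Z2_ex {o u μ : ℕ} {β : Multiset ℕ} (h : Sn P o u μ β v) (hc : P.f < v.c) :
    ex P.f β + v.z ≤ v.m * (v.c - P.f) + v.X + v.n := by
  obtain ⟨τ, γ, h1, h2, h3, h4, h5, h6, h7⟩ := h.hR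
  have hτ : ∀ j ∈ τ, j ≤ v.c := fun j hj => h2 j (by rw [h1]; exact Multiset.mem_add.2 (Or.inl hj))
  have h8 := Z2_exτ hc τ hτ
  have h9 : ex P.f γ ≤ v.X + v.n := by
    cases hmd : v.md
    · have h10 := h7 hmd
      have h11 : ex P.f γ ≤ exs v.m P.f γ := Z2_exs_mono v.m P.f γ
      omega
    · obtain ⟨h10, h11⟩ := h6 hmd
      obtain ⟨h12, h13, h14, h15, h16⟩ := h.hA hmd
      have h17 := ex_anti h13 γ
      rw [ex_succ v.d γ] at h17
      have h18 : Multiset.card (γ.filter fun d => v.d < d) ≤ v.p := h10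
      omega
  have h10 : Multiset.card τ * (v.c - P.f) + (v.m - Multiset.card τ) ≤ v.m * (v.c - P.f) := by
    obtain ⟨t, ht⟩ := Nat.exists_eq_add_of_le h3
    rw [ht, Nat.add_mul]
    have h11 : t * 1 ≤ t * (v.c - P.f) := Nat.mul_le_mul_left t (by omega)
    omega
  rw [h1, ex_add]
  omega

/-- the potential -/
theorem Z2_pot {o u μ ra : ℕ} {β : Multiset ℕ} (h : Sn P o u μ β v) (hM : μ = v.E)
    (hp : TP P o v ≤ Pee P o ra v + 8 * I) :
    16 * ((P.K : ℤ) * o) + 40 * ((P.K : ℤ) * P.Q) + 2 * ((v.m : ℤ) + v.n) ≤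
      pz (min v.c P.f) (P.W - u) o ra (ex (min v.c P.f) β) 0 + 2 * I := by
  have hm : v.m = v.w := by
    have := h.hm
    omega
  have hmK : v.m ≤ P.K := by
    rw [hm]
    exact h.hw
  have hQ : v.n ≤ 4 * P.Q := by
    have := h.hN
    omega
  have hK1 : 1 ≤ P.K := by
    have h1 := P.hK
    omega
  have hW : P.W - u ≤ v.E := by
    have := h.hE
    omega
  have a1 : (o : ℤ) * ((P.W - u : ℕ) : ℤ) ≤ o * v.E := by
    have : o * (P.W - u) ≤ o * v.E := Nat.mul_le_mul_left o hW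
    exact_mod_cast this
  have a2 : (v.m : ℤ) ^ 2 ≤ (P.K : ℤ) * P.Q := by
    have : v.m * v.m ≤ P.K * P.Q := Nat.mul_le_mul hmK (hmK.trans P.hKQ)
    rw [sq]
    exact_mod_cast this
  have a3 : (P.Q : ℤ) ≤ (P.K : ℤ) * P.Q := by
    have : 1 * P.Q ≤ P.K * P.Q := Nat.mul_le_mul_right _ hK1
    rw [one_mul] at this
    exact_mod_cast this
  have a4 : (0 : ℤ) ≤ (v.w : ℤ) * (v.m + min (v.c : ℤ) P.f) := by positivity
  have a5 : (0 : ℤ) ≤ (P.K : ℤ) * o := by positivity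
  have hQ' : (v.n : ℤ) ≤ 4 * P.Q := by exact_mod_cast hQ
  have hK52 : (52 : ℤ) * P.Q ≤ (P.K : ℤ) * P.Q := by
    have : 52 * P.Q ≤ P.K * P.Q := Nat.mul_le_mul_right _ (Z2_K P)
    exact_mod_cast this
  have hmQ : (v.m : ℤ) ≤ P.Q := by exact_mod_cast hmK.trans P.hKQ
  unfold TP Pee pQ pP at hp
  unfold pz
  rcases Nat.lt_or_ge P.f v.c with hc | hc
  · have h1 := Z2_ex h hc
    rw [Nat.min_eq_right hc.le]
    have hc' : (P.f : ℤ) ≤ v.c := by exact_mod_cast hc.le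
    rw [min_eq_right hc'] at hp
    rw [max_eq_right (by linarith : (0 : ℤ) ≤ (v.c : ℤ) - P.f)] at hp
    rw [min_eq_right hc'] at a4
    have h2 : ((ex P.f β : ℕ) : ℤ) + v.z ≤ v.m * ((v.c : ℤ) - P.f) + v.X + v.n := by
      have h3 : ((ex P.f β + v.z : ℕ) : ℤ) ≤ ((v.m * (v.c - P.f) + v.X + v.n : ℕ) : ℤ) := by
        exact_mod_cast h1
      push_cast [Nat.cast_sub hc.le] at h3
      exact h3
    push_cast
    nlinarith
  · rw [Nat.min_eq_left hc]
    have hc' : (v.c : ℤ) ≤ P.f := by exact_mod_cast hc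
    rw [min_eq_left hc'] at hp
    rw [max_eq_left (by linarith : (v.c : ℤ) - P.f ≤ 0)] at hp
    rw [min_eq_left hc'] at a4
    have h1 : ex v.c β = 0 := by
      obtain ⟨τ, γ, h1, h2, _⟩ := h.hR
      exact ex_eq_zero.2 h2
    have h2 : v.z = 0 := by
      rcases h.hz0 with h3 | h3
      · exact h3
      · omega
    rw [h1]
    rw [h2] at hp
    have h3 : (0 : ℤ) ≤ v.X := Int.natCast_nonneg _
    push_cast at hp ⊢
    nlinarith

/-- the excess is small -/
theorem Z2_exI {o u μ : ℕ} {β : Multiset ℕ} (h : Sn P o u μ β v) (hM : μ = v.E)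
    (hy : v.c ≤ P.f + v.m + 13) (hX : v.X ≤ 12 * (v.c + 1) + I) :
    ex (min v.c P.f) β + (v.m + v.n) ≤ I + 20 * (P.K * P.Q) := by
  have hm : v.m = v.w := by
    have := h.hm
    omega
  have hmK : v.m ≤ P.K := by
    rw [hm]
    exact h.hw
  have hKQ := P.hKQ
  have hK1 : 52 ≤ P.K := Z2_K P
  rcases Nat.lt_or_ge P.f v.c with hc | hc
  · rw [Nat.min_eq_right hc.le]
    have h1 := Z2_ex h hc
    have h2 : v.m * (v.c - P.f) ≤ P.K * (2 * P.Q) := Nat.mul_le_mul hmK (by omega)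
    have h3 : P.K * (2 * P.Q) = 2 * (P.K * P.Q) := by ring
    have h4 : 52 * P.Q ≤ P.K * P.Q := Nat.mul_le_mul_right _ hK1
    have h5 := h.hn
    have h6 := h.hN
    omega
  · rw [Nat.min_eq_left hc]
    have h1 : ex v.c β = 0 := by
      obtain ⟨τ, γ, h1, h2, _⟩ := h.hR
      exact ex_eq_zero.2 h2
    have h4 : 52 * P.Q ≤ P.K * P.Q := Nat.mul_le_mul_right _ hK1
    have h6 := h.hN
    omega

/-- the excess over one level less -/
theorem Z2_step {o u μ : ℕ} {β : Multiset ℕ} (h : Sn P o u μ β v) {φ t : ℕ} (h1 : t ≤ φ + 1) :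
    ex φ β ≤ ex t β + (v.m + v.n) := by
  have h2 : Multiset.card β ≤ v.m + v.n := by
    obtain ⟨τ, γ, h1, h2, h3, h4, h5, _⟩ := h.hR
    rw [h1, Multiset.card_add]
    omega
  have h3 := ex_anti h1 β
  have h4 := ex_succ φ β
  have h5 : Multiset.card (β.filter fun d => φ < d) ≤ Multiset.card β :=
    Multiset.card_le_card (Multiset.filter_le _ _)
  omega

/-- the common part -/
theorem Z2_main {σ : St} {F : ℕ} (h : Sn P σ.o σ.u σ.μ σ.β v) (hM : σ.μ = v.E)
    (hy : v.c ≤ P.f + v.m + 13) (hX : v.X ≤ 12 * (v.c + 1) + I) (hI : I ≤ σ.o + 1)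
    (hp : TP P σ.o v ≤ Pee P σ.o (σ.r * σ.a) v + 8 * I) (hF : F = v.c)
    (hw : σ.a = 0 ∨
      (σ.cb = 0 ∧ σ.ν ≤ 1 ∧ ∃ k, Kb P σ.r σ.a k ∧
        ((σ.ν = 1 ∧ σ.r * σ.a + σ.r ≤ σ.o + I + 1) ∨
          σ.r * σ.a + σ.r + F + k + 10 ≤ σ.o + I + 1)) ∨
      (σ.r = 1 ∧ σ.ν = 1 ∧ P.W ≤ σ.u ∧ 1 ≤ σ.cb ∧ σ.cb ≤ F ∧ (σ.cb ≤ σ.a ∨ σ.a ≤ I) ∧
        σ.a + F + P.K + 14 ≤ σ.o + I)) : ZJ P σ I := by
  subst hF
  have hm : v.m = v.w := by
    have := h.hm
    omega
  have hmK : v.m ≤ P.K := by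
    rw [hm]
    exact h.hw
  have hnl := h.hnl
  have hφ : min v.c P.f ≤ min (min v.c P.f) P.nl + 1 := by
    rcases Nat.le_total v.c P.f with h1 | h1 <;> rcases Nat.le_total (min v.c P.f) P.nl with h2 | h2
    · rw [Nat.min_eq_left h2]
      omega
    · rw [Nat.min_eq_right h2]
      rw [Nat.min_eq_left h1]
      omega
    · rw [Nat.min_eq_left h2]
      omega
    · rw [Nat.min_eq_right h2]
      rw [Nat.min_eq_right h1]
      omega
  have hst := Z2_step h hφ
  refine ⟨min (min v.c P.f) P.nl, v.c, min_le_right _ _, ?_, h.ho, hI, ?_, ?_,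
    ?_, ?_, hw⟩
  · rw [hM]
    exact h.hE
  · obtain ⟨τ, γ, h1, h2, _⟩ := h.hR
    exact h2
  · have h2 : v.c ≤ min v.c P.f + P.K + 13 := by
      rcases Nat.le_total v.c P.f with h1 | h1
      · rw [Nat.min_eq_left h1]
        omega
      · rw [Nat.min_eq_right h1]
        omega
    omega
  · exact hst.trans (Z2_exI h hM hy hX)
  · have h1 := Z2_pot h hM hp
    unfold pz at h1 ⊢
    have h2 : ((min (min v.c P.f) P.nl : ℕ) : ℤ) * (σ.o : ℤ) ≤
        ((min v.c P.f : ℕ) : ℤ) * (σ.o : ℤ) := by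
      have : min (min v.c P.f) P.nl * σ.o ≤ min v.c P.f * σ.o :=
        Nat.mul_le_mul_right _ (min_le_left _ _)
      exact_mod_cast this
    have h3 : ((ex (min (min v.c P.f) P.nl) σ.β : ℕ) : ℤ) ≤
        ((ex (min v.c P.f) σ.β : ℕ) : ℤ) + ((v.m : ℤ) + v.n) := by exact_mod_cast hst
    linarith

/-- Z2 -/
theorem toZ_C (h : JC P σ I v) (hM : σ.μ = v.E) : ZJ P σ I := by
  refine Z2_main (F := v.c) h.sn hM h.y ?_ h.hI ?_ rfl (Or.inl h.a)
  · have h1 := h.yi
    have h2 : v.X ≤ (v.c + 1) * (v.c - (P.f + v.m)) + v.X := Nat.le_add_left _ _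
    omega
  · rw [h.a, mul_zero]
    exact h.pp (by omega)

theorem toZ_S {k : ℕ} (h : JS P σ I v k) (hM : σ.μ = v.E) : ZJ P σ I := by
  have hr : 1 ≤ σ.r := h.kb.1
  refine Z2_main (F := v.c) h.sn hM ?_ ?_ h.hI ?_ rfl (Or.inr (Or.inl ⟨h.cb, h.ν, k, h.kb, ?_⟩))
  · rcases h.win with h1 | h1
    · obtain ⟨_, _, _, h1⟩ := h1
      omega
    · obtain ⟨_, _, _, h1⟩ := h1
      omega
  · rcases h.win with h1 | h1
    · obtain ⟨_, _, h1, _⟩ := h1
      omega
    · obtain ⟨_, _, h1, _⟩ := h1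
      omega
  · have h1 := h.pp (by omega)
    have h2 : (1 : ℤ) ≤ σ.r := by exact_mod_cast hr
    linarith
  · rcases h.win with h1 | h1
    · obtain ⟨h1, h2, _, _⟩ := h1
      exact Or.inl ⟨h1, h2⟩
    · obtain ⟨_, h1, _, _⟩ := h1
      exact Or.inr h1

theorem toZ_L {ρ : ℤ} (h : JL P σ I v ρ) (hM : v.E = 0) : ZJ P σ I := by
  have hμ : σ.μ = v.E := by rw [h.μ, hM]
  have hm0 : v.m = 0 := by
    have h1 := h.sn.hm
    have h2 := h.w
    have h3 := h.μ
    omega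
  have hz0 : v.z = 0 := by
    have := h.sn.hz
    omega
  have hK1 : 52 ≤ P.K := Z2_K P
  have hpp := h.pp hM
  have hra : σ.r * σ.a = σ.a := by rw [h.r, one_mul]
  refine Z2_main (F := v.c) h.sn hμ ?_ ?_ h.hI ?_ rfl
    (Or.inr (Or.inr ⟨h.r, h.ν, ?_, h.cb1, h.cb, h.cba, ?_⟩))
  · have := h.y
    omega
  · rw [h.X]
    omega
  · rw [hra]
    exact hpp
  · have h1 := h.sn.hE
    rw [hM] at h1
    simpa using h1
  · rcases h.win with h1 | h1
    · obtain ⟨_, h1⟩ := h1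
      omega
    · obtain ⟨h1, h2, _⟩ := h1
      have hI := h.hI
      have hoI : σ.o ≤ I + 2 := by
        rcases h2 with h2 | h2
        · omega
        · obtain ⟨h2, _⟩ := h2
          omega
      have hy := h.y
      have hQ := h.sn.ho
      unfold TP Pee pQ pP at hpp
      rw [h.w, hM, h.X, hm0, hz0, h1] at hpp
      have b1 : (I : ℤ) ≤ σ.o + 1 := by exact_mod_cast hI
      have b2 : (52 : ℤ) ≤ P.K := by exact_mod_cast hK1
      have b3 : (P.K : ℤ) ≤ P.Q := by exact_mod_cast P.hKQ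
      have b4 : (52 : ℤ) * 52 ≤ (P.K : ℤ) * P.Q := by nlinarith
      have b5 : (0 : ℤ) ≤ σ.o := Int.natCast_nonneg _
      have b6 : (v.c : ℤ) - 2 ≤ min (v.c : ℤ) P.f := by
        have h3 : v.c ≤ P.f + 2 := by omega
        have h4 : (v.c : ℤ) ≤ P.f + 2 := by exact_mod_cast h3
        rcases le_total (v.c : ℤ) P.f with h5 | h5
        · rw [min_eq_left h5]; linarith
        · rw [min_eq_right h5]; linarith
      have b7 : (0 : ℤ) ≤ σ.o * (min (v.c : ℤ) P.f - (v.c - 2)) :=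
        mul_nonneg b5 (by linarith)
      push_cast at hpp
      have b8 : (80 : ℤ) * (P.K * σ.o) + 8 * ((v.c - 2) * σ.o) ≤ 4 * (σ.o : ℤ) ^ 2 := by
        nlinarith
      have b9 : (20 : ℤ) * P.K + 2 * (v.c - 2) ≤ σ.o := by
        by_contra hcon
        push Not at hcon
        rcases Nat.eq_zero_or_pos σ.o with h3 | h3
        · rw [h3] at hpp hI b7
          push_cast at hpp b7
          have b10 : (I : ℤ) ≤ 1 := by
            have : I ≤ 1 := by omega
            exact_mod_cast this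
          nlinarith
        · have h4 : (1 : ℤ) ≤ σ.o := by exact_mod_cast h3
          have h5 : (σ.o : ℤ) * σ.o < σ.o * (20 * P.K + 2 * (v.c - 2)) :=
            mul_lt_mul_of_pos_left hcon (by linarith)
          nlinarith
      have h3 : 20 * P.K + 2 * v.c ≤ σ.o + 4 := by
        have : (20 : ℤ) * P.K + 2 * v.c ≤ σ.o + 4 := by linarith
        exact_mod_cast this
      rw [h1]
      omega

end Pool.Agent.OCN.YC
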