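import Pool.Agent.Lib_helper16.OCN.YAns

/-!
# MP_aeb124_co: the safe class with undecided elements (class S), basics

`s` is a boundary (between the gaps `s - 1` and `s`): `Ls` ended before it, `Ts` start after it and
`Zs` cross it. The height condition `Hc`: every gap which is crossed by two elements is crossed by
at least `#K - B + #Zs` elements, up to the corrections `eL`, `eT`.
-/

set_option autoImplicit false

namespace Pool.Agent.OCN

variable {V : Type}

open scoped Classical in
/-- the elements which cross the boundary -/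
noncomputable def Zs (K : Finset V) (R : Rep V) (s : ℤ) : Finset V :=
  K.filter fun z => R.lo z < s ∧ s ≤ R.hi z

open scoped Classical in
/-- the elements left of the boundary -/
noncomputable def Ls (K : Finset V) (R : Rep V) (s : ℤ) : Finset V := K.filter fun z => R.hi z < s

open scoped Classical in
/-- the elements right of the boundary -/
noncomputable def Ts (K : Finset V) (R : Rep V) (s : ℤ) : Finset V := K.filter fun z => s ≤ R.lo z

theorem mem_Zs {K : Finset V} {R : Rep V} {s : ℤ} {z : V} :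
    z ∈ Zs K R s ↔ z ∈ K ∧ R.lo z < s ∧ s ≤ R.hi z := by
  classical
  exact Finset.mem_filter

theorem mem_Ls {K : Finset V} {R : Rep V} {s : ℤ} {z : V} :
    z ∈ Ls K R s ↔ z ∈ K ∧ R.hi z < s := by
  classical
  exact Finset.mem_filter

theorem mem_Ts {K : Finset V} {R : Rep V} {s : ℤ} {z : V} :
    z ∈ Ts K R s ↔ z ∈ K ∧ s ≤ R.lo z := by
  classical
  exact Finset.mem_filter

theorem card_LTZ (K : Finset V) (R : Rep V) (s : ℤ) :
    (Ls K R s).card + (Ts K R s).card + (Zs K R s).card = K.card := by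
  classical
  rw [← Finset.card_union_of_disjoint, ← Finset.card_union_of_disjoint]
  · congr 1
    ext z
    have := R.le z
    rw [Finset.mem_union, Finset.mem_union, mem_Ls, mem_Ts, mem_Zs]
    constructor
    · rintro ((h | h) | h) <;> exact h.1
    · intro hz
      by_cases h1 : R.hi z < s
      · exact Or.inl (Or.inl ⟨hz, h1⟩)
      · by_cases h2 : s ≤ R.lo z
        · exact Or.inl (Or.inr ⟨hz, h2⟩)
        · exact Or.inr ⟨hz, by omega, by omega⟩
  · rw [Finset.disjoint_left]
    intro z hz hz'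
    rw [mem_Zs] at hz'
    rcases Finset.mem_union.1 hz with h | h
    · rw [mem_Ls] at h
      omega
    · rw [mem_Ts] at h
      omega
  · rw [Finset.disjoint_left]
    intro z hz hz'
    rw [mem_Ls] at hz
    rw [mem_Ts] at hz'
    have := R.le z
    omega

/-- the heights -/
structure Hc (B : ℕ) (K : Finset V) (R : Rep V) (s : ℤ) (eL eT : ℕ) : Prop where
  gL : K.card ≤ B + (Ls K R s).card
  gT : K.card ≤ B + (Ts K R s).card
  nL : ∀ p, p < s → 2 ≤ R.N K p → K.card + (Zs K R s).card ≤ B + R.N K p + eL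
  nT : ∀ p, s ≤ p → 2 ≤ R.N K p → K.card + (Zs K R s).card ≤ B + R.N K p + eT

/-! ### duality -/

theorem Zs_dual (K : Finset V) (R : Rep V) (s : ℤ) : Zs K R.dual (1 - s) = Zs K R s := by
  ext z
  rw [mem_Zs, mem_Zs]
  unfold Rep.dual
  simp only
  constructor <;> rintro ⟨h1, h2, h3⟩ <;> refine ⟨h1, ?_, ?_⟩ <;> omega

theorem Ls_dual (K : Finset V) (R : Rep V) (s : ℤ) : Ls K R.dual (1 - s) = Ts K R s := by
  ext z
  rw [mem_Ls, mem_Ts]
  unfold Rep.dual
  simp only
  constructor <;> rintro ⟨h1, h2⟩ <;> refine ⟨h1, ?_⟩ <;> omega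

theorem Ts_dual (K : Finset V) (R : Rep V) (s : ℤ) : Ts K R.dual (1 - s) = Ls K R s := by
  ext z
  rw [mem_Ls, mem_Ts]
  unfold Rep.dual
  simp only
  constructor <;> rintro ⟨h1, h2⟩ <;> refine ⟨h1, ?_⟩ <;> omega

theorem Hc.dual {B : ℕ} {K : Finset V} {R : Rep V} {s : ℤ} {eL eT : ℕ} (h : Hc B K R s eL eT) :
    Hc B K R.dual (1 - s) eT eL where
  gL := by rw [Ls_dual]; exact h.gT
  gT := by rw [Ts_dual]; exact h.gL
  nL p hp h2 := by
    have h3 := R.N_dual K (-p)
    rw [neg_neg] at h3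
    rw [h3] at h2 ⊢
    rw [Zs_dual]
    exact h.nT (-p) (by omega) h2
  nT p hp h2 := by
    have h3 := R.N_dual K (-p)
    rw [neg_neg] at h3
    rw [h3] at h2 ⊢
    rw [Zs_dual]
    exact h.nL (-p) (by omega) h2

theorem Hc.mono {B : ℕ} {K : Finset V} {R : Rep V} {s : ℤ} {eL eT eL' eT' : ℕ}
    (h : Hc B K R s eL eT) (h1 : eL ≤ eL') (h2 : eT ≤ eT') : Hc B K R s eL' eT' where
  gL := h.gL
  gT := h.gT
  nL p h3 h4 := by have := h.nL p h3 h4; omega
  nT p h3 h4 := by have := h.nT p h3 h4; omega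

/-! ### the heights under the operations -/

/-- the gap from which the gap `q` comes after a cut at `p` -/
def oldGap (p q : ℤ) : ℤ := if q ≤ p then q else q - 1

theorem N_cut (K : Finset V) (R : Rep V) (p : ℤ) (x y : V) (hxy : x ≠ y)
    (hx : R.Cr x p) (hy : R.Cr y p) (q : ℤ) :
    R.N K (oldGap p q) ≤ (R.cut p x y hxy hx hy).N K q + 1 ∧
      (R.cut p x y hxy hx hy).N K q ≤ R.N K (oldGap p q) := by
  classical
  obtain ⟨hx1, hx2⟩ := id hx
  obtain ⟨hy1, hy2⟩ := id hy
  unfold Rep.N oldGap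
  constructor
  · have h5 : (K.filter fun z => R.Cr z (if q ≤ p then q else q - 1)) ⊆
        insert (if q ≤ p then y else x)
          (K.filter fun z => (R.cut p x y hxy hx hy).Cr z q) := by
      intro z hz
      rw [Finset.mem_insert, Finset.mem_filter]
      rw [Finset.mem_filter] at hz
      obtain ⟨hzK, hz1, hz2⟩ := hz
      by_cases hqp : q ≤ p
      · rw [if_pos hqp] at hz1 hz2 ⊢
        by_cases hzy : z = y
        · exact Or.inl hzy
        · refine Or.inr ⟨hzK, ?_⟩
          unfold Rep.Cr Rep.cut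
          simp only
          rw [if_neg hzy]
          constructor
          · split_ifs <;> omega
          · split_ifs <;> omega
      · rw [if_neg hqp] at hz1 hz2 ⊢
        by_cases hzx : z = x
        · exact Or.inl hzx
        · refine Or.inr ⟨hzK, ?_⟩
          unfold Rep.Cr Rep.cut
          simp only
          rw [if_neg hzx]
          constructor
          · split_ifs <;> omega
          · split_ifs <;> omega
    exact (Finset.card_le_card h5).trans (Finset.card_insert_le _ _)
  · refine Finset.card_le_card fun z hz => ?_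
    rw [Finset.mem_filter] at hz ⊢
    refine ⟨hz.1, ?_⟩
    obtain ⟨h1, h2⟩ := hz.2
    have hle := R.le z
    unfold Rep.cut at h1 h2
    simp only at h1 h2
    unfold Rep.Cr
    by_cases hzx : z = x
    · have hzy : z ≠ y := fun he => hxy (hzx.symm.trans he)
      rw [if_pos hzx] at h2
      rw [if_neg hzy] at h1
      rw [hzx] at h1 ⊢
      rw [if_pos h2]
      split_ifs at h1 <;> omega
    · rw [if_neg hzx] at h2
      by_cases hzy : z = y
      · rw [if_pos hzy] at h1
        rw [hzy] at h2 ⊢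
        rw [if_neg (by omega)]
        split_ifs at h2 <;> omega
      · rw [if_neg hzy] at h1
        split_ifs at h1 h2 ⊢ <;> omega

theorem N_lower_eq (K : Finset V) (R : Rep V) (z : V) (q : ℤ) (h : R.lo z ≤ q)
    (h' : q ≤ R.hi z) (p : ℤ) (hp : p ≤ q) : (R.lower z q h).N K p = R.N K p := by
  classical
  unfold Rep.N
  congr 1
  refine Finset.filter_congr fun w _ => ?_
  unfold Rep.Cr Rep.lower
  simp only
  by_cases hw : w = z
  · rw [if_pos hw, hw]
    constructor <;> rintro ⟨_, _⟩ <;> constructor <;> omega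
  · rw [if_neg hw]

theorem N_lower (K : Finset V) (R : Rep V) (z : V) (q : ℤ) (h : R.lo z ≤ q)
    (h' : q ≤ R.hi z) (p : ℤ) :
    R.N K p ≤ (R.lower z q h).N K p + 1 ∧ (R.lower z q h).N K p ≤ R.N K p := by
  classical
  unfold Rep.N
  constructor
  · have h5 : (K.filter fun w => R.Cr w p) ⊆
        insert z (K.filter fun w => (R.lower z q h).Cr w p) := by
      intro w hw
      rw [Finset.mem_insert, Finset.mem_filter]
      rw [Finset.mem_filter] at hw
      by_cases hwz : w = z
      · exact Or.inl hwz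
      · refine Or.inr ⟨hw.1, ?_⟩
        unfold Rep.Cr Rep.lower
        simp only
        rw [if_neg hwz]
        exact hw.2
    exact (Finset.card_le_card h5).trans (Finset.card_insert_le _ _)
  · refine Finset.card_le_card fun w hw => ?_
    rw [Finset.mem_filter] at hw ⊢
    refine ⟨hw.1, ?_⟩
    obtain ⟨h1, h2⟩ := hw.2
    unfold Rep.lower at h1 h2
    simp only at h1 h2
    unfold Rep.Cr
    by_cases hwz : w = z
    · rw [if_pos hwz] at h2
      rw [hwz] at h1 ⊢
      omega
    · rw [if_neg hwz] at h2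
      exact ⟨h1, h2⟩

/-! ### the classes under the operations -/

theorem Zs_cutLow [DecidableEq V] (K : Finset V) (R : Rep V) (s p : ℤ) (x y : V) (hxy : x ≠ y)
    (hx : R.Cr x p) (hy : R.Cr y p) (hp : p < s) :
    Zs K (R.cut p x y hxy hx hy) (s + 1) = (Zs K R s).erase x := by
  obtain ⟨hx1, hx2⟩ := id hx
  obtain ⟨hy1, hy2⟩ := id hy
  ext z
  rw [Finset.mem_erase, mem_Zs, mem_Zs]
  unfold Rep.cut
  simp only
  by_cases hzx : z = x
  · rw [if_pos hzx]
    constructor
    · rintro ⟨_, _, h⟩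
      omega
    · rintro ⟨h, _⟩
      exact absurd hzx h
  · rw [if_neg hzx]
    by_cases hzy : z = y
    · rw [if_pos hzy, hzy]
      constructor
      · rintro ⟨h1, h2, h3⟩
        refine ⟨fun h => hzx (hzy.trans h), h1, by omega, ?_⟩
        split_ifs at h3 <;> omega
      · rintro ⟨_, h1, h2, h3⟩
        refine ⟨h1, by omega, ?_⟩
        split_ifs <;> omega
    · rw [if_neg hzy]
      constructor
      · rintro ⟨h1, h2, h3⟩
        refine ⟨hzx, h1, ?_, ?_⟩
        · split_ifs at h2 <;> omega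
        · split_ifs at h3 <;> omega
      · rintro ⟨_, h1, h2, h3⟩
        refine ⟨h1, ?_, ?_⟩
        · split_ifs <;> omega
        · split_ifs <;> omega

theorem Ts_cutLow (K : Finset V) (R : Rep V) (s p : ℤ) (x y : V) (hxy : x ≠ y)
    (hx : R.Cr x p) (hy : R.Cr y p) (hp : p < s) :
    Ts K (R.cut p x y hxy hx hy) (s + 1) = Ts K R s := by
  obtain ⟨hx1, hx2⟩ := id hx
  obtain ⟨hy1, hy2⟩ := id hy
  ext z
  rw [mem_Ts, mem_Ts]
  unfold Rep.cut
  simp only
  by_cases hzy : z = y
  · rw [if_pos hzy, hzy]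
    constructor
    · rintro ⟨h1, h2⟩
      omega
    · rintro ⟨h1, h2⟩
      omega
  · rw [if_neg hzy]
    constructor
    · rintro ⟨h1, h2⟩
      refine ⟨h1, ?_⟩
      split_ifs at h2 <;> omega
    · rintro ⟨h1, h2⟩
      refine ⟨h1, ?_⟩
      split_ifs <;> omega

theorem Ls_cutLow [DecidableEq V] (K : Finset V) (R : Rep V) (s p : ℤ) (x y : V) (hxy : x ≠ y)
    (hx : R.Cr x p) (hy : R.Cr y p) (hp : p < s) (hxK : x ∈ K) :
    Ls K (R.cut p x y hxy hx hy) (s + 1) = insert x (Ls K R s) := by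
  obtain ⟨hx1, hx2⟩ := id hx
  obtain ⟨hy1, hy2⟩ := id hy
  ext z
  rw [Finset.mem_insert, mem_Ls, mem_Ls]
  unfold Rep.cut
  simp only
  by_cases hzx : z = x
  · rw [if_pos hzx, hzx]
    exact ⟨fun _ => Or.inl rfl, fun _ => ⟨hxK, by omega⟩⟩
  · rw [if_neg hzx]
    constructor
    · rintro ⟨h1, h2⟩
      refine Or.inr ⟨h1, ?_⟩
      split_ifs at h2 <;> omega
    · rintro (h | ⟨h1, h2⟩)
      · exact absurd h hzx
      · refine ⟨h1, ?_⟩
        split_ifs <;> omega

theorem Zs_lower [DecidableEq V] (K : Finset V) (R : Rep V) (s : ℤ) (z : V)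
    (h : R.lo z ≤ s - 1) : Zs K (R.lower z (s - 1) h) s = (Zs K R s).erase z := by
  ext w
  rw [Finset.mem_erase, mem_Zs, mem_Zs]
  unfold Rep.lower
  simp only
  by_cases hwz : w = z
  · rw [if_pos hwz]
    constructor
    · rintro ⟨_, _, h⟩
      omega
    · rintro ⟨h, _⟩
      exact absurd hwz h
  · rw [if_neg hwz]
    exact ⟨fun h => ⟨hwz, h⟩, fun h => h.2⟩

theorem Ts_lower (K : Finset V) (R : Rep V) (s q : ℤ) (z : V) (h : R.lo z ≤ q) :
    Ts K (R.lower z q h) s = Ts K R s := rfl

theorem Ls_lower [DecidableEq V] (K : Finset V) (R : Rep V) (s : ℤ) (z : V) (hz : z ∈ K)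
    (h : R.lo z ≤ s - 1) : Ls K (R.lower z (s - 1) h) s = insert z (Ls K R s) := by
  ext w
  rw [Finset.mem_insert, mem_Ls, mem_Ls]
  unfold Rep.lower
  simp only
  by_cases hwz : w = z
  · rw [if_pos hwz, hwz]
    exact ⟨fun _ => Or.inl rfl, fun _ => ⟨hz, by omega⟩⟩
  · rw [if_neg hwz]
    exact ⟨Or.inr, fun h => h.resolve_left hwz⟩

/-! ### the height class under the moves -/

/-- every height drops by at most one -/
def Drop (K : Finset V) (R : Rep V) (s : ℤ) (R' : Rep V) (s' : ℤ) : Prop :=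
  ∀ q, 2 ≤ R'.N K q → ∃ p, (q < s' → p < s) ∧ (s' ≤ q → s ≤ p) ∧
    R.N K p ≤ R'.N K q + 1 ∧ R'.N K q ≤ R.N K p

theorem Drop.dual {K : Finset V} {R : Rep V} {s : ℤ} {R' : Rep V} {s' : ℤ}
    (h : Drop K R.dual (1 - s) R' s') : Drop K R s R'.dual (1 - s') := by
  intro q hq
  have h3 := R'.N_dual K (-q)
  rw [neg_neg] at h3
  rw [h3] at hq ⊢
  obtain ⟨p, h4, h5, h6, h7⟩ := h (-q) hq
  have h8 := R.N_dual K (-p)
  rw [neg_neg] at h8
  rw [h8] at h6 h7
  exact ⟨-p, fun _ => by have := h5; omega, fun _ => by have := h4; omega, h6, h7⟩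

theorem Hc.of_drop {B : ℕ} {K : Finset V} {R : Rep V} {s : ℤ} {eL eT : ℕ}
    (h : Hc B K R s eL eT) {R' : Rep V} {s' : ℤ} (hd : Drop K R s R' s')
    (hZ : (Zs K R' s').card + 1 ≤ (Zs K R s).card) (hL : (Ls K R s).card ≤ (Ls K R' s').card)
    (hT : (Ts K R s).card ≤ (Ts K R' s').card) : Hc B K R' s' eL eT where
  gL := by have := h.gL; omega
  gT := by have := h.gT; omega
  nL q hq h2 := by
    obtain ⟨p, h4, h5, h6, h7⟩ := hd q h2
    have := h.nL p (h4 hq) (by omega)
    omega
  nT q hq h2 := by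
    obtain ⟨p, h4, h5, h6, h7⟩ := hd q h2
    have := h.nT p (h5 hq) (by omega)
    omega

theorem drop_cut (K : Finset V) (R : Rep V) (s p : ℤ) (x y : V) (hxy : x ≠ y)
    (hx : R.Cr x p) (hy : R.Cr y p) (hp : p < s) :
    Drop K R s (R.cut p x y hxy hx hy) (s + 1) := by
  intro q _
  obtain ⟨h3, h4⟩ := N_cut K R p x y hxy hx hy q
  refine ⟨oldGap p q, ?_, ?_, h3, h4⟩
  · intro _
    unfold oldGap
    split_ifs <;> omega
  · intro _
    unfold oldGap
    split_ifs <;> omega

theorem drop_lower (K : Finset V) (R : Rep V) (s q : ℤ) (z : V) (h : R.lo z ≤ q)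
    (h' : q ≤ R.hi z) : Drop K R s (R.lower z q h) s := by
  intro p _
  obtain ⟨h3, h4⟩ := N_lower K R z q h h' p
  exact ⟨p, fun h => h, fun h => h, h3, h4⟩

/-- an undecided element is lowered to the left part -/
theorem Hc.lowerZ {B : ℕ} {K : Finset V} {R : Rep V} {s : ℤ} {eL eT : ℕ}
    (h : Hc B K R s eL eT) {z : V} (hz : z ∈ Zs K R s) (hq : R.lo z ≤ s - 1) :
    Hc B K (R.lower z (s - 1) hq) s (eL - 1) eT := by
  classical
  obtain ⟨hzK, hz1, hz2⟩ := mem_Zs.1 hz
  have hZ := Zs_lower K R s z hq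
  have hZc := Finset.card_erase_of_mem hz
  have hZp := Finset.card_pos.2 ⟨z, hz⟩
  have hzL : z ∉ Ls K R s := fun h1 => by
    have := (mem_Ls.1 h1).2
    omega
  refine ⟨?_, ?_, ?_, ?_⟩
  · rw [Ls_lower K R s z hzK hq, Finset.card_insert_of_notMem hzL]
    have := h.gL
    omega
  · exact h.gT
  · intro p hp h2
    rw [N_lower_eq K R z (s - 1) hq (by omega) p (by omega)] at h2 ⊢
    have := h.nL p hp h2
    rw [hZ]
    omega
  · intro p hp h2
    obtain ⟨h3, h4⟩ := N_lower K R z (s - 1) hq (by omega) p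
    have := h.nT p hp (by omega)
    rw [hZ]
    omega

/-- a cut inside of the left part and then one undecided element is lowered -/
theorem drop_cutLL (K : Finset V) (R : Rep V) (s : ℤ) {x y z : V} {p : ℤ} (hxy : x ≠ y)
    (hx : R.Cr x p) (hy : R.Cr y p) (hp : p < s) (hxs : R.hi x < s) (hys : R.hi y < s)
    (R' : Rep V) (hR' : R' = R.cut p x y hxy hx hy) (hq : R'.lo z ≤ s + 1 - 1)
    (hq' : s + 1 - 1 ≤ R'.hi z) : Drop K R s (R'.lower z (s + 1 - 1) hq) (s + 1) := by
  classical
  obtain ⟨hx1, hx2⟩ := id hx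
  obtain ⟨hy1, hy2⟩ := id hy
  intro q _
  by_cases hqs : q < s + 1
  · rw [N_lower_eq K R' z (s + 1 - 1) hq hq' q (by omega)]
    obtain ⟨h3, h4⟩ := N_cut K R p x y hxy hx hy q
    rw [← hR'] at h3 h4
    exact ⟨oldGap p q, fun _ => by unfold oldGap; split_ifs <;> omega,
      fun _ => by unfold oldGap; split_ifs <;> omega, h3, h4⟩
  · obtain ⟨h3, h4⟩ := N_lower K R' z (s + 1 - 1) hq hq' q
    -- the cut does not change the heights on the right
    have h5 : R'.N K q = R.N K (q - 1) := by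
      unfold Rep.N
      congr 1
      refine Finset.filter_congr fun w _ => ?_
      rw [hR']
      unfold Rep.Cr Rep.cut
      simp only
      by_cases hwx : w = x
      · have hwy : w ≠ y := fun he => hxy (hwx.symm.trans he)
        rw [if_pos hwx, if_neg hwy, hwx]
        constructor <;> rintro ⟨_, _⟩ <;> exfalso <;> omega
      · rw [if_neg hwx]
        by_cases hwy : w = y
        · rw [if_pos hwy, hwy, if_pos hy2]
          constructor <;> rintro ⟨_, _⟩ <;> exfalso <;> omega
        · rw [if_neg hwy]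
          split_ifs <;> constructor <;> rintro ⟨_, _⟩ <;> constructor <;> omega
    rw [h5] at h3 h4
    exact ⟨q - 1, fun _ => by omega, fun _ => by omega, h3, h4⟩

end Pool.Agent.OCN
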