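import Pool.Agent.Lib_helper47.OCN.SBase

/-!
# MP_aeb124_co: the moves of the class S

Every attack has an answer after which one undecided element less crosses the boundary and every
height has dropped by at most one.
-/

set_option autoImplicit false

namespace Pool.Agent.OCN

variable {V : Type}

/-- isolated in `K` -/
def IsoK (K : Finset V) (R : Rep V) (i : V) : Prop :=
  ∀ w ∈ K, R.lo i ≤ R.lo w ∧ R.hi w ≤ R.hi i

theorem IsoK.dual {K : Finset V} {R : Rep V} {i : V} (h : IsoK K R i) : IsoK K R.dual i :=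
  fun w hw => by
    obtain ⟨h1, h2⟩ := h w hw
    unfold Rep.dual
    simp only
    omega

theorem IsoK.cut {K : Finset V} {R : Rep V} {i : V} (h : IsoK K R i) {p : ℤ} {x y : V}
    (hxy : x ≠ y) (hx : R.Cr x p) (hy : R.Cr y p) (hxK : x ∈ K) (hix : i ≠ x) (hiy : i ≠ y) :
    IsoK K (R.cut p x y hxy hx hy) i := by
  intro w hw
  obtain ⟨h1, h2⟩ := h w hw
  obtain ⟨h3, h4⟩ := h x hxK
  obtain ⟨hx1, hx2⟩ := hx
  unfold Rep.cut
  simp only
  rw [if_neg hiy, if_neg hix]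
  constructor
  · split_ifs <;> omega
  · split_ifs <;> omega

theorem IsoK.lower {K : Finset V} {R : Rep V} {i : V} (h : IsoK K R i) {z : V} {q : ℤ}
    (hq : R.lo z ≤ q) (hq' : q ≤ R.hi z) (hiz : i ≠ z) : IsoK K (R.lower z q hq) i := by
  intro w hw
  obtain ⟨h1, h2⟩ := h w hw
  unfold Rep.lower
  simp only
  rw [if_neg hiz]
  refine ⟨h1, ?_⟩
  by_cases hwz : w = z
  · rw [if_pos hwz]
    rw [hwz] at h2
    omega
  · rw [if_neg hwz]
    exact h2

theorem IsoK.le_N {K : Finset V} {R : Rep V} {I : Finset V} (hI : I ⊆ K)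
    (h : ∀ i ∈ I, IsoK K R i) {p : ℤ} (hp : 1 ≤ R.N K p) : I.card ≤ R.N K p := by
  classical
  unfold Rep.N at hp ⊢
  obtain ⟨w, hw⟩ := Finset.card_pos.1 hp
  obtain ⟨hwK, hw1, hw2⟩ := Finset.mem_filter.1 hw
  refine Finset.card_le_card fun i hi => Finset.mem_filter.2 ⟨hI hi, ?_⟩
  obtain ⟨h1, h2⟩ := h i hi w hwK
  exact ⟨by omega, by omega⟩

variable [Fintype V]

/-- the result of a move -/
structure Mv (K : Finset V) (R : Rep V) (s : ℤ) (r : V → V → Prop)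
    (x y : V) (r' : V → V → Prop) (R' : Rep V) (s' : ℤ) : Prop where
  loc : Loc r' K R'
  mono : ∀ a b, r a b → r' a b
  pair : r' x y
  drop : Drop K R s R' s'
  zs : Zs K R' s' ⊆ Zs K R s
  zc : (Zs K R' s').card + 1 ≤ (Zs K R s).card
  lge : (Ls K R s).card ≤ (Ls K R' s').card
  tge : (Ts K R s).card ≤ (Ts K R' s').card
  lle : (Ls K R' s').card ≤ (Ls K R s).card + 1
  tle : (Ts K R' s').card ≤ (Ts K R s).card + 1
  cost : (∃ p, p < s ∧ 2 ≤ R.N K p ∧ ∃ z ∈ Zs K R s,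
      newP r r' + R.N K p + R.U K z ≤ K.card + 1) ∨
    (∃ p, s ≤ p ∧ 2 ≤ R.N K p ∧ ∃ z ∈ Zs K R s,
      newP r r' + R.N K p + R.D K z ≤ K.card + 1) ∨
    (∃ z ∈ Zs K R s, newP r r' + R.U K z ≤ (Ts K R s).card) ∨
    (∃ z ∈ Zs K R s, newP r r' + R.D K z ≤ (Ls K R s).card)
  iso : ∃ a b, ∀ i ∈ Zs K R s, i ≠ a → i ≠ b → IsoK K R i →
    i ∈ Zs K R' s' ∧ IsoK K R' i

theorem Mv.dual {K : Finset V} {R : Rep V} {s : ℤ} {r : V → V → Prop}
    {x y : V} {r' : V → V → Prop} {R' : Rep V} {s' : ℤ}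
    (h : Mv K R.dual (1 - s) (flip r) y x r' R' s') :
    Mv K R s r x y (flip r') R'.dual (1 - s') where
  loc := h.loc.flip
  mono a b hab := h.mono b a hab
  pair := h.pair
  drop := h.drop.dual
  zs := by
    have := h.zs
    rw [Zs_dual] at this
    rw [Zs_dual]
    exact this
  zc := by
    have := h.zc
    rw [Zs_dual] at this
    rw [Zs_dual]
    exact this
  lge := by
    have := h.tge
    rw [Ts_dual] at this
    rw [Ls_dual]
    exact this
  tge := by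
    have := h.lge
    rw [Ls_dual] at this
    rw [Ts_dual]
    exact this
  lle := by
    have := h.tle
    rw [Ts_dual] at this
    rw [Ls_dual]
    exact this
  tle := by
    have := h.lle
    rw [Ls_dual] at this
    rw [Ts_dual]
    exact this
  cost := by
    have h0 : newP r (flip r') = newP (flip r) r' := newP_flip (flip r) r'
    rw [h0]
    rcases h.cost with ⟨p, h1, h2, z, h3, h4⟩ | ⟨p, h1, h2, z, h3, h4⟩ | ⟨z, h1, h2⟩ | ⟨z, h1, h2⟩
    · have h5 := R.N_dual K (-p)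
      rw [neg_neg] at h5
      rw [h5] at h2 h4
      rw [Zs_dual] at h3
      rw [Rep.U_dual] at h4
      exact Or.inr (Or.inl ⟨-p, by omega, h2, z, h3, h4⟩)
    · have h5 := R.N_dual K (-p)
      rw [neg_neg] at h5
      rw [h5] at h2 h4
      rw [Zs_dual] at h3
      rw [Rep.D_dual] at h4
      exact Or.inl ⟨-p, by omega, h2, z, h3, h4⟩
    · rw [Zs_dual] at h1
      rw [Ts_dual, Rep.U_dual] at h2
      exact Or.inr (Or.inr (Or.inr ⟨z, h1, h2⟩))
    · rw [Zs_dual] at h1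
      rw [Ls_dual, Rep.D_dual] at h2
      exact Or.inr (Or.inr (Or.inl ⟨z, h1, h2⟩))
  iso := by
    obtain ⟨a, b, h1⟩ := h.iso
    refine ⟨a, b, fun i hi hia hib hI => ?_⟩
    rw [← Zs_dual] at hi
    obtain ⟨h2, h3⟩ := h1 i hi hia hib hI.dual
    rw [Zs_dual]
    exact ⟨h2, h3.dual⟩

theorem Mv.rel_mono {K : Finset V} {R : Rep V} {s : ℤ} {r : V → V → Prop} {x y : V}
    {r' : V → V → Prop} {R' : Rep V} {s' : ℤ} (h : Mv K R s r x y r' R' s') (hr : Loc r K R) :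
    ∀ a ∈ K, ∀ b ∈ K, R.rel a b → R'.rel a b := fun a ha b hb hab => by
  rw [← h.loc.eq a ha b hb]
  exact h.mono a b ((hr.eq a ha b hb).2 hab)

theorem Mv.hc {K : Finset V} {R : Rep V} {s : ℤ} {r : V → V → Prop} {x y : V}
    {r' : V → V → Prop} {R' : Rep V} {s' : ℤ} (h : Mv K R s r x y r' R' s') {B eL eT : ℕ}
    (h1 : Hc B K R s eL eT) : Hc B K R' s' eL eT := h1.of_drop h.drop h.zc h.lge h.tge

omit [Fintype V] in
/-- the price of lowering an undecided element -/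
theorem lower_price (K : Finset V) (R : Rep V) (s : ℤ) (z : V) (hz : s ≤ R.hi z) :
    (K.filter fun b => s - 1 < R.lo b ∧ R.lo b ≤ R.hi z).card + R.U K z ≤ (Ts K R s).card := by
  classical
  unfold Rep.U
  rw [← Finset.card_union_of_disjoint]
  · refine Finset.card_le_card fun b hb => ?_
    rw [Finset.mem_union, Finset.mem_filter, Finset.mem_filter] at hb
    rw [mem_Ts]
    unfold Rep.rel at hb
    rcases hb with hb | hb
    · exact ⟨hb.1, by omega⟩
    · exact ⟨hb.1, by omega⟩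
  · rw [Finset.disjoint_left]
    intro b hb hb'
    have h7 := (Finset.mem_filter.1 hb).2
    have h8 := (Finset.mem_filter.1 hb').2
    unfold Rep.rel at h8
    omega

section moves

variable {K : Finset V} {R : Rep V} {s : ℤ} {r : V → V → Prop}

/-- an undecided element attacks a left or an undecided element -/
theorem mvA (hr : Loc r K R) {x y : V} (hxy : x ≠ y)
    (hx : x ∈ Zs K R s) (hy : y ∈ Zs K R s ∨ y ∈ Ls K R s)
    (h1 : ¬ R.rel x y) (h2 : ¬ R.rel y x) :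
    ∃ r' R' s', Mv K R s r x y r' R' s' := by
  classical
  obtain ⟨hxK, hx1, hx2⟩ := mem_Zs.1 hx
  have hyK : y ∈ K := by
    rcases hy with hy | hy
    · exact (mem_Zs.1 hy).1
    · exact (mem_Ls.1 hy).1
  obtain ⟨p, hps, hp1, hp2⟩ : ∃ p, p < s ∧ R.Cr x p ∧ R.Cr y p := by
    rcases hy with hy | hy
    · obtain ⟨_, hy1, hy2⟩ := mem_Zs.1 hy
      exact ⟨s - 1, by omega, ⟨by omega, by omega⟩, ⟨by omega, by omega⟩⟩
    · obtain ⟨p, hp1, hp2⟩ := R.common h1 h2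
      obtain ⟨_, hy1⟩ := mem_Ls.1 hy
      exact ⟨p, by have := hp2.2; omega, hp1, hp2⟩
  obtain ⟨r', g1, g2, g3, g4⟩ := op_cut hr p x y hxy hxK hyK hp1 hp2
  have hZ := Zs_cutLow K R s p x y hxy hp1 hp2 hps
  have hL := Ls_cutLow K R s p x y hxy hp1 hp2 hps hxK
  have hT := Ts_cutLow K R s p x y hxy hp1 hp2 hps
  have hZc := Finset.card_erase_of_mem hx
  have hZp := Finset.card_pos.2 ⟨x, hx⟩
  refine ⟨r', _, s + 1, g1, g2, g3, drop_cut K R s p x y hxy hp1 hp2 hps, ?_, ?_, ?_, ?_, ?_, ?_,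
    ?_, ?_⟩
  · rw [hZ]
    exact Finset.erase_subset _ _
  · rw [hZ]
    omega
  · rw [hL]
    exact Finset.card_le_card (Finset.subset_insert _ _)
  · rw [hT]
  · rw [hL]
    exact Finset.card_insert_le _ _
  · rw [hT]
    exact Nat.le_succ _
  · refine Or.inl ⟨p, hps, Rep.two_le_N hxy hxK hyK hp1 hp2, x, hx, ?_⟩
    omega
  · refine ⟨x, y, fun i hi hix hiy hI => ⟨?_, hI.cut hxy hp1 hp2 hxK hix hiy⟩⟩
    rw [hZ, Finset.mem_erase]
    exact ⟨hix, hi⟩

/-- an undecided element attacks a right element -/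
theorem mvB (hr : Loc r K R) {x y : V} (hx : x ∈ Zs K R s) (hy : y ∈ Ts K R s) :
    ∃ r' R' s', Mv K R s r x y r' R' s' := by
  classical
  obtain ⟨hxK, hx1, hx2⟩ := mem_Zs.1 hx
  obtain ⟨hyK, hy1⟩ := mem_Ts.1 hy
  have hq : R.lo x ≤ s - 1 := by omega
  obtain ⟨r', g1, g2, g3⟩ := op_lower hr x hxK (s - 1) hq (by omega)
  have hZ := Zs_lower K R s x hq
  have hL := Ls_lower K R s x hxK hq
  have hZc := Finset.card_erase_of_mem hx
  have hZp := Finset.card_pos.2 ⟨x, hx⟩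
  refine ⟨r', _, s, g1, g2, ?_, drop_lower K R s (s - 1) x hq (by omega), ?_, ?_, ?_, ?_, ?_, ?_,
    ?_, ?_⟩
  · rw [g1.eq x hxK y hyK, R.rel_lower x (s - 1) hq (by omega)]
    exact Or.inr ⟨rfl, by omega⟩
  · rw [hZ]
    exact Finset.erase_subset _ _
  · rw [hZ]
    omega
  · rw [hL]
    exact Finset.card_le_card (Finset.subset_insert _ _)
  · rw [Ts_lower]
  · rw [hL]
    exact Finset.card_insert_le _ _
  · rw [Ts_lower]
    exact Nat.le_succ _
  · refine Or.inr (Or.inr (Or.inl ⟨x, hx, ?_⟩))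
    rw [g3]
    exact lower_price K R s x hx2
  · refine ⟨x, x, fun i hi hix _ hI => ⟨?_, hI.lower hq (by omega) hix⟩⟩
    rw [hZ, Finset.mem_erase]
    exact ⟨hix, hi⟩

/-- an attack inside of the left part -/
theorem mvC (hr : Loc r K R) (hZne : (Zs K R s).Nonempty) {x y : V}
    (hxy : x ≠ y) (hx : x ∈ Ls K R s) (hy : y ∈ Ls K R s)
    (h1 : ¬ R.rel x y) (h2 : ¬ R.rel y x) :
    ∃ r' R' s', Mv K R s r x y r' R' s' := by
  classical
  obtain ⟨hxK, hxs⟩ := mem_Ls.1 hx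
  obtain ⟨hyK, hys⟩ := mem_Ls.1 hy
  obtain ⟨p, hp1, hp2⟩ := R.common h1 h2
  have hps : p < s := by have := hp1.2; omega
  obtain ⟨z, hz⟩ := hZne
  obtain ⟨hzK, hz1, hz2⟩ := mem_Zs.1 hz
  obtain ⟨r1, g1, g2, g3, g4⟩ := op_cut hr p x y hxy hxK hyK hp1 hp2
  obtain ⟨R1, hR1⟩ : ∃ R1, R1 = R.cut p x y hxy hp1 hp2 := ⟨_, rfl⟩
  rw [← hR1] at g1
  have hxZ : x ∉ Zs K R s := fun h1 => by
    have := (mem_Zs.1 h1).2.2
    omega
  have hZ : Zs K R1 (s + 1) = Zs K R s := by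
    rw [hR1, Zs_cutLow K R s p x y hxy hp1 hp2 hps, Finset.erase_eq_of_notMem hxZ]
  have hL : Ls K R1 (s + 1) = Ls K R s := by
    rw [hR1, Ls_cutLow K R s p x y hxy hp1 hp2 hps hxK, Finset.insert_eq_of_mem hx]
  have hT : Ts K R1 (s + 1) = Ts K R s := by
    rw [hR1, Ts_cutLow K R s p x y hxy hp1 hp2 hps]
  have hz' : z ∈ Zs K R1 (s + 1) := by rw [hZ]; exact hz
  obtain ⟨_, hz1', hz2'⟩ := mem_Zs.1 hz'
  have hq : R1.lo z ≤ s + 1 - 1 := by omega
  obtain ⟨r2, k1, k2, k3⟩ := op_lower g1 z hzK (s + 1 - 1) hq (by omega)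
  have hZl := Zs_lower K R1 (s + 1) z hq
  have hLl := Ls_lower K R1 (s + 1) z hzK hq
  have hZc := Finset.card_erase_of_mem hz
  have hZp := Finset.card_pos.2 ⟨z, hz⟩
  refine ⟨r2, _, s + 1, k1, fun a b hab => k2 a b (g2 a b hab), k2 x y g3,
    drop_cutLL K R s hxy hp1 hp2 hps hxs hys R1 hR1 hq (by omega), ?_, ?_, ?_, ?_, ?_, ?_,
    ?_, ?_⟩
  · rw [hZl, hZ]
    exact Finset.erase_subset _ _
  · rw [hZl, hZ]
    omega
  · rw [hLl, hL]
    exact Finset.card_le_card (Finset.subset_insert _ _)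
  · rw [Ts_lower, hT]
  · rw [hLl, hL]
    exact Finset.card_insert_le _ _
  · rw [Ts_lower, hT]
    exact Nat.le_succ _
  · refine Or.inl ⟨p, hps, Rep.two_le_N hxy hxK hyK hp1 hp2, z, hz, ?_⟩
    have h5 := lower_price K R1 (s + 1) z hz2'
    rw [hT] at h5
    have h6 : R.U K z ≤ R1.U K z := Rep.U_mono (fun a ha b hb hab => by
      rw [hR1]
      exact (R.rel_cut p x y hxy hp1 hp2 a b).2 (Or.inl hab)) hzK
    have h9 : (Ts K R s).card ≤ R.U K x := by
      unfold Rep.U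
      refine Finset.card_le_card fun b hb => ?_
      rw [mem_Ts] at hb
      rw [Finset.mem_filter]
      unfold Rep.rel
      exact ⟨hb.1, by omega⟩
    have h10 := newP_trans (r := r) (r' := r1) (r'' := r2)
    omega
  · refine ⟨z, z, fun i hi hiz _ hI => ?_⟩
    have hiK := (mem_Zs.1 hi).1
    have hi2 := (mem_Zs.1 hi).2.2
    have hix : i ≠ x := fun he => by rw [he] at hi2; omega
    have hiy : i ≠ y := fun he => by rw [he] at hi2; omega
    refine ⟨?_, ?_⟩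
    · rw [hZl, hZ, Finset.mem_erase]
      exact ⟨hiz, hi⟩
    · refine IsoK.lower ?_ hq (by omega) hiz
      rw [hR1]
      exact hI.cut hxy hp1 hp2 hxK hix hiy

/-- every attack has an answer -/
theorem exists_mv (hr : Loc r K R) (hZne : (Zs K R s).Nonempty) {x y : V}
    (hxy : x ≠ y) (h1 : ¬ r x y) (h2 : ¬ r y x) :
    ∃ r' R' s', Mv K R s r x y r' R' s' := by
  obtain ⟨hx, hy⟩ := hr.mem hxy h1 h2
  rw [hr.eq x hx y hy] at h1
  rw [hr.eq y hy x hx] at h2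
  have h1' : ¬ R.dual.rel y x := by rw [Rep.rel_dual]; exact h1
  have h2' : ¬ R.dual.rel x y := by rw [Rep.rel_dual]; exact h2
  have htri : ∀ w ∈ K, w ∈ Ls K R s ∨ w ∈ Zs K R s ∨ w ∈ Ts K R s := by
    intro w hw
    have := R.le w
    rw [mem_Ls, mem_Zs, mem_Ts]
    by_cases h3 : R.hi w < s
    · exact Or.inl ⟨hw, h3⟩
    · by_cases h4 : R.lo w < s
      · exact Or.inr (Or.inl ⟨hw, h4, by omega⟩)
      · exact Or.inr (Or.inr ⟨hw, by omega⟩)
  have hdl : ∀ {w}, w ∈ Ts K R s → w ∈ Ls K R.dual (1 - s) := fun hw => by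
    rw [Ls_dual]; exact hw
  have hdz : ∀ {w}, w ∈ Zs K R s → w ∈ Zs K R.dual (1 - s) := fun hw => by
    rw [Zs_dual]; exact hw
  have hdt : ∀ {w}, w ∈ Ls K R s → w ∈ Ts K R.dual (1 - s) := fun hw => by
    rw [Ts_dual]; exact hw
  have hlt : ∀ {w w'}, w ∈ Ls K R s → w' ∈ Ts K R s → R.rel w w' := fun hw hw' => by
    have h3 := (mem_Ls.1 hw).2
    have h4 := (mem_Ts.1 hw').2
    unfold Rep.rel
    omega
  rcases htri x hx with hxL | hxZ | hxT
  · rcases htri y hy with hyL | hyZ | hyT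
    · exact mvC hr hZne hxy hxL hyL h1 h2
    · obtain ⟨r', R', s', h5⟩ := mvB hr.flip (hdz hyZ) (hdt hxL)
      exact ⟨_, _, _, h5.dual⟩
    · exact absurd (hlt hxL hyT) h1
  · rcases htri y hy with hyL | hyZ | hyT
    · exact mvA hr hxy hxZ (Or.inr hyL) h1 h2
    · exact mvA hr hxy hxZ (Or.inl hyZ) h1 h2
    · exact mvB hr hxZ hyT
  · rcases htri y hy with hyL | hyZ | hyT
    · exact absurd (hlt hyL hxT) h2
    · obtain ⟨r', R', s', h5⟩ := mvA hr.flip hxy.symm (hdz hyZ) (Or.inr (hdl hxT)) h1' h2'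
      exact ⟨_, _, _, h5.dual⟩
    · obtain ⟨r', R', s', h5⟩ := mvC hr.flip (by rw [Zs_dual]; exact hZne) hxy.symm
        (hdl hyT) (hdl hxT) h1' h2'
      exact ⟨_, _, _, h5.dual⟩

end moves

end Pool.Agent.OCN
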