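import Pool.Agent.Lib_helper47.OCN.T1Class

/-!
# MP_aeb124_co: the attacks on the class T1 (settlements and attacks inside of the right part)
-/

set_option autoImplicit false

namespace Pool.Agent.OCN

variable {V : Type}

theorem T1d.dual {B : ℕ} {K : Finset V} {R : Rep V} {s : ℤ} {W d : ℕ} (h : T1d B K R s W d) :
    T1 B K R.dual (1 - s) W d := by
  refine ⟨h.1.dual, ?_⟩
  rw [Zs_dual]
  have h1 : R.dual.U K = R.D K := funext fun w => Rep.U_dual R K w
  rw [h1]
  exact h.2

/-- the dual class before the payment -/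
structure Pred (B : ℕ) (K : Finset V) (R : Rep V) (s : ℤ) (W d e : ℕ) : Prop where
  t : T0d B K R s W d
  le : e ≤ (Zs K R s).card
  m : 2 * (∑ z ∈ Zs K R s, (W - R.D K z) + e) ≤ ((Zs K R s).card + 1) * (Zs K R s).card
  o : e = 0 → ∀ w ∈ Zs K R s, W ≤ R.D K w + 1

theorem Pred.dual {B : ℕ} {K : Finset V} {R : Rep V} {s : ℤ} {W d e : ℕ}
    (h : Pred B K R s W d e) : Pre B K R.dual (1 - s) W d e := by
  have h1 : R.dual.U K = R.D K := funext fun w => Rep.U_dual R K w
  refine ⟨h.t.dual, ?_, ?_, ?_⟩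
  · rw [Zs_dual]
    exact h.le
  · rw [Zs_dual, h1]
    exact h.m
  · rw [Zs_dual, h1]
    exact h.o

variable [Fintype V]

/-- the payment in the dual class -/
theorem Pred.pay {B : ℕ} {K : Finset V} {R : Rep V} {s : ℤ} {W d e : ℕ}
    (h : Pred B K R s W d e) {r : V → V → Prop} (hr : Loc r K R) :
    ∃ (r' : V → V → Prop) (R' : Rep V), Loc r' K R' ∧ (∀ a b, r a b → r' a b) ∧
      newP r r' + e ≤ (Zs K R s).card ∧ T1d B K R' s W d := by
  obtain ⟨r', R', g1, g2, g3, g4⟩ := h.dual.pay hr.flip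
  rw [Zs_dual] at g3
  refine ⟨flip r', R'.dual, g1.flip, fun a b hab => g2 b a hab, ?_, ?_⟩
  · have h0 : newP r (flip r') = newP (flip r) r' := newP_flip (flip r) r'
    rw [h0]
    exact g3
  · have := g4.dual
    rw [sub_sub_cancel] at this
    exact this

section

variable {B : ℕ} {K : Finset V} {R : Rep V} {s : ℤ} {W d : ℕ}

/-- an undecided element attacks a right element -/
theorem T1.attZT (h : T1 B K R s W d) {r : V → V → Prop} (hr : Loc r K R) {x y : V}
    (hx : x ∈ Zs K R s) (hy : y ∈ Ts K R s) :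
    ∃ (r' : V → V → Prop) (R' : Rep V), Loc r' K R' ∧ (∀ a b, r a b → r' a b) ∧
      r' x y ∧ newP r r' ≤ B ∧ T1 B K R' s W d := by
  classical
  obtain ⟨h, hM⟩ := h
  obtain ⟨r1, R1, g1, g2, g3, g4, g5⟩ := op_loZ hr hx
  obtain ⟨h1, h2, h3⟩ := hM.pre h.ba hx g5.zs
    (fun w hw => g5.U w ((g5.zs w).1 hw).1 ((g5.zs w).1 hw).2)
  have hT0 : T0 B K R1 s W d :=
    { gL := by have := h.gL; have := g5.ls; omega
      gT := by rw [g5.ts]; exact h.gT
      sr := g5.sdr _ _ h.sr
      sl := g5.sdl _ _ h.sl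
      ir := g5.ir h.ir
      il := g5.il h.il
      un := fun z hz z' hz' => by
        obtain ⟨h4, h5⟩ := (g5.zs z).1 hz
        obtain ⟨h6, h7⟩ := (g5.zs z').1 hz'
        rw [g5.lo z h5, g5.lo z' h7]
        exact h.un z h4 z' h6
      hd := fun z hz => by
        obtain ⟨h4, h5⟩ := (g5.zs z).1 hz
        rw [g5.D z h4 h5]
        exact h.hd z h4
      ch := by rw [g5.ua]; exact h.ch
      ba := fun z hz z' hz' => by
        obtain ⟨h4, h5⟩ := (g5.zs z).1 hz
        obtain ⟨h6, h7⟩ := (g5.zs z').1 hz'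
        rw [g5.U z h4 h5, g5.U z' h6 h7]
        exact h.ba z h4 z' h6 }
  obtain ⟨r2, R2, k1, k2, k3, k4⟩ := Pre.pay ⟨hT0, h1, h2, h3⟩ g1
  refine ⟨r2, R2, k1, fun a b hab => k2 a b (g2 a b hab), k2 x y (g3 y hy), ?_, k4⟩
  have h4 := newP_trans (r := r) (r' := r1) (r'' := r2)
  have h5 := card_LTZ K R s
  have h6 := h.gL
  have h7 := g5.zc
  omega

/-- the dual class: an undecided element attacks a right element -/
theorem T1d.attZT (h : T1d B K R s W d) {r : V → V → Prop} (hr : Loc r K R) {x y : V}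
    (hx : x ∈ Zs K R s) (hy : y ∈ Ts K R s) :
    ∃ (r' : V → V → Prop) (R' : Rep V), Loc r' K R' ∧ (∀ a b, r a b → r' a b) ∧
      r' x y ∧ newP r r' ≤ B ∧ T1d B K R' s W d := by
  classical
  obtain ⟨h, hM⟩ := h
  obtain ⟨r1, R1, g1, g2, g3, g4, g5⟩ := op_loZ hr hx
  obtain ⟨h1, h2, h3⟩ := hM.pre h.ba hx g5.zs
    (fun w hw => g5.D w ((g5.zs w).1 hw).1 ((g5.zs w).1 hw).2)
  have hT0 : T0d B K R1 s W d :=
    { gL := by have := h.gL; have := g5.ls; omega
      gT := by rw [g5.ts]; exact h.gT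
      sr := g5.sdr _ _ h.sr
      sl := g5.sdl _ _ h.sl
      ir := g5.ir h.ir
      il := g5.il h.il
      un := fun z hz z' hz' => by
        obtain ⟨h4, h5⟩ := (g5.zs z).1 hz
        obtain ⟨h6, h7⟩ := (g5.zs z').1 hz'
        rw [g5.hi z h5, g5.hi z' h7]
        exact h.un z h4 z' h6
      hu := fun z hz => by
        obtain ⟨h4, h5⟩ := (g5.zs z).1 hz
        rw [g5.U z h4 h5]
        exact h.hu z h4
      ch := by rw [g5.ual]; exact h.ch
      ba := fun z hz z' hz' => by
        obtain ⟨h4, h5⟩ := (g5.zs z).1 hz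
        obtain ⟨h6, h7⟩ := (g5.zs z').1 hz'
        rw [g5.D z h4 h5, g5.D z' h6 h7]
        exact h.ba z h4 z' h6 }
  obtain ⟨r2, R2, k1, k2, k3, k4⟩ := Pred.pay ⟨hT0, h1, h2, h3⟩ g1
  refine ⟨r2, R2, k1, fun a b hab => k2 a b (g2 a b hab), k2 x y (g3 y hy), ?_, k4⟩
  have h4 := newP_trans (r := r) (r' := r1) (r'' := r2)
  have h5 := card_LTZ K R s
  have h6 := h.gL
  have h7 := g5.zc
  omega

/-- the dual class: a right element attacks an undecided element -/
theorem T1d.attTZ (h : T1d B K R s W d) {r : V → V → Prop} (hr : Loc r K R) {x y : V}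
    (hx : x ∈ Ts K R s) (hy : y ∈ Zs K R s) (h1 : ¬ R.rel x y) (h2 : ¬ R.rel y x) :
    ∃ (r' : V → V → Prop) (R' : Rep V), Loc r' K R' ∧ (∀ a b, r a b → r' a b) ∧
      r' x y ∧ newP r r' ≤ B ∧ T1d B K R' s W d := by
  classical
  obtain ⟨h, hM⟩ := h
  obtain ⟨hxK, hx1⟩ := mem_Ts.1 hx
  obtain ⟨hyK, hy1, hy2⟩ := mem_Zs.1 hy
  have hxy : x ≠ y := by
    rintro rfl
    omega
  obtain ⟨p, hcx, hcy⟩ := R.common h1 h2
  have hps : s ≤ p := hx1.trans hcx.1
  obtain ⟨r1, g1, g2, g3, g4⟩ := op_cut hr p x y hxy hxK hyK hcx hcy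
  obtain ⟨R1, hR1⟩ : ∃ R1, R1 = R.cut p x y hxy hcx hcy := ⟨_, rfl⟩
  rw [← hR1] at g1
  have hZ1 : Zs K R1 s = (Zs K R s).erase y := by
    rw [hR1]
    exact Zs_cutR K R s p x y hxy hcx hcy hps
  have hZm : ∀ w, w ∈ Zs K R1 s ↔ w ∈ Zs K R s ∧ w ≠ y := fun w => by
    rw [hZ1, Finset.mem_erase]
    exact and_comm
  have hne : ∀ w ∈ Zs K R s, w ≠ x := fun w hw he => by
    rw [he] at hw
    have := (mem_Zs.1 hw).2.1
    omega
  have hhp : ∀ w ∈ Zs K R s, p ≤ R.hi w := fun w hw => by
    rw [h.un w hw y hy]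
    exact hcy.2
  have hhi : ∀ w ∈ Zs K R1 s, R1.hi w = R.hi y + 1 := fun w hw => by
    have hw' := ((hZm w).1 hw).1
    rw [← h.un w hw' y hy, hR1]
    exact hi_cut_ge R p x y hxy hcx hcy w (hne w hw') (hhp w hw')
  have hD : ∀ w ∈ Zs K R1 s, R1.D K w = R.D K w := fun w hw => by
    rw [hR1]
    exact D_cut_Z K R s p x y hxy hcx hcy hps ((hZm w).1 hw).1 ((hZm w).1 hw).2
  obtain ⟨h3, h4, h5⟩ := hM.pre h.ba hy hZm hD
  have hT0 : T0d B K R1 s W d :=
    { gL := by
        rw [hR1, Ls_cutR K R s p x y hxy hcx hcy hps]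
        exact h.gL
      gT := by
        rw [hR1, Ts_cutR K R s p x y hxy hcx hcy hps hyK]
        have := Finset.card_le_card (Finset.subset_insert y (Ts K R s))
        have := h.gT
        omega
      sr := by
        have h6 : Sdm B K R1 s (R.hi y + 1) W := by
          rw [hR1]
          exact h.sr.cutZ K R s p x y hxy hcx hcy hps hy
        exact h6.sd fun w hw => le_of_eq (hhi w hw)
      sl := by
        rw [hR1]
        exact h.sl.cut_left K R s p x y hxy hcx hcy hps
      ir := by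
        rw [hR1]
        exact h.ir.cut K R s p x y hxy hcx hcy hps
      il := by
        rw [hR1]
        exact h.il.cut_left K R s p x y hxy hcx hcy hps
      un := fun z hz z' hz' => by rw [hhi z hz, hhi z' hz']
      hu := fun z hz => by
        have h6 : R.U K z ≤ R1.U K z := Rep.U_mono (fun a _ b _ hab => by
          rw [hR1]
          exact (R.rel_cut p x y hxy hcx hcy a b).2 (Or.inl hab)) (mem_Zs.1 hz).1
        exact (h.hu z ((hZm z).1 hz).1).trans h6
      ch := by
        rw [hR1, ua_cut_left K R s p x y hxy hcx hcy hps]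
        exact h.ch
      ba := fun z hz z' hz' => by
        rw [hD z hz, hD z' hz']
        exact h.ba z ((hZm z).1 hz).1 z' ((hZm z').1 hz').1 }
  obtain ⟨r2, R2, k1, k2, k3, k4⟩ := Pred.pay ⟨hT0, h3, h4, h5⟩ g1
  refine ⟨r2, R2, k1, fun a b hab => k2 a b (g2 a b hab), k2 x y g3, ?_, k4⟩
  have h6 := newP_trans (r := r) (r' := r1) (r'' := r2)
  have h7 := h.sr p hps y hy hcy x hxK hcx hxy
  have h8 := N_ge_T K R s p (Zs K R s) (Finset.Subset.refl _) hps hhp
  have h9 := Finset.card_erase_of_mem hy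
  have h10 := Finset.card_pos.2 ⟨y, hy⟩
  rw [hZ1] at k3
  omega

omit [Fintype V] in
/-- the elements below a right element -/
theorem D_ge_L (K : Finset V) (R : Rep V) (s : ℤ) {y : V} (hy : s ≤ R.lo y) (A : Finset V)
    (hA : A ⊆ Zs K R s) (hAy : ∀ a ∈ A, R.hi a < R.lo y) :
    (Ls K R s).card + A.card ≤ R.D K y := by
  classical
  unfold Rep.D
  rw [← Finset.card_union_of_disjoint]
  · refine Finset.card_le_card fun b hb => ?_
    rw [Finset.mem_union, mem_Ls] at hb
    rw [Finset.mem_filter]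
    unfold Rep.rel
    rcases hb with hb | hb
    · exact ⟨hb.1, by omega⟩
    · exact ⟨(mem_Zs.1 (hA hb)).1, hAy b hb⟩
  · rw [Finset.disjoint_left]
    intro b hb hb'
    have h7 := (mem_Ls.1 hb).2
    have h8 := (mem_Zs.1 (hA hb')).2
    omega

/-- the answer to an attack inside of the right part at a gap which no undecided element
crosses -/
theorem closing {c : ℕ} {r : V → V → Prop} (hr : Loc r K R) (hS : Sd B K R s c)
    (hL : K.card ≤ B + (Ls K R s).card) (hir : InjS K R s) {x y : V} {p : ℤ} (hxy : x ≠ y)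
    (hcx : R.Cr x p) (hcy : R.Cr y p) (hx : x ∈ Ts K R s) (hy : y ∈ Ts K R s)
    (hout : ∀ z ∈ Zs K R s, R.hi z < p) :
    ∃ (r' : V → V → Prop) (R2 : Rep V) (A : Finset V), Loc r' K R2 ∧
      (∀ a b, r a b → r' a b) ∧ r' x y ∧ newP r r' ≤ B ∧
      Low K (R.cut p x y hxy hcx hcy) R2 p A ∧ A ⊆ Ts K R s ∧ Sd B K R2 s c := by
  classical
  obtain ⟨hxK, hx1⟩ := mem_Ts.1 hx
  obtain ⟨hyK, hy1⟩ := mem_Ts.1 hy
  have hps : s ≤ p := hx1.trans hcx.1
  obtain ⟨r1, g1, g2, g3, g4⟩ := op_cut hr p x y hxy hxK hyK hcx hcy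
  obtain ⟨R1, hR1⟩ : ∃ R1, R1 = R.cut p x y hxy hcx hcy := ⟨_, rfl⟩
  rw [← hR1] at g1
  have hir1 : InjS K R1 p := by
    have : InjS K R1 s := by
      rw [hR1]
      exact hir.cut K R s p x y hxy hcx hcy hps
    exact this.mono hps
  obtain ⟨A, hA⟩ : ∃ A, A = (Ts K R s).filter fun a => a ≠ x ∧ a ≠ y ∧ R.Cr a p ∧
      ∃ z ∈ Zs K R s, R.lo a ≤ R.hi z := ⟨_, rfl⟩
  have hmA : ∀ a, a ∈ A ↔ a ∈ Ts K R s ∧ a ≠ x ∧ a ≠ y ∧ R.Cr a p ∧
      ∃ z ∈ Zs K R s, R.lo a ≤ R.hi z := fun a => by
    rw [hA, Finset.mem_filter]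
  have hATs : A ⊆ Ts K R s := fun a ha => ((hmA a).1 ha).1
  have hlo1y : R1.lo y = p + 1 := by
    rw [hR1]
    exact lo_cut_y R p x y hxy hcx hcy
  have hhi1 : ∀ a, a ≠ x → p ≤ R.hi a → R1.hi a = R.hi a + 1 := fun a ha ha' => by
    rw [hR1]
    exact hi_cut_ge R p x y hxy hcx hcy a ha ha'
  obtain ⟨r2, R2, k1, k2, k3, k4⟩ := op_low g1 hir1 A (fun a ha => (mem_Ts.1 (hATs ha)).1)
    (fun a ha => by
      obtain ⟨ha1, ha2, ha3, ha4, _⟩ := (hmA a).1 ha
      have h5 : R1.lo a = R.lo a := by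
        rw [hR1]
        exact lo_cut R p x y hxy hcx hcy a ha3 ha4.1
      have h6 := hhi1 a ha2 ha4.2
      have h7 := ha4.2
      refine ⟨by rw [h5]; exact ha4.1, by omega, ?_⟩
      rw [U_eq_ua]
      exact ua_lt hyK (by omega) (by omega))
  refine ⟨r2, R2, A, k1, fun a b hab => k2 a b (g2 a b hab), k2 x y g3, ?_, by rw [← hR1]; exact k4,
    hATs, ?_⟩
  · -- the cost
    have h5 := D_ge_L K R s hy1 ∅ (Finset.empty_subset _) (fun a ha =>
      absurd ha (Finset.notMem_empty _))
    have h6 : A.card + 2 ≤ R.N K p := by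
      have hxA : x ∉ A := fun h => ((hmA x).1 h).2.1 rfl
      have hyA : y ∉ insert x A := fun h => by
        rcases Finset.mem_insert.1 h with h | h
        · exact hxy h.symm
        · exact ((hmA y).1 h).2.2.1 rfl
      have h7 : (insert y (insert x A)).card = A.card + 2 := by
        rw [Finset.card_insert_of_notMem hyA, Finset.card_insert_of_notMem hxA]
      rw [← h7]
      unfold Rep.N
      refine Finset.card_le_card fun a ha => ?_
      rw [Finset.mem_filter]
      rcases Finset.mem_insert.1 ha with rfl | ha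
      · exact ⟨hyK, hcy⟩
      rcases Finset.mem_insert.1 ha with rfl | ha
      · exact ⟨hxK, hcx⟩
      · exact ⟨(mem_Ts.1 (hATs ha)).1, ((hmA a).1 ha).2.2.2.1⟩
    have h8 := newP_trans (r := r) (r' := r1) (r'' := r2)
    rw [Finset.card_empty] at h5
    omega
  · -- the heights
    intro q hq z hz hzq t ht htq htz
    rw [k4.zs hps, hR1, Zs_cutR K R s p x y hxy hcx hcy hps, Finset.mem_erase] at hz
    have hzhi : R1.hi z = R.hi z := by
      rw [hR1]
      exact hi_cut_lt R p x y hxy hcx hcy z (hout z hz.2)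
    have hzp := hout z hz.2
    have hqz : q ≤ R.hi z := by
      have := k4.le' z
      have := hzq.2
      omega
    have hqp : q < p := by omega
    have hcr : ∀ w, R2.Cr w q ↔ R.Cr w q ∧ w ≠ y := fun w => by
      rw [k4.cr_iff w (by omega), hR1]
      exact Cr_cut_left R p p x y hxy hcx hcy le_rfl w q hqp
    obtain ⟨htq1, hty⟩ := (hcr t).1 htq
    obtain ⟨hzq1, _⟩ := (hcr z).1 hzq
    have h5 := hS q hq z hz.2 hzq1 t ht htq1 htz
    have hTs : Ts K R2 s = Ts K R s := by
      rw [k4.ts, hR1, Ts_cutR K R s p x y hxy hcx hcy hps hyK, Finset.insert_eq_of_mem hy]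
    rw [hTs]
    have hUt : R1.U K t ≤ R2.U K t := k4.U_le t
    have hUt1 : R.U K t ≤ R1.U K t := Rep.U_mono (fun a _ b _ hab => by
      rw [hR1]
      exact (R.rel_cut p x y hxy hcx hcy a b).2 (Or.inl hab)) ht
    by_cases hyq : R.Cr y q
    · -- one height is lost, and `U t` has gained one
      have h6 : R.N (Ts K R s) q ≤ R2.N (Ts K R s) q + 1 := by
        unfold Rep.N
        have h7 : ((Ts K R s).filter fun w => R.Cr w q) ⊆
            insert y ((Ts K R s).filter fun w => R2.Cr w q) := by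
          intro w hw
          rw [Finset.mem_filter] at hw
          rw [Finset.mem_insert, Finset.mem_filter]
          by_cases hwy : w = y
          · exact Or.inl hwy
          · exact Or.inr ⟨hw.1, (hcr w).2 ⟨hw.2, hwy⟩⟩
        exact (Finset.card_le_card h7).trans (Finset.card_insert_le _ _)
      have h7 : R.U K t + 1 ≤ R2.U K t := by
        by_cases htA : t ∈ A
        · rw [k4.up t htA]
          omega
        · by_cases htx : t = x
          · rw [htx] at hUt ⊢
            have h8 : R1.U K x = ua K R p + 1 := by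
              rw [hR1]
              exact U_cut_x K R p x y hxy hcx hcy hyK
            have h9 : R.U K x ≤ ua K R p := by
              rw [U_eq_ua]
              exact ua_anti K R hcx.2
            omega
          · by_cases htp : R.hi t < p
            · have h8 : R1.U K t = R.U K t + 1 := by
                rw [hR1, U_cut_lt K R p x y hxy hcx hcy hyK t htp, if_pos]
                have := hyq.1
                have := htq1.2
                omega
              omega
            · exfalso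
              apply htA
              have h8 := htq1.1
              have h9 : t ∈ Ts K R s := by
                rw [mem_Ts]
                refine ⟨ht, ?_⟩
                by_contra h10
                have := hout t (mem_Zs.2 ⟨ht, by omega, by omega⟩)
                omega
              exact (hmA t).2 ⟨h9, htx, hty, ⟨by omega, by omega⟩, z, hz.2, by omega⟩
      omega
    · have h6 : R.N (Ts K R s) q ≤ R2.N (Ts K R s) q := by
        unfold Rep.N
        refine Finset.card_le_card fun w hw => ?_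
        rw [Finset.mem_filter] at hw ⊢
        refine ⟨hw.1, (hcr w).2 ⟨hw.2, ?_⟩⟩
        rintro rfl
        exact hyq hw.2
      omega

end

end Pool.Agent.OCN
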