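import Mathlib

/-!
# MP_aeb124_co: the mass inequality of the class T1
-/

set_option autoImplicit false

namespace Pool.Agent.OCN

variable {V : Type}

/-- the sum of the deficits is at most `#Z (#Z - 1) / 2` -/
def Mass (W : ℕ) (Z : Finset V) (U : V → ℕ) : Prop :=
  2 * ∑ z ∈ Z, (W - U z) ≤ Z.card * (Z.card - 1)

/-- every single deficit is at most `#Z - 1` -/
theorem Mass.le {W : ℕ} {Z : Finset V} {U : V → ℕ} (h : Mass W Z U)
    (hb : ∀ z ∈ Z, ∀ z' ∈ Z, U z ≤ U z' + 1) {z : V} (hz : z ∈ Z) : W - U z + 1 ≤ Z.card := by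
  classical
  unfold Mass at h
  obtain ⟨e, he⟩ : ∃ e, e = W - U z := ⟨_, rfl⟩
  rw [← he]
  by_contra hlt
  have h1 : ∀ w ∈ Z.erase z, e - 1 ≤ W - U w := by
    intro w hw
    have := hb w (Finset.mem_of_mem_erase hw) z hz
    omega
  have h2 := Finset.card_nsmul_le_sum (Z.erase z) (fun w => W - U w) (e - 1) h1
  have h3 := Finset.add_sum_erase Z (fun w => W - U w) hz
  have h4 := Finset.card_erase_of_mem hz
  have h5 := Finset.card_pos.2 ⟨z, hz⟩
  rw [smul_eq_mul] at h2
  rw [← he] at h3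
  obtain ⟨k, hk⟩ : ∃ k, Z.card = k + 1 := ⟨Z.card - 1, by omega⟩
  rw [hk] at h hlt h4
  simp only [Nat.add_sub_cancel] at h h4
  rw [h4] at h2
  obtain ⟨j, hj⟩ : ∃ j, e = k + 1 + j := ⟨e - (k + 1), by omega⟩
  have h6 : e - 1 = k + j := by omega
  rw [h6] at h2
  have h7 : k * (k + j) + (k + 1 + j) ≤ ∑ z ∈ Z, (W - U z) := by
    rw [← h3]
    omega
  nlinarith [h7, h, Nat.zero_le (k * j), Nat.zero_le (k * k)]

/-- one element is removed and all others gain one unit -/
theorem Mass.gain [DecidableEq V] {W : ℕ} {Z Z' : Finset V} {U U' : V → ℕ} (h : Mass W Z U)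
    (hb : ∀ z ∈ Z, ∀ z' ∈ Z, U z ≤ U z' + 1) {y : V} (hy : y ∈ Z) (hZ : Z' = Z.erase y)
    (hU : ∀ w ∈ Z', U w + 1 ≤ U' w ∨ W ≤ U' w) : Mass W Z' U' := by
  unfold Mass at h ⊢
  have h5 := Finset.card_pos.2 ⟨y, hy⟩
  have h4 := Finset.card_erase_of_mem hy
  rw [← hZ] at h4
  have hsub : ∀ w ∈ Z', w ∈ Z := fun w hw => by
    rw [hZ] at hw
    exact Finset.mem_of_mem_erase hw
  by_cases hs : ∃ w ∈ Z', W ≤ U w
  · obtain ⟨w0, hw0, h6⟩ := hs
    have h7 : ∑ z ∈ Z', (W - U' z) = 0 := by
      refine Finset.sum_eq_zero fun w hw => ?_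
      have h8 := hb w0 (hsub w0 hw0) w (hsub w hw)
      have h9 := hU w hw
      omega
    rw [h7]
    exact Nat.zero_le _
  · have h7 : ∑ z ∈ Z', (W - U' z + 1) ≤ ∑ z ∈ Z', (W - U z) := by
      refine Finset.sum_le_sum fun w hw => ?_
      have h8 : U w < W := by
        by_contra h9
        exact hs ⟨w, hw, by omega⟩
      have h9 := hU w hw
      omega
    rw [Finset.sum_add_distrib, Finset.sum_const, smul_eq_mul, mul_one] at h7
    have h8 : ∑ z ∈ Z', (W - U z) ≤ ∑ z ∈ Z, (W - U z) := by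
      rw [hZ, ← Finset.add_sum_erase Z (fun w => W - U w) hy]
      exact Nat.le_add_left _ _
    obtain ⟨k, hk⟩ : ∃ k, Z.card = k + 1 := ⟨Z.card - 1, by omega⟩
    rw [hk] at h h4
    simp only [Nat.add_sub_cancel] at h h4
    rw [h4] at h7 ⊢
    rcases Nat.eq_zero_or_pos k with h10 | h10
    · subst h10
      simp only [zero_mul, Nat.le_zero_eq, mul_eq_zero] at h ⊢
      right
      omega
    · obtain ⟨j, hj⟩ : ∃ j, k = j + 1 := ⟨k - 1, by omega⟩
      subst hj
      simp only [Nat.add_sub_cancel]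
      nlinarith

/-- a subset with the smallest values -/
theorem exists_low_subset (X : Finset V) (f : V → ℕ) (n : ℕ) (hn : n ≤ X.card) :
    ∃ A ⊆ X, A.card = n ∧ ∀ a ∈ A, ∀ w ∈ X, w ∉ A → f a ≤ f w := by
  classical
  induction n with
  | zero => exact ⟨∅, Finset.empty_subset _, rfl, fun a ha => absurd ha (Finset.notMem_empty _)⟩
  | succ n ih =>
    obtain ⟨A, h1, h2, h3⟩ := ih (by omega)
    have h4 : (X \ A).Nonempty := by
      rw [← Finset.card_pos, Finset.card_sdiff_of_subset h1]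
      omega
    obtain ⟨m, hm, h5⟩ := Finset.exists_min_image (X \ A) f h4
    obtain ⟨hmX, hmA⟩ := Finset.mem_sdiff.1 hm
    refine ⟨insert m A, Finset.insert_subset hmX h1, ?_, ?_⟩
    · rw [Finset.card_insert_of_notMem hmA, h2]
    · intro a ha w hw hwA
      rw [Finset.mem_insert, not_or] at hwA
      rcases Finset.mem_insert.1 ha with rfl | ha
      · exact h5 w (Finset.mem_sdiff.2 ⟨hw, hwA.2⟩)
      · exact h3 a ha w hw hwA.2

/-- one element with deficit `e` is removed and `#Z' - e` units are paid -/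
theorem mass_pay [DecidableEq V] {W e k : ℕ} {Z' : Finset V} {U : V → ℕ} (hk : Z'.card = k)
    (he : e ≤ k) (hb : ∀ z ∈ Z', ∀ z' ∈ Z', U z ≤ U z' + 1)
    (hm : 2 * (∑ z ∈ Z', (W - U z) + e) ≤ (k + 1) * k) (h0 : e = 0 → ∀ w ∈ Z', W ≤ U w + 1) :
    ∃ A ⊆ Z', A.card ≤ k - e ∧ (∀ a ∈ A, U a < W) ∧ ∀ U' : V → ℕ, (∀ a ∈ A, U' a = U a + 1) →
      (∀ w ∈ Z', w ∉ A → U' w = U w) → Mass W Z' U' ∧
        ∀ z ∈ Z', ∀ z' ∈ Z', U' z ≤ U' z' + 1 := by
  classical
  obtain ⟨X, hX⟩ : ∃ X, X = Z'.filter fun z => U z < W := ⟨_, rfl⟩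
  obtain ⟨A, hA1, hA2, hA3⟩ := exists_low_subset X U (min (k - e) X.card) (min_le_right _ _)
  have hXZ : X ⊆ Z' := by
    rw [hX]
    exact Finset.filter_subset _ _
  have hXW : ∀ a ∈ X, U a < W := fun a ha => by
    rw [hX] at ha
    exact (Finset.mem_filter.1 ha).2
  have hXn : ∀ w ∈ Z', w ∉ X → W ≤ U w := fun w hw hwX => by
    by_contra h1
    exact hwX (by rw [hX]; exact Finset.mem_filter.2 ⟨hw, by omega⟩)
  refine ⟨A, hA1.trans hXZ, by rw [hA2]; exact min_le_left _ _, fun a ha => hXW a (hA1 ha),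
    fun U' h1 h2 => ⟨?_, ?_⟩⟩
  · unfold Mass
    by_cases hall : X.card ≤ k - e
    · -- all unsaturated elements are paid
      rw [min_eq_right hall] at hA2
      have hAX : A = X := Finset.eq_of_subset_of_card_le hA1 (by omega)
      have h3 : ∑ z ∈ Z', (W - U' z) = 0 := by
        refine Finset.sum_eq_zero fun w hw => ?_
        by_cases hwA : w ∈ A
        · rw [h1 w hwA]
          by_cases hs : ∃ w0 ∈ Z', W ≤ U w0
          · obtain ⟨w0, hw0, h4⟩ := hs
            have := hb w0 hw0 w hw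
            omega
          · have hXZ' : X = Z' := by
              apply Finset.Subset.antisymm hXZ
              intro v hv
              by_contra hvX
              exact hs ⟨v, hv, hXn v hv hvX⟩
            have he0 : e = 0 ∨ k = 0 := by
              rw [hXZ', hk] at hall
              omega
            rcases he0 with he0 | hk0
            · have := h0 he0 w hw
              omega
            · rw [hk0, Finset.card_eq_zero] at hk
              rw [hk] at hw
              exact absurd hw (Finset.notMem_empty _)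
        · rw [h2 w hw hwA]
          rw [hAX] at hwA
          have := hXn w hw hwA
          omega
      rw [h3]
      exact Nat.zero_le _
    · rw [min_eq_left (by omega)] at hA2
      have h3 : ∑ z ∈ Z', (W - U' z) + A.card = ∑ z ∈ Z', (W - U z) := by
        have h4 : ∀ z ∈ Z', (W - U' z) + (if z ∈ A then 1 else 0) = W - U z := by
          intro z hz
          by_cases hzA : z ∈ A
          · rw [if_pos hzA, h1 z hzA]
            have := hXW z (hA1 hzA)
            omega
          · rw [if_neg hzA, h2 z hz hzA, add_zero]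
        rw [← Finset.sum_congr rfl h4, Finset.sum_add_distrib, Finset.sum_ite_mem,
          Finset.inter_eq_right.2 (hA1.trans hXZ), Finset.card_eq_sum_ones]
      rw [hk]
      rcases Nat.eq_zero_or_pos k with h10 | h10
      · have hZ0 : Z' = ∅ := Finset.card_eq_zero.1 (by omega)
        rw [hZ0, Finset.sum_empty, mul_zero]
        exact Nat.zero_le _
      · obtain ⟨j, hj⟩ : ∃ j, k = j + 1 := ⟨k - 1, by omega⟩
        subst hj
        simp only [Nat.add_sub_cancel]
        have h11 : ∑ z ∈ Z', (W - U' z) + (j + 1) = ∑ z ∈ Z', (W - U z) + e := by omega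
        nlinarith
  · intro z hz z' hz'
    have h5 := hb z hz z' hz'
    by_cases hzA : z ∈ A
    · rw [h1 z hzA]
      by_cases hzA' : z' ∈ A
      · rw [h1 z' hzA']
        omega
      · rw [h2 z' hz' hzA']
        by_cases hX' : z' ∈ X
        · have := hA3 z hzA z' hX' hzA'
          omega
        · have := hXn z' hz' hX'
          have := hXW z (hA1 hzA)
          omega
    · rw [h2 z hz hzA]
      by_cases hzA' : z' ∈ A
      · rw [h1 z' hzA']
        omega
      · rw [h2 z' hz' hzA']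
        exact h5

end Pool.Agent.OCN
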