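import Pool.Agent.Lib_helper47.OCN.T1Ops
import Pool.Agent.Lib_helper47.OCN.T1Mass

/-!
# MP_aeb124_co: the class T1 (one-sided end phase)

The right side has no deficit, the left side has the deficit `W - U z` for the undecided element
`z`. The levels are bought by steps down of the undecided elements on the right side.
-/

set_option autoImplicit false

namespace Pool.Agent.OCN

variable {V : Type}

/-- the class T1 without the mass condition -/
structure T0 (B : ℕ) (K : Finset V) (R : Rep V) (s : ℤ) (W d : ℕ) : Prop where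
  gL : K.card ≤ B + (Ls K R s).card
  gT : K.card ≤ B + (Ts K R s).card
  sr : Sd B K R s d
  sl : Sd B K R.dual (1 - s) W
  ir : InjS K R s
  il : InjS K R.dual (1 - s)
  un : ∀ z ∈ Zs K R s, ∀ z' ∈ Zs K R s, R.lo z = R.lo z'
  hd : ∀ z ∈ Zs K R s, d ≤ R.D K z
  ch : W ≤ ua K R s
  ba : ∀ z ∈ Zs K R s, ∀ z' ∈ Zs K R s, R.U K z ≤ R.U K z' + 1

/-- the dual class -/
structure T0d (B : ℕ) (K : Finset V) (R : Rep V) (s : ℤ) (W d : ℕ) : Prop where
  gL : K.card ≤ B + (Ls K R s).card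
  gT : K.card ≤ B + (Ts K R s).card
  sr : Sd B K R s W
  sl : Sd B K R.dual (1 - s) d
  ir : InjS K R s
  il : InjS K R.dual (1 - s)
  un : ∀ z ∈ Zs K R s, ∀ z' ∈ Zs K R s, R.hi z = R.hi z'
  hu : ∀ z ∈ Zs K R s, d ≤ R.U K z
  ch : W ≤ ua K R.dual (1 - s)
  ba : ∀ z ∈ Zs K R s, ∀ z' ∈ Zs K R s, R.D K z ≤ R.D K z' + 1

theorem T0.dual {B : ℕ} {K : Finset V} {R : Rep V} {s : ℤ} {W d : ℕ} (h : T0 B K R s W d) :
    T0d B K R.dual (1 - s) W d where
  gL := by rw [Ls_dual]; exact h.gT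
  gT := by rw [Ts_dual]; exact h.gL
  sr := h.sl
  sl := by rw [sub_sub_cancel, Rep.dual_dual]; exact h.sr
  ir := h.il
  il := by rw [sub_sub_cancel, Rep.dual_dual]; exact h.ir
  un z hz z' hz' := by
    rw [Zs_dual] at hz hz'
    have := h.un z hz z' hz'
    unfold Rep.dual
    simp only
    omega
  hu z hz := by
    rw [Zs_dual] at hz
    rw [Rep.U_dual]
    exact h.hd z hz
  ch := by rw [sub_sub_cancel, Rep.dual_dual]; exact h.ch
  ba z hz z' hz' := by
    rw [Zs_dual] at hz hz'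
    rw [Rep.D_dual, Rep.D_dual]
    exact h.ba z hz z' hz'

theorem T0d.dual {B : ℕ} {K : Finset V} {R : Rep V} {s : ℤ} {W d : ℕ} (h : T0d B K R s W d) :
    T0 B K R.dual (1 - s) W d where
  gL := by rw [Ls_dual]; exact h.gT
  gT := by rw [Ts_dual]; exact h.gL
  sr := h.sl
  sl := by rw [sub_sub_cancel, Rep.dual_dual]; exact h.sr
  ir := h.il
  il := by rw [sub_sub_cancel, Rep.dual_dual]; exact h.ir
  un z hz z' hz' := by
    rw [Zs_dual] at hz hz'
    have := h.un z hz z' hz'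
    unfold Rep.dual
    simp only
    omega
  hd z hz := by
    rw [Zs_dual] at hz
    rw [Rep.D_dual]
    exact h.hu z hz
  ch := h.ch
  ba z hz z' hz' := by
    rw [Zs_dual] at hz hz'
    rw [Rep.U_dual, Rep.U_dual]
    exact h.ba z hz z' hz'

/-- the class T1 -/
def T1 (B : ℕ) (K : Finset V) (R : Rep V) (s : ℤ) (W d : ℕ) : Prop :=
  T0 B K R s W d ∧ Mass W (Zs K R s) (R.U K)

/-- the dual class -/
def T1d (B : ℕ) (K : Finset V) (R : Rep V) (s : ℤ) (W d : ℕ) : Prop :=
  T0d B K R s W d ∧ Mass W (Zs K R s) (R.D K)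

theorem T1.dual {B : ℕ} {K : Finset V} {R : Rep V} {s : ℤ} {W d : ℕ} (h : T1 B K R s W d) :
    T1d B K R.dual (1 - s) W d := by
  refine ⟨h.1.dual, ?_⟩
  rw [Zs_dual]
  have h1 : R.dual.D K = R.U K := funext fun w => Rep.D_dual R K w
  rw [h1]
  exact h.2

/-- the class T1 before the payment -/
structure Pre (B : ℕ) (K : Finset V) (R : Rep V) (s : ℤ) (W d e : ℕ) : Prop where
  t : T0 B K R s W d
  le : e ≤ (Zs K R s).card
  m : 2 * (∑ z ∈ Zs K R s, (W - R.U K z) + e) ≤ ((Zs K R s).card + 1) * (Zs K R s).card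
  o : e = 0 → ∀ w ∈ Zs K R s, W ≤ R.U K w + 1

/-- the mass before the payment -/
theorem Mass.pre [DecidableEq V] {W : ℕ} {Z Z' : Finset V} {U U' : V → ℕ} (h : Mass W Z U)
    (hb : ∀ z ∈ Z, ∀ z' ∈ Z, U z ≤ U z' + 1) {y : V} (hy : y ∈ Z)
    (hZ : ∀ w, w ∈ Z' ↔ w ∈ Z ∧ w ≠ y) (hU : ∀ w ∈ Z', U' w = U w) :
    (W - U y) ≤ Z'.card ∧ 2 * (∑ z ∈ Z', (W - U' z) + (W - U y)) ≤ (Z'.card + 1) * Z'.card ∧
      (W - U y = 0 → ∀ w ∈ Z', W ≤ U' w + 1) := by
  have hZ' : Z' = Z.erase y := by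
    ext w
    rw [hZ, Finset.mem_erase]
    exact and_comm
  have h4 := Finset.card_erase_of_mem hy
  have h5 := Finset.card_pos.2 ⟨y, hy⟩
  rw [← hZ'] at h4
  have h1 := h.le hb hy
  refine ⟨by omega, ?_, fun h0 w hw => ?_⟩
  · have h2 : ∑ z ∈ Z', (W - U' z) = ∑ z ∈ Z', (W - U z) :=
      Finset.sum_congr rfl fun w hw => by rw [hU w hw]
    have h3 := Finset.add_sum_erase Z (fun w => W - U w) hy
    rw [← hZ'] at h3
    unfold Mass at h
    rw [← h3] at h
    have h6 : Z.card = Z'.card + 1 := by omega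
    rw [h6, Nat.add_sub_cancel] at h
    rw [h2, add_comm]
    exact h
  · rw [hU w hw]
    have := hb y hy w ((hZ w).1 hw).1
    omega

variable [Fintype V]

/-- the payment -/
theorem Pre.pay {B : ℕ} {K : Finset V} {R : Rep V} {s : ℤ} {W d e : ℕ} (h : Pre B K R s W d e)
    {r : V → V → Prop} (hr : Loc r K R) :
    ∃ (r' : V → V → Prop) (R' : Rep V), Loc r' K R' ∧ (∀ a b, r a b → r' a b) ∧
      newP r r' + e ≤ (Zs K R s).card ∧ T1 B K R' s W d := by
  classical
  obtain ⟨h1, h2, h3, h4⟩ := h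
  obtain ⟨A, hA1, hA2, hA3, hA4⟩ := mass_pay rfl h2 h1.ba h3 h4
  obtain ⟨r', R', g1, g2, g3, g4⟩ := op_low hr h1.ir A (fun a ha => (mem_Zs.1 (hA1 ha)).1)
    (fun a ha => by
      obtain ⟨_, h5, h6⟩ := mem_Zs.1 (hA1 ha)
      have := hA3 a ha
      have := h1.ch
      exact ⟨by omega, h6, by omega⟩)
  have hZ := g4.zs (s := s) le_rfl
  obtain ⟨h5, h6⟩ := hA4 (R'.U K) (fun a ha => g4.up a ha) (fun w _ hwA => g4.up' hwA)
  refine ⟨r', R', g1, g2, by omega, ⟨?_, ?_⟩⟩
  · exact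
      { gL := by rw [g4.ls le_rfl]; exact h1.gL
        gT := by rw [g4.ts]; exact h1.gT
        sr := h1.sr.low g4 le_rfl hA1
        sl := h1.sl.low_left g4 le_rfl
        ir := h1.ir.low g4
        il := h1.il.low_left g4 le_rfl
        un := by
          rw [hZ]
          intro z hz z' hz'
          rw [g4.lo, g4.lo]
          exact h1.un z hz z' hz'
        hd := by
          rw [hZ]
          intro z hz
          rw [g4.D_eq le_rfl hz]
          exact h1.hd z hz
        ch := by rw [g4.ua]; exact h1.ch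
        ba := by
          rw [hZ]
          exact h6 }
  · rw [hZ]
    exact h5

omit [Fintype V] in
/-- the number of elements which cross a right gap -/
theorem N_ge_T (K : Finset V) (R : Rep V) (s p : ℤ) (A : Finset V) (hA : A ⊆ Zs K R s)
    (hp : s ≤ p) (hAp : ∀ a ∈ A, p ≤ R.hi a) : R.N (Ts K R s) p + A.card ≤ R.N K p := by
  classical
  unfold Rep.N
  rw [← Finset.card_union_of_disjoint]
  · refine Finset.card_le_card fun b hb => ?_
    rw [Finset.mem_union, Finset.mem_filter, mem_Ts] at hb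
    rw [Finset.mem_filter]
    rcases hb with hb | hb
    · exact ⟨hb.1.1, hb.2⟩
    · obtain ⟨h1, h2, h3⟩ := mem_Zs.1 (hA hb)
      exact ⟨h1, by omega, hAp b hb⟩
  · rw [Finset.disjoint_left]
    intro b hb hb'
    have h7 := (mem_Ts.1 (Finset.mem_filter.1 hb).1).2
    have h8 := (mem_Zs.1 (hA hb')).2
    omega

omit [Fintype V] in
/-- a later start -/
theorem ua_lt {K : Finset V} {R : Rep V} {p q : ℤ} {y : V} (hy : y ∈ K) (h1 : p < R.lo y)
    (h2 : R.lo y ≤ q) : ua K R q < ua K R p := by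
  classical
  unfold ua
  refine Finset.card_lt_card ?_
  rw [Finset.ssubset_iff_of_subset]
  · refine ⟨y, Finset.mem_filter.2 ⟨hy, h1⟩, fun h => ?_⟩
    have := (Finset.mem_filter.1 h).2
    omega
  · intro b hb
    rw [Finset.mem_filter] at hb ⊢
    exact ⟨hb.1, by omega⟩

/-- attack on an undecided element at the right side -/
theorem T1.attTZ {B : ℕ} {K : Finset V} {R : Rep V} {s : ℤ} {W d : ℕ} (h : T1 B K R s W d)
    {r : V → V → Prop} (hr : Loc r K R) {x y : V} (hxy : x ≠ y) (hxK : x ∈ K)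
    (hxs : s ≤ R.hi x) (hy : y ∈ Zs K R s) (h1 : ¬ R.rel y x) :
    ∃ (r' : V → V → Prop) (R' : Rep V), Loc r' K R' ∧ (∀ a b, r a b → r' a b) ∧
      r' x y ∧ newP r r' ≤ B ∧ T1 B K R' s W d := by
  classical
  obtain ⟨h, hM⟩ := h
  obtain ⟨hyK, hy1, hy2⟩ := mem_Zs.1 hy
  have hlex := R.le x
  obtain ⟨p, hp⟩ : ∃ p, p = min (R.hi x) (R.hi y) := ⟨_, rfl⟩
  have hpx : p ≤ R.hi x := by rw [hp]; exact min_le_left _ _
  have hpy : p ≤ R.hi y := by rw [hp]; exact min_le_right _ _
  have hps : s ≤ p := by rw [hp]; exact le_min hxs hy2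
  have hp3 : p = R.hi x ∨ p = R.hi y := by
    rcases min_choice (R.hi x) (R.hi y) with h2 | h2
    · exact Or.inl (hp.trans h2)
    · exact Or.inr (hp.trans h2)
  have hcx : R.Cr x p := by
    refine ⟨?_, hpx⟩
    unfold Rep.rel at h1
    rcases hp3 with h2 | h2
    · omega
    · omega
  have hcy : R.Cr y p := ⟨by omega, hpy⟩
  obtain ⟨r1, g1, g2, g3, g4⟩ := op_cut hr p x y hxy hxK hyK hcx hcy
  obtain ⟨R1, hR1⟩ : ∃ R1, R1 = R.cut p x y hxy hcx hcy := ⟨_, rfl⟩
  rw [← hR1] at g1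
  obtain ⟨A, hA⟩ : ∃ A, A = (Zs K R s).filter fun a => a ≠ y ∧ a ≠ x ∧ p ≤ R.hi a := ⟨_, rfl⟩
  have hmA : ∀ a, a ∈ A ↔ a ∈ Zs K R s ∧ a ≠ y ∧ a ≠ x ∧ p ≤ R.hi a := fun a => by
    rw [hA, Finset.mem_filter]
  have hZ1 : Zs K R1 s = (Zs K R s).erase y := by
    rw [hR1]
    exact Zs_cutR K R s p x y hxy hcx hcy hps
  have hir1 : InjS K R1 s := by
    rw [hR1]
    exact h.ir.cut K R s p x y hxy hcx hcy hps
  have hlo1y : R1.lo y = p + 1 := by
    rw [hR1]
    exact lo_cut_y R p x y hxy hcx hcy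
  have hhi1 : ∀ a, a ≠ x → p ≤ R.hi a → R1.hi a = R.hi a + 1 := fun a ha ha' => by
    rw [hR1]
    exact hi_cut_ge R p x y hxy hcx hcy a ha ha'
  have hU1 : ∀ a, a ≠ x → p ≤ R.hi a → R1.U K a = R.U K a := fun a ha ha' => by
    rw [hR1]
    exact U_cut_ge K R p x y hxy hcx hcy a ha ha'
  have hlo1 : ∀ a ∈ Zs K R s, a ≠ y → R1.lo a = R.lo a := fun a ha hay => by
    rw [hR1]
    exact lo_cut R p x y hxy hcx hcy a hay (by have := (mem_Zs.1 ha).2.1; omega)
  obtain ⟨r2, R2, k1, k2, k3, k4⟩ := op_low g1 hir1 A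
    (fun a ha => (mem_Zs.1 ((hmA a).1 ha).1).1)
    (fun a ha => by
      obtain ⟨ha1, ha2, ha3, ha4⟩ := (hmA a).1 ha
      obtain ⟨_, ha5, ha6⟩ := mem_Zs.1 ha1
      refine ⟨by rw [hlo1 a ha1 ha2]; omega, by rw [hhi1 a ha3 ha4]; omega, ?_⟩
      rw [U_eq_ua]
      exact ua_lt hyK (by rw [hlo1y]; omega) (by rw [hlo1y, hhi1 a ha3 ha4]; omega))
  have hZ2 : Zs K R2 s = (Zs K R s).erase y := by rw [k4.zs le_rfl, hZ1]
  -- the values of `U`
  have hUx : x ∈ Zs K R s → R2.U K x = ua K R p + 1 := fun _ => by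
    rw [k4.up' (fun hxA => ((hmA x).1 hxA).2.2.1 rfl), hR1]
    exact U_cut_x K R p x y hxy hcx hcy hyK
  have hUw : ∀ w ∈ Zs K R s, w ≠ y → w ≠ x → R2.U K w = R.U K w + 1 := by
    intro w hw hwy hwx
    by_cases hwp : p ≤ R.hi w
    · rw [k4.up w ((hmA w).2 ⟨hw, hwy, hwx, hwp⟩), hU1 w hwx hwp]
    · rw [k4.up' (fun hwA => hwp ((hmA w).1 hwA).2.2.2), hR1,
        U_cut_lt K R p x y hxy hcx hcy hyK w (by omega), if_pos]
      have := (mem_Zs.1 hw).2.2
      omega
  have hUxw : x ∈ Zs K R s → ∃ w ∈ Zs K R s, ua K R p = R.U K w ∧ R.U K x ≤ R.U K w := by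
    intro hxZ
    rcases hp3 with h2 | h2
    · exact ⟨x, hxZ, by rw [h2, U_eq_ua], le_rfl⟩
    · refine ⟨y, hy, by rw [h2, U_eq_ua], ?_⟩
      rw [U_eq_ua, U_eq_ua]
      exact ua_anti K R (by omega)
  have hUrep : ∀ w ∈ Zs K R2 s, ∃ w' ∈ Zs K R s, R2.U K w = R.U K w' + 1 ∧ R.U K w ≤ R.U K w' := by
    intro w hw
    rw [hZ2, Finset.mem_erase] at hw
    by_cases hwx : w = x
    · rw [hwx] at hw ⊢
      obtain ⟨w', h3, h4, h5⟩ := hUxw hw.2
      exact ⟨w', h3, by rw [hUx hw.2, h4], h5⟩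
    · exact ⟨w, hw.2, hUw w hw.2 hw.1 hwx, le_rfl⟩
  refine ⟨r2, R2, k1, fun a b hab => k2 a b (g2 a b hab), k2 x y g3, ?_, ⟨?_, ?_⟩⟩
  · -- the cost
    have h5 := h.sr p hps y hy hcy x hxK hcx hxy
    have h6 := N_ge_T K R s p (insert y A) (by
      intro a ha
      rcases Finset.mem_insert.1 ha with rfl | ha
      · exact hy
      · exact ((hmA a).1 ha).1) hps (by
      intro a ha
      rcases Finset.mem_insert.1 ha with rfl | ha
      · exact hpy
      · exact ((hmA a).1 ha).2.2.2)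
    rw [Finset.card_insert_of_notMem (fun hyA => ((hmA y).1 hyA).2.1 rfl)] at h6
    have h7 := h.hd y hy
    have h8 := newP_trans (r := r) (r' := r1) (r'' := r2)
    omega
  · exact
      { gL := by
          rw [k4.ls le_rfl, hR1, Ls_cutR K R s p x y hxy hcx hcy hps]
          exact h.gL
        gT := by
          rw [k4.ts, hR1, Ts_cutR K R s p x y hxy hcx hcy hps hyK]
          have := Finset.card_le_card (Finset.subset_insert y (Ts K R s))
          have := h.gT
          omega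
        sr := by
          have h5 : Sdm B K R1 s (R.hi y + 1) d := by
            rw [hR1]
            exact h.sr.cutZ K R s p x y hxy hcx hcy hps hy
          refine h5.low k4 le_rfl (fun a ha => ?_) (fun w hw => ?_)
          · rw [hZ1, Finset.mem_erase]
            exact ⟨((hmA a).1 ha).2.1, ((hmA a).1 ha).1⟩
          · rw [hZ1, Finset.mem_erase] at hw
            by_cases hwA : w ∈ A
            · obtain ⟨ha1, ha2, ha3, ha4⟩ := (hmA w).1 hwA
              refine k4.mn w hwA _ (by omega) ?_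
              have h6 : ua K R1 (R.hi y + 1) = ua K R (R.hi y) := by
                rw [hR1, ua_cut_gt K R p x y hxy hcx hcy _ (by omega), add_sub_cancel_right]
              rw [h6, hU1 w ha3 ha4, ← U_eq_ua]
              exact h.ba y hy w ha1
            · rw [k4.nA w hwA]
              by_cases hwx : w = x
              · rw [hwx, hR1, hi_cut_x R p x y hxy hcx hcy]
                omega
              · have hwp : ¬ p ≤ R.hi w := fun hwp => hwA ((hmA w).2 ⟨hw.2, hw.1, hwx, hwp⟩)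
                rw [hR1, hi_cut_lt R p x y hxy hcx hcy w (by omega)]
                omega
        sl := by
          have h5 : Sd B K R1.dual (1 - s) W := by
            rw [hR1]
            exact h.sl.cut_left K R s p x y hxy hcx hcy hps
          exact h5.low_left k4 le_rfl
        ir := hir1.low k4
        il := by
          have h5 : InjS K R1.dual (1 - s) := by
            rw [hR1]
            exact h.il.cut_left K R s p x y hxy hcx hcy hps
          exact h5.low_left k4 le_rfl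
        un := by
          intro z hz z' hz'
          rw [hZ2, Finset.mem_erase] at hz hz'
          rw [k4.lo, k4.lo, hlo1 z hz.2 hz.1, hlo1 z' hz'.2 hz'.1]
          exact h.un z hz.2 z' hz'.2
        hd := by
          intro z hz
          rw [hZ2, Finset.mem_erase] at hz
          rw [k4.D_eq (s := s) le_rfl (by rw [hZ1, Finset.mem_erase]; exact hz), hR1,
            D_cut_Z K R s p x y hxy hcx hcy hps hz.2 hz.1]
          exact h.hd z hz.2
        ch := by
          rw [k4.ua, hR1, ua_cut_le K R p x y hxy hcx hcy hyK s hps]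
          have := h.ch
          omega
        ba := by
          intro z hz z' hz'
          obtain ⟨w, hw, h5, _⟩ := hUrep z hz
          obtain ⟨w', hw', h6, _⟩ := hUrep z' hz'
          rw [h5, h6]
          have := h.ba w hw w' hw'
          omega }
  · refine hM.gain h.ba hy hZ2 (fun w hw => ?_)
    obtain ⟨w', hw', h5, h6⟩ := hUrep w hw
    left
    omega

end Pool.Agent.OCN
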