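import Pool.Agent.Lib_helper47.OCN.T1Side2
import Pool.Agent.Lib_helper47.OCN.SMove

/-!
# MP_aeb124_co: the settlement operations for the class T1
-/

set_option autoImplicit false

namespace Pool.Agent.OCN

variable {V : Type}

/-- `z` has been settled on the left side -/
structure LoZ (K : Finset V) (R R' : Rep V) (s : ℤ) (z : V) : Prop where
  zs : ∀ w, w ∈ Zs K R' s ↔ w ∈ Zs K R s ∧ w ≠ z
  zc : (Zs K R' s).card + 1 = (Zs K R s).card
  ts : Ts K R' s = Ts K R s
  ls : (Ls K R' s).card = (Ls K R s).card + 1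
  sdr : ∀ B c, Sd B K R s c → Sd B K R' s c
  sdl : ∀ B c, Sd B K R.dual (1 - s) c → Sd B K R'.dual (1 - s) c
  sdg : ∀ B c, (∀ w ∈ Zs K R s, R.lo z ≤ R.lo w) → Sd B K R.dual (1 - s) (c + 1) →
    Sd B K R'.dual (1 - s) c
  ir : InjS K R s → InjS K R' s
  il : InjS K R.dual (1 - s) → InjS K R'.dual (1 - s)
  lo : ∀ w, w ≠ z → R'.lo w = R.lo w
  hi : ∀ w, w ≠ z → R'.hi w = R.hi w
  U : ∀ w ∈ Zs K R s, w ≠ z → R'.U K w = R.U K w
  D : ∀ w ∈ Zs K R s, w ≠ z → R'.D K w = R.D K w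
  ua : ua K R' s = ua K R s
  ual : Pool.Agent.OCN.ua K R'.dual (1 - s) = Pool.Agent.OCN.ua K R.dual (1 - s)

/-- `z` has been settled on the right side -/
structure HiZ (K : Finset V) (R R' : Rep V) (s : ℤ) (z : V) : Prop where
  zs : ∀ w, w ∈ Zs K R' s ↔ w ∈ Zs K R s ∧ w ≠ z
  zc : (Zs K R' s).card + 1 = (Zs K R s).card
  ls : Ls K R' s = Ls K R s
  ts : (Ts K R' s).card = (Ts K R s).card + 1
  sdr : ∀ B c, Sd B K R s c → Sd B K R' s c
  sdl : ∀ B c, Sd B K R.dual (1 - s) c → Sd B K R'.dual (1 - s) c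
  sdg : ∀ B c, (∀ w ∈ Zs K R s, R.hi w ≤ R.hi z) → Sd B K R s (c + 1) → Sd B K R' s c
  ir : InjS K R s → InjS K R' s
  il : InjS K R.dual (1 - s) → InjS K R'.dual (1 - s)
  lo : ∀ w, w ≠ z → R'.lo w = R.lo w
  hi : ∀ w, w ≠ z → R'.hi w = R.hi w
  U : ∀ w ∈ Zs K R s, w ≠ z → R'.U K w = R.U K w
  D : ∀ w ∈ Zs K R s, w ≠ z → R'.D K w = R.D K w
  ua : ua K R' s = ua K R s
  ual : Pool.Agent.OCN.ua K R'.dual (1 - s) = Pool.Agent.OCN.ua K R.dual (1 - s)

theorem LoZ.dual {K : Finset V} {R R' : Rep V} {s : ℤ} {z : V}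
    (h : LoZ K R.dual R' (1 - s) z) : HiZ K R R'.dual s z where
  zs w := by
    have := h.zs w
    rw [Zs_dual] at this
    rw [← this]
    have h1 := Zs_dual K R' (1 - s)
    rw [sub_sub_cancel] at h1
    rw [h1]
  zc := by
    have := h.zc
    rw [Zs_dual] at this
    rw [← this]
    have h1 := Zs_dual K R' (1 - s)
    rw [sub_sub_cancel] at h1
    rw [h1]
  ls := by
    have := h.ts
    rw [Ts_dual] at this
    rw [← this]
    have h1 := Ls_dual K R' (1 - s)
    rw [sub_sub_cancel] at h1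
    exact h1
  ts := by
    have := h.ls
    rw [Ls_dual] at this
    rw [← this]
    have h1 := Ts_dual K R' (1 - s)
    rw [sub_sub_cancel] at h1
    rw [h1]
  sdr B c hS := by
    have := h.sdl B c
    rw [sub_sub_cancel, Rep.dual_dual] at this
    exact this hS
  sdl B c hS := by
    have := h.sdr B c hS
    rw [Rep.dual_dual]
    exact this
  sdg B c hm hS := by
    have := h.sdg B c
    rw [sub_sub_cancel, Rep.dual_dual, Zs_dual] at this
    refine this (fun w hw => ?_) hS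
    have := hm w hw
    unfold Rep.dual
    simp only
    omega
  ir hI := by
    have := h.il
    rw [sub_sub_cancel, Rep.dual_dual] at this
    exact this hI
  il hI := by
    rw [Rep.dual_dual]
    exact h.ir hI
  lo w hw := by
    have h1 : R'.hi w = -R.lo w := h.hi w hw
    have h2 : R'.dual.lo w = -R'.hi w := rfl
    rw [h2, h1]
    ring
  hi w hw := by
    have h1 : R'.lo w = -R.hi w := h.lo w hw
    have h2 : R'.dual.hi w = -R'.lo w := rfl
    rw [h2, h1]
    ring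
  U w hw hwz := by
    rw [← Zs_dual] at hw
    have := h.D w hw hwz
    rw [Rep.D_dual] at this
    rw [Rep.U_dual]
    exact this
  D w hw hwz := by
    rw [← Zs_dual] at hw
    have := h.U w hw hwz
    rw [Rep.U_dual] at this
    rw [Rep.D_dual]
    exact this
  ua := by
    have := h.ual
    rw [sub_sub_cancel, Rep.dual_dual] at this
    exact this
  ual := by
    rw [Rep.dual_dual]
    exact h.ua

variable [Fintype V]

/-- the settlement of `z` on the left side -/
theorem op_loZ {r : V → V → Prop} {K : Finset V} {R : Rep V} (hr : Loc r K R) {s : ℤ} {z : V}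
    (hz : z ∈ Zs K R s) :
    ∃ (r' : V → V → Prop) (R' : Rep V), Loc r' K R' ∧ (∀ a b, r a b → r' a b) ∧
      (∀ y ∈ Ts K R s, r' z y) ∧ newP r r' + R.U K z ≤ (Ts K R s).card ∧ LoZ K R R' s z := by
  classical
  obtain ⟨hzK, hz1, hz2⟩ := mem_Zs.1 hz
  have hq : R.lo z ≤ s - 1 := by omega
  obtain ⟨r', g1, g2, g3⟩ := op_lower hr z hzK (s - 1) hq (by omega)
  have hZ := Zs_lower K R s z hq
  have hL := Ls_lower K R s z hzK hq
  have hZc := Finset.card_erase_of_mem hz
  have hZp := Finset.card_pos.2 ⟨z, hz⟩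
  have hzL : z ∉ Ls K R s := fun h1 => by
    have := (mem_Ls.1 h1).2
    omega
  refine ⟨r', _, g1, g2, fun y hy => ?_, ?_, ⟨fun w => ?_, ?_, Ts_lower K R s (s - 1) z hq, ?_,
    fun B c h => h.lowerZ hq hz, fun B c h => h.lowerZ_left hq hz,
    fun B c hm h => h.lowerZ_gain hq hz hm, fun h => h.lowerZ hq, fun h => h.lowerZ_left hq,
    fun w hw => rfl, fun w hw => ?_, fun w _ hwz => U_lowerZ hq hwz,
    fun w hw _ => D_lowerZ hq hz hw, rfl, ua_lowerZ_left hq hz⟩⟩
  · obtain ⟨hyK, hy1⟩ := mem_Ts.1 hy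
    rw [g1.eq z hzK y hyK, R.rel_lower z (s - 1) hq (by omega)]
    exact Or.inr ⟨rfl, by omega⟩
  · rw [g3]
    exact lower_price K R s z hz2
  · rw [hZ, Finset.mem_erase]
    exact and_comm
  · rw [hZ]
    omega
  · rw [hL, Finset.card_insert_of_notMem hzL]
  · unfold Rep.lower
    simp only
    rw [if_neg hw]

/-- the settlement of `z` on the right side -/
theorem op_hiZ {r : V → V → Prop} {K : Finset V} {R : Rep V} (hr : Loc r K R) {s : ℤ} {z : V}
    (hz : z ∈ Zs K R s) :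
    ∃ (r' : V → V → Prop) (R' : Rep V), Loc r' K R' ∧ (∀ a b, r a b → r' a b) ∧
      (∀ y ∈ Ls K R s, r' y z) ∧ newP r r' + R.D K z ≤ (Ls K R s).card ∧ HiZ K R R' s z := by
  have hz' : z ∈ Zs K R.dual (1 - s) := by rw [Zs_dual]; exact hz
  obtain ⟨r', R', g1, g2, g3, g4, g5⟩ := op_loZ hr.flip hz'
  refine ⟨flip r', R'.dual, g1.flip, fun a b hab => g2 b a hab, fun y hy => ?_, ?_, g5.dual⟩
  · refine g3 y ?_
    rw [Ts_dual]
    exact hy
  · rw [Ts_dual, Rep.U_dual] at g4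
    have h0 : newP r (flip r') = newP (flip r) r' := newP_flip (flip r) r'
    rw [h0]
    exact g4

end Pool.Agent.OCN
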