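import Pool.Agent.Lib_helper47.OCN.T1Side

/-!
# MP_aeb124_co: the height condition of the class T1 under steps and settlements
-/

set_option autoImplicit false

namespace Pool.Agent.OCN

variable {V : Type}

/-! ### steps down -/

section low

variable {K : Finset V} {R R' : Rep V} {l s : ℤ} {A : Finset V}

theorem Low.cr (h : Low K R R' l A) {w : V} {p : ℤ} (hw : R'.Cr w p) : R.Cr w p := by
  obtain ⟨h1, h2⟩ := hw
  have := h.le' w
  have := h.lo w
  exact ⟨by omega, by omega⟩

theorem Low.cr_iff (h : Low K R R' l A) (w : V) {p : ℤ} (hp : p ≤ l) :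
    R'.Cr w p ↔ R.Cr w p := by
  refine ⟨h.cr, fun hw => ?_⟩
  obtain ⟨h1, h2⟩ := hw
  have h3 := h.lo w
  refine ⟨by omega, ?_⟩
  by_cases hwA : w ∈ A
  · have := h.ge w hwA
    omega
  · rw [h.nA w hwA]
    exact h2

theorem Low.zs (h : Low K R R' l A) (hs : s ≤ l) : Zs K R' s = Zs K R s := by
  ext w
  rw [mem_Zs, mem_Zs, h.lo]
  have h1 := h.le' w
  constructor
  · rintro ⟨h2, h3, h4⟩
    exact ⟨h2, h3, by omega⟩
  · rintro ⟨h2, h3, h4⟩
    refine ⟨h2, h3, ?_⟩
    by_cases hwA : w ∈ A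
    · have := h.ge w hwA
      omega
    · rw [h.nA w hwA]
      exact h4

theorem Low.ts (h : Low K R R' l A) : Ts K R' s = Ts K R s := by
  ext w
  rw [mem_Ts, mem_Ts, h.lo]

theorem Low.ls (h : Low K R R' l A) (hs : s ≤ l) : Ls K R' s = Ls K R s := by
  ext w
  rw [mem_Ls, mem_Ls]
  have h1 := h.le' w
  constructor
  · rintro ⟨h2, h3⟩
    refine ⟨h2, ?_⟩
    by_cases hwA : w ∈ A
    · have := h.ge w hwA
      omega
    · rw [← h.nA w hwA]
      exact h3
  · rintro ⟨h2, h3⟩
    exact ⟨h2, by omega⟩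

theorem Low.U_le (h : Low K R R' l A) (w : V) : R.U K w ≤ R'.U K w := by
  by_cases hw : w ∈ A
  · rw [h.up w hw]
    exact Nat.le_succ _
  · rw [h.up' hw]

theorem Sdm.low {B c : ℕ} {m : ℤ} (hS : Sdm B K R s m c) (h : Low K R R' l A) (hs : s ≤ l)
    (hA : A ⊆ Zs K R s) (hm : ∀ z ∈ Zs K R s, R'.hi z ≤ m) : Sd B K R' s c := by
  classical
  intro p hp z hz hzp t ht htp htz
  rw [h.zs hs] at hz
  have h1 := hS p hp (hzp.2.trans (hm z hz)) z hz (h.cr hzp) t ht (h.cr htp) htz
  have h2 := h.U_le t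
  have h3 : R'.N (Ts K R' s) p = R.N (Ts K R s) p := by
    rw [h.ts]
    unfold Rep.N
    congr 1
    refine Finset.filter_congr fun w hw => ?_
    have hwA : w ∉ A := fun hwA => by
      have := (mem_Zs.1 (hA hwA)).2.1
      have := (mem_Ts.1 hw).2
      omega
    unfold Rep.Cr
    rw [h.lo, h.nA w hwA]
  omega

theorem Sd.sdm {B c : ℕ} (hS : Sd B K R s c) (m : ℤ) : Sdm B K R s m c :=
  fun p hp _ => hS p hp

theorem Sd.low {B c : ℕ} (hS : Sd B K R s c) (h : Low K R R' l A) (hs : s ≤ l)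
    (hA : A ⊆ Zs K R s) : Sd B K R' s c := by
  intro p hp z hz hzp t ht htp htz
  have h1 : Sdm B K R s p c := hS.sdm p
  have hZ := h.zs (s := s) hs
  classical
  have h2 := h.U_le t
  rw [hZ] at hz
  have h4 := hS p hp z hz (h.cr hzp) t ht (h.cr htp) htz
  have h3 : R'.N (Ts K R' s) p = R.N (Ts K R s) p := by
    rw [h.ts]
    unfold Rep.N
    congr 1
    refine Finset.filter_congr fun w hw => ?_
    have hwA : w ∉ A := fun hwA => by
      have := (mem_Zs.1 (hA hwA)).2.1
      have := (mem_Ts.1 hw).2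
      omega
    unfold Rep.Cr
    rw [h.lo, h.nA w hwA]
  omega

theorem Low.D_le (h : Low K R R' l A) (w : V) : R.D K w ≤ R'.D K w := by
  classical
  unfold Rep.D
  refine Finset.card_le_card fun a ha => ?_
  rw [Finset.mem_filter] at ha ⊢
  exact ⟨ha.1, h.rel ha.2⟩

theorem Sd.low_left {B c : ℕ} (hS : Sd B K R.dual (1 - s) c) (h : Low K R R' l A) (hs : s ≤ l) :
    Sd B K R'.dual (1 - s) c := by
  classical
  intro q hq z hz hzq t ht htq htz
  have hd : ∀ (R : Rep V) (w : V), R.dual.Cr w q ↔ R.Cr w (-q) := fun R w => by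
    have := R.cr_dual w (-q)
    rw [neg_neg] at this
    exact this
  rw [Zs_dual, h.zs hs] at hz
  rw [hd] at hzq htq
  have h1 := hS q hq z (by rw [Zs_dual]; exact hz) ((hd R z).2 (h.cr hzq)) t ht
    ((hd R t).2 (h.cr htq)) htz
  rw [Ts_dual, Rep.U_dual] at h1 ⊢
  rw [h.ls hs]
  have h2 := h.D_le t
  have h3 : R'.dual.N (Ls K R s) q = R.dual.N (Ls K R s) q := by
    unfold Rep.N
    congr 1
    refine Finset.filter_congr fun w _ => ?_
    rw [hd, hd, h.cr_iff w (by omega)]
  omega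

theorem InjS.low {k : ℤ} (hI : InjS K R k) (h : Low K R R' l A) : InjS K R' k := hI.congr h.lo

theorem InjS.low_left (hI : InjS K R.dual (1 - s)) (h : Low K R R' l A) (hs : s ≤ l) :
    InjS K R'.dual (1 - s) := by
  intro a ha b hb h1 h2
  have h3 : ∀ w, R'.dual.lo w = -R'.hi w := fun w => rfl
  have h4 : ∀ w, R.dual.lo w = -R.hi w := fun w => rfl
  rw [h3] at h1
  rw [h3, h3] at h2
  have h5 : ∀ w, R'.hi w < s - 1 → R.hi w = R'.hi w := by
    intro w hw
    by_cases hwA : w ∈ A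
    · have := h.ge w hwA
      omega
    · exact (h.nA w hwA).symm
  have h6 := h5 a (by omega)
  have h7 := h5 b (by omega)
  refine hI a ha b hb ?_ ?_
  · rw [h4]
    omega
  · rw [h4, h4]
    omega

theorem Low.D_eq (h : Low K R R' l A) (hs : s ≤ l) {w : V} (hw : w ∈ Zs K R s) :
    R'.D K w = R.D K w := by
  classical
  unfold Rep.D
  congr 1
  refine Finset.filter_congr fun a _ => ?_
  obtain ⟨_, hw1, hw2⟩ := mem_Zs.1 hw
  unfold Rep.rel
  rw [h.lo]
  by_cases haA : a ∈ A
  · have := h.ge a haA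
    have := h.le a haA
    constructor <;> intro <;> omega
  · rw [h.nA a haA]

theorem Low.ua_left (h : Low K R R' l A) (hs : s ≤ l) :
    Pool.Agent.OCN.ua K R'.dual (1 - s) = Pool.Agent.OCN.ua K R.dual (1 - s) := by
  classical
  unfold Pool.Agent.OCN.ua
  congr 1
  refine Finset.filter_congr fun a _ => ?_
  have h3 : ∀ w, R'.dual.lo w = -R'.hi w := fun w => rfl
  have h4 : ∀ w, R.dual.lo w = -R.hi w := fun w => rfl
  rw [h3, h4]
  by_cases haA : a ∈ A
  · have := h.ge a haA
    have := h.le a haA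
    constructor <;> intro <;> omega
  · rw [h.nA a haA]

end low

/-! ### settlement of an undecided element on the left -/

section lower

variable {K : Finset V} {R : Rep V} {s : ℤ} {z : V} (hq : R.lo z ≤ s - 1)

theorem Sd.lowerZ {B c : ℕ} (h : Sd B K R s c) (hz : z ∈ Zs K R s) :
    Sd B K (R.lower z (s - 1) hq) s c := by
  classical
  obtain ⟨hzK, hz1, hz2⟩ := mem_Zs.1 hz
  intro p hp w hw hwp t ht htp htw
  rw [Zs_lower, Finset.mem_erase] at hw
  have hcr : ∀ a, (R.lower z (s - 1) hq).Cr a p → R.Cr a p := by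
    intro a ha
    unfold Rep.Cr Rep.lower at ha
    simp only at ha
    unfold Rep.Cr
    by_cases haz : a = z
    · rw [if_pos haz] at ha
      omega
    · rw [if_neg haz] at ha
      exact ha
  have h1 := h p hp w hw.2 (hcr w hwp) t ht (hcr t htp) htw
  have h2 : R.U K t ≤ (R.lower z (s - 1) hq).U K t := Rep.U_mono (fun a _ b _ hab =>
    (R.rel_lower z (s - 1) hq (by omega) a b).2 (Or.inl hab)) ht
  have h3 : (R.lower z (s - 1) hq).N (Ts K (R.lower z (s - 1) hq) s) p = R.N (Ts K R s) p := by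
    rw [Ts_lower]
    unfold Rep.N
    congr 1
    refine Finset.filter_congr fun a ha => ?_
    have haz : a ≠ z := by
      rintro rfl
      have := (mem_Ts.1 ha).2
      omega
    unfold Rep.Cr Rep.lower
    simp only
    rw [if_neg haz]
  omega

/-- on the left side the settlement gains one unit at the gaps which `z` crosses -/
theorem lowerZ_left_N {q : ℤ} (hz : z ∈ Zs K R s) (hqs : q < s) :
    R.dual.N (Ts K R.dual (1 - s)) (-q) + (if R.lo z ≤ q then 1 else 0) =
      (R.lower z (s - 1) hq).dual.N (Ts K (R.lower z (s - 1) hq).dual (1 - s)) (-q) := by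
  classical
  obtain ⟨hzK, hz1, hz2⟩ := mem_Zs.1 hz
  rw [Ts_dual, Ts_dual, Ls_lower K R s z hzK hq, Rep.N_dual, Rep.N_dual]
  unfold Rep.N
  have hzL : z ∉ Ls K R s := fun h => by
    have := (mem_Ls.1 h).2
    omega
  have hcr : ∀ a ∈ Ls K R s, (R.lower z (s - 1) hq).Cr a q ↔ R.Cr a q := by
    intro a ha
    have haz : a ≠ z := fun he => hzL (he ▸ ha)
    unfold Rep.Cr Rep.lower
    simp only
    rw [if_neg haz]
  rw [Finset.filter_insert]
  have hzc : (R.lower z (s - 1) hq).Cr z q ↔ R.lo z ≤ q := by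
    unfold Rep.Cr Rep.lower
    simp only
    rw [if_true]
    constructor
    · exact fun h => h.1
    · exact fun h => ⟨h, by omega⟩
  rw [Finset.filter_congr hcr]
  by_cases h1 : R.lo z ≤ q
  · rw [if_pos h1, if_pos (hzc.2 h1), Finset.card_insert_of_notMem]
    rw [Finset.mem_filter]
    exact fun h => hzL h.1
  · rw [if_neg h1, if_neg (fun h => h1 (hzc.1 h)), add_zero]

theorem Sd.lowerZ_left {B c : ℕ} (h : Sd B K R.dual (1 - s) c) (hz : z ∈ Zs K R s) :
    Sd B K (R.lower z (s - 1) hq).dual (1 - s) c := by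
  classical
  obtain ⟨hzK, hz1, hz2⟩ := mem_Zs.1 hz
  intro p hp w hw hwp t ht htp htw
  rw [Zs_dual, Zs_lower, Finset.mem_erase] at hw
  have hd : ∀ (R : Rep V) (w : V), R.dual.Cr w p ↔ R.Cr w (-p) := fun R w => by
    have := R.cr_dual w (-p)
    rw [neg_neg] at this
    exact this
  have hcr : ∀ a, (R.lower z (s - 1) hq).dual.Cr a p → R.dual.Cr a p := by
    intro a ha
    rw [hd] at ha ⊢
    unfold Rep.Cr Rep.lower at ha
    simp only at ha
    unfold Rep.Cr
    by_cases haz : a = z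
    · rw [haz]
      rw [haz] at ha
      constructor <;> omega
    · rw [if_neg haz] at ha
      exact ha
  have h1 := h p hp w (by rw [Zs_dual]; exact hw.2) (hcr w hwp) t ht (hcr t htp) htw
  have h2 : R.D K t ≤ (R.lower z (s - 1) hq).D K t := Rep.D_mono (fun a _ b _ hab =>
    (R.rel_lower z (s - 1) hq (by omega) a b).2 (Or.inl hab)) ht
  have h3 := lowerZ_left_N hq hz (q := -p) (by omega)
  rw [neg_neg] at h3
  rw [Rep.U_dual] at h1 ⊢
  rw [← h3]
  omega

/-- the settlement of an element which crosses all gaps of the others repairs one unit -/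
theorem Sd.lowerZ_gain {B c : ℕ} (h : Sd B K R.dual (1 - s) (c + 1)) (hz : z ∈ Zs K R s)
    (hmin : ∀ w ∈ Zs K R s, R.lo z ≤ R.lo w) :
    Sd B K (R.lower z (s - 1) hq).dual (1 - s) c := by
  classical
  obtain ⟨hzK, hz1, hz2⟩ := mem_Zs.1 hz
  intro p hp w hw hwp t ht htp htw
  rw [Zs_dual, Zs_lower, Finset.mem_erase] at hw
  have hd : ∀ (R : Rep V) (w : V), R.dual.Cr w p ↔ R.Cr w (-p) := fun R w => by
    have := R.cr_dual w (-p)
    rw [neg_neg] at this
    exact this
  have hcr : ∀ a, (R.lower z (s - 1) hq).dual.Cr a p → R.dual.Cr a p := by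
    intro a ha
    rw [hd] at ha ⊢
    unfold Rep.Cr Rep.lower at ha
    simp only at ha
    unfold Rep.Cr
    by_cases haz : a = z
    · rw [haz]
      rw [haz] at ha
      constructor <;> omega
    · rw [if_neg haz] at ha
      exact ha
  have h1 := h p hp w (by rw [Zs_dual]; exact hw.2) (hcr w hwp) t ht (hcr t htp) htw
  have h2 : R.D K t ≤ (R.lower z (s - 1) hq).D K t := Rep.D_mono (fun a _ b _ hab =>
    (R.rel_lower z (s - 1) hq (by omega) a b).2 (Or.inl hab)) ht
  have h3 := lowerZ_left_N hq hz (q := -p) (by omega)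
  have h4 := ((hd R w).1 (hcr w hwp)).1
  have h5 := hmin w hw.2
  rw [if_pos (by omega), neg_neg] at h3
  rw [Rep.U_dual] at h1 ⊢
  rw [← h3]
  omega

theorem InjS.lowerZ (h : InjS K R s) : InjS K (R.lower z (s - 1) hq) s := h.congr fun _ => rfl

theorem InjS.lowerZ_left (h : InjS K R.dual (1 - s)) :
    InjS K (R.lower z (s - 1) hq).dual (1 - s) := by
  intro a ha b hb h1 h2
  have h3 : ∀ w, (R.lower z (s - 1) hq).dual.lo w = -(R.lower z (s - 1) hq).hi w := fun w => rfl
  have h4 : ∀ w, R.dual.lo w = -R.hi w := fun w => rfl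
  rw [h3] at h1
  rw [h3, h3] at h2
  have h5 : ∀ w, (R.lower z (s - 1) hq).hi w < s - 1 → R.hi w = (R.lower z (s - 1) hq).hi w := by
    intro w hw
    unfold Rep.lower at hw ⊢
    simp only at hw ⊢
    split_ifs at hw ⊢
    · omega
    · rfl
  have h6 := h5 a (by omega)
  have h7 := h5 b (by omega)
  refine h a ha b hb ?_ ?_
  · rw [h4]
    omega
  · rw [h4, h4]
    omega

theorem U_lowerZ {w : V} (hw : w ≠ z) : (R.lower z (s - 1) hq).U K w = R.U K w := by
  rw [U_eq_ua, U_eq_ua]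
  have h1 : (R.lower z (s - 1) hq).hi w = R.hi w := by
    unfold Rep.lower
    simp only
    rw [if_neg hw]
  rw [h1]
  rfl

theorem D_lowerZ {w : V} (hz : z ∈ Zs K R s) (hw : w ∈ Zs K R s) :
    (R.lower z (s - 1) hq).D K w = R.D K w := by
  classical
  obtain ⟨hzK, hz1, hz2⟩ := mem_Zs.1 hz
  obtain ⟨_, hw1, hw2⟩ := mem_Zs.1 hw
  unfold Rep.D
  congr 1
  refine Finset.filter_congr fun a _ => ?_
  unfold Rep.rel Rep.lower
  simp only
  by_cases haz : a = z
  · rw [if_pos haz, haz]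
    constructor <;> intro <;> omega
  · rw [if_neg haz]

theorem ua_lowerZ_left (hz : z ∈ Zs K R s) :
    ua K (R.lower z (s - 1) hq).dual (1 - s) = ua K R.dual (1 - s) := by
  classical
  obtain ⟨hzK, hz1, hz2⟩ := mem_Zs.1 hz
  unfold ua
  congr 1
  refine Finset.filter_congr fun a _ => ?_
  have h3 : ∀ w, (R.lower z (s - 1) hq).dual.lo w = -(R.lower z (s - 1) hq).hi w := fun w => rfl
  have h4 : ∀ w, R.dual.lo w = -R.hi w := fun w => rfl
  rw [h3, h4]
  unfold Rep.lower
  simp only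
  by_cases haz : a = z
  · rw [if_pos haz, haz]
    constructor <;> intro <;> omega
  · rw [if_neg haz]

end lower

end Pool.Agent.OCN
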