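import Pool.Agent.Lib_helper47.OCN.SBase

/-!
# MP_aeb124_co: one step down for a set of elements
-/

set_option autoImplicit false

namespace Pool.Agent.OCN

variable {V : Type}

open scoped Classical in
/-- the number of elements which start after the gap `p` -/
noncomputable def ua (K : Finset V) (R : Rep V) (p : ℤ) : ℕ := (K.filter fun b => p < R.lo b).card

theorem U_eq_ua (K : Finset V) (R : Rep V) (w : V) : R.U K w = ua K R (R.hi w) := by
  classical
  unfold Rep.U ua
  congr 1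
  ext b
  rw [Finset.mem_filter, Finset.mem_filter]
  rfl

theorem ua_anti (K : Finset V) (R : Rep V) {p q : ℤ} (h : p ≤ q) : ua K R q ≤ ua K R p := by
  classical
  unfold ua
  refine Finset.card_le_card fun b hb => ?_
  rw [Finset.mem_filter] at hb ⊢
  exact ⟨hb.1, by omega⟩

/-- the starts after the gap `s` are distinct -/
def InjS (K : Finset V) (R : Rep V) (s : ℤ) : Prop :=
  ∀ a ∈ K, ∀ b ∈ K, s < R.lo a → R.lo a = R.lo b → a = b

theorem InjS.mono {K : Finset V} {R : Rep V} {s s' : ℤ} (h : InjS K R s) (hs : s ≤ s') :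
    InjS K R s' := fun a ha b hb h1 h2 => h a ha b hb (by omega) h2

theorem InjS.congr {K : Finset V} {R R' : Rep V} {s : ℤ} (h : InjS K R s)
    (hl : ∀ w, R'.lo w = R.lo w) : InjS K R' s := fun a ha b hb h1 h2 =>
  h a ha b hb (by rw [← hl]; exact h1) (by rw [← hl, ← hl]; exact h2)

theorem ua_le_succ {K : Finset V} {R : Rep V} {s v : ℤ} (h : InjS K R s) (hv : s < v) :
    ua K R (v - 1) ≤ ua K R v + 1 := by
  classical
  unfold ua
  by_cases hb : ∃ b ∈ K, R.lo b = v
  · obtain ⟨b, hbK, hbv⟩ := hb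
    have h5 : (K.filter fun b => v - 1 < R.lo b) ⊆ insert b (K.filter fun b => v < R.lo b) := by
      intro c hc
      rw [Finset.mem_filter] at hc
      rw [Finset.mem_insert, Finset.mem_filter]
      by_cases hcv : R.lo c = v
      · exact Or.inl (h c hc.1 b hbK (by omega) (hcv.trans hbv.symm))
      · exact Or.inr ⟨hc.1, by omega⟩
    exact (Finset.card_le_card h5).trans (Finset.card_insert_le _ _)
  · refine (Finset.card_le_card (t := K.filter fun b => v < R.lo b) ?_).trans (Nat.le_succ _)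
    intro c hc
    rw [Finset.mem_filter] at hc ⊢
    have : R.lo c ≠ v := fun he => hb ⟨c, hc.1, he⟩
    exact ⟨hc.1, by omega⟩

/-- one step down -/
theorem exists_step {K : Finset V} {R : Rep V} {l c : ℤ} (h : InjS K R l) (hlc : l ≤ c) :
    ∃ v, l ≤ v ∧ v ≤ c ∧ ua K R v ≤ ua K R c + 1 ∧
      (∀ m, l ≤ m → ua K R m ≤ ua K R c + 1 → v ≤ m) ∧
      (ua K R c < ua K R l → ua K R v = ua K R c + 1) := by
  obtain ⟨v, ⟨h1, h2⟩, h3⟩ := Int.exists_least_of_bdd
    (P := fun v => l ≤ v ∧ ua K R v ≤ ua K R c + 1) ⟨l, fun z hz => hz.1⟩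
    ⟨c, hlc, Nat.le_succ _⟩
  refine ⟨v, h1, h3 c ⟨hlc, Nat.le_succ _⟩, h2, fun m hm h4 => h3 m ⟨hm, h4⟩, fun h4 => ?_⟩
  by_contra h5
  have h6 : ua K R v ≤ ua K R c := by omega
  by_cases hv : v = l
  · rw [hv] at h6
    omega
  · have h7 := ua_le_succ h (v := v) (by omega)
    have := h3 (v - 1) ⟨by omega, by omega⟩
    omega

open scoped Classical in
/-- the last gaps of the elements of `A` become `q` -/
noncomputable def Rep.lowerF (R : Rep V) (A : Finset V) (q : V → ℤ)
    (h : ∀ w ∈ A, R.lo w ≤ q w) : Rep V where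
  lo := R.lo
  hi w := if w ∈ A then q w else R.hi w
  le w := by
    by_cases hw : w ∈ A
    · rw [if_pos hw]
      exact h w hw
    · rw [if_neg hw]
      exact R.le w

theorem newK_lowerF (K : Finset V) (R : Rep V) (A : Finset V) (q : V → ℤ)
    (h : ∀ w ∈ A, R.lo w ≤ q w) (h' : ∀ w ∈ A, q w ≤ R.hi w)
    (h1 : ∀ w ∈ A, ua K R (q w) ≤ R.U K w + 1) :
    Rep.newK K R (R.lowerF A q h) ≤ A.card := by
  classical
  unfold Rep.newK
  have h5 : ((K ×ˢ K).filter fun p => (R.lowerF A q h).rel p.1 p.2 ∧ ¬ R.rel p.1 p.2) ⊆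
      A.biUnion fun a => (K.filter fun b => q a < R.lo b ∧ ¬ R.rel a b).image fun b => (a, b) := by
    rintro ⟨a, b⟩ hab
    rw [Finset.mem_filter, Finset.mem_product] at hab
    obtain ⟨⟨ha, hb⟩, h2, h3⟩ := hab
    rw [Finset.mem_biUnion]
    unfold Rep.rel Rep.lowerF at h2
    simp only at h2 h3 ha hb
    by_cases haA : a ∈ A
    · rw [if_pos haA] at h2
      exact ⟨a, haA, Finset.mem_image.2 ⟨b, Finset.mem_filter.2 ⟨hb, h2, h3⟩, rfl⟩⟩
    · rw [if_neg haA] at h2
      exact absurd h2 h3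
  refine (Finset.card_le_card h5).trans (Finset.card_biUnion_le.trans ?_)
  rw [Finset.card_eq_sum_ones]
  refine Finset.sum_le_sum fun a ha => ?_
  refine Finset.card_image_le.trans ?_
  have h6 : (K.filter fun b => q a < R.lo b ∧ ¬ R.rel a b).card + R.U K a ≤ ua K R (q a) := by
    unfold Rep.U ua
    rw [← Finset.card_union_of_disjoint]
    · refine Finset.card_le_card fun b hb => ?_
      rw [Finset.mem_union, Finset.mem_filter, Finset.mem_filter] at hb
      rw [Finset.mem_filter]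
      have := h' a ha
      rcases hb with hb | hb
      · exact ⟨hb.1, hb.2.1⟩
      · refine ⟨hb.1, ?_⟩
        have h7 := hb.2
        unfold Rep.rel at h7
        omega
    · rw [Finset.disjoint_left]
      intro b hb hb'
      exact (Finset.mem_filter.1 hb).2.2 (Finset.mem_filter.1 hb').2
  have := h1 a ha
  omega

/-- the elements of `A` have gone one step down -/
structure Low (K : Finset V) (R R' : Rep V) (l : ℤ) (A : Finset V) : Prop where
  lo : ∀ w, R'.lo w = R.lo w
  nA : ∀ w, w ∉ A → R'.hi w = R.hi w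
  ge : ∀ a ∈ A, l ≤ R'.hi a
  le : ∀ a ∈ A, R'.hi a ≤ R.hi a
  up : ∀ a ∈ A, R'.U K a = R.U K a + 1
  mn : ∀ a ∈ A, ∀ m, l ≤ m → ua K R m ≤ R.U K a + 1 → R'.hi a ≤ m

theorem Low.le' {K : Finset V} {R R' : Rep V} {l : ℤ} {A : Finset V} (h : Low K R R' l A)
    (w : V) : R'.hi w ≤ R.hi w := by
  by_cases hw : w ∈ A
  · exact h.le w hw
  · exact le_of_eq (h.nA w hw)

theorem Low.ua {K : Finset V} {R R' : Rep V} {l : ℤ} {A : Finset V} (h : Low K R R' l A)
    (p : ℤ) : ua K R' p = ua K R p := by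
  classical
  unfold Pool.Agent.OCN.ua
  congr 1
  refine Finset.filter_congr fun b _ => ?_
  rw [h.lo]

theorem Low.up' {K : Finset V} {R R' : Rep V} {l : ℤ} {A : Finset V} (h : Low K R R' l A)
    {w : V} (hw : w ∉ A) : R'.U K w = R.U K w := by
  rw [U_eq_ua, U_eq_ua, h.ua, h.nA w hw]

theorem Low.rel {K : Finset V} {R R' : Rep V} {l : ℤ} {A : Finset V} (h : Low K R R' l A)
    {a b : V} (hab : R.rel a b) : R'.rel a b := by
  unfold Rep.rel at hab ⊢
  have := h.le' a
  have := h.lo b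
  omega

/-- the operation: a set of elements goes one step down -/
theorem op_low [Fintype V] {r : V → V → Prop} {K : Finset V} {R : Rep V} (hr : Loc r K R)
    {l : ℤ} (hi : InjS K R l) (A : Finset V) (_hAK : A ⊆ K)
    (hA : ∀ a ∈ A, R.lo a ≤ l ∧ l ≤ R.hi a ∧ R.U K a < ua K R l) :
    ∃ (r' : V → V → Prop) (R' : Rep V), Loc r' K R' ∧ (∀ a b, r a b → r' a b) ∧
      newP r r' ≤ A.card ∧ Low K R R' l A := by
  classical
  have hq : ∀ a, ∃ v, a ∈ A → (l ≤ v ∧ v ≤ R.hi a ∧
      (∀ m, l ≤ m → ua K R m ≤ R.U K a + 1 → v ≤ m) ∧ ua K R v = R.U K a + 1) := by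
    intro a
    by_cases ha : a ∈ A
    · obtain ⟨_, h2, h3⟩ := hA a ha
      obtain ⟨v, h4, h5, _, h7, h8⟩ := exists_step hi h2
      rw [← U_eq_ua] at h7 h8
      exact ⟨v, fun _ => ⟨h4, h5, h7, h8 h3⟩⟩
    · exact ⟨0, fun h => absurd h ha⟩
  choose q hq using hq
  have h1 : ∀ w ∈ A, R.lo w ≤ q w := fun w hw => by
    have := (hA w hw).1
    have := (hq w hw).1
    omega
  have hrel : ∀ a b, R.rel a b → (R.lowerF A q h1).rel a b := by
    intro a b hab
    unfold Rep.rel Rep.lowerF at *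
    simp only
    by_cases ha : a ∈ A
    · rw [if_pos ha]
      have := (hq a ha).2.1
      omega
    · rw [if_neg ha]
      exact hab
  obtain ⟨r', g1, g2, g3⟩ := op_local hr (R.lowerF A q h1) (fun a _ b _ hab => hrel a b hab)
  refine ⟨r', _, g1, g2, ?_, ⟨fun w => rfl, fun w hw => ?_, fun a ha => ?_, fun a ha => ?_,
    fun a ha => ?_, fun a ha m hm h4 => ?_⟩⟩
  · rw [g3]
    exact newK_lowerF K R A q h1 (fun w hw => (hq w hw).2.1)
      (fun w hw => le_of_eq (hq w hw).2.2.2)
  · unfold Rep.lowerF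
    simp only
    rw [if_neg hw]
  · unfold Rep.lowerF
    simp only
    rw [if_pos ha]
    exact (hq a ha).1
  · unfold Rep.lowerF
    simp only
    rw [if_pos ha]
    exact (hq a ha).2.1
  · rw [← (hq a ha).2.2.2, U_eq_ua]
    have h5 : (R.lowerF A q h1).hi a = q a := by
      unfold Rep.lowerF
      simp only
      rw [if_pos ha]
    rw [h5]
    rfl
  · have h5 : (R.lowerF A q h1).hi a = q a := by
      unfold Rep.lowerF
      simp only
      rw [if_pos ha]
    rw [h5]
    exact (hq a ha).2.2.1 m hm h4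

end Pool.Agent.OCN
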