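import Pool.Agent.Lib_helper47.OCN.TGDef

/-!
# MP_aeb124_co: the class TG, changes of the other side
-/

set_option autoImplicit false

namespace Pool.Agent.OCN

variable {V : Type} {B : ℕ} {K : Finset V} {R R' : Rep V} {s m : ℤ} {W d : ℕ} {δ : V → ℕ}

theorem LS.ts (h : LS K R R' s) (w : V) : w ∈ Ts K R' s ↔ w ∈ Ts K R s := by
  rw [mem_Ts, mem_Ts]
  constructor
  · rintro ⟨h1, h2⟩
    refine ⟨h1, ?_⟩
    by_contra h3
    have := h.lo' w h1 (by omega)
    omega
  · rintro ⟨h1, h2⟩
    exact ⟨h1, by rw [h.lo w h1 h2]; exact h2⟩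

theorem LS.zs (h : LS K R R' s) {w : V} (hw : w ∈ Zs K R' s) : w ∈ Zs K R s ∧
    R'.hi w = R.hi w := by
  obtain ⟨h1, h2, h3⟩ := mem_Zs.1 hw
  have h4 : R.lo w < s := by
    by_contra h5
    have := h.lo w h1 (by omega)
    omega
  have h5 : s ≤ R.hi w := by
    by_contra h6
    have := h.hi' w h1 (by omega)
    omega
  refine ⟨mem_Zs.2 ⟨h1, h4, h5⟩, ?_⟩
  rcases h.hi w h1 h5 with h6 | h6
  · exact h6
  · omega

theorem LS.ls_le (h : LS K R R' s) : (Ls K R s).card ≤ (Ls K R' s).card := by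
  refine Finset.card_le_card fun w hw => ?_
  rw [mem_Ls] at hw ⊢
  exact ⟨hw.1, h.hi' w hw.1 hw.2⟩

/-- an element which crosses a gap of the right side -/
theorem LS.cr (h : LS K R R' s) {w : V} {p : ℤ} (hw : w ∈ K) (hp : s ≤ p) (hc : R'.Cr w p) :
    R.Cr w p ∧ R'.hi w = R.hi w := by
  obtain ⟨h1, h2⟩ := hc
  have h3 : s ≤ R.hi w := by
    by_contra h6
    have := h.hi' w hw (by omega)
    omega
  have h4 : R'.hi w = R.hi w := by
    rcases h.hi w hw h3 with h6 | h6
    · exact h6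
    · omega
  refine ⟨⟨?_, by omega⟩, h4⟩
  by_cases h5 : s ≤ R.lo w
  · rw [← h.lo w hw h5]
    exact h1
  · omega

/-- the starts on the right side do not move -/
theorem LS.ua (h : LS K R R' s) (p : ℤ) (hp : s ≤ p + 1) : ua K R' p = ua K R p := by
  classical
  unfold Pool.Agent.OCN.ua
  congr 1
  refine Finset.filter_congr fun w hw => ?_
  constructor
  · intro h1
    by_cases h2 : s ≤ R.lo w
    · rw [← h.lo w hw h2]
      exact h1
    · have := h.lo' w hw (by omega)
      omega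
  · intro h1
    rw [h.lo w hw (by omega)]
    exact h1

theorem LS.U (h : LS K R R' s) {w : V} (h1 : s ≤ R.hi w) (h2 : R'.hi w = R.hi w) :
    R'.U K w = R.U K w := by
  rw [U_eq_ua, U_eq_ua, h2, h.ua _ (by omega)]

theorem LS.N (h : LS K R R' s) (hm : s ≤ m) (p : ℤ) (hp : m ≤ p) :
    R'.N (Ts K R' m) p = R.N (Ts K R m) p := by
  classical
  unfold Rep.N
  congr 1
  ext w
  rw [Finset.mem_filter, Finset.mem_filter, mem_Ts, mem_Ts]
  constructor
  · rintro ⟨⟨h1, h2⟩, h3⟩
    refine ⟨⟨h1, ?_⟩, (h.cr h1 (by omega) h3).1⟩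
    by_cases h5 : s ≤ R.lo w
    · rw [← h.lo w h1 h5]
      exact h2
    · have := h.lo' w h1 (by omega)
      omega
  · rintro ⟨⟨h1, h2⟩, h3⟩
    have h4 := h.lo w h1 (by omega)
    have h5 := R.le w
    refine ⟨⟨h1, by omega⟩, by rw [h4]; exact h3.1, ?_⟩
    rcases h.hi w h1 (by omega) with h6 | h6
    · rw [h6]
      exact h3.2
    · have := (mem_Zs.1 h6.1).2.1
      omega

theorem LS.inj (h : LS K R R' s) (hm : s ≤ m + 1) (hi : InjS K R m) : InjS K R' m := by
  have key : ∀ w ∈ K, m < R'.lo w → R'.lo w = R.lo w := by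
    intro w hw h1
    by_cases h5 : s ≤ R.lo w
    · exact h.lo w hw h5
    · have := h.lo' w hw (by omega)
      omega
  intro a ha b hb h1 h2
  have e1 := key a ha h1
  have e2 := key b hb (by omega)
  exact hi a ha b hb (by omega) (by omega)

/-- the flat side when the other side changes -/
theorem Fd.of_LS (h : Fd B K R s W) (hL : LS K R R' s) : Fd B K R' s W where
  gT := by
    have : Ts K R' s = Ts K R s := Finset.ext hL.ts
    rw [this]
    exact h.gT
  gL := h.gL.trans (Nat.add_le_add_left hL.ls_le B)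
  sr := by
    intro p hp z hz hzp t ht htp htz
    obtain ⟨h1, h2⟩ := hL.zs hz
    obtain ⟨h3, h4⟩ := hL.cr ht hp htp
    have h5 := h.sr p hp z h1 (hL.cr (mem_Zs.1 h1).1 hp hzp).1 t ht h3 htz
    have h6 := hL.N (m := s) le_rfl p hp
    have h7 : R'.U K t = R.U K t := hL.U (hp.trans h3.2) h4
    omega
  ir := hL.inj (by omega) h.ir
  un := by
    intro z hz z' hz'
    obtain ⟨h1, h2⟩ := hL.zs hz
    obtain ⟨h3, h4⟩ := hL.zs hz'
    rw [h2, h4]
    exact h.un z h1 z' h3

/-- the staggered side when the other side changes -/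
theorem Sg.of_LS (h : Sg B K R s m W d δ) (hL : LS K R R' s)
    (hD : ∀ a ∈ K, ∀ b ∈ K, R.rel a b → R'.rel a b) : Sg B K R' s m W d δ := by
  classical
  have hsm := h.sm
  have hlo : ∀ w ∈ K, s ≤ R.lo w → R'.lo w = R.lo w ∧ R'.hi w = R.hi w := by
    intro w hw h1
    have h2 := R.le w
    refine ⟨hL.lo w hw h1, ?_⟩
    rcases hL.hi w hw (by omega) with h3 | h3
    · exact h3
    · have := (mem_Zs.1 h3.1).2.1
      omega
  have hU : ∀ z ∈ Zs K R' s, R'.U K z = R.U K z := by
    intro z hz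
    obtain ⟨h1, h2⟩ := hL.zs hz
    exact hL.U (mem_Zs.1 h1).2.2 h2
  have hbon : ∀ p, bon K R' s δ p ≤ bon K R s δ p := by
    intro p
    unfold bon
    refine Finset.card_le_card fun w hw => ?_
    rw [Finset.mem_filter] at hw ⊢
    obtain ⟨h1, h2⟩ := hL.zs hw.1
    have h3 := hU w hw.1
    exact ⟨h1, by omega, by omega⟩
  refine ⟨hsm, ?_, ?_, ?_, ?_, hL.inj (by omega) h.ir, ?_, ?_, ?_, ?_⟩
  · intro w hw
    have h0 := R'.le w
    rcases h.sep w hw with h1 | h1 | h1 | h1
    · have := hL.hi' w hw h1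
      exact Or.inl this
    · have := hlo w hw h1.1
      right
      left
      omega
    · have h2 := hL.lo' w hw h1.1
      rcases hL.hi w hw (by omega) with h3 | h3
      · right
        right
        left
        omega
      · exact Or.inl h3.2
    · have := hlo w hw (by omega)
      right
      right
      right
      omega
  · intro a ha b hb hab h1 h2 h3 h4
    have key : ∀ w ∈ K, s ≤ R'.lo w → s ≤ R.lo w := by
      intro w hw h5
      by_contra h6
      have := hL.lo' w hw (by omega)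
      omega
    obtain ⟨e1, e2⟩ := hlo a ha (key a ha h1)
    obtain ⟨e3, e4⟩ := hlo b hb (key b hb h3)
    rcases h.cn a ha b hb hab (by omega) (by omega) (by omega) (by omega) with h5 | h5
    · exact Or.inl (hD a ha b hb h5)
    · exact Or.inr (hD b hb a ha h5)
  · have : Ts K R m ⊆ Ts K R' m := by
      intro w hw
      rw [mem_Ts] at hw ⊢
      have := (hlo w hw.1 (by omega)).1
      exact ⟨hw.1, by omega⟩
    have := Finset.card_le_card this
    have := h.gN
    omega
  · intro p hp z hz hzp t ht htp htz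
    obtain ⟨h1, h2⟩ := hL.zs hz
    obtain ⟨h3, h4⟩ := hL.cr ht (by omega) htp
    have h5 := h.sr p hp z h1 (hL.cr (mem_Zs.1 h1).1 (by omega) hzp).1 t ht h3 htz
    have h6 := hL.N hsm p hp
    have h7 : R'.U K t = R.U K t := hL.U (by have := h3.2; omega) h4
    have h8 := hbon p
    omega
  · intro z hz
    obtain ⟨h1, h2⟩ := hL.zs hz
    refine (h.hd z h1).trans ?_
    unfold Rep.D
    refine Finset.card_le_card fun a ha => ?_
    rw [Finset.mem_filter] at ha ⊢
    exact ⟨ha.1, hD a ha.1 z (mem_Zs.1 h1).1 ha.2⟩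
  · rw [hL.ua m (by omega)]
    exact h.ch
  · intro z hz z' hz'
    exact h.ba z (hL.zs hz).1 z' (hL.zs hz').1
  · intro z hz
    rw [hU z hz]
    exact h.dU z (hL.zs hz).1

/-- a change on the right side of `m` is a change on the right side of `s` -/
theorem RS.of_m (hsm : s ≤ m)
    (sep : ∀ w ∈ K, R.hi w < s ∨ (s ≤ R.lo w ∧ R.hi w < m) ∨ (R.lo w < s ∧ m ≤ R.hi w) ∨
      m ≤ R.lo w) (h : RS K R R' m) : RS K R R' s := by
  have e0 : ∀ (R : Rep V) w, R.dual.lo w = -R.hi w := fun R w => rfl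
  have e1 : ∀ (R : Rep V) w, R.dual.hi w = -R.lo w := fun R w => rfl
  refine ⟨fun w hw h1 => ?_, fun w hw h1 => ?_, fun w hw h1 => ?_, fun w hw h1 => ?_⟩
  · rw [e1] at h1
    have h2 := h.hi w hw (by rw [e1]; omega)
    rcases h2 with h2 | ⟨h2, h3⟩
    · exact Or.inl h2
    · right
      obtain ⟨h4, h5, h6⟩ := mem_Zs.1 h2
      rw [e0] at h5
      rw [e1] at h6
      refine ⟨mem_Zs.2 ⟨h4, ?_, ?_⟩, by omega⟩
      · rw [e0]
        have := sep w hw
        omega
      · rw [e1]
        omega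
  · rw [e1] at h1 ⊢
    by_cases h2 : R.lo w < m
    · have h3 := h.hi w hw (by rw [e1]; omega)
      rw [e1, e1] at h3
      omega
    · have h3 := h.hi' w hw (by rw [e1]; omega)
      rw [e1] at h3
      omega
  · rw [e0] at h1
    exact h.lo w hw (by rw [e0]; omega)
  · rw [e0] at h1 ⊢
    by_cases h2 : R.hi w < m
    · have h3 := h.lo w hw (by rw [e0]; omega)
      rw [e0, e0] at h3
      omega
    · have h3 := h.lo' w hw (by rw [e0]; omega)
      rw [e0] at h3
      omega

end Pool.Agent.OCN
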