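import Pool.Agent.Lib_helper47.OCN.TGa

/-!
# MP_aeb124_co: the class TG, steps down on the staggered side and the payment
-/

set_option autoImplicit false

namespace Pool.Agent.OCN

variable {V : Type} {B : ℕ} {K : Finset V} {R R' : Rep V} {s m : ℤ} {W d : ℕ} {δ δ' : V → ℕ}
  {A : Finset V} {Q : V → Prop}

/-- some undecided elements have gone down on the right side of `m`: the elements of `A` one step,
the elements in `Q` to their first possible gap -/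
structure LowN (K : Finset V) (R R' : Rep V) (s m : ℤ) (A : Finset V) (Q : V → Prop) : Prop where
  lo : ∀ w, R'.lo w = R.lo w
  nA : ∀ w, w ∉ A → ¬ Q w → R'.hi w = R.hi w
  nZ : ∀ w, w ∉ Zs K R s → R'.hi w = R.hi w
  ge : ∀ z ∈ Zs K R s, m ≤ R'.hi z
  le : ∀ w, R'.hi w ≤ R.hi w
  up : ∀ a ∈ A, R'.U K a = R.U K a + 1
  up' : ∀ w, w ∉ A → R'.U K w = R.U K w
  mn : ∀ z ∈ Zs K R s, (z ∈ A ∨ Q z) → ∀ q, m ≤ q → ua K R q ≤ R'.U K z → R'.hi z ≤ q

theorem LowN.cr (h : LowN K R R' s m A Q) {w : V} {p : ℤ} (hw : R'.Cr w p) : R.Cr w p := by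
  obtain ⟨h1, h2⟩ := hw
  have := h.le w
  have := h.lo w
  exact ⟨by omega, by omega⟩

theorem LowN.zs (h : LowN K R R' s m A Q) (hsm : s ≤ m) : Zs K R' s = Zs K R s := by
  ext w
  rw [mem_Zs, mem_Zs, h.lo]
  have h1 := h.le w
  constructor
  · rintro ⟨h2, h3, h4⟩
    exact ⟨h2, h3, by omega⟩
  · rintro ⟨h2, h3, h4⟩
    have := h.ge w (mem_Zs.2 ⟨h2, h3, h4⟩)
    exact ⟨h2, h3, by omega⟩

theorem LowN.ts (h : LowN K R R' s m A Q) (p : ℤ) : Ts K R' p = Ts K R p := by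
  ext w
  rw [mem_Ts, mem_Ts, h.lo]

theorem LowN.ua (h : LowN K R R' s m A Q) (p : ℤ) : ua K R' p = ua K R p := by
  classical
  unfold Pool.Agent.OCN.ua
  congr 1
  refine Finset.filter_congr fun b _ => ?_
  rw [h.lo]

theorem LowN.rel (h : LowN K R R' s m A Q) {a b : V} (hab : R.rel a b) : R'.rel a b := by
  unfold Rep.rel at hab ⊢
  have := h.le a
  have := h.lo b
  omega

theorem LowN.U_le (h : LowN K R R' s m A Q) (w : V) : R.U K w ≤ R'.U K w := by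
  by_cases hw : w ∈ A
  · rw [h.up w hw]
    exact Nat.le_succ _
  · rw [h.up' w hw]

theorem LowN.N (h : LowN K R R' s m A Q) (hsm : s ≤ m) (p : ℤ) :
    R'.N (Ts K R' m) p = R.N (Ts K R m) p := by
  classical
  unfold Rep.N
  congr 1
  rw [h.ts]
  refine Finset.filter_congr fun w hw => ?_
  have h1 := (mem_Ts.1 hw).2
  have h2 : w ∉ Zs K R s := fun h3 => by
    have := (mem_Zs.1 h3).2.1
    omega
  unfold Rep.Cr
  rw [h.lo, h.nZ w h2]

theorem LowN.rs (h : LowN K R R' s m A Q) (hZ : ∀ z ∈ Zs K R s, m ≤ R.hi z) :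
    RS K R R' m := by
  have e0 : ∀ (R : Rep V) w, R.dual.lo w = -R.hi w := fun R w => rfl
  have e1 : ∀ (R : Rep V) w, R.dual.hi w = -R.lo w := fun R w => rfl
  refine ⟨fun w hw h1 => ?_, fun w hw h1 => ?_, fun w hw h1 => ?_, fun w hw h1 => ?_⟩
  · left
    rw [e1, e1, h.lo]
  · rw [e1] at h1 ⊢
    rw [h.lo]
    exact h1
  · rw [e0] at h1
    rw [e0, e0, h.nZ w]
    intro h2
    have := hZ w h2
    omega
  · rw [e0] at h1 ⊢
    by_cases h2 : w ∈ Zs K R s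
    · have := h.ge w h2
      omega
    · rw [h.nZ w h2]
      exact h1

/-- the staggered side after steps down -/
theorem Sg.low (h : Sg B K R s m W d δ) (hl : LowN K R R' s m A Q)
    (hb : ∀ z ∈ Zs K R s, δ' z < R'.U K z → δ z < R.U K z ∧ z ∉ A ∧ ¬ Q z)
    (hba : ∀ z ∈ Zs K R s, ∀ z' ∈ Zs K R s, δ' z ≤ δ' z' + 1)
    (hdU : ∀ z ∈ Zs K R s, δ' z ≤ R'.U K z) : Sg B K R' s m W d δ' := by
  classical
  have hsm := h.sm
  have hZ := hl.zs hsm
  have hnz : ∀ w, w ∉ Zs K R s → R'.lo w = R.lo w ∧ R'.hi w = R.hi w := fun w hw =>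
    ⟨hl.lo w, hl.nZ w hw⟩
  have hnz' : ∀ w ∈ K, s ≤ R.lo w → w ∉ Zs K R s := fun w _ h1 h2 => by
    have := (mem_Zs.1 h2).2.1
    omega
  refine ⟨hsm, ?_, ?_, ?_, ?_, h.ir.congr hl.lo, ?_, ?_, ?_, ?_⟩
  · intro w hw
    have h0 := R'.le w
    have h1 := R.le w
    by_cases h2 : w ∈ Zs K R s
    · right
      right
      left
      have := hl.lo w
      have := (mem_Zs.1 h2).2.1
      have := hl.ge w h2
      omega
    · obtain ⟨h3, h4⟩ := hnz w h2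
      have := h.sep w hw
      omega
  · intro a ha b hb hab h1 h2 h3 h4
    rw [hl.lo] at h1 h3
    obtain ⟨_, e2⟩ := hnz a (hnz' a ha h1)
    obtain ⟨_, e4⟩ := hnz b (hnz' b hb h3)
    rcases h.cn a ha b hb hab h1 (by omega) h3 (by omega) with h5 | h5
    · exact Or.inl (hl.rel h5)
    · exact Or.inr (hl.rel h5)
  · rw [hl.ts]
    exact h.gN
  · intro p hp z hz hzp t ht htp htz
    rw [hZ] at hz
    have h5 := h.sr p hp z hz (hl.cr hzp) t ht (hl.cr htp) htz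
    have h6 := hl.N hsm p
    have h7 := hl.U_le t
    have h8 : bon K R' s δ' p ≤ bon K R s δ p := by
      unfold bon
      refine Finset.card_le_card fun w hw => ?_
      rw [Finset.mem_filter, hZ] at hw
      rw [Finset.mem_filter]
      obtain ⟨h9, h10, h11⟩ := hb w hw.1 hw.2.1
      rw [hl.nA w h10 h11] at hw
      exact ⟨hw.1, h9, hw.2.2⟩
    omega
  · rw [hZ]
    intro z hz
    refine (h.hd z hz).trans ?_
    unfold Rep.D
    refine Finset.card_le_card fun a ha => ?_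
    rw [Finset.mem_filter] at ha ⊢
    exact ⟨ha.1, hl.rel ha.2⟩
  · rw [hl.ua]
    exact h.ch
  · rw [hZ]
    exact hba
  · rw [hZ]
    exact hdU

variable [Fintype V] {r r' : V → V → Prop}

/-- the operation -/
theorem op_lowN (hr : Loc r K R) (hi : InjS K R m) (hsm : s ≤ m)
    (hZ : ∀ z ∈ Zs K R s, m ≤ R.hi z) (A : Finset V) (hAZ : A ⊆ Zs K R s)
    (hA : ∀ a ∈ A, R.U K a < Pool.Agent.OCN.ua K R m) (Q : V → Prop) :
    ∃ (r' : V → V → Prop) (R' : Rep V), Loc r' K R' ∧ (∀ a b, r a b → r' a b) ∧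
      newP r r' ≤ A.card ∧ LowN K R R' s m A Q := by
  classical
  obtain ⟨r1, R1, g1, g2, g3, g4⟩ := op_low hr hi A (fun a ha => (mem_Zs.1 (hAZ ha)).1)
    (fun a ha => ⟨by have := (mem_Zs.1 (hAZ ha)).2.1; omega, hZ a (hAZ ha), hA a ha⟩)
  have hge1 : ∀ z ∈ Zs K R s, m ≤ R1.hi z := by
    intro z hz
    by_cases hzA : z ∈ A
    · exact g4.ge z hzA
    · rw [g4.nA z hzA]
      exact hZ z hz
  obtain ⟨Z0, hZ0⟩ : ∃ Z0, Z0 = (Zs K R s).filter fun z => z ∉ A ∧ Q z := ⟨_, rfl⟩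
  have hm0 : ∀ z, z ∈ Z0 ↔ z ∈ Zs K R s ∧ z ∉ A ∧ Q z := fun z => by
    rw [hZ0, Finset.mem_filter]
  have hq : ∀ z, ∃ v, z ∈ Z0 → (m ≤ v ∧ v ≤ R1.hi z ∧
      (∀ q, m ≤ q → Pool.Agent.OCN.ua K R1 q ≤ R1.U K z → v ≤ q) ∧
      Pool.Agent.OCN.ua K R1 v ≤ R1.U K z) := by
    intro z
    by_cases hz : z ∈ Z0
    · obtain ⟨v, ⟨h1, h2⟩, h3⟩ := Int.exists_least_of_bdd
        (P := fun v => m ≤ v ∧ Pool.Agent.OCN.ua K R1 v ≤ R1.U K z) ⟨m, fun q hq => hq.1⟩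
        ⟨R1.hi z, hge1 z ((hm0 z).1 hz).1, by rw [U_eq_ua]⟩
      exact ⟨v, fun _ => ⟨h1, h3 _ ⟨hge1 z ((hm0 z).1 hz).1, by rw [U_eq_ua]⟩,
        fun q hq h4 => h3 q ⟨hq, h4⟩, h2⟩⟩
    · exact ⟨0, fun h => absurd h hz⟩
  choose q hq using hq
  have hlo1 : ∀ z ∈ Z0, R1.lo z ≤ q z := fun z hz => by
    have := (hq z hz).1
    have := (mem_Zs.1 ((hm0 z).1 hz).1).2.1
    have := g4.lo z
    omega
  obtain ⟨R2, hR2⟩ : ∃ R2, R2 = R1.lowerF Z0 q hlo1 := ⟨_, rfl⟩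
  have hlo2 : ∀ w, R2.lo w = R1.lo w := fun w => by rw [hR2]; rfl
  have hhi2 : ∀ w, w ∉ Z0 → R2.hi w = R1.hi w := fun w hw => by
    rw [hR2]
    unfold Rep.lowerF
    simp only
    rw [if_neg hw]
  have hhi2' : ∀ w ∈ Z0, R2.hi w = q w := fun w hw => by
    rw [hR2]
    unfold Rep.lowerF
    simp only
    rw [if_pos hw]
  have hua2 : ∀ p, Pool.Agent.OCN.ua K R2 p = Pool.Agent.OCN.ua K R1 p := by
    intro p
    unfold Pool.Agent.OCN.ua
    congr 1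
    refine Finset.filter_congr fun b _ => ?_
    rw [hlo2]
  have hU2 : ∀ w, R2.U K w = R1.U K w := by
    intro w
    by_cases hw : w ∈ Z0
    · obtain ⟨h1, h2, h3, h4⟩ := hq w hw
      rw [U_eq_ua, hhi2' w hw, hua2]
      refine le_antisymm h4 ?_
      rw [U_eq_ua]
      exact ua_anti K R1 h2
    · rw [U_eq_ua, U_eq_ua, hhi2 w hw, hua2]
  have hle2 : ∀ w, R2.hi w ≤ R1.hi w := by
    intro w
    by_cases hw : w ∈ Z0
    · rw [hhi2' w hw]
      exact (hq w hw).2.1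
    · rw [hhi2 w hw]
  have hrel : ∀ a ∈ K, ∀ b ∈ K, (R2.rel a b ↔ R1.rel a b) := by
    intro a ha b hb
    unfold Rep.rel
    rw [hlo2]
    constructor
    · intro h1
      by_contra h2
      -- `b` starts between
      have h3 : Pool.Agent.OCN.ua K R1 (R1.hi a) < Pool.Agent.OCN.ua K R1 (R2.hi a) :=
        ua_lt hb h1 (by omega)
      have h4 := hU2 a
      rw [U_eq_ua, U_eq_ua, hua2] at h4
      omega
    · intro h1
      have := hle2 a
      omega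
  refine ⟨r1, R2, ⟨g1.so, g1.iso, fun a ha b hb => (g1.eq a ha b hb).trans (hrel a ha b hb).symm⟩,
    g2, g3, ⟨fun w => by rw [hlo2, g4.lo], fun w h1 h2 => ?_, fun w h1 => ?_, fun z hz => ?_,
    fun w => (hle2 w).trans (g4.le' w), fun a ha => by rw [hU2, g4.up a ha],
    fun w hw => by rw [hU2, g4.up' hw], fun z hz h1 p hp h2 => ?_⟩⟩
  · rw [hhi2 w (fun h3 => h2 ((hm0 w).1 h3).2.2), g4.nA w h1]
  · rw [hhi2 w (fun h3 => h1 ((hm0 w).1 h3).1), g4.nA w (fun h3 => h1 (hAZ h3))]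
  · by_cases hw : z ∈ Z0
    · rw [hhi2' z hw]
      exact (hq z hw).1
    · rw [hhi2 z hw]
      exact hge1 z hz
  · by_cases hzA : z ∈ A
    · refine (hle2 z).trans (g4.mn z hzA p hp ?_)
      rw [hU2, g4.up z hzA] at h2
      exact h2
    · have hw : z ∈ Z0 := (hm0 z).2 ⟨hz, hzA, h1.resolve_left hzA⟩
      rw [hhi2' z hw]
      refine (hq z hw).2.2.1 p hp ?_
      rw [hU2] at h2
      rw [g4.ua]
      exact h2

omit [Fintype V] in
/-- the undecided elements of the class `Sg` end after `m` -/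
theorem Sg.hz (h : Sg B K R s m W d δ) {z : V} (hz : z ∈ Zs K R s) : m ≤ R.hi z := by
  obtain ⟨h1, h2, h3⟩ := mem_Zs.1 hz
  have := h.sep z h1
  have := h.sm
  omega

/-- the payment -/
theorem TG1.pay {e : ℕ} (h1 : Sg B K R s m W d δ) (h2 : Fd B K R.dual (1 - s) W)
    (hr : Loc r K R) (he : e ≤ (Zs K R s).card)
    (hm : 2 * (∑ z ∈ Zs K R s, (W - δ z) + e) ≤ ((Zs K R s).card + 1) * (Zs K R s).card)
    (h0 : e = 0 → ∀ w ∈ Zs K R s, W ≤ δ w + 1) :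
    ∃ (r' : V → V → Prop) (R' : Rep V) (δ' : V → ℕ), Loc r' K R' ∧ (∀ a b, r a b → r' a b) ∧
      newP r r' + e ≤ (Zs K R s).card ∧ TG1 B K R' s m W d δ' := by
  classical
  obtain ⟨A, hA1, hA2, hA3, hA4⟩ := mass_pay rfl he h1.ba hm h0
  obtain ⟨A', hA'⟩ : ∃ A', A' = A.filter fun a => δ a = R.U K a := ⟨_, rfl⟩
  have hmA : ∀ a, a ∈ A' ↔ a ∈ A ∧ δ a = R.U K a := fun a => by rw [hA', Finset.mem_filter]
  obtain ⟨r', R', g1, g2, g3, g4⟩ := op_lowN hr h1.ir h1.sm (fun z hz => h1.hz hz) A'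
    (fun a ha => hA1 ((hmA a).1 ha).1)
    (fun a ha => by
      obtain ⟨h3, h4⟩ := (hmA a).1 ha
      have := hA3 a h3
      have := h1.ch
      omega) (fun _ => False)
  have hZ := g4.zs h1.sm
  have hcA : A'.card ≤ A.card := by
    rw [hA']
    exact Finset.card_filter_le _ _
  obtain ⟨δ', hδ⟩ : ∃ δ' : V → ℕ, δ' = fun w => if w ∈ A then δ w + 1 else δ w := ⟨_, rfl⟩
  have hδ1 : ∀ a ∈ A, δ' a = δ a + 1 := fun a ha => by
    rw [hδ]
    exact if_pos ha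
  have hδ2 : ∀ a, a ∉ A → δ' a = δ a := fun a ha => by
    rw [hδ]
    exact if_neg ha
  obtain ⟨h5, h6⟩ := hA4 δ' hδ1 (fun w _ hw => hδ2 w hw)
  have hU : ∀ z ∈ Zs K R s, δ' z ≤ R'.U K z := by
    intro z hz
    have h7 := h1.dU z hz
    have h8 := g4.U_le z
    by_cases hzA : z ∈ A
    · rw [hδ1 z hzA]
      by_cases h9 : δ z = R.U K z
      · rw [g4.up z ((hmA z).2 ⟨hzA, h9⟩)]
        omega
      · omega
    · rw [hδ2 z hzA]
      omega
  refine ⟨r', R', δ', g1, g2, by omega, ?_, ?_, ?_⟩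
  · refine h1.low g4 (fun z hz h7 => ?_) h6 hU
    by_cases hzA' : z ∈ A'
    · obtain ⟨h9, h10⟩ := (hmA z).1 hzA'
      rw [g4.up z hzA', hδ1 z h9] at h7
      omega
    · refine ⟨?_, hzA', fun h => h⟩
      rw [g4.up' z hzA'] at h7
      by_cases hzA : z ∈ A
      · rw [hδ1 z hzA] at h7
        omega
      · rw [hδ2 z hzA] at h7
        exact h7
  · exact h2.of_LS (RS.of_m h1.sm h1.sep (g4.rs fun z hz => h1.hz hz))
  · rw [hZ]
    exact h5

/-- one undecided element has been settled; the payment follows -/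
theorem TG1.settle {R0 : Rep V} {z0 : V} {r0 : V → V → Prop} {x y : V}
    (h1 : Sg B K R s m W d δ) (h2 : Fd B K R.dual (1 - s) W)
    (hM : Mass W (Zs K R0 s) δ)
    (hba : ∀ z ∈ Zs K R0 s, ∀ z' ∈ Zs K R0 s, δ z ≤ δ z' + 1) (hz0 : z0 ∈ Zs K R0 s)
    (hZ : ∀ w, w ∈ Zs K R s ↔ w ∈ Zs K R0 s ∧ w ≠ z0) (hr : Loc r K R)
    (hmono : ∀ a b, r0 a b → r a b) (hxy : r x y)
    (hc : newP r0 r + (Zs K R0 s).card ≤ B + 1 + (W - δ z0)) :
    ∃ (r' : V → V → Prop) (R' : Rep V) (δ' : V → ℕ), Loc r' K R' ∧ (∀ a b, r0 a b → r' a b) ∧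
      r' x y ∧ newP r0 r' ≤ B ∧ TG1 B K R' s m W d δ' := by
  classical
  obtain ⟨h3, h4, h5⟩ := hM.pre hba hz0 hZ (fun w _ => rfl)
  obtain ⟨r', R', δ', g1, g2, g3, g4⟩ := TG1.pay h1 h2 hr h3 h4 h5
  refine ⟨r', R', δ', g1, fun a b hab => g2 a b (hmono a b hab), g2 x y hxy, ?_, g4⟩
  have h6 := newP_trans (r := r0) (r' := r) (r'' := r')
  have h7 : (Zs K R s).card + 1 = (Zs K R0 s).card := by
    have h8 : Zs K R s = (Zs K R0 s).erase z0 := by
      ext w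
      rw [hZ, Finset.mem_erase]
      exact and_comm
    rw [h8]
    exact Finset.card_erase_add_one hz0
  omega

end Pool.Agent.OCN
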