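import Pool.Agent.Lib_helper47.OCN.TGb

/-!
# MP_aeb124_co: the class TG, an element of the left part or of the chain attacks an undecided
element (block TS2)
-/

set_option autoImplicit false

namespace Pool.Agent.OCN

variable {V : Type} {B : ℕ} {K : Finset V} {R : Rep V} {s m : ℤ} {W d : ℕ} {δ : V → ℕ}

theorem Sg.zm (h : Sg B K R s m W d δ) : Zs K R m = Zs K R s := by
  have hsm := h.sm
  ext w
  rw [mem_Zs, mem_Zs]
  constructor
  · rintro ⟨h1, h2, h3⟩
    have := h.sep w h1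
    exact ⟨h1, by omega, by omega⟩
  · rintro ⟨h1, h2, h3⟩
    have := h.sep w h1
    exact ⟨h1, by omega, by omega⟩

variable [Fintype V] {r : V → V → Prop} {x z : V}

/-- `z` starts at the gap `m` -/
theorem op_column (hsm : s ≤ m) (hr : Loc r K R) (hz : z ∈ Zs K R s) (hzm : m ≤ R.hi z) :
    ∃ (r' : V → V → Prop) (R' : Rep V), Loc r' K R' ∧ (∀ a b, r a b → r' a b) ∧
      (∀ a ∈ Ls K R m, r' a z) ∧ newP r r' + R.D K z ≤ (Ls K R m).card ∧
      (∀ w, w ≠ z → R'.lo w = R.lo w) ∧ R'.lo z = m ∧ (∀ w, R'.hi w = R.hi w) ∧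
      RS K R R' m ∧ (∀ w, w ∈ Zs K R' s ↔ w ∈ Zs K R s ∧ w ≠ z) ∧
      (∀ w, w ∈ Ts K R' m ↔ w ∈ Ts K R m ∨ w = z) := by
  classical
  obtain ⟨hzK, hz1, hz2⟩ := mem_Zs.1 hz
  obtain ⟨r', g1, g2, g3⟩ := op_raise hr z hzK m hzm (by omega)
  obtain ⟨R', hR'⟩ : ∃ R', R' = R.raise z m hzm := ⟨_, rfl⟩
  rw [← hR'] at g1
  have hlo : ∀ w, w ≠ z → R'.lo w = R.lo w := fun w hw => by
    rw [hR']
    exact if_neg hw
  have hloz : R'.lo z = m := by
    rw [hR']
    exact if_pos rfl
  have hhi : ∀ w, R'.hi w = R.hi w := fun w => by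
    rw [hR']
    rfl
  have e0 : ∀ (R : Rep V) w, R.dual.lo w = -R.hi w := fun R w => rfl
  have e1 : ∀ (R : Rep V) w, R.dual.hi w = -R.lo w := fun R w => rfl
  refine ⟨r', R', g1, g2, fun a ha => ?_, ?_, hlo, hloz, hhi, ⟨fun w hw h1 => ?_,
    fun w hw h1 => ?_, fun w hw h1 => ?_, fun w hw h1 => ?_⟩, fun w => ?_, fun w => ?_⟩
  · obtain ⟨haK, ha1⟩ := mem_Ls.1 ha
    rw [g1.eq a haK z hzK]
    unfold Rep.rel
    rw [hhi, hloz]
    exact ha1
  · rw [g3]
    unfold Rep.D Ls
    rw [← Finset.card_union_of_disjoint]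
    · refine Finset.card_le_card fun a ha => ?_
      rw [Finset.mem_union, Finset.mem_filter, Finset.mem_filter] at ha
      rw [Finset.mem_filter]
      rcases ha with ha | ha
      · exact ⟨ha.1, ha.2.2⟩
      · have := ha.2
        unfold Rep.rel at this
        exact ⟨ha.1, by omega⟩
    · rw [Finset.disjoint_left]
      intro a ha ha'
      have h2 := (Finset.mem_filter.1 ha).2
      have h3 := (Finset.mem_filter.1 ha').2
      unfold Rep.rel at h3
      omega
  · rw [e1] at h1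
    by_cases hwz : w = z
    · right
      rw [hwz, e1, hloz]
      refine ⟨mem_Zs.2 ⟨hzK, ?_, ?_⟩, by omega⟩
      · rw [e0]
        omega
      · rw [e1]
        omega
    · left
      rw [e1, e1, hlo w hwz]
  · rw [e1] at h1 ⊢
    by_cases hwz : w = z
    · rw [hwz, hloz]
      omega
    · rw [hlo w hwz]
      exact h1
  · rw [e0, e0, hhi]
  · rw [e0] at h1 ⊢
    rw [hhi]
    exact h1
  · rw [mem_Zs, mem_Zs, hhi]
    by_cases hwz : w = z
    · rw [hwz, hloz]
      constructor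
      · rintro ⟨_, h2, _⟩
        omega
      · rintro ⟨_, h2⟩
        exact absurd rfl h2
    · rw [hlo w hwz]
      exact ⟨fun h => ⟨h, hwz⟩, fun h => h.1⟩
  · rw [mem_Ts, mem_Ts]
    by_cases hwz : w = z
    · rw [hwz, hloz]
      exact ⟨fun _ => Or.inr rfl, fun _ => ⟨hzK, le_rfl⟩⟩
    · rw [hlo w hwz]
      exact ⟨fun h => Or.inl h, fun h => h.resolve_right hwz⟩

/-- the staggered side after the settlement of `z` above the chain -/
theorem Sg.attLZ (h : Sg B K R s m W d δ) (hr : Loc r K R) (hz : z ∈ Zs K R s)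
    (hx : x ∈ Ls K R m) :
    ∃ (r' : V → V → Prop) (R' : Rep V), Loc r' K R' ∧ (∀ a b, r a b → r' a b) ∧ r' x z ∧
      newP r r' + (Zs K R s).card ≤ B + 1 ∧ RS K R R' m ∧
      (∀ w, w ∈ Zs K R' s ↔ w ∈ Zs K R s ∧ w ≠ z) ∧ Sg B K R' s m W d δ := by
  classical
  have hsm := h.sm
  obtain ⟨hzK, hz1, hz2⟩ := mem_Zs.1 hz
  have hzm := h.hz hz
  obtain ⟨r', R', g1, g2, g3, g4, hlo, hloz, hhi, g5, g6, g7⟩ :=
    op_column hsm hr hz hzm
  have hcr : ∀ w p, R'.Cr w p → R.Cr w p := by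
    rintro w p ⟨h1, h2⟩
    rw [hhi] at h2
    refine ⟨?_, h2⟩
    by_cases hwz : w = z
    · rw [hwz] at h1 ⊢
      omega
    · rw [← hlo w hwz]
      exact h1
  have hua : ∀ p, m ≤ p → ua K R' p = ua K R p := by
    intro p hp
    unfold ua
    congr 1
    refine Finset.filter_congr fun b _ => ?_
    by_cases hbz : b = z
    · rw [hbz, hloz]
      constructor <;> intro <;> omega
    · rw [hlo b hbz]
  have hrel : ∀ a b, R.rel a b → R'.rel a b := by
    intro a b hab
    unfold Rep.rel at hab ⊢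
    rw [hhi]
    by_cases hbz : b = z
    · rw [hbz] at hab ⊢
      omega
    · rw [hlo b hbz]
      exact hab
  have hTT : Ts K R m ⊆ Ts K R' m := fun w hw => (g7 w).2 (Or.inl hw)
  have hU : ∀ w, m ≤ R.hi w → R'.U K w = R.U K w := fun w hw => by
    rw [U_eq_ua, U_eq_ua, hhi, hua _ hw]
  have hzw : ∀ {w}, w ∈ Zs K R' s → w ∈ Zs K R s ∧ w ≠ z := fun hw => (g6 _).1 hw
  refine ⟨r', R', g1, g2, g3 x hx, ?_, g5, g6, hsm, ?_, ?_, ?_, ?_, ?_, ?_, ?_, ?_, ?_⟩
  · have h1 := card_LTZ K R m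
    rw [h.zm] at h1
    have h2 := h.gN
    have h3 := h.hd z hz
    omega
  · intro w hw
    rw [hhi]
    by_cases hwz : w = z
    · rw [hwz, hloz]
      omega
    · rw [hlo w hwz]
      exact h.sep w hw
  · intro a ha b hb hab h1 h2 h3 h4
    have key : ∀ w, R'.hi w < m → s ≤ R'.lo w → s ≤ R.lo w ∧ R.hi w < m := by
      intro w h5 h6
      rw [hhi] at h5
      have hwz : w ≠ z := by
        rintro rfl
        omega
      rw [hlo w hwz] at h6
      exact ⟨h6, h5⟩
    obtain ⟨e1, e2⟩ := key a h2 h1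
    obtain ⟨e3, e4⟩ := key b h4 h3
    rcases h.cn a ha b hb hab e1 e2 e3 e4 with h5 | h5
    · exact Or.inl (hrel _ _ h5)
    · exact Or.inr (hrel _ _ h5)
  · have h1 := Finset.card_le_card hTT
    have h2 := h.gN
    omega
  · intro p hp w hw hwp t ht htp htw
    obtain ⟨h1, h2⟩ := hzw hw
    have h3 := h.sr p hp w h1 (hcr w p hwp) t ht (hcr t p htp) htw
    have h4 : R'.U K t = R.U K t := hU t (by have := (hcr t p htp).2; omega)
    have h5 : R.N (Ts K R m) p ≤ R'.N (Ts K R' m) p := by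
      unfold Rep.N
      refine Finset.card_le_card fun a ha => ?_
      rw [Finset.mem_filter] at ha ⊢
      refine ⟨hTT ha.1, ?_⟩
      have haz : a ≠ z := by
        rintro rfl
        have := (mem_Ts.1 ha.1).2
        omega
      exact ⟨by rw [hlo a haz]; exact ha.2.1, by rw [hhi]; exact ha.2.2⟩
    have h6 : bon K R' s δ p ≤ bon K R s δ p := by
      unfold bon
      refine Finset.card_le_card fun a ha => ?_
      rw [Finset.mem_filter] at ha ⊢
      obtain ⟨h7, h8⟩ := hzw ha.1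
      rw [hU a (h.hz h7), hhi] at ha
      exact ⟨h7, ha.2⟩
    omega
  · intro a ha b hb h1 h2
    have key : ∀ w, m < R'.lo w → R'.lo w = R.lo w := by
      intro w h5
      refine hlo w ?_
      rintro rfl
      omega
    have e1 := key a h1
    have e2 := key b (by omega)
    exact h.ir a ha b hb (by omega) (by omega)
  · intro w hw
    obtain ⟨h1, h2⟩ := hzw hw
    refine (h.hd w h1).trans ?_
    unfold Rep.D
    refine Finset.card_le_card fun a ha => ?_
    rw [Finset.mem_filter] at ha ⊢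
    exact ⟨ha.1, hrel _ _ ha.2⟩
  · rw [hua m le_rfl]
    exact h.ch
  · intro w hw w' hw'
    exact h.ba w (hzw hw).1 w' (hzw hw').1
  · intro w hw
    obtain ⟨h1, h2⟩ := hzw hw
    rw [hU w (h.hz h1)]
    exact h.dU w h1

end Pool.Agent.OCN
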