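import Pool.Agent.Lib_helper47.OCN.TGc

/-!
# MP_aeb124_co: the class TG, the cut on the staggered side
-/

set_option autoImplicit false

namespace Pool.Agent.OCN

variable {V : Type} {B : ℕ} {K : Finset V} {R R' : Rep V} {s m : ℤ} {W d : ℕ} {δ δ' : V → ℕ}
  {A : Finset V} {Q : V → Prop}

/-- the fields of `Sg` without the heights and the levels -/
structure Sk (B : ℕ) (K : Finset V) (R : Rep V) (s m : ℤ) (W d : ℕ) : Prop where
  sm : s ≤ m
  sep : ∀ w ∈ K, R.hi w < s ∨ (s ≤ R.lo w ∧ R.hi w < m) ∨ (R.lo w < s ∧ m ≤ R.hi w) ∨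
    m ≤ R.lo w
  cn : ∀ a ∈ K, ∀ b ∈ K, a ≠ b → s ≤ R.lo a → R.hi a < m → s ≤ R.lo b → R.hi b < m →
    R.rel a b ∨ R.rel b a
  gN : K.card ≤ B + (Ts K R m).card + d + 1
  ir : InjS K R m
  hd : ∀ z ∈ Zs K R s, d ≤ R.D K z
  ch : W ≤ ua K R m

theorem Sg.sk (h : Sg B K R s m W d δ) : Sk B K R s m W d :=
  ⟨h.sm, h.sep, h.cn, h.gN, h.ir, h.hd, h.ch⟩

theorem Sk.hz (h : Sk B K R s m W d) {z : V} (hz : z ∈ Zs K R s) : m ≤ R.hi z := by
  obtain ⟨h1, h2, h3⟩ := mem_Zs.1 hz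
  have := h.sep z h1
  have := h.sm
  omega

theorem Sk.sg (h : Sk B K R s m W d)
    (sr : ∀ p, m ≤ p → ∀ z ∈ Zs K R s, R.Cr z p → ∀ t ∈ K, R.Cr t p → t ≠ z →
      K.card + bon K R s δ p ≤ B + R.N (Ts K R m) p + R.U K t + d)
    (ba : ∀ z ∈ Zs K R s, ∀ z' ∈ Zs K R s, δ z ≤ δ z' + 1)
    (dU : ∀ z ∈ Zs K R s, δ z ≤ R.U K z) : Sg B K R s m W d δ :=
  ⟨h.sm, h.sep, h.cn, h.gN, sr, h.ir, h.hd, h.ch, ba, dU⟩

theorem D_mono' {w : V} (hw : ∀ a ∈ K, R.rel a w → R'.rel a w) : R.D K w ≤ R'.D K w := by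
  classical
  unfold Rep.D
  refine Finset.card_le_card fun a ha => ?_
  rw [Finset.mem_filter] at ha ⊢
  exact ⟨ha.1, hw a ha.1 ha.2⟩

theorem Sk.low (h : Sk B K R s m W d) (hl : LowN K R R' s m A Q) : Sk B K R' s m W d := by
  classical
  have hsm := h.sm
  have hZ := hl.zs hsm
  have hnz : ∀ w, w ∉ Zs K R s → R'.lo w = R.lo w ∧ R'.hi w = R.hi w := fun w hw =>
    ⟨hl.lo w, hl.nZ w hw⟩
  have hnz' : ∀ w ∈ K, s ≤ R.lo w → w ∉ Zs K R s := fun w _ h1 h2 => by
    have := (mem_Zs.1 h2).2.1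
    omega
  refine ⟨hsm, ?_, ?_, ?_, h.ir.congr hl.lo, ?_, ?_⟩
  · intro w hw
    have h0 := R'.le w
    have h1 := R.le w
    by_cases h2 : w ∈ Zs K R s
    · right
      right
      left
      have := hl.lo w
      have := (mem_Zs.1 h2).2.1
      have := hl.ge w h2
      omega
    · obtain ⟨h3, h4⟩ := hnz w h2
      have := h.sep w hw
      omega
  · intro a ha b hb hab h1 h2 h3 h4
    rw [hl.lo] at h1 h3
    obtain ⟨_, e2⟩ := hnz a (hnz' a ha h1)
    obtain ⟨_, e4⟩ := hnz b (hnz' b hb h3)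
    rcases h.cn a ha b hb hab h1 (by omega) h3 (by omega) with h5 | h5
    · exact Or.inl (hl.rel h5)
    · exact Or.inr (hl.rel h5)
  · rw [hl.ts]
    exact h.gN
  · rw [hZ]
    intro z hz
    exact (h.hd z hz).trans (D_mono' fun a _ ha => hl.rel ha)
  · rw [hl.ua]
    exact h.ch

section cut

variable {p : ℤ} {x y : V} (hxy : x ≠ y) (hcx : R.Cr x p) (hcy : R.Cr y p)

open scoped Classical in
/-- the coordinates after a cut -/
theorem cut_coord (w : V) :
    (R.cut p x y hxy hcx hcy).lo w = (if w = y then p + 1 else if p < R.lo w then R.lo w + 1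
      else R.lo w) ∧
    (R.cut p x y hxy hcx hcy).hi w = (if w = x then p else if p ≤ R.hi w then R.hi w + 1
      else R.hi w) := by
  exact ⟨rfl, rfl⟩

theorem RS_cut (hp : m ≤ p) : RS K R (R.cut p x y hxy hcx hcy) m := by
  classical
  have e0 : ∀ (R : Rep V) w, R.dual.lo w = -R.hi w := fun R w => rfl
  have e1 : ∀ (R : Rep V) w, R.dual.hi w = -R.lo w := fun R w => rfl
  obtain ⟨hx1, hx2⟩ := id hcx
  obtain ⟨hy1, hy2⟩ := id hcy
  refine ⟨fun w hw h1 => ?_, fun w hw h1 => ?_, fun w hw h1 => ?_, fun w hw h1 => ?_⟩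
  all_goals
    obtain ⟨c1, c2⟩ := cut_coord (R := R) hxy hcx hcy w
    have hlew := R.le w
  · rw [e1] at h1
    rw [e1, e1, mem_Zs, e0, e1]
    by_cases hwy : w = y
    · rw [if_pos hwy] at c1
      right
      subst hwy
      exact ⟨⟨hw, by omega, by omega⟩, by omega⟩
    · rw [if_neg hwy, if_neg (by omega)] at c1
      left
      omega
  · rw [e1] at h1 ⊢
    split_ifs at c1 <;> omega
  · rw [e0] at h1
    rw [e0, e0]
    by_cases hwx : w = x
    · subst hwx
      omega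
    · rw [if_neg hwx, if_neg (by omega)] at c2
      omega
  · rw [e0] at h1 ⊢
    split_ifs at c2 <;> omega

theorem Sk.cut (h : Sk B K R s m W d) (hp : m ≤ p) (hyK : y ∈ K) :
    Sk B K (R.cut p x y hxy hcx hcy) s m W d := by
  classical
  obtain ⟨hx1, hx2⟩ := id hcx
  obtain ⟨hy1, hy2⟩ := id hcy
  have hsm := h.sm
  have hrel : ∀ a b, R.rel a b → (R.cut p x y hxy hcx hcy).rel a b := fun a b hab =>
    (R.rel_cut p x y hxy hcx hcy a b).2 (Or.inl hab)
  refine ⟨hsm, fun w hw => ?_, fun a ha b hb hab h1 h2 h3 h4 => ?_, ?_,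
    h.ir.cut K R m p x y hxy hcx hcy hp, fun z hz => ?_, ?_⟩
  · obtain ⟨c1, c2⟩ := cut_coord (R := R) hxy hcx hcy w
    have h5 := h.sep w hw
    have hlew := R.le w
    by_cases hwx : w = x
    · subst hwx
      rw [if_neg hxy, if_neg (by omega)] at c1
      rw [if_pos rfl] at c2
      omega
    · by_cases hwy : w = y
      · subst hwy
        rw [if_pos rfl] at c1
        omega
      · rw [if_neg hwy] at c1
        rw [if_neg hwx] at c2
        split_ifs at c1 c2 <;> omega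
  · have key : ∀ w, (R.cut p x y hxy hcx hcy).hi w < m → s ≤ (R.cut p x y hxy hcx hcy).lo w →
        s ≤ R.lo w ∧ R.hi w < m := by
      intro w h5 h6
      obtain ⟨c1, c2⟩ := cut_coord (R := R) hxy hcx hcy w
      have hlew := R.le w
      have hlew' := (R.cut p x y hxy hcx hcy).le w
      split_ifs at c1 c2 <;> omega
    obtain ⟨e1, e2⟩ := key a h2 h1
    obtain ⟨e3, e4⟩ := key b h4 h3
    rcases h.cn a ha b hb hab e1 e2 e3 e4 with h5 | h5
    · exact Or.inl (hrel _ _ h5)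
    · exact Or.inr (hrel _ _ h5)
  · rw [Ts_cutR K R m p x y hxy hcx hcy hp hyK]
    have := Finset.card_le_card (Finset.subset_insert y (Ts K R m))
    have := h.gN
    omega
  · rw [Zs_cutR K R s p x y hxy hcx hcy (by omega), Finset.mem_erase] at hz
    exact (h.hd z hz.2).trans (D_mono' fun a _ ha => hrel a z ha)
  · rw [ua_cut_le K R p x y hxy hcx hcy hyK m hp]
    have := h.ch
    omega

/-- the gaps crossed after a cut -/
theorem Cr_cut_iff {w : V} (hwx : w ≠ x) (hwy : w ≠ y) (q : ℤ) :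
    (R.cut p x y hxy hcx hcy).Cr w q ↔ (q ≤ p ∧ R.Cr w q) ∨ (p < q ∧ R.Cr w (q - 1)) := by
  obtain ⟨c1, c2⟩ := cut_coord (R := R) hxy hcx hcy w
  rw [if_neg hwy] at c1
  rw [if_neg hwx] at c2
  have hlew := R.le w
  unfold Rep.Cr
  split_ifs at c1 c2 <;> constructor <;> intro h <;> omega

theorem Cr_cut_x (q : ℤ) : (R.cut p x y hxy hcx hcy).Cr x q ↔ q ≤ p ∧ R.Cr x q := by
  obtain ⟨c1, c2⟩ := cut_coord (R := R) hxy hcx hcy x
  obtain ⟨hx1, hx2⟩ := id hcx
  rw [if_neg hxy, if_neg (by omega)] at c1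
  rw [if_pos rfl] at c2
  unfold Rep.Cr
  constructor <;> intro h <;> omega

theorem Cr_cut_y (q : ℤ) : (R.cut p x y hxy hcx hcy).Cr y q ↔ p < q ∧ R.Cr y (q - 1) := by
  obtain ⟨c1, c2⟩ := cut_coord (R := R) hxy hcx hcy y
  obtain ⟨hy1, hy2⟩ := id hcy
  rw [if_pos rfl] at c1
  rw [if_neg (fun h => hxy h.symm), if_pos hy2] at c2
  unfold Rep.Cr
  constructor <;> intro h <;> omega

/-- the heights below the cut, `y` is not in the right part -/
theorem N_cut_le (hp : m ≤ p) (hyK : y ∈ K) (hy : R.lo y < m) {q : ℤ} (hq : q ≤ p) :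
    R.N (Ts K R m) q ≤ (R.cut p x y hxy hcx hcy).N (Ts K (R.cut p x y hxy hcx hcy) m) q := by
  classical
  rw [Ts_cutR K R m p x y hxy hcx hcy hp hyK]
  unfold Rep.N
  refine Finset.card_le_card fun w hw => ?_
  rw [Finset.mem_filter] at hw ⊢
  have hwy : w ≠ y := by
    rintro rfl
    have := (mem_Ts.1 hw.1).2
    omega
  refine ⟨Finset.mem_insert_of_mem hw.1, ?_⟩
  by_cases hwx : w = x
  · subst hwx
    exact (Cr_cut_x hxy hcx hcy q).2 ⟨hq, hw.2⟩
  · exact (Cr_cut_iff hxy hcx hcy hwx hwy q).2 (Or.inl ⟨hq, hw.2⟩)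

/-- the heights above the cut -/
theorem N_cut_gt (hp : m ≤ p) (hyK : y ∈ K) (hy : R.lo y < m) {q : ℤ} (hq : p < q) :
    R.N (Ts K R m) (q - 1) + (if q - 1 ≤ R.hi y then 1 else 0) ≤
      (R.cut p x y hxy hcx hcy).N (Ts K (R.cut p x y hxy hcx hcy) m) q +
        (if m ≤ R.lo x ∧ q - 1 ≤ R.hi x then 1 else 0) := by
  classical
  rw [Ts_cutR K R m p x y hxy hcx hcy hp hyK]
  have hyT : y ∉ Ts K R m := fun h => by
    have := (mem_Ts.1 h).2
    omega
  have h1 : ((Ts K R m).filter fun w => R.Cr w (q - 1)).erase x ⊆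
      ((Ts K R m).filter fun w => (R.cut p x y hxy hcx hcy).Cr w q) := by
    intro w hw
    rw [Finset.mem_erase, Finset.mem_filter] at hw
    rw [Finset.mem_filter]
    have hwy : w ≠ y := by
      rintro rfl
      exact hyT hw.2.1
    exact ⟨hw.2.1, (Cr_cut_iff hxy hcx hcy hw.1 hwy q).2 (Or.inr ⟨hq, hw.2.2⟩)⟩
  have h2 := Finset.card_le_card h1
  have h3 : ((Ts K R m).filter fun w => (R.cut p x y hxy hcx hcy).Cr w q).card +
      (if q - 1 ≤ R.hi y then 1 else 0) ≤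
      ((insert y (Ts K R m)).filter fun w => (R.cut p x y hxy hcx hcy).Cr w q).card := by
    by_cases h4 : q - 1 ≤ R.hi y
    · rw [if_pos h4, Finset.filter_insert, if_pos ((Cr_cut_y hxy hcx hcy q).2
        ⟨hq, by have := hcy.1; omega, h4⟩), Finset.card_insert_of_notMem]
      exact fun h => hyT (Finset.mem_filter.1 h).1
    · rw [if_neg h4, add_zero]
      exact Finset.card_le_card (Finset.filter_subset_filter _ (Finset.subset_insert _ _))
  have h5 : ((Ts K R m).filter fun w => R.Cr w (q - 1)).card ≤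
      (((Ts K R m).filter fun w => R.Cr w (q - 1)).erase x).card +
        (if m ≤ R.lo x ∧ q - 1 ≤ R.hi x then 1 else 0) := by
    by_cases h6 : x ∈ (Ts K R m).filter fun w => R.Cr w (q - 1)
    · rw [Finset.card_erase_of_mem h6]
      obtain ⟨h7, h8⟩ := Finset.mem_filter.1 h6
      rw [if_pos ⟨(mem_Ts.1 h7).2, h8.2⟩]
      omega
    · rw [Finset.erase_eq_of_notMem h6]
      omega
  unfold Rep.N
  omega

/-- the heights after a cut, both elements are in the right part -/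
theorem N_cut_T (hp : m ≤ p) (hyK : y ∈ K) (hy : m ≤ R.lo y) (q : ℤ) :
    R.N (Ts K R m) (if q ≤ p then q else q - 1) ≤
      (R.cut p x y hxy hcx hcy).N (Ts K (R.cut p x y hxy hcx hcy) m) q +
        (if (q ≤ p ∧ R.lo y ≤ q) ∨ p < q then 1 else 0) := by
  classical
  rw [Ts_cutR K R m p x y hxy hcx hcy hp hyK, Finset.insert_eq_of_mem (mem_Ts.2 ⟨hyK, hy⟩)]
  unfold Rep.N
  by_cases hq : q ≤ p
  · rw [if_pos hq]
    have h1 : ((Ts K R m).filter fun w => R.Cr w q).erase y ⊆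
        ((Ts K R m).filter fun w => (R.cut p x y hxy hcx hcy).Cr w q) := by
      intro w hw
      rw [Finset.mem_erase, Finset.mem_filter] at hw
      rw [Finset.mem_filter]
      refine ⟨hw.2.1, ?_⟩
      by_cases hwx : w = x
      · subst hwx
        exact (Cr_cut_x hxy hcx hcy q).2 ⟨hq, hw.2.2⟩
      · exact (Cr_cut_iff hxy hcx hcy hwx hw.1 q).2 (Or.inl ⟨hq, hw.2.2⟩)
    have h2 := Finset.card_le_card h1
    by_cases h6 : y ∈ (Ts K R m).filter fun w => R.Cr w q
    · rw [Finset.card_erase_of_mem h6] at h2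
      rw [if_pos (Or.inl ⟨hq, (Finset.mem_filter.1 h6).2.1⟩)]
      omega
    · rw [Finset.erase_eq_of_notMem h6] at h2
      omega
  · rw [if_neg hq, if_pos (Or.inr (by omega))]
    have h1 : ((Ts K R m).filter fun w => R.Cr w (q - 1)).erase x ⊆
        ((Ts K R m).filter fun w => (R.cut p x y hxy hcx hcy).Cr w q) := by
      intro w hw
      rw [Finset.mem_erase, Finset.mem_filter] at hw
      rw [Finset.mem_filter]
      refine ⟨hw.2.1, ?_⟩
      by_cases hwy : w = y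
      · subst hwy
        exact (Cr_cut_y hxy hcx hcy q).2 ⟨by omega, hw.2.2⟩
      · exact (Cr_cut_iff hxy hcx hcy hw.1 hwy q).2 (Or.inr ⟨by omega, hw.2.2⟩)
    have h2 := Finset.card_le_card h1
    have h3 := Finset.pred_card_le_card_erase (s := (Ts K R m).filter
      fun w => R.Cr w (q - 1)) (a := x)
    omega

end cut

end Pool.Agent.OCN
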