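import Pool.Agent.Lib_helper47.OCN.TGd

/-!
# MP_aeb124_co: the class TG, attack on an undecided element at the staggered side
-/

set_option autoImplicit false

namespace Pool.Agent.OCN

variable {V : Type} [Fintype V] {B : ℕ} {K : Finset V} {R : Rep V} {s m : ℤ} {W d : ℕ}
  {δ : V → ℕ} {r : V → V → Prop} {x y : V}

/-- attack on an undecided element at the staggered side -/
theorem TG1.attTZ (h : TG1 B K R s m W d δ) (hr : Loc r K R) (hxy : x ≠ y) (hxK : x ∈ K)
    (hxm : m ≤ R.hi x) (hy : y ∈ Zs K R s) (h1 : ¬ R.rel y x) :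
    ∃ (r' : V → V → Prop) (R' : Rep V) (δ' : V → ℕ), Loc r' K R' ∧ (∀ a b, r a b → r' a b) ∧
      r' x y ∧ newP r r' ≤ B ∧ TG1 B K R' s m W d δ' := by
  classical
  obtain ⟨h, hF, hM⟩ := h
  have hsm := h.sm
  obtain ⟨hyK, hy1, hy2⟩ := mem_Zs.1 hy
  have hym := h.hz hy
  have hlex := R.le x
  obtain ⟨p, hp⟩ : ∃ p, p = min (R.hi x) (R.hi y) := ⟨_, rfl⟩
  have hpx : p ≤ R.hi x := by rw [hp]; exact min_le_left _ _
  have hpy : p ≤ R.hi y := by rw [hp]; exact min_le_right _ _
  have hpm : m ≤ p := by rw [hp]; exact le_min hxm hym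
  have hps : s ≤ p := hsm.trans hpm
  have hp3 : p = R.hi x ∨ p = R.hi y := by
    rcases min_choice (R.hi x) (R.hi y) with h2 | h2
    · exact Or.inl (hp.trans h2)
    · exact Or.inr (hp.trans h2)
  have hcx : R.Cr x p := by
    refine ⟨?_, hpx⟩
    unfold Rep.rel at h1
    rcases hp3 with h2 | h2
    · omega
    · omega
  have hcy : R.Cr y p := ⟨by omega, hpy⟩
  have hxs := h.sep x hxK
  obtain ⟨r1, g1, g2, g3, g4⟩ := op_cut hr p x y hxy hxK hyK hcx hcy
  have hcrw := fun (w : V) (hwx : w ≠ x) (hwy : w ≠ y) q =>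
    Cr_cut_iff (R := R) hxy hcx hcy hwx hwy q
  have hcrx := Cr_cut_x (R := R) hxy hcx hcy
  have hcry := Cr_cut_y (R := R) hxy hcx hcy
  have hN1 := fun (q : ℤ) (hq : q ≤ p) =>
    N_cut_le (K := K) hxy hcx hcy hpm hyK (by omega : R.lo y < m) hq
  have hN2 := fun (q : ℤ) (hq : p < q) =>
    N_cut_gt (K := K) hxy hcx hcy hpm hyK (by omega : R.lo y < m) hq
  have hsk1 := h.sk.cut hxy hcx hcy hpm hyK
  have hrs1 := RS_cut (K := K) hxy hcx hcy hpm
  obtain ⟨R1, hR1⟩ : ∃ R1, R1 = R.cut p x y hxy hcx hcy := ⟨_, rfl⟩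
  rw [← hR1] at g1 hcrw hcrx hcry hN1 hN2 hsk1 hrs1
  have hZ1 : ∀ w, w ∈ Zs K R1 s ↔ w ∈ Zs K R s ∧ w ≠ y := fun w => by
    rw [hR1, Zs_cutR K R s p x y hxy hcx hcy hps, Finset.mem_erase]
    exact and_comm
  have hlo1y : R1.lo y = p + 1 := by
    rw [hR1]
    exact lo_cut_y R p x y hxy hcx hcy
  have hhi1x : R1.hi x = p := by
    rw [hR1]
    exact hi_cut_x R p x y hxy hcx hcy
  have hhi1 : ∀ a, a ≠ x → p ≤ R.hi a → R1.hi a = R.hi a + 1 := fun a ha ha' => by
    rw [hR1]
    exact hi_cut_ge R p x y hxy hcx hcy a ha ha'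
  have hhi1' : ∀ a, R.hi a < p → R1.hi a = R.hi a := fun a ha => by
    rw [hR1]
    exact hi_cut_lt R p x y hxy hcx hcy a ha
  have hU1 : ∀ a, a ≠ x → p ≤ R.hi a → R1.U K a = R.U K a := fun a ha ha' => by
    rw [hR1]
    exact U_cut_ge K R p x y hxy hcx hcy a ha ha'
  have hU1x : R1.U K x = ua K R p + 1 := by
    rw [hR1]
    exact U_cut_x K R p x y hxy hcx hcy hyK
  have hU1' : ∀ w ∈ Zs K R s, R.hi w < p → R1.U K w = R.U K w + 1 := fun w hw hwp => by
    rw [hR1, U_cut_lt K R p x y hxy hcx hcy hyK w hwp, if_pos]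
    have := (mem_Zs.1 hw).2.2
    omega
  have hUxp : R.U K x ≤ ua K R p := by
    rw [U_eq_ua]
    exact ua_anti K R hpx
  obtain ⟨A, hA⟩ : ∃ A, A = (Zs K R s).filter fun a => a ≠ y ∧ a ≠ x ∧ p ≤ R.hi a ∧
      δ a = R.U K a := ⟨_, rfl⟩
  have hmA : ∀ a, a ∈ A ↔ a ∈ Zs K R s ∧ a ≠ y ∧ a ≠ x ∧ p ≤ R.hi a ∧ δ a = R.U K a :=
    fun a => by rw [hA, Finset.mem_filter]
  obtain ⟨Q, hQ⟩ : ∃ Q : V → Prop, Q = fun w => w ≠ x ∧ p ≤ R.hi w ∧ δ w + 1 = R.U K w :=
    ⟨_, rfl⟩
  have hmQ : ∀ w, Q w ↔ w ≠ x ∧ p ≤ R.hi w ∧ δ w + 1 = R.U K w := fun w => by rw [hQ]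
  obtain ⟨r2, R2, k1, k2, k3, k4⟩ := op_lowN g1 hsk1.ir hsm (fun z hz => hsk1.hz hz) A
    (fun a ha => (hZ1 a).2 ⟨((hmA a).1 ha).1, ((hmA a).1 ha).2.1⟩)
    (fun a ha => by
      obtain ⟨ha1, ha2, ha3, ha4, ha5⟩ := (hmA a).1 ha
      rw [U_eq_ua]
      exact ua_lt hyK (by rw [hlo1y]; omega) (by rw [hlo1y, hhi1 a ha3 ha4]; omega)) Q
  have hZ2 : ∀ w, w ∈ Zs K R2 s ↔ w ∈ Zs K R s ∧ w ≠ y := fun w => by
    rw [k4.zs hsm]
    exact hZ1 w
  have hZ2' : Zs K R2 s = (Zs K R s).erase y := by
    ext w
    rw [hZ2, Finset.mem_erase]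
    exact and_comm
  have hU2 : ∀ w ∈ Zs K R s, w ≠ y → δ w + 1 ≤ R2.U K w := by
    intro w hw hwy
    have h2 := h.dU w hw
    have h3 := k4.U_le w
    by_cases hwx : w = x
    · rw [hwx] at h2 h3 ⊢
      omega
    by_cases hwp : p ≤ R.hi w
    · by_cases h4 : δ w = R.U K w
      · rw [k4.up w ((hmA w).2 ⟨hw, hwy, hwx, hwp, h4⟩), hU1 w hwx hwp]
        omega
      · have := hU1 w hwx hwp
        omega
    · have := hU1' w hw (by omega)
      omega
  -- an element which is not tight
  have hnt : ∀ w ∈ Zs K R s, w ≠ y → w ≠ x → δ w + 1 < R2.U K w →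
      δ w < R.U K w ∧ R2.hi w = R1.hi w := by
    intro w hw hwy hwx h2
    by_cases hwp : p ≤ R.hi w
    · by_cases h4 : δ w = R.U K w
      · rw [k4.up w ((hmA w).2 ⟨hw, hwy, hwx, hwp, h4⟩), hU1 w hwx hwp] at h2
        omega
      · have h5 : w ∉ A := fun h6 => h4 ((hmA w).1 h6).2.2.2.2
        rw [k4.up' w h5, hU1 w hwx hwp] at h2
        refine ⟨by omega, k4.nA w h5 fun h6 => ?_⟩
        have := ((hmQ w).1 h6).2.2
        omega
    · have h5 : w ∉ A := fun h6 => hwp ((hmA w).1 h6).2.2.2.1
      rw [k4.up' w h5, hU1' w hw (by omega)] at h2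
      exact ⟨by omega, k4.nA w h5 fun h6 => hwp ((hmQ w).1 h6).2.1⟩
  have hxA : x ∉ A := fun h6 => ((hmA x).1 h6).2.2.1 rfl
  have hhi2x : R2.hi x = p := by
    rw [k4.nA x hxA fun h6 => ((hmQ x).1 h6).1 rfl, hhi1x]
  have hcr2 : ∀ w q, R2.Cr w q → R1.Cr w q := fun w q => k4.cr
  have hcr1 : ∀ w q, R1.Cr w q → (q ≤ p ∧ R.Cr w q) ∨ (p < q ∧ R.Cr w (q - 1)) := by
    intro w q h2
    by_cases hwx : w = x
    · rw [hwx] at h2 ⊢
      exact Or.inl ((hcrx q).1 h2)
    · by_cases hwy : w = y
      · rw [hwy] at h2 ⊢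
        exact Or.inr ((hcry q).1 h2)
      · exact (hcrw w hwx hwy q).1 h2
  have hUm : ∀ w ∈ K, R.U K w ≤ R2.U K w := fun w hw => by
    refine le_trans (Rep.U_mono (fun a _ b _ hab => ?_) hw) (k4.U_le w)
    rw [hR1]
    exact (R.rel_cut p x y hxy hcx hcy a b).2 (Or.inl hab)
  refine ⟨r2, R2, fun w => δ w + 1, k1, fun a b hab => k2 a b (g2 a b hab), k2 x y g3, ?_,
    ?_, ?_, ?_⟩
  · -- the cost
    have h5 := h.sr p hpm y hy hcy x hxK hcx hxy
    have h6 : R.N (Ts K R m) p + (A.card + 1) ≤ R.N K p := by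
      have hyA : y ∉ A := fun h6 => ((hmA y).1 h6).2.1 rfl
      rw [← Finset.card_insert_of_notMem hyA]
      have hsub : insert y A ⊆ Zs K R m := by
        intro a ha
        rw [h.zm]
        rcases Finset.mem_insert.1 ha with rfl | ha
        · exact hy
        · exact ((hmA a).1 ha).1
      refine N_ge_T K R m p (insert y A) hsub hpm (fun a ha => ?_)
      rcases Finset.mem_insert.1 ha with rfl | ha
      · exact hpy
      · exact ((hmA a).1 ha).2.2.2.1
    have h7 := h.hd y hy
    have h8 := newP_trans (r := r) (r' := r1) (r'' := r2)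
    omega
  · -- the staggered side
    refine (hsk1.low k4).sg (fun q hq z hz hzq t ht htq htz => ?_) (fun z hz z' hz' => ?_)
      (fun z hz => ?_)
    · obtain ⟨hz1, hzy⟩ := (hZ2 z).1 hz
      have hzK := (mem_Zs.1 hz1).1
      have hNlow := k4.N hsm q
      have hUt := hUm t ht
      rcases hcr1 z q (hcr2 z q hzq) with ⟨hqp, hz3⟩ | ⟨hqp, hz3⟩
      · -- below the cut
        have ht3 : R.Cr t q := by
          rcases hcr1 t q (hcr2 t q htq) with h2 | h2
          · exact h2.2
          · omega
        have h5 := h.sr q hq z hz1 hz3 t ht ht3 htz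
        have h6 := hN1 q hqp
        have h7 : bon K R2 s (fun w => δ w + 1) q ≤ bon K R s δ q := by
          unfold bon
          refine Finset.card_le_card fun w hw => ?_
          rw [Finset.mem_filter] at hw ⊢
          obtain ⟨hw1, hw2, hw3⟩ := hw
          obtain ⟨hw4, hwy⟩ := (hZ2 w).1 hw1
          by_cases hwx : w = x
          · rw [hwx, hhi2x] at hw3
            omega
          · obtain ⟨h8, h9⟩ := hnt w hw4 hwy hwx hw2
            refine ⟨hw4, h8, ?_⟩
            by_cases hwp : p ≤ R.hi w
            · rw [h9, hhi1 w hwx hwp] at hw3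
              omega
            · rw [h9, hhi1' w (by omega)] at hw3
              exact hw3
        omega
      · -- above the cut
        have ht3 : R.Cr t (q - 1) := by
          rcases hcr1 t q (hcr2 t q htq) with h2 | h2
          · omega
          · exact h2.2
        have hzx : z ≠ x := by
          rintro rfl
          have := hzq.2
          omega
        have h5 := h.sr (q - 1) (by omega) z hz1 hz3 t ht ht3 htz
        have h6 := hN2 q hqp
        -- the bonus
        have hsub : ((Zs K R2 s).filter fun w => δ w + 1 < R2.U K w ∧ R2.hi w < q).erase x ⊆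
            ((Zs K R s).filter fun w => δ w < R.U K w ∧ R.hi w < q - 1).erase y := by
          intro w hw
          rw [Finset.mem_erase, Finset.mem_filter] at hw ⊢
          obtain ⟨hwx, hw1, hw2, hw3⟩ := hw
          obtain ⟨hw4, hwy⟩ := (hZ2 w).1 hw1
          obtain ⟨h8, h9⟩ := hnt w hw4 hwy hwx hw2
          refine ⟨hwy, hw4, h8, ?_⟩
          by_cases hwp : p ≤ R.hi w
          · rw [h9, hhi1 w hwx hwp] at hw3
            omega
          · omega
        have h7 := Finset.card_le_card hsub
        have hb2 : bon K R2 s (fun w => δ w + 1) q ≤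
            (((Zs K R2 s).filter fun w => δ w + 1 < R2.U K w ∧ R2.hi w < q).erase x).card +
              (if x ∈ Zs K R s ∧ ¬ (δ x < R.U K x ∧ R.hi x < q - 1) then 1 else 0) ∨
            bon K R2 s (fun w => δ w + 1) q ≤ bon K R s δ (q - 1) := by
          by_cases h8 : x ∈ Zs K R s ∧ ¬ (δ x < R.U K x ∧ R.hi x < q - 1)
          · left
            rw [if_pos h8]
            have h9 := Finset.pred_card_le_card_erase (s := (Zs K R2 s).filter
              fun w => δ w + 1 < R2.U K w ∧ R2.hi w < q) (a := x)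
            have h10 : bon K R2 s (fun w => δ w + 1) q =
              ((Zs K R2 s).filter fun w => δ w + 1 < R2.U K w ∧ R2.hi w < q).card := rfl
            omega
          · rw [if_neg h8, add_zero]
            by_cases h9 : x ∈ (Zs K R2 s).filter fun w => δ w + 1 < R2.U K w ∧ R2.hi w < q
            · right
              have hxZ : x ∈ Zs K R s := ((hZ2 x).1 (Finset.mem_filter.1 h9).1).1
              have h10 : x ∈ ((Zs K R s).filter fun w => δ w < R.U K w ∧ R.hi w < q - 1) := by
                rw [Finset.mem_filter]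
                by_contra h11
                exact h8 ⟨hxZ, fun h12 => h11 ⟨hxZ, h12⟩⟩
              have h11 : ((Zs K R2 s).filter fun w => δ w + 1 < R2.U K w ∧ R2.hi w < q) ⊆
                  ((Zs K R s).filter fun w => δ w < R.U K w ∧ R.hi w < q - 1) := by
                intro w hw
                by_cases hwx : w = x
                · rw [hwx]
                  exact h10
                · exact (Finset.mem_erase.1 (hsub (Finset.mem_erase.2 ⟨hwx, hw⟩))).2
              exact Finset.card_le_card h11
            · left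
              rw [Finset.erase_eq_of_notMem h9]
              exact le_rfl
        have hb1 : (((Zs K R s).filter fun w => δ w < R.U K w ∧ R.hi w < q - 1).erase y).card +
            (if δ y < R.U K y ∧ R.hi y < q - 1 then 1 else 0) ≤ bon K R s δ (q - 1) := by
          unfold bon
          by_cases h8 : δ y < R.U K y ∧ R.hi y < q - 1
          · rw [if_pos h8]
            exact le_of_eq (Finset.card_erase_add_one (Finset.mem_filter.2 ⟨hy, h8⟩))
          · rw [if_neg h8, add_zero]
            exact Finset.card_le_card (Finset.erase_subset _ _)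
        -- a gap which is too high
        have hhigh : R.hi y < q - 1 → p = R.hi y → δ y = R.U K y → False := by
          intro h8 h9 h10
          have h11 := h.ba y hy z hz1
          have h12 : R.U K z ≤ R.U K y := by
            rw [U_eq_ua, U_eq_ua]
            refine ua_anti K R ?_
            have := hz3.2
            omega
          have h13 : ua K R1 (R.hi y + 1) = R.U K y := by
            rw [hR1, ua_cut_gt K R p x y hxy hcx hcy _ (by omega), U_eq_ua, add_sub_cancel_right]
          have hzp : p ≤ R.hi z := by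
            have := hz3.2
            omega
          have h14 : z ∈ A ∨ Q z := by
            by_cases h15 : δ z = R.U K z
            · exact Or.inl ((hmA z).2 ⟨hz1, hzy, hzx, hzp, h15⟩)
            · have := h.dU z hz1
              exact Or.inr ((hmQ z).2 ⟨hzx, hzp, by omega⟩)
          have h15 := hU2 z hz1 hzy
          have h16 := k4.mn z ((hZ1 z).2 ⟨hz1, hzy⟩) h14 (R.hi y + 1) (by omega) (by omega)
          have := hzq.2
          omega
        by_cases h8 : q - 1 ≤ R.hi y
        · -- `y` crosses the gap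
          rw [if_pos h8] at h6
          by_cases h9 : m ≤ R.lo x ∧ q - 1 ≤ R.hi x
          · rw [if_pos h9] at h6
            rcases hb2 with hb2 | hb2
            · rw [if_neg (fun h10 => by have := (mem_Zs.1 h10.1).2.1; omega)] at hb2
              omega
            · omega
          · rw [if_neg h9] at h6
            rcases hb2 with hb2 | hb2
            · have : (if x ∈ Zs K R s ∧ ¬ (δ x < R.U K x ∧ R.hi x < q - 1) then 1 else 0) ≤ 1 := by
                split_ifs <;> omega
              omega
            · omega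
        · rw [if_neg h8] at h6
          rcases hp3 with h9 | h9
          · -- `x` ends at the cut
            rw [if_neg (by omega)] at h6
            have h10 : bon K R2 s (fun w => δ w + 1) q ≤ bon K R s δ (q - 1) := by
              unfold bon
              refine Finset.card_le_card fun w hw => ?_
              by_cases hwx : w = x
              · rw [hwx, Finset.mem_filter] at hw
                obtain ⟨hw1, hw2, hw3⟩ := hw
                rw [hwx, Finset.mem_filter]
                refine ⟨((hZ2 x).1 hw1).1, ?_, by omega⟩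
                have hw4 : δ x + 1 < R2.U K x := hw2
                rw [k4.up' x hxA, hU1x, h9, ← U_eq_ua] at hw4
                omega
              · exact (Finset.mem_erase.1 (hsub (Finset.mem_erase.2 ⟨hwx, hw⟩))).2
            omega
          · by_cases h10 : δ y = R.U K y
            · exact (hhigh (by omega) h9 h10).elim
            · rw [if_pos ⟨by have := h.dU y hy; omega, by omega⟩] at hb1
              by_cases h11 : m ≤ R.lo x ∧ q - 1 ≤ R.hi x
              · rw [if_pos h11] at h6
                have h12 : ¬ (x ∈ Zs K R s ∧ ¬ (δ x < R.U K x ∧ R.hi x < q - 1)) := fun h12 => by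
                  have := (mem_Zs.1 h12.1).2.1
                  omega
                have h13 : x ∉ (Zs K R2 s).filter fun w => δ w + 1 < R2.U K w ∧ R2.hi w < q :=
                  fun h13 => by
                    have := (mem_Zs.1 ((hZ2 x).1 (Finset.mem_filter.1 h13).1).1).2.1
                    omega
                rw [Finset.erase_eq_of_notMem h13] at h7
                have h14 : bon K R2 s (fun w => δ w + 1) q =
                    ((Zs K R2 s).filter fun w => δ w + 1 < R2.U K w ∧ R2.hi w < q).card := rfl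
                omega
              · rw [if_neg h11] at h6
                rcases hb2 with hb2 | hb2
                · have : (if x ∈ Zs K R s ∧ ¬ (δ x < R.U K x ∧ R.hi x < q - 1) then 1 else 0) ≤
                    1 := by
                    split_ifs <;> omega
                  omega
                · omega
    · have := h.ba z ((hZ2 z).1 hz).1 z' ((hZ2 z').1 hz').1
      omega
    · exact hU2 z ((hZ2 z).1 hz).1 ((hZ2 z).1 hz).2
  · -- the other side
    exact (hF.of_LS (RS.of_m hsm h.sep hrs1)).of_LS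
      (RS.of_m hsm hsk1.sep (k4.rs fun z hz => hsk1.hz hz))
  · exact hM.gain h.ba hy hZ2' (fun w hw => Or.inl le_rfl)

end Pool.Agent.OCN
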