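import Pool.Agent.Lib_helper47.OCN.Lf3
import Pool.Agent.Lib_helper47.OCN.X0Def
import Pool.Agent.Lib_helper47.OCN.T1Class

/-!
# MP_aeb124_co: the class X0, the replies
-/

set_option autoImplicit false

namespace Pool.Agent.OCN

variable {V : Type}

theorem card_swap [DecidableEq V] {A C : Finset V} {a c : V} (h : A.erase a = C.erase c)
    (h1 : a ∈ A ↔ c ∈ C) : A.card = C.card := by
  by_cases ha : a ∈ A
  · have e1 := Finset.card_erase_add_one ha
    have e2 := Finset.card_erase_add_one (h1.1 ha)
    rw [h] at e1
    omega
  · have hc : c ∉ C := fun h2 => ha (h1.2 h2)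
    rw [Finset.erase_eq_of_notMem ha, Finset.erase_eq_of_notMem hc] at h
    rw [h]

section

variable {B : ℕ} {K : Finset V} {R R' : Rep V} {s0 s s0' b p : ℤ} {W e x M : ℕ}
  {r r' : V → V → Prop} {u v z : V}

/-- a reply on the left side -/
theorem X0.of_left [Fintype V] (h : X0 B K R s0 s b W (e + 1) x M)
    (hL : LRep B K R s0 s W r u v z r' R' s0' s) (hz : z ∈ Zs K R s) :
    X0 B K R' s0' s b W e x M where
  lf := hL.lf
  ge := by have := hL.ls; have := h.ge; omega
  sb := h.sb
  zb w hw := by
    obtain ⟨h1, h2⟩ := (hL.zs w).1 hw
    rw [hL.hi w h2 (mem_Zs.1 h1).2.2, h.zb w h1]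
    ring
  al w hw := by
    have := h.sb
    by_cases hwz : w = z
    · rw [hwz]
      have := hL.hz
      omega
    · by_cases hws : R.hi w < s
      · have := hL.hl w hws
        omega
      · rw [hL.hi w hwz (by omega)]
        have := h.al w hw
        omega
  ex p hp hpb := by
    have h1 := hL.N_T hz p
    have e1 : p + (s - s) = p := by ring
    rw [e1] at h1
    rw [h1]
    exact h.ex p hp hpb
  ir a ha c hc h1 h2 := by
    have e1 : ∀ w, s < R'.lo w → R'.lo w = R.lo w := by
      intro w hw
      by_cases hws : s ≤ R.lo w
      · rw [hL.lo w hws]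
        ring
      · have := hL.ll w (by omega)
        omega
    have e2 := e1 a h1
    have e3 := e1 c (by omega)
    exact h.ir a ha c hc (by omega) (by omega)
  tc := by rw [hL.ts]; exact h.tc

/-! ### an undecided element becomes the top of the chain -/

open scoped Classical in
/-- `z` is put between the left and the right part -/
noncomputable def Rep.mid (R : Rep V) (s : ℤ) (z : V) : Rep V where
  lo w := if w = z then s else if R.lo w < s then R.lo w else R.lo w + 1
  hi w := if w = z then s else if R.hi w < s then R.hi w else R.hi w + 1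
  le w := by
    have := R.le w
    split_ifs <;> omega

/-- an element of the left part or the chain attacks an undecided element -/
theorem X0.mid [Fintype V] (h : X0 B K R s0 s b W (e + 1) x M) (hr : Loc r K R)
    (hz : z ∈ Zs K R s) (hu : u ∈ Ls K R s) :
    ∃ (r' : V → V → Prop) (R' : Rep V), Loc r' K R' ∧ (∀ a b, r a b → r' a b) ∧ r' u z ∧
      newP r r' + (Zs K R s).card ≤ K.card ∧
      (Zs K R' (s + 1)).card + 1 = (Zs K R s).card ∧
      ua K R.dual (1 - s0) ≤ ua K R'.dual (1 - s0) ∧
      X0 B K R' s0 (s + 1) (b + 1) W e x M := by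
  classical
  obtain ⟨hzK, hz1, hz2⟩ := mem_Zs.1 hz
  obtain ⟨huK, hu1⟩ := mem_Ls.1 hu
  have hsb := h.sb
  have hle := h.lf.le
  obtain ⟨R', hR'⟩ : ∃ R', R' = R.mid s z := ⟨_, rfl⟩
  have elz : R'.lo z = s := by
    rw [hR']
    unfold Rep.mid
    simp only
    rw [if_true]
  have ehz : R'.hi z = s := by
    rw [hR']
    unfold Rep.mid
    simp only
    rw [if_true]
  have elo : ∀ w, w ≠ z → (R.lo w < s ∧ R'.lo w = R.lo w) ∨ (s ≤ R.lo w ∧ R'.lo w = R.lo w + 1) := by
    intro w hw
    rw [hR']
    unfold Rep.mid
    simp only
    rw [if_neg hw]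
    split_ifs <;> omega
  have ehi : ∀ w, w ≠ z → (R.hi w < s ∧ R'.hi w = R.hi w) ∨ (s ≤ R.hi w ∧ R'.hi w = R.hi w + 1) := by
    intro w hw
    rw [hR']
    unfold Rep.mid
    simp only
    rw [if_neg hw]
    split_ifs <;> omega
  have hrel : ∀ a ∈ K, ∀ c ∈ K, R.rel a c → R'.rel a c := by
    intro a _ c _ hac
    unfold Rep.rel at hac ⊢
    have h1 := R.le a
    have h2 := R.le c
    by_cases haz : a = z
    · subst haz
      have hcz : c ≠ a := by
        rintro rfl
        omega
      have := elo c hcz
      omega
    · by_cases hcz : c = z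
      · subst hcz
        have := ehi a haz
        omega
      · have := ehi a haz
        have := elo c hcz
        omega
  obtain ⟨r', g1, g2, g3⟩ := op_local hr R' hrel
  have hZm : ∀ w, w ∈ Zs K R' (s + 1) ↔ w ∈ Zs K R s ∧ w ≠ z := by
    intro w
    rw [mem_Zs, mem_Zs]
    by_cases hwz : w = z
    · subst hwz
      rw [elz, ehz]
      constructor
      · rintro ⟨_, _, h⟩
        omega
      · rintro ⟨_, h⟩
        exact absurd rfl h
    · have := elo w hwz
      have := ehi w hwz
      constructor
      · rintro ⟨h1, h2, h3⟩
        exact ⟨⟨h1, by omega, by omega⟩, hwz⟩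
      · rintro ⟨⟨h1, h2, h3⟩, _⟩
        exact ⟨h1, by omega, by omega⟩
  have hZ : Zs K R' (s + 1) = (Zs K R s).erase z := by
    ext w
    rw [hZm, Finset.mem_erase]
    exact and_comm
  have hL : Ls K R' (s + 1) = insert z (Ls K R s) := by
    ext w
    rw [Finset.mem_insert, mem_Ls, mem_Ls]
    by_cases hwz : w = z
    · subst hwz
      rw [ehz]
      exact ⟨fun _ => Or.inl rfl, fun _ => ⟨hzK, by omega⟩⟩
    · have := ehi w hwz
      constructor
      · rintro ⟨h1, h2⟩
        exact Or.inr ⟨h1, by omega⟩
      · rintro (h1 | ⟨h1, h2⟩)
        · exact absurd h1 hwz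
        · exact ⟨h1, by omega⟩
  have hT : Ts K R' (s + 1) = Ts K R s := by
    ext w
    rw [mem_Ts, mem_Ts]
    by_cases hwz : w = z
    · subst hwz
      rw [elz]
      constructor <;> rintro ⟨_, h2⟩ <;> omega
    · have := elo w hwz
      constructor
      · rintro ⟨h1, h2⟩
        exact ⟨h1, by omega⟩
      · rintro ⟨h1, h2⟩
        exact ⟨h1, by omega⟩
  have hzL : z ∉ Ls K R s := fun h1 => by
    have := (mem_Ls.1 h1).2
    omega
  have hZc := Finset.card_erase_of_mem hz
  have hZp := Finset.card_pos.2 ⟨z, hz⟩
  have hlf : Lf B K R' s0 (s + 1) W := by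
    have h5 : Lf B K R' s0 s W := by
      refine h.lf.of_right (fun w _ h1 => ?_) (fun w _ h1 => ?_) (fun w _ h1 => ?_)
        (fun w _ h1 => ?_)
      · by_cases hwz : w = z
        · subst hwz
          exact Or.inr ⟨hz, le_of_eq elz.symm⟩
        · left
          have := elo w hwz
          omega
      · by_cases hwz : w = z
        · subst hwz
          omega
        · have := elo w hwz
          omega
      · by_cases hwz : w = z
        · subst hwz
          omega
        · have := ehi w hwz
          omega
      · by_cases hwz : w = z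
        · subst hwz
          omega
        · have := ehi w hwz
          omega
    refine h5.shift (c := z) (by omega) (by omega) (by omega) (fun w _ hwz h1 => ?_)
      (fun w _ hwz h1 => ?_)
    · have := elo w hwz
      omega
    · have := ehi w hwz
      omega
  refine ⟨r', R', g1, g2, ?_, ?_, ?_, ?_, ⟨hlf, ?_, by omega, ?_, ?_, ?_, ?_, ?_⟩⟩
  · rw [g1.eq u huK z hzK]
    unfold Rep.rel
    rw [elz]
    have huz : u ≠ z := by
      rintro rfl
      omega
    have := ehi u huz
    omega
  · rw [g3]
    have h5 : Rep.newK K R R' ≤ (Ls K R s).card + (Ts K R s).card := by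
      unfold Rep.newK
      have h6 : ((K ×ˢ K).filter fun q => R'.rel q.1 q.2 ∧ ¬ R.rel q.1 q.2) ⊆
          ((Ls K R s).image fun a => (a, z)) ∪ ((Ts K R s).image fun c => (z, c)) := by
        rintro ⟨a, c⟩ hac
        rw [Finset.mem_filter, Finset.mem_product] at hac
        obtain ⟨⟨ha, hc⟩, h7, h8⟩ := hac
        rw [Finset.mem_union, Finset.mem_image, Finset.mem_image]
        unfold Rep.rel at h7 h8
        simp only at h7 h8 ha hc
        have h1 := R.le a
        have h2 := R.le c
        by_cases haz : a = z
        · subst haz
          right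
          refine ⟨c, mem_Ts.2 ⟨hc, ?_⟩, rfl⟩
          have hcz : c ≠ a := by
            rintro rfl
            omega
          have := elo c hcz
          omega
        · by_cases hcz : c = z
          · subst hcz
            left
            refine ⟨a, mem_Ls.2 ⟨ha, ?_⟩, rfl⟩
            have := ehi a haz
            omega
          · exfalso
            have := ehi a haz
            have := elo c hcz
            omega
      refine (Finset.card_le_card h6).trans ((Finset.card_union_le _ _).trans ?_)
      exact Nat.add_le_add Finset.card_image_le Finset.card_image_le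
    have h6 := card_LTZ K R s
    omega
  · rw [hZ]
    omega
  · refine ua_left_le fun w _ hw => ?_
    have hwz : w ≠ z := by
      rintro rfl
      omega
    have := ehi w hwz
    omega
  · rw [hL, Finset.card_insert_of_notMem hzL]
    have := h.ge
    omega
  · intro w hw
    obtain ⟨h1, h2⟩ := (hZm w).1 hw
    have := ehi w h2
    have := h.zb w h1
    omega
  · intro w hw
    by_cases hwz : w = z
    · subst hwz
      omega
    · have := ehi w hwz
      have := h.al w hw
      omega
  · intro q hq hqb
    rw [hT, ← h.ex (q - 1) (by omega) (by omega)]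
    unfold Rep.N
    congr 1
    refine Finset.filter_congr fun w hw => ?_
    obtain ⟨_, hw1⟩ := mem_Ts.1 hw
    have hwz : w ≠ z := by
      rintro rfl
      omega
    have := R.le w
    have := ehi w hwz
    have := elo w hwz
    unfold Rep.Cr
    constructor <;> rintro ⟨h1, h2⟩ <;> constructor <;> omega
  · intro a ha c hc h1 h2
    by_cases haz : a = z
    · subst haz
      omega
    · by_cases hcz : c = z
      · subst hcz
        omega
      · have := elo a haz
        have := elo c hcz
        exact h.ir a ha c hc (by omega) (by omega)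
  · rw [hT]
    exact h.tc

/-- the early ends do not change -/
theorem ua_left_eq {R' : Rep V} {s0 s : ℤ} (hle : s0 ≤ s)
    (h3 : ∀ w ∈ K, R.hi w < s → R'.hi w = R.hi w) (h4 : ∀ w ∈ K, s ≤ R.hi w → s ≤ R'.hi w) :
    ua K R'.dual (1 - s0) = ua K R.dual (1 - s0) := by
  classical
  unfold ua
  congr 1
  refine Finset.filter_congr fun w hw => ?_
  have e0 : R'.dual.lo w = -R'.hi w := rfl
  have e1 : R.dual.lo w = -R.hi w := rfl
  rw [e0, e1]
  by_cases h5 : R.hi w < s
  · rw [h3 w hw h5]
  · have := h4 w hw (by omega)
    constructor <;> intro <;> omega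

/-! ### attacks of the right part -/

/-- the exchange with the exact heights: `u → v` at the gap `p`, the undecided element `z` becomes
a right element which ends where `u` has ended -/
structure Exq (K : Finset V) (R R' : Rep V) (s p : ℤ) (u v z : V) : Prop where
  ps : s ≤ p
  uT : u ∈ Ts K R s
  zZ : z ∈ Zs K R s
  cu : R.Cr u p
  cv : R.Cr v p
  uv : u ≠ v
  lv : (v = z ∧ R'.lo z = p + 1) ∨ (v ≠ z ∧ v ∈ Ts K R s ∧ R'.lo z = R.lo v ∧ R'.lo v = p + 1)
  lw : ∀ w, w ≠ z → w ≠ v → (p < R.lo w ∧ R'.lo w = R.lo w + 1) ∨
    (R.lo w ≤ p ∧ R'.lo w = R.lo w)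
  hu : R'.hi u = p
  hz : R'.hi z = R.hi u + 1
  hw : ∀ w, w ≠ u → w ≠ z → (p ≤ R.hi w ∧ R'.hi w = R.hi w + 1) ∨
    (R.hi w < p ∧ R'.hi w = R.hi w)

theorem Exq.x0 (h : X0 B K R s0 s b W e x M) (q : Exq K R R' s p u v z) :
    X0 B K R' s0 s (b + 1) W e x (M + 1) ∧ (Zs K R' s).card + 1 = (Zs K R s).card ∧
      ua K R'.dual (1 - s0) = ua K R.dual (1 - s0) := by
  classical
  obtain ⟨ps, uT, zZ, ⟨cu1, cu2⟩, ⟨cv1, cv2⟩, uv, lv, lw, hu, hz, hw⟩ := q
  obtain ⟨huK, hus⟩ := mem_Ts.1 uT
  obtain ⟨hzK, hz1, hz2⟩ := mem_Zs.1 zZ
  have hzb := h.zb z zZ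
  have hub := h.al u huK
  have huz : u ≠ z := by
    rintro rfl
    omega
  have hsb := h.sb
  have hls : s ≤ R'.lo z := by
    rcases lv with h1 | h1
    · omega
    · have := (mem_Ts.1 h1.2.1).2
      omega
  -- starts and ends
  have l1 : ∀ w ∈ K, R.lo w < s → w ≠ z → R'.lo w = R.lo w := by
    intro w _ h1 h2
    have h3 : w ≠ v := by
      rintro rfl
      rcases lv with h4 | h4
      · exact h2 h4.1
      · have := (mem_Ts.1 h4.2.1).2
        omega
    have := lw w h2 h3
    omega
  have l2 : ∀ w ∈ K, s ≤ R.lo w → s ≤ R'.lo w := by
    intro w _ h1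
    have h2 : w ≠ z := by
      rintro rfl
      omega
    by_cases h3 : w = v
    · subst h3
      rcases lv with h4 | h4
      · exact absurd h4.1 h2
      · omega
    · have := lw w h2 h3
      omega
  have l3 : ∀ w ∈ K, R.hi w < s → R'.hi w = R.hi w := by
    intro w _ h1
    have h2 : w ≠ z := by
      rintro rfl
      omega
    have h3 : w ≠ u := by
      rintro rfl
      omega
    have := hw w h3 h2
    omega
  have l4 : ∀ w ∈ K, s ≤ R.hi w → s ≤ R'.hi w := by
    intro w _ h1
    by_cases h2 : w = z
    · subst h2
      omega
    · by_cases h3 : w = u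
      · subst h3
        omega
      · have := hw w h3 h2
        omega
  have hZm : ∀ w, w ∈ Zs K R' s ↔ w ∈ Zs K R s ∧ w ≠ z := by
    intro w
    rw [mem_Zs, mem_Zs]
    constructor
    · rintro ⟨h1, h2, h3⟩
      have h4 : w ≠ z := by
        rintro rfl
        omega
      refine ⟨⟨h1, ?_, ?_⟩, h4⟩
      · by_contra h5
        have := l2 w h1 (by omega)
        omega
      · by_contra h5
        have := l3 w h1 (by omega)
        omega
    · rintro ⟨⟨h1, h2, h3⟩, h4⟩
      refine ⟨h1, ?_, l4 w h1 h3⟩
      rw [l1 w h1 h2 h4]
      exact h2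
  have hZ : Zs K R' s = (Zs K R s).erase z := by
    ext w
    rw [hZm, Finset.mem_erase]
    exact and_comm
  have hL : Ls K R' s = Ls K R s := by
    ext w
    rw [mem_Ls, mem_Ls]
    constructor
    · rintro ⟨h1, h2⟩
      refine ⟨h1, ?_⟩
      by_contra h5
      have := l4 w h1 (by omega)
      omega
    · rintro ⟨h1, h2⟩
      refine ⟨h1, ?_⟩
      rw [l3 w h1 h2]
      exact h2
  have hT : Ts K R' s = insert z (Ts K R s) := by
    ext w
    rw [Finset.mem_insert, mem_Ts, mem_Ts]
    constructor
    · rintro ⟨h1, h2⟩
      by_cases h3 : w = z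
      · exact Or.inl h3
      · right
        refine ⟨h1, ?_⟩
        by_contra h5
        have := l1 w h1 (by omega) h3
        omega
    · rintro (rfl | ⟨h1, h2⟩)
      · exact ⟨hzK, hls⟩
      · exact ⟨h1, l2 w h1 h2⟩
  have hzT : z ∉ Ts K R s := fun h1 => by
    have := (mem_Ts.1 h1).2
    omega
  have hZc := Finset.card_erase_of_mem zZ
  have hZp := Finset.card_pos.2 ⟨z, zZ⟩
  refine ⟨⟨?_, ?_, by omega, ?_, ?_, ?_, ?_, ?_⟩, by rw [hZ]; omega, ua_left_eq h.lf.le l3 l4⟩
  · refine h.lf.of_right (fun w hw' h1 => ?_) l2 l3 l4
    by_cases h2 : w = z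
    · subst h2
      exact Or.inr ⟨zZ, hls⟩
    · exact Or.inl (l1 w hw' h1 h2)
  · rw [hL]
    exact h.ge
  · intro w hw'
    obtain ⟨h1, h2⟩ := (hZm w).1 hw'
    have h3 : w ≠ u := by
      rintro rfl
      have := (mem_Zs.1 h1).2.1
      omega
    have := hw w h3 h2
    have := h.zb w h1
    omega
  · intro w hw'
    by_cases h2 : w = z
    · subst h2
      omega
    · by_cases h3 : w = u
      · subst h3
        omega
      · have := hw w h3 h2
        have := h.al w hw'
        omega
  · -- the heights
    intro q hq hqb
    rw [hT]
    by_cases hqp : q ≤ p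
    · rw [← h.ex q hq (by omega)]
      unfold Rep.N
      by_cases hvz : v = z
      · -- nothing changes
        congr 1
        ext w
        rw [Finset.mem_filter, Finset.mem_filter, Finset.mem_insert]
        have e1 : R'.lo z = p + 1 := by
          rcases lv with h1 | h1
          · exact h1.2
          · exact absurd hvz h1.1
        unfold Rep.Cr
        constructor
        · rintro ⟨h1 | h1, h2, h3⟩
          · subst h1
            omega
          · have h4 : w ≠ z := fun he => hzT (he ▸ h1)
            have h5 := lw w h4 (by rw [hvz]; exact h4)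
            refine ⟨h1, by omega, ?_⟩
            by_cases h6 : w = u
            · subst h6
              omega
            · have := hw w h6 h4
              omega
        · rintro ⟨h1, h2, h3⟩
          have h4 : w ≠ z := fun he => hzT (he ▸ h1)
          have h5 := lw w h4 (by rw [hvz]; exact h4)
          refine ⟨Or.inr h1, by omega, ?_⟩
          by_cases h6 : w = u
          · subst h6
            omega
          · have := hw w h6 h4
            omega
      · obtain ⟨_, e0, e1, e2⟩ : v ≠ z ∧ v ∈ Ts K R s ∧ R'.lo z = R.lo v ∧ R'.lo v = p + 1 := by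
          rcases lv with h1 | h1
          · exact absurd h1.1 hvz
          · exact h1
        refine card_swap (a := z) (c := v) ?_ ?_
        · ext w
          rw [Finset.mem_erase, Finset.mem_erase, Finset.mem_filter, Finset.mem_filter,
            Finset.mem_insert]
          unfold Rep.Cr
          constructor
          · rintro ⟨h0, h1 | h1, h2, h3⟩
            · exact absurd h1 h0
            · have hwv : w ≠ v := by
                rintro rfl
                omega
              have h5 := lw w h0 hwv
              refine ⟨hwv, h1, by omega, ?_⟩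
              by_cases h6 : w = u
              · subst h6
                omega
              · have := hw w h6 h0
                omega
          · rintro ⟨hwv, h1, h2, h3⟩
            have h0 : w ≠ z := fun he => hzT (he ▸ h1)
            have h5 := lw w h0 hwv
            refine ⟨h0, Or.inr h1, by omega, ?_⟩
            by_cases h6 : w = u
            · subst h6
              omega
            · have := hw w h6 h0
              omega
        · rw [Finset.mem_filter, Finset.mem_filter, Finset.mem_insert]
          unfold Rep.Cr
          constructor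
          · rintro ⟨_, h2, h3⟩
            exact ⟨e0, by omega, by omega⟩
          · rintro ⟨_, h2, h3⟩
            exact ⟨Or.inl rfl, by omega, by omega⟩
    · rw [← h.ex (q - 1) (by omega) (by omega)]
      unfold Rep.N
      refine card_swap (a := z) (c := u) ?_ ?_
      · ext w
        rw [Finset.mem_erase, Finset.mem_erase, Finset.mem_filter, Finset.mem_filter,
          Finset.mem_insert]
        unfold Rep.Cr
        constructor
        · rintro ⟨h0, h1 | h1, h2, h3⟩
          · exact absurd h1 h0
          · have hwu : w ≠ u := by
              rintro rfl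
              omega
            have := hw w hwu h0
            refine ⟨hwu, h1, ?_, by omega⟩
            by_cases hwv : w = v
            · subst hwv
              omega
            · have := lw w h0 hwv
              omega
        · rintro ⟨hwu, h1, h2, h3⟩
          have h0 : w ≠ z := fun he => hzT (he ▸ h1)
          have := hw w hwu h0
          refine ⟨h0, Or.inr h1, ?_, by omega⟩
          by_cases hwv : w = v
          · subst hwv
            rcases lv with h4 | h4
            · exact absurd h4.1 h0
            · omega
          · have := lw w h0 hwv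
            omega
      · rw [Finset.mem_filter, Finset.mem_filter, Finset.mem_insert]
        unfold Rep.Cr
        constructor
        · rintro ⟨_, h2, h3⟩
          exact ⟨uT, by omega, by omega⟩
        · rintro ⟨_, h2, h3⟩
          refine ⟨Or.inl rfl, ?_, by omega⟩
          rcases lv with h4 | h4 <;> omega
  · -- the starts
    intro a ha c hc h1 h2
    by_cases haz : a = z
    · by_cases hcz : c = z
      · rw [haz, hcz]
      · exfalso
        subst haz
        by_cases hcv : c = v
        · subst hcv
          rcases lv with h3 | h3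
          · exact hcz h3.1
          · omega
        · have h4 := lw c hcz hcv
          rcases lv with h3 | h3
          · omega
          · obtain ⟨h3a, h3b, h3c, h3d⟩ := h3
            have h5 : v = c := h.ir v (mem_Ts.1 h3b).1 c hc (by omega) (by omega)
            exact hcv h5.symm
    · by_cases hcz : c = z
      · exfalso
        subst hcz
        by_cases hav : a = v
        · subst hav
          rcases lv with h3 | h3
          · exact haz h3.1
          · omega
        · have h4 := lw a haz hav
          rcases lv with h3 | h3
          · omega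
          · obtain ⟨h3a, h3b, h3c, h3d⟩ := h3
            have h5 : v = a := h.ir v (mem_Ts.1 h3b).1 a ha (by omega) (by omega)
            exact hav h5.symm
      · by_cases hav : a = v
        · by_cases hcv : c = v
          · rw [hav, hcv]
          · exfalso
            subst hav
            have h4 := lw c hcz hcv
            rcases lv with h3 | h3
            · exact haz h3.1
            · omega
        · have h4 := lw a haz hav
          by_cases hcv : c = v
          · exfalso
            subst hcv
            rcases lv with h3 | h3
            · exact hcz h3.1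
            · omega
          · have h5 := lw c hcz hcv
            exact h.ir a ha c hc (by omega) (by omega)
  · rw [hT, Finset.card_insert_of_notMem hzT, h.tc]
    ring

end

end Pool.Agent.OCN
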