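import Pool.Agent.Lib_helper47.OCN.X0

/-!
# MP_aeb124_co: the class X0, the right attacks and the transfer
-/

set_option autoImplicit false

namespace Pool.Agent.OCN

variable {V : Type}

section

variable {B : ℕ} {K : Finset V} {R : Rep V} {s0 s b : ℤ} {W e x M : ℕ}
  {r : V → V → Prop} {u v z : V}

/-- the elements which cross a right gap -/
theorem X0.height (h : X0 B K R s0 s b W e x M) {p : ℤ} (hp : s ≤ p) (hpb : p ≤ b) :
    (Zs K R s).card + x ≤ R.N K p := by
  have h1 := N_ge_T K R s p (Zs K R s) (Finset.Subset.refl _) hp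
    (fun a ha => by rw [h.zb a ha]; exact hpb)
  rw [h.ex p hp hpb] at h1
  omega

/-- a right element attacks an undecided element -/
theorem X0.attTZ [Fintype V] (h : X0 B K R s0 s b W e x M) (hr : Loc r K R)
    (hu : u ∈ Ts K R s) (hz : z ∈ Zs K R s) :
    ∃ (r' : V → V → Prop) (R' : Rep V), Loc r' K R' ∧ (∀ a b, r a b → r' a b) ∧ r' u z ∧
      newP r r' + (Zs K R s).card + x ≤ K.card + 1 ∧
      X0 B K R' s0 s (b + 1) W e x (M + 1) ∧ (Zs K R' s).card + 1 = (Zs K R s).card ∧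
      ua K R'.dual (1 - s0) = ua K R.dual (1 - s0) := by
  classical
  obtain ⟨huK, hus⟩ := mem_Ts.1 hu
  obtain ⟨hzK, hz1, hz2⟩ := mem_Zs.1 hz
  have hzb := h.zb z hz
  have hub := h.al u huK
  have hule := R.le u
  have huz : u ≠ z := by
    rintro rfl
    omega
  have hcu : R.Cr u (R.lo u) := ⟨le_rfl, hule⟩
  have hcz : R.Cr z (R.lo u) := ⟨by omega, by omega⟩
  obtain ⟨p, hp⟩ : ∃ p, p = R.lo u := ⟨_, rfl⟩
  rw [← hp] at hcu hcz
  obtain ⟨r1, g1, g2, g3, g4⟩ := op_cut hr p u z huz huK hzK hcu hcz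
  obtain ⟨R1, hR1⟩ : ∃ R1, R1 = R.cut p u z huz hcu hcz := ⟨_, rfl⟩
  rw [← hR1] at g1
  have e1 : R1.lo z = p + 1 := by
    rw [hR1]
    exact lo_cut_y R p u z huz hcu hcz
  have e2 : R1.hi u = p := by
    rw [hR1]
    exact hi_cut_x R p u z huz hcu hcz
  have e3 : R1.hi z = R.hi z + 1 := by
    rw [hR1]
    exact hi_cut_ge R p u z huz hcu hcz z huz.symm hcz.2
  have e4 : ∀ w, w ≠ z → (p < R.lo w ∧ R1.lo w = R.lo w + 1) ∨ (R.lo w ≤ p ∧ R1.lo w = R.lo w) := by
    intro w hw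
    rw [hR1]
    unfold Rep.cut
    simp only
    rw [if_neg hw]
    split_ifs <;> omega
  have e5 : ∀ w, w ≠ u → (p ≤ R.hi w ∧ R1.hi w = R.hi w + 1) ∨ (R.hi w < p ∧ R1.hi w = R.hi w) := by
    intro w hw
    rw [hR1]
    unfold Rep.cut
    simp only
    rw [if_neg hw]
    split_ifs <;> omega
  have hq : R1.lo z ≤ R.hi u + 1 := by rw [e1]; omega
  obtain ⟨r2, k1, k2, k3⟩ := op_lower g1 z hzK (R.hi u + 1) hq (by omega)
  obtain ⟨R2, hR2⟩ : ∃ R2, R2 = R1.lower z (R.hi u + 1) hq := ⟨_, rfl⟩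
  rw [← hR2] at k1
  have f1 : ∀ w, R2.lo w = R1.lo w := fun w => by rw [hR2]; rfl
  have f2 : R2.hi z = R.hi u + 1 := by
    rw [hR2]
    unfold Rep.lower
    simp only
    rw [if_true]
  have f3 : ∀ w, w ≠ z → R2.hi w = R1.hi w := fun w hw => by
    rw [hR2]
    unfold Rep.lower
    simp only
    rw [if_neg hw]
  have hE : Exq K R R2 s p u z z :=
    { ps := by omega
      uT := hu
      zZ := hz
      cu := hcu
      cv := hcz
      uv := huz
      lv := Or.inl ⟨rfl, by rw [f1]; exact e1⟩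
      lw := fun w hw _ => by rw [f1]; exact e4 w hw
      hu := by rw [f3 u huz]; exact e2
      hz := f2
      hw := fun w hw hw' => by rw [f3 w hw']; exact e5 w hw }
  obtain ⟨k4, k5⟩ := hE.x0 h
  refine ⟨r2, R2, k1, fun a b hab => k2 a b (g2 a b hab), k2 u z g3, ?_, k4, k5⟩
  have h6 : newP r1 r2 ≤ R.U K u := by
    rw [k3]
    unfold Rep.U
    refine Finset.card_le_card fun w hw => ?_
    rw [Finset.mem_filter] at hw ⊢
    refine ⟨hw.1, ?_⟩
    unfold Rep.rel
    by_cases hwz : w = z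
    · subst hwz
      omega
    · have := e4 w hwz
      omega
  have h7 := newP_trans (r := r) (r' := r1) (r'' := r2)
  have h8 := h.height (p := p) (by omega) (by omega)
  omega

/-- an attack inside of the right part -/
theorem X0.attTT [Fintype V] (h : X0 B K R s0 s b W e x M) (hr : Loc r K R)
    (hu : u ∈ Ts K R s) (hv : v ∈ Ts K R s) (huv : u ≠ v) (h1 : ¬ R.rel u v)
    (h2 : ¬ R.rel v u) (hz : z ∈ Zs K R s) :
    ∃ (r' : V → V → Prop) (R' : Rep V), Loc r' K R' ∧ (∀ a b, r a b → r' a b) ∧ r' u v ∧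
      newP r r' + (Zs K R s).card + x ≤ K.card + 1 ∧
      X0 B K R' s0 s (b + 1) W e x (M + 1) ∧ (Zs K R' s).card + 1 = (Zs K R s).card ∧
      ua K R'.dual (1 - s0) = ua K R.dual (1 - s0) := by
  classical
  obtain ⟨huK, hus⟩ := mem_Ts.1 hu
  obtain ⟨hvK, hvs⟩ := mem_Ts.1 hv
  obtain ⟨hzK, hz1, hz2⟩ := mem_Zs.1 hz
  have hzb := h.zb z hz
  have hub := h.al u huK
  have hule := R.le u
  have huz : u ≠ z := by
    rintro rfl
    omega
  have hvz : v ≠ z := by
    rintro rfl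
    omega
  obtain ⟨p, hcu, hcv⟩ := R.common h1 h2
  obtain ⟨cu1, cu2⟩ := id hcu
  obtain ⟨cv1, cv2⟩ := id hcv
  obtain ⟨r1, g1, g2, g3, g4⟩ := op_cut hr p u v huv huK hvK hcu hcv
  obtain ⟨R1, hR1⟩ : ∃ R1, R1 = R.cut p u v huv hcu hcv := ⟨_, rfl⟩
  rw [← hR1] at g1
  have e1 : R1.lo v = p + 1 := by
    rw [hR1]
    exact lo_cut_y R p u v huv hcu hcv
  have e2 : R1.hi u = p := by
    rw [hR1]
    exact hi_cut_x R p u v huv hcu hcv
  have e4 : ∀ w, w ≠ v → (p < R.lo w ∧ R1.lo w = R.lo w + 1) ∨ (R.lo w ≤ p ∧ R1.lo w = R.lo w) := by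
    intro w hw
    rw [hR1]
    unfold Rep.cut
    simp only
    rw [if_neg hw]
    split_ifs <;> omega
  have e5 : ∀ w, w ≠ u → (p ≤ R.hi w ∧ R1.hi w = R.hi w + 1) ∨ (R.hi w < p ∧ R1.hi w = R.hi w) := by
    intro w hw
    rw [hR1]
    unfold Rep.cut
    simp only
    rw [if_neg hw]
    split_ifs <;> omega
  have e3 : R1.hi z = b + 1 := by
    have := e5 z huz.symm
    omega
  have e6 : R1.lo z = R.lo z := by
    have := e4 z hvz.symm
    omega
  -- `z` is lowered
  have hq : R1.lo z ≤ R.hi u + 1 := by omega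
  obtain ⟨r2, k1, k2, k3⟩ := op_lower g1 z hzK (R.hi u + 1) hq (by omega)
  obtain ⟨R2, hR2⟩ : ∃ R2, R2 = R1.lower z (R.hi u + 1) hq := ⟨_, rfl⟩
  rw [← hR2] at k1
  have f1 : ∀ w, R2.lo w = R1.lo w := fun w => by rw [hR2]; rfl
  have f2 : R2.hi z = R.hi u + 1 := by
    rw [hR2]
    unfold Rep.lower
    simp only
    rw [if_true]
  have f3 : ∀ w, w ≠ z → R2.hi w = R1.hi w := fun w hw => by
    rw [hR2]
    unfold Rep.lower
    simp only
    rw [if_neg hw]
  -- `z` is raised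
  have hq2 : R.lo v ≤ R2.hi z := by omega
  have hq3 : R2.lo z ≤ R.lo v := by rw [f1]; omega
  obtain ⟨r3, l1, l2, l3⟩ := op_raise k1 z hzK (R.lo v) hq2 hq3
  obtain ⟨R3, hR3⟩ : ∃ R3, R3 = R2.raise z (R.lo v) hq2 := ⟨_, rfl⟩
  rw [← hR3] at l1
  have m1 : ∀ w, R3.hi w = R2.hi w := fun w => by rw [hR3]; rfl
  have m2 : R3.lo z = R.lo v := by
    rw [hR3]
    unfold Rep.raise
    simp only
    rw [if_true]
  have m3 : ∀ w, w ≠ z → R3.lo w = R2.lo w := fun w hw => by
    rw [hR3]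
    unfold Rep.raise
    simp only
    rw [if_neg hw]
  have hE : Exq K R R3 s p u v z :=
    { ps := by omega
      uT := hu
      zZ := hz
      cu := hcu
      cv := hcv
      uv := huv
      lv := Or.inr ⟨hvz, hv, m2, by rw [m3 v hvz, f1]; exact e1⟩
      lw := fun w hw hw' => by rw [m3 w hw, f1]; exact e4 w hw'
      hu := by rw [m1, f3 u huz]; exact e2
      hz := by rw [m1]; exact f2
      hw := fun w hw hw' => by rw [m1, f3 w hw']; exact e5 w hw }
  obtain ⟨k4, k5⟩ := hE.x0 h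
  refine ⟨r3, R3, l1, fun a b hab => l2 a b (k2 a b (g2 a b hab)), l2 u v (k2 u v g3), ?_, k4, k5⟩
  have h6 : newP r1 r2 ≤ R.U K u := by
    rw [k3]
    unfold Rep.U
    refine Finset.card_le_card fun w hw => ?_
    rw [Finset.mem_filter] at hw ⊢
    refine ⟨hw.1, ?_⟩
    unfold Rep.rel
    by_cases hwv : w = v
    · subst hwv
      omega
    · have := e4 w hwv
      omega
  have h6' : newP r2 r3 ≤ R.D K v := by
    rw [l3]
    unfold Rep.D
    refine Finset.card_le_card fun w hw => ?_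
    rw [Finset.mem_filter] at hw ⊢
    refine ⟨hw.1, ?_⟩
    unfold Rep.rel
    by_cases hwz : w = z
    · subst hwz
      omega
    · have := f3 w hwz
      by_cases hwu : w = u
      · subst hwu
        omega
      · have := e5 w hwu
        omega
  have h7 := newP_trans (r := r) (r' := r1) (r'' := r3)
  have h8 := newP_trans (r := r1) (r' := r2) (r'' := r3)
  have h9 := h.height (p := p) (by omega) (by omega)
  omega

end

end Pool.Agent.OCN
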