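import Pool.Agent.Lib_helper47.OCN.X0b

/-!
# MP_aeb124_co: the class X0, the transfer
-/

set_option autoImplicit false

namespace Pool.Agent.OCN

variable {V : Type}

open scoped Classical in
/-- the first gaps of the elements of `A` become `q` -/
noncomputable def Rep.raiseA (R : Rep V) (A : Finset V) (q : ℤ) (h : ∀ w ∈ A, q ≤ R.hi w) :
    Rep V where
  lo w := if w ∈ A then q else R.lo w
  hi := R.hi
  le w := by
    by_cases hw : w ∈ A
    · rw [if_pos hw]
      exact h w hw
    · rw [if_neg hw]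
      exact R.le w

section

variable {B : ℕ} {K : Finset V} {R : Rep V} {s0 s b : ℤ} {W e x M : ℕ}
  {r : V → V → Prop}

/-- the right element with the lowest end becomes the top of the chain -/
theorem X0.transfer [Fintype V] (h : X0 B K R s0 s b W (e + 1) x (M + 1)) (hr : Loc r K R) :
    ∃ (r' : V → V → Prop) (R' : Rep V) (s' : ℤ), Loc r' K R' ∧ (∀ a b, r a b → r' a b) ∧
      newP r r' + 1 ≤ x ∧ Zs K R' s' = Zs K R s ∧
      ua K R'.dual (1 - s0) = ua K R.dual (1 - s0) ∧ X0 B K R' s0 s' b W e x M := by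
  classical
  have hsb := h.sb
  have htc := h.tc
  have hle := h.lf.le
  obtain ⟨c, hcT, hmin⟩ := Finset.exists_min_image (Ts K R s) R.hi
    (Finset.card_pos.1 (by omega))
  obtain ⟨hcK, hcs⟩ := mem_Ts.1 hcT
  obtain ⟨q, hq⟩ : ∃ q, q = R.hi c := ⟨_, rfl⟩
  have hlec := R.le c
  rw [← hq] at hmin hlec
  -- the lowest end is before `b`
  have hqb : q < b := by
    by_contra hge
    have h1 : (Ts K R s).card ≤ R.N (Ts K R s) b := by
      unfold Rep.N
      refine Finset.card_le_card fun w hw => ?_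
      rw [Finset.mem_filter]
      have h2 := hmin w hw
      have h3 := h.al w (mem_Ts.1 hw).1
      have h4 := R.le w
      exact ⟨hw, by omega, by omega⟩
    rw [h.ex b hsb le_rfl] at h1
    omega
  have hqs : s ≤ q := by omega
  -- it is the only end there
  have huniq : ∀ w ∈ Ts K R s, w ≠ c → q < R.hi w := by
    intro w hw hwc
    have h1 := hmin w hw
    by_contra h2
    have h3 : R.hi w = q := by omega
    obtain ⟨S1, hS1⟩ : ∃ S, S = (Ts K R s).filter fun w => R.Cr w q := ⟨_, rfl⟩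
    obtain ⟨S2, hS2⟩ : ∃ S, S = (Ts K R s).filter fun w => R.Cr w (q + 1) := ⟨_, rfl⟩
    have e1 : S1.card = S2.card := by
      have h4 := h.ex q hqs (by omega)
      have h5 := h.ex (q + 1) (by omega) (by omega)
      unfold Rep.N at h4 h5
      rw [hS1, hS2, h4, h5]
    have e2 := Finset.card_sdiff_comm e1
    have e3 : ({c, w} : Finset V) ⊆ S1 \ S2 := by
      intro v hv
      rw [Finset.mem_insert, Finset.mem_singleton] at hv
      rw [Finset.mem_sdiff, hS1, hS2, Finset.mem_filter, Finset.mem_filter]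
      unfold Rep.Cr
      have hlew := R.le w
      rcases hv with rfl | rfl
      · exact ⟨⟨hcT, by omega, by omega⟩, fun h6 => by have := h6.2.2; omega⟩
      · exact ⟨⟨hw, by omega, by omega⟩, fun h6 => by have := h6.2.2; omega⟩
    have e4 := Finset.card_le_card e3
    rw [Finset.card_pair (fun he => hwc he.symm)] at e4
    have e5 : (S2 \ S1).card ≤ 1 := by
      rw [Finset.card_le_one]
      intro a ha d hd
      rw [Finset.mem_sdiff, hS1, hS2, Finset.mem_filter, Finset.mem_filter] at ha hd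
      unfold Rep.Cr at ha hd
      have ha1 := ha.1.1
      have hd1 := hd.1.1
      have e6 : ¬ R.lo a ≤ q := fun h6 => ha.2 ⟨ha1, h6, by have := ha.1.2.2; omega⟩
      have e7 : ¬ R.lo d ≤ q := fun h6 => hd.2 ⟨hd1, h6, by have := hd.1.2.2; omega⟩
      have e8 := ha.1.2.1
      have e9 := hd.1.2.1
      exact h.ir a (mem_Ts.1 ha1).1 d (mem_Ts.1 hd1).1 (by omega) (by omega)
    omega
  obtain ⟨A, hA⟩ : ∃ A, A = (Ts K R s).filter fun w => w ≠ c ∧ R.lo w ≤ q := ⟨_, rfl⟩
  have hmA : ∀ w, w ∈ A ↔ w ∈ Ts K R s ∧ w ≠ c ∧ R.lo w ≤ q := fun w => by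
    rw [hA, Finset.mem_filter]
  have hcA : c ∉ A := fun h1 => ((hmA c).1 h1).2.1 rfl
  have hAhi : ∀ w ∈ A, q + 1 ≤ R.hi w := fun w hw => by
    obtain ⟨h1, h2, _⟩ := (hmA w).1 hw
    have := huniq w h1 h2
    omega
  obtain ⟨R', hR'⟩ : ∃ R', R' = R.raiseA A (q + 1) hAhi := ⟨_, rfl⟩
  have ehi : ∀ w, R'.hi w = R.hi w := fun w => by rw [hR']; rfl
  have elo : ∀ w, w ∉ A → R'.lo w = R.lo w := fun w hw => by
    rw [hR']
    unfold Rep.raiseA
    simp only
    rw [if_neg hw]
  have elA : ∀ w ∈ A, R'.lo w = q + 1 := fun w hw => by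
    rw [hR']
    unfold Rep.raiseA
    simp only
    rw [if_pos hw]
  have hlo_le : ∀ w, R.lo w ≤ R'.lo w := fun w => by
    by_cases hw : w ∈ A
    · rw [elA w hw]
      have := ((hmA w).1 hw).2.2
      omega
    · rw [elo w hw]
  obtain ⟨r', g1, g2, g3⟩ := op_local hr R' (fun a _ d _ had => by
    unfold Rep.rel at had ⊢
    rw [ehi]
    have := hlo_le d
    omega)
  have hnotT : ∀ w ∈ K, ¬ s ≤ R.lo w → w ∉ A := fun w _ h1 h2 =>
    h1 (mem_Ts.1 ((hmA w).1 h2).1).2
  -- an element of `K` which ends after `s`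
  have hend : ∀ w ∈ K, w ≠ c → s ≤ R.hi w → q + 1 ≤ R.hi w := by
    intro w hw hwc h1
    by_cases h2 : s ≤ R.lo w
    · have := huniq w (mem_Ts.2 ⟨hw, h2⟩) hwc
      omega
    · have := h.zb w (mem_Zs.2 ⟨hw, by omega, h1⟩)
      omega
  have hst : ∀ w ∈ K, w ≠ c → s ≤ R'.lo w → q + 1 ≤ R'.lo w := by
    intro w hw hwc h1
    by_cases h2 : w ∈ A
    · rw [elA w h2]
    · rw [elo w h2] at h1 ⊢
      by_contra h3
      exact h2 ((hmA w).2 ⟨mem_Ts.2 ⟨hw, h1⟩, hwc, by omega⟩)
  have hZ : Zs K R' (q + 1) = Zs K R s := by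
    ext w
    rw [mem_Zs, mem_Zs, ehi]
    constructor
    · rintro ⟨h1, h2, h3⟩
      have hwc : w ≠ c := by
        rintro rfl
        omega
      refine ⟨h1, ?_, by omega⟩
      by_contra h4
      have := hlo_le w
      have := hst w h1 hwc (by omega)
      omega
    · rintro ⟨h1, h2, h3⟩
      have hwc : w ≠ c := by
        rintro rfl
        omega
      refine ⟨h1, ?_, hend w h1 hwc h3⟩
      rw [elo w (hnotT w h1 (by omega))]
      omega
  have hL : Ls K R' (q + 1) = insert c (Ls K R s) := by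
    ext w
    rw [Finset.mem_insert, mem_Ls, mem_Ls, ehi]
    constructor
    · rintro ⟨h1, h2⟩
      by_cases hwc : w = c
      · exact Or.inl hwc
      · right
        refine ⟨h1, ?_⟩
        by_contra h3
        have := hend w h1 hwc (by omega)
        omega
    · rintro (rfl | ⟨h1, h2⟩)
      · exact ⟨hcK, by omega⟩
      · exact ⟨h1, by omega⟩
  have hT : Ts K R' (q + 1) = (Ts K R s).erase c := by
    ext w
    rw [Finset.mem_erase, mem_Ts, mem_Ts]
    constructor
    · rintro ⟨h1, h2⟩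
      have hwc : w ≠ c := by
        rintro rfl
        rw [elo w hcA] at h2
        omega
      refine ⟨hwc, h1, ?_⟩
      by_contra h3
      rw [elo w (hnotT w h1 h3)] at h2
      omega
    · rintro ⟨hwc, h1, h2⟩
      have := hlo_le w
      exact ⟨h1, hst w h1 hwc (by omega)⟩
  have hcL : c ∉ Ls K R s := fun h1 => by
    have := (mem_Ls.1 h1).2
    omega
  have hlf : Lf B K R' s0 (q + 1) W := by
    have h5 : Lf B K R' s0 s W := by
      refine h.lf.of_right (fun w hw h1 => Or.inl (elo w (hnotT w hw (by omega))))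
        (fun w _ h1 => ?_) (fun w _ _ => ehi w) (fun w _ h1 => by rw [ehi]; exact h1)
      have := hlo_le w
      omega
    refine h5.shift (c := c) (by omega) ?_ (by rw [ehi]; omega) hst (fun w hw hwc h1 => ?_)
    · rw [elo c hcA]
      exact hcs
    · rw [ehi] at h1 ⊢
      exact hend w hw hwc h1
  refine ⟨r', R', q + 1, g1, g2, ?_, hZ, ?_, ⟨hlf, ?_, by omega, ?_, ?_, ?_, ?_, ?_⟩⟩
  · -- the price
    have h1 : newP r r' ≤ A.card := by
      rw [g3]
      unfold Rep.newK
      have h6 : ((K ×ˢ K).filter fun q => R'.rel q.1 q.2 ∧ ¬ R.rel q.1 q.2) ⊆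
          A.image fun d => (c, d) := by
        rintro ⟨a, d⟩ had
        rw [Finset.mem_filter, Finset.mem_product] at had
        obtain ⟨⟨ha, hd⟩, h7, h8⟩ := had
        rw [Finset.mem_image]
        unfold Rep.rel at h7 h8
        simp only at h7 h8 ha hd
        rw [ehi] at h7
        have hdA : d ∈ A := by
          by_contra h9
          rw [elo d h9] at h7
          exact h8 h7
        rw [elA d hdA] at h7
        refine ⟨d, hdA, ?_⟩
        have h9 := (mem_Ts.1 ((hmA d).1 hdA).1).2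
        have h10 : a = c := by
          by_contra hac
          have := hend a ha hac (by omega)
          omega
        rw [h10]
      exact (Finset.card_le_card h6).trans Finset.card_image_le
    have h2 : A.card + 1 ≤ x := by
      rw [← h.ex q hqs (by omega), ← Finset.card_insert_of_notMem hcA]
      unfold Rep.N
      refine Finset.card_le_card fun w hw => ?_
      rw [Finset.mem_filter]
      rcases Finset.mem_insert.1 hw with rfl | hw
      · exact ⟨hcT, by omega, by omega⟩
      · obtain ⟨h3, h4, h5⟩ := (hmA w).1 hw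
        have := huniq w h3 h4
        exact ⟨h3, by omega, by omega⟩
    omega
  · unfold ua
    congr 1
    refine Finset.filter_congr fun w _ => ?_
    have e0 : R'.dual.lo w = -R'.hi w := rfl
    have e1 : R.dual.lo w = -R.hi w := rfl
    rw [e0, e1, ehi]
  · rw [hL, Finset.card_insert_of_notMem hcL]
    have := h.ge
    omega
  · intro w hw
    rw [hZ] at hw
    rw [ehi]
    exact h.zb w hw
  · intro w hw
    rw [ehi]
    exact h.al w hw
  · intro p hp hpb
    rw [hT, ← h.ex p (by omega) hpb]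
    unfold Rep.N
    congr 1
    ext w
    rw [Finset.mem_filter, Finset.mem_filter, Finset.mem_erase]
    unfold Rep.Cr
    rw [ehi]
    constructor
    · rintro ⟨⟨h1, h2⟩, h3, h4⟩
      have := hlo_le w
      exact ⟨h2, by omega, h4⟩
    · rintro ⟨h2, h3, h4⟩
      have hwc : w ≠ c := by
        rintro rfl
        omega
      refine ⟨⟨hwc, h2⟩, ?_, h4⟩
      by_cases h5 : w ∈ A
      · rw [elA w h5]
        exact hp
      · rw [elo w h5]
        exact h3
  · intro a ha d hd h1 h2
    have haA : a ∉ A := fun h3 => by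
      rw [elA a h3] at h1
      omega
    have hdA : d ∉ A := fun h3 => by
      rw [elA d h3] at h2
      omega
    rw [elo a haA] at h1 h2
    rw [elo d hdA] at h2
    exact h.ir a ha d hd (by omega) h2
  · rw [hT, Finset.card_erase_of_mem hcT]
    omega

/-- every attack on a position of the class X0 has a reply; `o`, `e` go down by one -/
theorem X0.ans [Fintype V] (h : X0 B K R s0 s b W (e + 1) x M) (hr : Loc r K R)
    (hZ : (Zs K R s).Nonempty) (ho : K.card ≤ B + (Zs K R s).card)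
    (hW : W + 1 ≤ (Zs K R s).card) {u v : V} (huv : u ≠ v) (h1 : ¬ r u v) (h2 : ¬ r v u) :
    ∃ (r' : V → V → Prop) (R' : Rep V) (s0' s' b' : ℤ), Loc r' K R' ∧
      (∀ a b, r a b → r' a b) ∧ r' u v ∧ newP r r' ≤ B ∧
      (Zs K R' s').card + 1 = (Zs K R s).card ∧
      ua K R.dual (1 - s0) ≤ ua K R'.dual (1 - s0') ∧ X0 B K R' s0' s' b' W e x M := by
  classical
  obtain ⟨hu, hv⟩ := hr.mem huv h1 h2
  rw [hr.eq u hu v hv] at h1
  rw [hr.eq v hv u hu] at h2
  have htri : ∀ w ∈ K, w ∈ Ls K R s ∨ w ∈ Zs K R s ∨ w ∈ Ts K R s := by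
    intro w hw
    have := R.le w
    rw [mem_Ls, mem_Zs, mem_Ts]
    by_cases h3 : R.hi w < s
    · exact Or.inl ⟨hw, h3⟩
    · by_cases h4 : R.lo w < s
      · exact Or.inr (Or.inl ⟨hw, h4, by omega⟩)
      · exact Or.inr (Or.inr ⟨hw, by omega⟩)
  have hlt : ∀ {w w'}, w ∈ Ls K R s → w' ∈ Ts K R s → R.rel w w' := fun hw hw' => by
    have h3 := (mem_Ls.1 hw).2
    have h4 := (mem_Ts.1 hw').2
    unfold Rep.rel
    omega
  -- a reply on the left side
  have finL : ∀ {z : V} {r' : V → V → Prop} {R' : Rep V} {s0' : ℤ}, z ∈ Zs K R s →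
      LRep B K R s0 s W r u v z r' R' s0' s →
      ∃ (r' : V → V → Prop) (R' : Rep V) (s0' s' b' : ℤ), Loc r' K R' ∧
      (∀ a b, r a b → r' a b) ∧ r' u v ∧ newP r r' ≤ B ∧
      (Zs K R' s').card + 1 = (Zs K R s).card ∧
      ua K R.dual (1 - s0) ≤ ua K R'.dual (1 - s0') ∧ X0 B K R' s0' s' b' W e x M := by
    intro z r' R' s0' hz hL
    exact ⟨r', R', s0', s, b, hL.loc, hL.mono, hL.pair, by have := hL.cost; omega, hL.zc, hL.ue,
      h.of_left hL hz⟩
  -- a reply on the right side, with the transfer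
  have finT : ∀ {r' : V → V → Prop} {R' : Rep V}, Loc r' K R' → (∀ a b, r a b → r' a b) →
      r' u v → newP r r' + (Zs K R s).card + x ≤ K.card + 1 →
      X0 B K R' s0 s (b + 1) W (e + 1) x (M + 1) →
      (Zs K R' s).card + 1 = (Zs K R s).card → ua K R'.dual (1 - s0) = ua K R.dual (1 - s0) →
      ∃ (r' : V → V → Prop) (R' : Rep V) (s0' s' b' : ℤ), Loc r' K R' ∧
      (∀ a b, r a b → r' a b) ∧ r' u v ∧ newP r r' ≤ B ∧
      (Zs K R' s').card + 1 = (Zs K R s).card ∧
      ua K R.dual (1 - s0) ≤ ua K R'.dual (1 - s0') ∧ X0 B K R' s0' s' b' W e x M := by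
    intro r' R' g1 g2 g3 g4 g5 g6 g7
    obtain ⟨r2, R2, s2, k1, k2, k3, k4, k5, k6⟩ := g5.transfer g1
    refine ⟨r2, R2, s0, s2, b + 1, k1, fun a b hab => k2 a b (g2 a b hab), k2 u v g3, ?_, ?_, ?_,
      k6⟩
    · have h7 := newP_trans (r := r) (r' := r') (r'' := r2)
      omega
    · rw [k4]
      exact g6
    · rw [k5, g7]
  rcases htri u hu with huL | huZ | huT
  · rcases htri v hv with hvL | hvZ | hvT
    · obtain ⟨z, hz⟩ := hZ
      obtain ⟨r', R', s0', h3⟩ := h.lf.ansC' hr huv huL hvL h1 h2 hz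
      exact finL hz h3
    · obtain ⟨r', R', g1, g2, g3, g4, g5, g6, g7⟩ := h.mid hr hvZ huL
      exact ⟨r', R', s0, s + 1, b + 1, g1, g2, g3, by omega, g5, g6, g7⟩
    · exact absurd (hlt huL hvT) h1
  · obtain ⟨r', R', s0', h3⟩ := h.lf.ans' hr huv huZ hv h1 h2
    exact finL huZ h3
  · rcases htri v hv with hvL | hvZ | hvT
    · exact absurd (hlt hvL huT) h2
    · obtain ⟨r', R', g1, g2, g3, g4, g5, g6, g7⟩ := h.attTZ hr huT hvZ
      exact finT g1 g2 g3 g4 g5 g6 g7
    · obtain ⟨z, hz⟩ := hZ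
      obtain ⟨r', R', g1, g2, g3, g4, g5, g6, g7⟩ := h.attTT hr huT hvT huv h1 h2 hz
      exact finT g1 g2 g3 g4 g5 g6 g7

end

end Pool.Agent.OCN
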